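import Pool.Agent.RPC.Restr

/-!
MODULE RPC/AbA : the abelian case, part 1: the cocycle is almost inner.
Here P is a commutative group, written additively for the proof: A acts on P, δ(ab) = δ a + a δ b.
Let C = {a | φ a = 1} (kernel of φ).  δ|C is a homomorphism, δ(C) is f.g. (C f.g.) and invariant:
δ(a c a⁻¹) = a δ(c).  So δ(C) = 0 by m1.  C ≠ A since P ≠ 0 (P not f.g.).  A/C is solvable and
nontrivial: there is N₀ normal in A, C < N₀, [N₀,N₀] ≤ C (last nontrivial term of the derived series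
of A/C).  R = commutative ring generated by the endomorphisms φ n, n ∈ N₀, of P (e.g. the image of
ℤ[N₀] in End(P)), I = ideal generated by (φ n - 1).  I P is A-invariant (a (n-1) p = (a n a⁻¹ - 1) a p)
and nonzero, so of finite index m ≥ 1 in P (m2): m P ⊆ I P.
Finite rank: choose p_1..p_r ∈ P independent with every element of P having a nonzero multiple in the
span.  m p_i ∈ I P; multiply by a positive integer: k_i p_i = ∑_j y_ij p_j with y_ij ∈ I, k_i ≥ 1.
So det(diag(k_i) - (y_ij)) kills all p_j, hence P (torsion-free: some multiple of p is in the span;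
elements of R are additive): det = k - x with k = ∏ k_i ≥ 1, x ∈ I.  So x p = k p for all p ∈ P.
Write x = ∑_l c_l (n_l - 1) r_l ... more simply: for y ∈ I there is δ(y) ∈ P with
(n' - 1) δ(y) = y δ(n') for all n' ∈ N₀: for y = r (n - 1), r ∈ R, take r δ(n):
(n' - 1) r δ n = r (n - 1) δ n' because δ(n n') = δ(n' n) (they differ by an element of C).
So e := - δ(x): (1 - n') e = x δ(n') = k δ(n') for n' ∈ N₀.
For a ∈ A put E(a) = k δ(a) - (e - a e): a cocycle vanishing on N₀; E(a n) = E(a), and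
E((a n a⁻¹) a) = (a n a⁻¹) E(a); so E(a) is fixed by N₀, x E(a) = 0 = k E(a), E(a) = 0.
e ≠ 0, otherwise k δ = 0, δ = 0, P = 0.
-/

set_option autoImplicit false

namespace Pool.Agent.RPC

namespace AbAAux

section ring

variable {V R : Type} [AddCommGroup V] [CommRing R] [Module R V]

/-- the determinant trick -/
theorem det_trick {r : ℕ} (I : Ideal R) (p : Fin r → V)
    (hp : ∀ i, ∃ k : ℕ, 0 < k ∧ ∃ y : Fin r → R, (∀ j, y j ∈ I) ∧ k • p i = ∑ j, y j • p j) :
    ∃ (k : ℕ) (x : R), 0 < k ∧ x ∈ I ∧ ∀ j, x • p j = k • p j := by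
  classical
  choose k hk y hy hpy using hp
  set M : Matrix (Fin r) (Fin r) R :=
    Matrix.diagonal (fun i => (k i : R)) - Matrix.of y with hM
  have hMp : ∀ i, ∑ j, M i j • p j = 0 := by
    intro i
    have h1 : ∀ j, M i j • p j = (if i = j then (k i : R) else 0) • p j - y i j • p j := by
      intro j
      rw [hM, Matrix.sub_apply, sub_smul, Matrix.diagonal_apply, Matrix.of_apply]
    rw [Finset.sum_congr rfl fun j _ => h1 j, Finset.sum_sub_distrib, ← hpy i]
    have h2 : ∑ j, (if i = j then (k i : R) else 0) • p j = (k i : R) • p i := by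
      rw [Finset.sum_eq_single i]
      · rw [if_pos rfl]
      · intro j _ hj
        rw [if_neg (Ne.symm hj), zero_smul]
      · intro h
        exact absurd (Finset.mem_univ _) h
    rw [h2, Nat.cast_smul_eq_nsmul, sub_self]
  have hdet : ∀ l, M.det • p l = 0 := by
    intro l
    have h1 : ∑ i, M.adjugate l i • ∑ j, M i j • p j = 0 := by
      refine Finset.sum_eq_zero fun i _ => ?_
      rw [hMp i, smul_zero]
    have h2 : ∑ i, M.adjugate l i • ∑ j, M i j • p j =
        ∑ j, (M.adjugate * M) l j • p j := by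
      simp only [Finset.smul_sum, Matrix.mul_apply, Finset.sum_smul, smul_smul]
      rw [Finset.sum_comm]
    rw [h2, Matrix.adjugate_mul] at h1
    rw [← h1, Finset.sum_eq_single l]
    · simp
    · intro j _ hj
      rw [Matrix.smul_apply, Matrix.one_apply_ne (Ne.symm hj), smul_zero, zero_smul]
    · intro h
      exact absurd (Finset.mem_univ _) h
  have hmod : Ideal.Quotient.mk I M.det = Ideal.Quotient.mk I ((∏ i, k i : ℕ) : R) := by
    rw [RingHom.map_det]
    have h1 : (Ideal.Quotient.mk I).mapMatrix M =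
        Matrix.diagonal (fun i => Ideal.Quotient.mk I (k i : R)) := by
      ext i j
      rw [RingHom.mapMatrix_apply, Matrix.map_apply, hM, Matrix.sub_apply, Matrix.of_apply,
        map_sub, Ideal.Quotient.eq_zero_iff_mem.2 (hy i j), sub_zero, Matrix.diagonal_apply,
        Matrix.diagonal_apply]
      split_ifs
      · rfl
      · rw [map_zero]
    rw [h1, Matrix.det_diagonal]
    push_cast
    rw [map_prod]
  refine ⟨∏ i, k i, ((∏ i, k i : ℕ) : R) - M.det, Finset.prod_pos fun i _ => hk i, ?_, ?_⟩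
  · rw [← Ideal.Quotient.eq_zero_iff_mem, map_sub, hmod, sub_self]
  · intro j
    rw [sub_smul, hdet j, sub_zero, Nat.cast_smul_eq_nsmul]

variable {A : Type} [Group A]

/-- everything over an abstract commutative ring -/
theorem ring_version (T : A →* AddMonoid.End V) (d : A → V)
    (hd : ∀ a b, d (a * b) = d a + T a (d b)) (N : Subgroup A) (hN : N.Normal)
    (τ : A → R) (hτ : ∀ n ∈ N, ∀ v : V, τ n • v = T n v)
    (hdc : ∀ n ∈ N, ∀ m ∈ N, d (n * m) = d (m * n))
    (htf : ∀ v : V, ∀ k : ℕ, 0 < k → k • v = 0 → v = 0)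
    {r : ℕ} (p : Fin r → V)
    (hp : ∀ v : V, ∃ K : ℕ, 0 < K ∧ ∃ z : Fin r → ℤ, K • v = ∑ j, z j • p j)
    (hI : ∀ v : V, ∃ K : ℕ, 0 < K ∧
      K • v ∈ AddSubgroup.closure {w : V | ∃ n ∈ N, ∃ u : V, w = T n u - u}) :
    ∃ (k : ℕ) (e : V), 0 < k ∧ ∀ a, k • d a = e - T a e := by
  classical
  set I : Ideal R := Ideal.span {y | ∃ n ∈ N, y = τ n - 1} with hIdef
  have hgen : ∀ n ∈ N, τ n - 1 ∈ I := fun n hn => Ideal.subset_span ⟨n, hn, rfl⟩
  -- elements of the closure
  have hcl : ∀ w ∈ AddSubgroup.closure {w : V | ∃ n ∈ N, ∃ u : V, w = T n u - u},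
      ∃ k : ℕ, 0 < k ∧ ∃ y : Fin r → R, (∀ j, y j ∈ I) ∧ k • w = ∑ j, y j • p j := by
    intro w hw
    induction hw using AddSubgroup.closure_induction with
    | mem x hx =>
      obtain ⟨n, hn, u, rfl⟩ := hx
      obtain ⟨K, hK, z, hz⟩ := hp u
      refine ⟨K, hK, fun j => (z j : R) * (τ n - 1), fun j => I.mul_mem_left _ (hgen n hn), ?_⟩
      have h1 : T n u - u = (τ n - 1) • u := by rw [sub_smul, one_smul, hτ n hn]
      rw [h1, smul_comm K, hz, Finset.smul_sum]
      refine Finset.sum_congr rfl fun j _ => ?_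
      show (τ n - 1) • z j • p j = ((z j : R) * (τ n - 1)) • p j
      rw [mul_comm, mul_smul, Int.cast_smul_eq_zsmul]
    | zero =>
      exact ⟨1, one_pos, fun _ => 0, fun _ => I.zero_mem, by simp⟩
    | add x y _ _ hx hy =>
      obtain ⟨k1, hk1, y1, hy1, h1⟩ := hx
      obtain ⟨k2, hk2, y2, hy2, h2⟩ := hy
      refine ⟨k1 * k2, Nat.mul_pos hk1 hk2, fun j => (k2 : R) * y1 j + (k1 : R) * y2 j,
        fun j => I.add_mem (I.mul_mem_left _ (hy1 j)) (I.mul_mem_left _ (hy2 j)), ?_⟩
      have h3 : (k1 * k2) • (x + y) = k2 • (k1 • x) + k1 • (k2 • y) := by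
        rw [smul_add, smul_smul, smul_smul, mul_comm k2 k1]
      rw [h3, h1, h2, Finset.smul_sum, Finset.smul_sum, ← Finset.sum_add_distrib]
      refine Finset.sum_congr rfl fun j _ => ?_
      rw [add_smul, mul_smul, mul_smul, Nat.cast_smul_eq_nsmul, Nat.cast_smul_eq_nsmul]
    | neg x _ hx =>
      obtain ⟨k1, hk1, y1, hy1, h1⟩ := hx
      refine ⟨k1, hk1, fun j => - y1 j, fun j => I.neg_mem (hy1 j), ?_⟩
      rw [smul_neg, h1, ← Finset.sum_neg_distrib]
      refine Finset.sum_congr rfl fun j _ => ?_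
      rw [neg_smul]
  have hpi : ∀ i, ∃ k : ℕ, 0 < k ∧ ∃ y : Fin r → R, (∀ j, y j ∈ I) ∧
      k • p i = ∑ j, y j • p j := by
    intro i
    obtain ⟨K, hK, h1⟩ := hI (p i)
    obtain ⟨k, hk, y, hy, h2⟩ := hcl _ h1
    exact ⟨k * K, Nat.mul_pos hk hK, y, hy, by rw [mul_smul, h2]⟩
  obtain ⟨k, x, hk, hx, hxp⟩ := det_trick I p hpi
  -- `x` acts as `k`
  have hxv : ∀ v : V, x • v = k • v := by
    intro v
    obtain ⟨K, hK, z, hz⟩ := hp v
    have h1 : K • (x • v - k • v) = 0 := by
      rw [smul_sub, smul_comm K x, smul_comm K k, hz, Finset.smul_sum, Finset.smul_sum,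
        ← Finset.sum_sub_distrib]
      refine Finset.sum_eq_zero fun j _ => ?_
      rw [smul_comm x (z j), smul_comm k (z j), hxp j, sub_self]
    exact sub_eq_zero.1 (htf _ K hK h1)
  -- the derivation
  have hcross : ∀ n ∈ N, ∀ m ∈ N, (τ m - 1) • d n = (τ n - 1) • d m := by
    intro n hn m hm
    have h1 := hdc n hn m hm
    rw [hd, hd, ← hτ n hn, ← hτ m hm] at h1
    rw [sub_smul, sub_smul, one_smul, one_smul]
    have h2 : τ m • d n - d n - (τ n • d m - d m) = 0 := by
      have h3 : τ m • d n - d n - (τ n • d m - d m) =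
          (d m + τ m • d n) - (d n + τ n • d m) := by abel
      rw [h3, h1, sub_self]
    exact sub_eq_zero.1 h2
  have hder : ∀ y ∈ I, ∃ u : V, ∀ m ∈ N, (τ m - 1) • u = y • d m := by
    intro y hy
    induction hy using Submodule.span_induction with
    | mem y hy =>
      obtain ⟨n, hn, rfl⟩ := hy
      exact ⟨d n, fun m hm => hcross n hn m hm⟩
    | zero => exact ⟨0, fun m _ => by rw [smul_zero, zero_smul]⟩
    | add y1 y2 _ _ h1 h2 =>
      obtain ⟨u1, h1⟩ := h1
      obtain ⟨u2, h2⟩ := h2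
      exact ⟨u1 + u2, fun m hm => by rw [smul_add, h1 m hm, h2 m hm, add_smul]⟩
    | smul s y _ h1 =>
      obtain ⟨u1, h1⟩ := h1
      exact ⟨s • u1, fun m hm => by rw [smul_comm, h1 m hm, smul_smul, smul_eq_mul]⟩
  obtain ⟨e0, he0⟩ := hder x hx
  have hkill : ∀ v : V, (∀ n ∈ N, T n v = v) → v = 0 := by
    intro v hv
    have h1 : ∀ y ∈ I, y • v = 0 := by
      intro y hy
      induction hy using Submodule.span_induction with
      | mem y hy =>
        obtain ⟨n, hn, rfl⟩ := hy
        rw [sub_smul, one_smul, hτ n hn, hv n hn, sub_self]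
      | zero => exact zero_smul _ _
      | add y1 y2 _ _ h1 h2 => rw [add_smul, h1, h2, add_zero]
      | smul s y _ h1 => rw [smul_eq_mul, mul_smul, h1, smul_zero]
    have h2 := h1 x hx
    rw [hxv] at h2
    exact htf v k hk h2
  refine ⟨k, -e0, hk, ?_⟩
  -- the cocycle `E`
  set E : A → V := fun a => k • d a - (-e0 - T a (-e0)) with hE
  have hTmul : ∀ a b v, T (a * b) v = T a (T b v) := by
    intro a b v
    rw [map_mul]
    rfl
  have hEmul : ∀ a b, E (a * b) = E a + T a (E b) := by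
    intro a b
    simp only [hE, hd, hTmul, map_sub, map_neg, map_nsmul, smul_add]
    abel
  have hEN : ∀ n ∈ N, E n = 0 := by
    intro n hn
    have h1 := he0 n hn
    rw [sub_smul, one_smul, hτ n hn, hxv] at h1
    simp only [hE, map_neg]
    rw [← h1]
    abel
  have hEfix : ∀ a, ∀ n ∈ N, T n (E a) = E a := by
    intro a n hn
    have h1 : E (n * a) = T n (E a) := by rw [hEmul, hEN n hn, zero_add]
    have h2 : n * a = a * (a⁻¹ * n * a) := by group
    have h3 : a⁻¹ * n * a ∈ N := by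
      have := hN.conj_mem n hn a⁻¹
      rwa [inv_inv] at this
    have h4 : E (n * a) = E a := by rw [h2, hEmul, hEN _ h3, map_zero, add_zero]
    rw [← h1, h4]
  intro a
  have h1 := hkill (E a) (hEfix a)
  exact sub_eq_zero.1 h1

end ring


/-- a maximal independent family -/
theorem exists_indep {P : Type} [CommGroup P]
    (hr : ∃ r : ℕ, ∀ v : Fin (r + 1) → P, ∃ z : Fin (r + 1) → ℤ, z ≠ 0 ∧
        ∏ i, v i ^ z i = 1) :
    ∃ (r : ℕ) (v : Fin r → P), ∀ w : P, ∃ K : ℕ, 0 < K ∧ ∃ z : Fin r → ℤ,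
      w ^ K = ∏ j, v j ^ z j := by
  classical
  obtain ⟨r, hr1, hr2⟩ : ∃ r : ℕ, (∀ v : Fin (r + 1) → P, ∃ z : Fin (r + 1) → ℤ, z ≠ 0 ∧
        ∏ i, v i ^ z i = 1) ∧ ∃ v : Fin r → P, ∀ z : Fin r → ℤ, ∏ i, v i ^ z i = 1 → z = 0 := by
    refine ⟨Nat.find hr, Nat.find_spec hr, ?_⟩
    rcases Nat.eq_zero_or_pos (Nat.find hr) with h0 | h0
    · rw [h0]
      exact ⟨fun i => i.elim0, fun z _ => Subsingleton.elim _ _⟩
    · obtain ⟨s, hs⟩ := Nat.exists_eq_succ_of_ne_zero h0.ne'
      have h1 := Nat.find_min hr (m := s) (by omega)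
      push Not at h1
      rw [hs]
      obtain ⟨v, hv⟩ := h1
      refine ⟨v, fun z hz => ?_⟩
      by_contra hne
      exact hv z hne hz
  obtain ⟨v, hv⟩ := hr2
  refine ⟨r, v, fun w => ?_⟩
  obtain ⟨z, hz, h1⟩ := hr1 (Fin.cons w v)
  rw [Fin.prod_univ_succ] at h1
  simp only [Fin.cons_zero, Fin.cons_succ] at h1
  have hz0 : z 0 ≠ 0 := by
    intro h0
    rw [h0, zpow_zero, one_mul] at h1
    have h2 := hv (fun i => z i.succ) h1
    apply hz
    ext i
    refine Fin.cases ?_ (fun j => ?_) i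
    · exact h0
    · exact congrFun h2 j
  have h2 : w ^ (z 0) = ∏ j, v j ^ (-(z j.succ)) := by
    rw [mul_eq_one_iff_eq_inv] at h1
    rw [h1, ← Finset.prod_inv_distrib]
    refine Finset.prod_congr rfl fun j _ => ?_
    rw [zpow_neg]
  rcases lt_or_gt_of_ne hz0 with hneg | hpos
  · refine ⟨(z 0).natAbs, Int.natAbs_pos.2 hz0, fun j => z j.succ, ?_⟩
    have h3 : ((z 0).natAbs : ℤ) = -(z 0) := by omega
    rw [← zpow_natCast, h3, zpow_neg, h2, ← Finset.prod_inv_distrib]
    refine Finset.prod_congr rfl fun j _ => ?_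
    rw [zpow_neg, inv_inv]
  · refine ⟨(z 0).natAbs, Int.natAbs_pos.2 hz0, fun j => -(z j.succ), ?_⟩
    have h3 : ((z 0).natAbs : ℤ) = z 0 := by omega
    rw [← zpow_natCast, h3, h2]

/-- the action on the additive group -/
def TT {A P : Type} [Group A] [CommGroup P] (φ : A →* MulAut P) :
    A →* AddMonoid.End (Additive P) where
  toFun a := MonoidHom.toAdditive (φ a).toMonoidHom
  map_one' := by
    rw [map_one]
    rfl
  map_mul' a b := by
    rw [map_mul]
    rfl

theorem TT_apply {A P : Type} [Group A] [CommGroup P] (φ : A →* MulAut P) (a : A) (p : P) :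
    TT φ a (Additive.ofMul p) = Additive.ofMul (φ a p) := rfl

/-- last term of the derived series which acts nontrivially -/
theorem exists_N {A : Type} [Group A] (hA : Group.IsSolvable A) (C : Subgroup A) (hC : C ≠ ⊤) :
    ∃ N : Subgroup A, N.Normal ∧ ¬ N ≤ C ∧ ⁅N, N⁆ ≤ C := by
  classical
  obtain ⟨n, hn⟩ := hA.solvable
  have hex : ∃ j, derivedSeries A j ≤ C := ⟨n, by rw [hn]; exact bot_le⟩
  rcases Nat.eq_zero_or_pos (Nat.find hex) with h0 | h0
  · exfalso
    have h1 := Nat.find_spec hex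
    rw [h0, derivedSeries_zero] at h1
    exact hC (top_le_iff.1 h1)
  · obtain ⟨s, hs⟩ := Nat.exists_eq_succ_of_ne_zero h0.ne'
    refine ⟨derivedSeries A s, derivedSeries_normal A s, Nat.find_min hex (by omega), ?_⟩
    have h1 := Nat.find_spec hex
    rw [hs] at h1
    exact h1

end AbAAux

open AbAAux

theorem ab_inner {A P : Type} [Group A] [CommGroup P] {φ : A →* MulAut P} {δ : A → P}
    (h : MC φ δ) (htf : ∀ p : P, ∀ k : ℕ, 0 < k → p ^ k = 1 → p = 1)
    (hr : ∃ r : ℕ, ∀ v : Fin (r + 1) → P, ∃ z : Fin (r + 1) → ℤ, z ≠ 0 ∧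
        ∏ i, v i ^ z i = 1) :
    ∃ (k : ℕ) (e : P), 0 < k ∧ e ≠ 1 ∧ ∀ a, δ a ^ k = e * (φ a e)⁻¹ := by
  classical
  have hδ := h.coc.mul
  have hδ1 : δ 1 = 1 := cocycle_one hδ
  -- `P` is not trivial
  have hPnt : ¬ ∀ a, δ a = 1 := by
    intro h1
    apply h.nfg
    have : Subsingleton P := by
      refine ⟨fun x y => ?_⟩
      obtain ⟨a, rfl⟩ := h.coc.surj x
      obtain ⟨b, rfl⟩ := h.coc.surj y
      rw [h1, h1]
    infer_instance
  -- `δ` vanishes on the kernel
  set C : Subgroup A := φ.ker with hC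
  have hCmem : ∀ c ∈ C, ∀ p, φ c p = p := by
    intro c hc p
    rw [MonoidHom.mem_ker.1 hc]
    rfl
  let f : C →* P :=
    { toFun := fun c => δ c
      map_one' := hδ1
      map_mul' := fun c c' => by
        show δ ((c : A) * (c' : A)) = δ c * δ c'
        rw [hδ, hCmem c c.2] }
  have hW : f.range = ⊥ := by
    apply h.m1
    · have h1 : Group.FG C := (Group.fg_iff_subgroup_fg C).2 (h.pc.2 C)
      have h2 := fg_map f h1.1
      rwa [← MonoidHom.range_eq_map] at h2
    · rintro a p ⟨c, rfl⟩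
      have hcn : a * (c : A) * a⁻¹ ∈ C := (inferInstance : C.Normal).conj_mem c c.2 a
      refine ⟨⟨_, hcn⟩, ?_⟩
      show δ (a * (c : A) * a⁻¹) = φ a (δ c)
      rw [hδ, hδ a c, map_mul, MulAut.mul_apply, hCmem c c.2, cocycle_inv hδ, phi_inv_right,
        mul_comm (δ a), mul_inv_cancel_right]
  have hδC : ∀ c ∈ C, δ c = 1 := by
    intro c hc
    have h1 : f ⟨c, hc⟩ ∈ f.range := ⟨_, rfl⟩
    rw [hW, Subgroup.mem_bot] at h1
    exact h1
  have hCtop : C ≠ ⊤ := by
    intro h1
    exact hPnt fun a => hδC a (by rw [h1]; trivial)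
  obtain ⟨N, hN, hNC, hNN⟩ := exists_N h.pc.1 C hCtop
  have hcommC : ∀ n ∈ N, ∀ m ∈ N, (m * n)⁻¹ * (n * m) ∈ C := by
    intro n hn m hm
    have h1 : (m * n)⁻¹ * (n * m) = n⁻¹ * m⁻¹ * (n⁻¹)⁻¹ * (m⁻¹)⁻¹ := by group
    rw [h1]
    exact hNN (Subgroup.commutator_mem_commutator (N.inv_mem hn) (N.inv_mem hm))
  have hdc : ∀ n ∈ N, ∀ m ∈ N, δ (n * m) = δ (m * n) := by
    intro n hn m hm
    have h1 : n * m = (m * n) * ((m * n)⁻¹ * (n * m)) := by group
    rw [h1, hδ, hδC _ (hcommC n hn m hm), map_one, mul_one]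
  have hφc : ∀ n ∈ N, ∀ m ∈ N, φ (n * m) = φ (m * n) := by
    intro n hn m hm
    have h1 : n * m = (m * n) * ((m * n)⁻¹ * (n * m)) := by group
    rw [h1, map_mul, MonoidHom.mem_ker.1 (hcommC n hn m hm), mul_one]
  -- the augmentation subgroup
  set S : Set P := {w | ∃ n ∈ N, ∃ u : P, w = φ n u * u⁻¹} with hS
  have hSne : Subgroup.closure S ≠ ⊥ := by
    intro h1
    apply hNC
    intro n hn
    rw [hC, MonoidHom.mem_ker]
    ext u
    have h2 : φ n u * u⁻¹ ∈ Subgroup.closure S := Subgroup.subset_closure ⟨n, hn, u, rfl⟩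
    rw [h1, Subgroup.mem_bot] at h2
    rw [mul_inv_eq_one.1 h2]
    rfl
  have hSinv : Inv φ (Subgroup.closure S) := by
    intro a p hp
    induction hp using Subgroup.closure_induction with
    | mem x hx =>
      obtain ⟨n, hn, u, rfl⟩ := hx
      apply Subgroup.subset_closure
      refine ⟨a * n * a⁻¹, hN.conj_mem n hn a, φ a u, ?_⟩
      rw [map_mul, map_inv, map_mul, map_mul, MulAut.mul_apply, MulAut.mul_apply, phi_inv_left]
    | one =>
      rw [map_one]
      exact Subgroup.one_mem _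
    | mul x y _ _ hx hy =>
      rw [map_mul]
      exact Subgroup.mul_mem _ hx hy
    | inv x _ hx =>
      rw [map_inv]
      exact Subgroup.inv_mem _ hx
  have hfi := h.m2 _ hSinv hSne
  obtain ⟨r, v, hv⟩ := exists_indep hr
  -- the commutative ring
  have hcomm : ∀ x ∈ TT φ '' (N : Set A), ∀ y ∈ TT φ '' (N : Set A), x * y = y * x := by
    rintro _ ⟨n, hn, rfl⟩ _ ⟨m, hm, rfl⟩
    rw [← map_mul, ← map_mul]
    ext p
    show TT φ (n * m) p = TT φ (m * n) p
    have h1 : TT φ (n * m) p = Additive.ofMul (φ (n * m) (Additive.toMul p)) := rfl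
    have h2 : TT φ (m * n) p = Additive.ofMul (φ (m * n) (Additive.toMul p)) := rfl
    rw [h1, h2, hφc n hn m hm]
  let _ : CommRing (Subring.closure (TT φ '' (N : Set A))) :=
    { (inferInstance : Ring (Subring.closure (TT φ '' (N : Set A)))) with
      mul_comm := (Subring.isMulCommutative_closure hcomm).is_comm.comm }
  let _ : Module (Subring.closure (TT φ '' (N : Set A))) (Additive P) :=
    Module.compHom (Additive P) (Subring.closure (TT φ '' (N : Set A))).subtype
  obtain ⟨k, e, hk, he⟩ := ring_version (V := Additive P)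
    (R := Subring.closure (TT φ '' (N : Set A))) (TT φ) (fun a => Additive.ofMul (δ a))
    (fun a b => by
      show Additive.ofMul (δ (a * b)) = Additive.ofMul (δ a) + TT φ a (Additive.ofMul (δ b))
      rw [hδ]
      rfl) N hN
    (fun a => if ha : a ∈ N then ⟨TT φ a, Subring.subset_closure ⟨a, ha, rfl⟩⟩ else 0)
    (fun n hn v => by
      rw [dif_pos hn]
      rfl)
    (fun n hn m hm => congrArg Additive.ofMul (hdc n hn m hm))
    (fun p k hk hkp => htf (Additive.toMul p) k hk hkp)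
    (fun j => Additive.ofMul (v j))
    (fun w => by
      obtain ⟨K, hK, z, hz⟩ := hv (Additive.toMul w)
      refine ⟨K, hK, z, ?_⟩
      have h1 := congrArg Additive.ofMul hz
      rw [ofMul_prod] at h1
      exact h1)
    (fun w => by
      refine ⟨(Subgroup.closure S).index, Nat.pos_of_ne_zero hfi.index_ne_zero, ?_⟩
      have h1 : (Additive.toMul w) ^ (Subgroup.closure S).index ∈ Subgroup.closure S :=
        Subgroup.pow_index_mem _ _
      have h2 : ∀ x ∈ Subgroup.closure S, Additive.ofMul x ∈ AddSubgroup.closure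
          {w : Additive P | ∃ n ∈ N, ∃ u : Additive P, w = TT φ n u - u} := by
        intro x hx
        induction hx using Subgroup.closure_induction with
        | mem x hx =>
          obtain ⟨n, hn, u, rfl⟩ := hx
          apply AddSubgroup.subset_closure
          refine ⟨n, hn, Additive.ofMul u, ?_⟩
          rw [ofMul_mul, ofMul_inv, sub_eq_add_neg]
          rfl
        | one => exact AddSubgroup.zero_mem _
        | mul x y _ _ hx hy => exact AddSubgroup.add_mem _ hx hy
        | inv x _ hx => exact AddSubgroup.neg_mem _ hx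
      exact h2 _ h1)
  refine ⟨k, Additive.toMul e, hk, ?_, ?_⟩
  · intro h1
    apply hPnt
    intro a
    have h2 := he a
    have h3 : e = 0 := h1
    rw [h3, map_zero, sub_zero] at h2
    exact htf (δ a) k hk h2
  · intro a
    have h2 := he a
    rw [sub_eq_add_neg] at h2
    exact h2

end Pool.Agent.RPC
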