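import Pool.Agent.RPC.AbA

/-!
MODULE RPC/AbB : the abelian case, part 2: contradiction.
P commutative, torsion-free, finite rank; P is generated by the A-translates of a finite set D
(FGO over A, see RPC/BNS `FGO_top`; here as hypothesis hD).
(1) There are a f.g. subgroup Λ of P and q ≥ 1 with: for all p ∈ P there is s with p^(q^s) ∈ Λ.
   Λ generated by D and a maximal independent set; for each generator a of A (finite symmetric
   generating set) φ a Λ is f.g. and each element of P has a nonzero multiple in Λ: q_a (φ a Λ) ⊆ Λ;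
   q = ∏ q_a; induction on the word length of a: q^|a| φ a Λ ⊆ Λ; P is generated by the φ a D.
(2) choose a with δ a = (e^q)⁻¹ (surjectivity).  Then (δ a)^k = e (φ a e)⁻¹ gives φ a e = e^(1+kq).
   Let n = 1 + k q ≥ 2.  p_s := φ (a⁻¹)^s e: p_s^(n^s) = e.
(3) gcd(n, q) = 1.  e^(q^t) ∈ Λ.  (p_s^(q^t))^(n^s) = e^(q^t) ∈ Λ and (p_s^(q^t))^(q^(t_s)) ∈ Λ, so
   p_s^(q^t) ∈ Λ (Bezout).  So e^(q^t) is an n^s-th power in the f.g. free abelian group Λ for all s, so
   e^(q^t) = 1, e = 1, contradiction.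
-/

set_option autoImplicit false

namespace Pool.Agent.RPC

namespace AbBAux

/-- in a finitely generated torsion-free abelian group the only element divisible by all powers
of `n ≥ 2` is the identity -/
theorem no_div {L : Type} [CommGroup L] (hfg : Group.FG L)
    (htf : ∀ p : L, ∀ k : ℕ, 0 < k → p ^ k = 1 → p = 1) (n : ℕ) (hn : 2 ≤ n) (f : L)
    (hf : ∀ s : ℕ, ∃ g : L, g ^ (n ^ s) = f) : f = 1 := by
  classical
  have : Group.FG L := hfg
  have : AddGroup.FG (Additive L) := inferInstance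
  have : Module.Finite ℤ (Additive L) := Module.Finite.iff_addGroup_fg.2 inferInstance
  have : Module.IsTorsionFree ℤ (Additive L) := by
    refine Module.IsTorsionFree.of_smul_eq_zero ?_
    intro r m hrm
    by_cases hr : r = 0
    · exact Or.inl hr
    · right
      have h1 : (Additive.toMul m) ^ r = 1 := by
        have := congrArg Additive.toMul hrm
        simpa using this
      have h2 : (Additive.toMul m) ^ (r.natAbs) = 1 := by
        rcases Int.natAbs_eq r with h | h
        · rw [h] at h1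
          rw [zpow_natCast] at h1
          exact h1
        · rw [h, zpow_neg, zpow_natCast, inv_eq_one] at h1
          exact h1
      have h3 := htf _ _ (Int.natAbs_pos.2 hr) h2
      exact congrArg Additive.ofMul h3
  have : Module.Free ℤ (Additive L) := Module.free_of_finite_type_torsion_free'
  set b := Module.Free.chooseBasis ℤ (Additive L) with hb
  have hz : Additive.ofMul f = 0 := by
    apply b.repr.injective
    rw [map_zero]
    ext i
    rw [Finsupp.zero_apply]
    by_contra hne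
    set c : ℤ := b.repr (Additive.ofMul f) i with hc
    have hdiv : ∀ s : ℕ, (n ^ s) ∣ c.natAbs := by
      intro s
      obtain ⟨g, hg⟩ := hf s
      have h1 : Additive.ofMul f = (n ^ s) • Additive.ofMul g := by
        rw [← hg]; rfl
      have h2 : c = ((n ^ s : ℕ) : ℤ) * b.repr (Additive.ofMul g) i := by
        rw [hc, h1, map_nsmul, Finsupp.smul_apply, nsmul_eq_mul]
      rw [← Int.natCast_dvd]
      exact ⟨_, h2⟩
    have h4 : n ^ (c.natAbs) ≤ c.natAbs :=
      Nat.le_of_dvd (Int.natAbs_pos.2 hne) (hdiv _)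
    exact absurd (Nat.lt_pow_self (n := c.natAbs) (by omega : 1 < n)) (by omega)
  exact hz

/-- Bezout: an element with two coprime powers in a subgroup is in the subgroup -/
theorem bezout_mem {P : Type} [Group P] (L : Subgroup P) (x : P) {m n : ℕ}
    (h : Nat.Coprime m n) (hm : x ^ m ∈ L) (hn : x ^ n ∈ L) : x ∈ L := by
  have h1 : x ^ ((m : ℤ) * Nat.gcdA m n + (n : ℤ) * Nat.gcdB m n) = x := by
    rw [← Nat.gcd_eq_gcd_ab, Nat.Coprime.gcd_eq_one h]
    simp
  rw [← h1, zpow_add, zpow_mul, zpow_mul, zpow_natCast, zpow_natCast]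
  exact L.mul_mem (L.zpow_mem hm _) (L.zpow_mem hn _)

/-- a uniform exponent for a finitely generated subgroup -/
theorem unif {P : Type} [CommGroup P] (L : Subgroup P) (G : Finset P) (f : P →* P)
    (hL : L = Subgroup.closure (G : Set P)) (hK : ∀ w : P, ∃ K : ℕ, 0 < K ∧ w ^ K ∈ L) :
    ∃ q : ℕ, 0 < q ∧ ∀ x ∈ L, (f x) ^ q ∈ L := by
  classical
  choose K hK0 hKL using hK
  refine ⟨∏ g ∈ G, K (f g), Finset.prod_pos fun g _ => hK0 _, ?_⟩
  intro x hx
  rw [hL] at hx
  induction hx using Subgroup.closure_induction with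
  | mem x hx =>
    have h1 : K (f x) ∣ ∏ g ∈ G, K (f g) := Finset.dvd_prod_of_mem (fun g => K (f g)) hx
    obtain ⟨c, hc⟩ := h1
    rw [hc, pow_mul]
    exact L.pow_mem (hKL _) _
  | one => rw [map_one, one_pow]; exact L.one_mem
  | mul x y _ _ hx hy => rw [map_mul, mul_pow]; exact L.mul_mem hx hy
  | inv x _ hx => rw [map_inv, inv_pow]; exact L.inv_mem hx

end AbBAux

theorem ab_false {A P : Type} [Group A] [CommGroup P] {φ : A →* MulAut P} {δ : A → P}
    (hA : Group.FG A) (hδ : Function.Surjective δ)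
    (htf : ∀ p : P, ∀ k : ℕ, 0 < k → p ^ k = 1 → p = 1)
    (hr : ∃ r : ℕ, ∀ v : Fin (r + 1) → P, ∃ z : Fin (r + 1) → ℤ, z ≠ 0 ∧
        ∏ i, v i ^ z i = 1)
    (hD : FGO φ (⊤ : Subgroup A))
    (k : ℕ) (e : P) (hk : 0 < k) (he : e ≠ 1) (hin : ∀ a, δ a ^ k = e * (φ a e)⁻¹) : False := by
  classical
  obtain ⟨r, v, hv⟩ := AbAAux.exists_indep hr
  obtain ⟨D, hD⟩ := hD
  set G : Finset P := D ∪ Finset.univ.image v with hG
  set L : Subgroup P := Subgroup.closure (G : Set P) with hL
  have hDL : ∀ d ∈ D, d ∈ L := fun d hd =>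
    Subgroup.subset_closure (by rw [hG]; exact Finset.mem_coe.2 (Finset.mem_union_left _ hd))
  have hvL : ∀ j, v j ∈ L := fun j =>
    Subgroup.subset_closure (by
      rw [hG]
      exact Finset.mem_coe.2 (Finset.mem_union_right _ (Finset.mem_image_of_mem _
        (Finset.mem_univ _))))
  have hmul : ∀ w : P, ∃ K : ℕ, 0 < K ∧ w ^ K ∈ L := by
    intro w
    obtain ⟨K, hK, z, hz⟩ := hv w
    refine ⟨K, hK, ?_⟩
    rw [hz]
    exact Subgroup.prod_mem _ fun j _ => L.zpow_mem (hvL j) _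
  -- exponents of the generators
  obtain ⟨S, hS⟩ := hA.out
  have hun : ∀ a : A, ∃ q : ℕ, 0 < q ∧ ∀ x ∈ L, (φ a x) ^ q ∈ L := fun a =>
    AbBAux.unif L G (φ a).toMonoidHom hL hmul
  choose Q hQ0 hQ using hun
  set q : ℕ := (∏ a ∈ S, Q a) * ∏ a ∈ S, Q a⁻¹ with hq
  have hq0 : 0 < q := Nat.mul_pos (Finset.prod_pos fun a _ => hQ0 _)
    (Finset.prod_pos fun a _ => hQ0 _)
  have hgen : ∀ a : A, ∃ s : ℕ, ∀ x ∈ L, (φ a x) ^ (q ^ s) ∈ L := by
    intro a
    have ha : a ∈ Submonoid.closure ((S : Set A) ∪ (S : Set A)⁻¹) := by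
      rw [← Subgroup.closure_toSubmonoid, hS]
      exact Subgroup.mem_top a
    induction ha using Submonoid.closure_induction with
    | mem a ha =>
      refine ⟨1, fun x hx => ?_⟩
      rw [pow_one]
      rcases ha with ha | ha
      · have h1 : Q a ∣ q := Dvd.dvd.mul_right (Finset.dvd_prod_of_mem Q ha) _
        obtain ⟨c, hc⟩ := h1
        rw [hc, pow_mul]
        exact L.pow_mem (hQ a x hx) _
      · have h1 : Q a ∣ q := by
          refine Dvd.dvd.mul_left ?_ _
          have := Finset.dvd_prod_of_mem (fun a => Q a⁻¹) (Set.mem_inv.1 ha)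
          simpa using this
        obtain ⟨c, hc⟩ := h1
        rw [hc, pow_mul]
        exact L.pow_mem (hQ a x hx) _
    | one => exact ⟨0, fun x hx => by simpa using hx⟩
    | mul a b _ _ ha hb =>
      obtain ⟨s, hs⟩ := ha
      obtain ⟨t, ht⟩ := hb
      refine ⟨t + s, fun x hx => ?_⟩
      have h1 := hs _ (ht x hx)
      rw [map_pow, ← pow_mul, ← pow_add] at h1
      rw [map_mul]
      exact h1
  have hall : ∀ p : P, ∃ s : ℕ, p ^ (q ^ s) ∈ L := by
    intro p
    have hp : p ∈ Tr φ ((⊤ : Subgroup A) : Set A) (D : Set P) := by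
      rw [hD]; exact Subgroup.mem_top p
    induction hp using Subgroup.closure_induction with
    | mem x hx =>
      obtain ⟨a, -, d, hd, rfl⟩ := hx
      obtain ⟨s, hs⟩ := hgen a
      exact ⟨s, hs d (hDL d hd)⟩
    | one => exact ⟨0, by rw [one_pow]; exact L.one_mem⟩
    | mul x y _ _ hx hy =>
      obtain ⟨s, hs⟩ := hx
      obtain ⟨t, ht⟩ := hy
      refine ⟨s + t, ?_⟩
      rw [mul_pow]
      refine L.mul_mem ?_ ?_
      · rw [pow_add, pow_mul]; exact L.pow_mem hs _
      · rw [add_comm, pow_add, pow_mul]; exact L.pow_mem ht _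
    | inv x _ hx =>
      obtain ⟨s, hs⟩ := hx
      exact ⟨s, by rw [inv_pow]; exact L.inv_mem hs⟩
  -- the element `a`
  obtain ⟨a, ha⟩ := hδ ((e ^ q)⁻¹)
  set n : ℕ := 1 + k * q with hn
  have hae : φ a e = e ^ n := by
    have h1 := hin a
    rw [ha] at h1
    have h2 : φ a e = e * ((e ^ q)⁻¹ ^ k)⁻¹ := by
      rw [h1, mul_inv, inv_inv, mul_inv_cancel_left]
    rw [h2, inv_pow, inv_inv, ← pow_mul, hn, pow_add, pow_one, mul_comm q k]
  have hn2 : 2 ≤ n := by
    have := Nat.mul_pos hk hq0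
    omega
  have has : ∀ s : ℕ, φ (a ^ s) e = e ^ (n ^ s) := by
    intro s
    induction s with
    | zero => simp
    | succ s ih =>
      rw [pow_succ, map_mul, MulAut.mul_apply, hae, map_pow, ih, ← pow_mul, pow_succ]
  have hps : ∀ s : ℕ, (φ (a ^ s)⁻¹ e) ^ (n ^ s) = e := by
    intro s
    rw [← map_pow, ← has s, ← MulAut.mul_apply, ← map_mul, inv_mul_cancel, map_one,
      MulAut.one_apply]
  obtain ⟨t, ht⟩ := hall e
  have hcop : ∀ s u : ℕ, Nat.Coprime (n ^ s) (q ^ u) := by
    intro s u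
    apply Nat.Coprime.pow
    rw [hn]
    rw [Nat.coprime_add_mul_right_left]
    exact Nat.coprime_one_left q
  have hmem : ∀ s : ℕ, (φ (a ^ s)⁻¹ e) ^ (q ^ t) ∈ L := by
    intro s
    obtain ⟨u, hu⟩ := hall (φ (a ^ s)⁻¹ e)
    refine AbBAux.bezout_mem L _ (hcop s u) ?_ ?_
    · rw [← pow_mul, mul_comm, pow_mul, hps]
      exact ht
    · rw [← pow_mul, mul_comm, pow_mul]
      exact L.pow_mem hu _
  have hfg : Group.FG L := by
    rw [Group.fg_iff_subgroup_fg]
    exact ⟨G, rfl⟩
  have hone : (⟨e ^ (q ^ t), ht⟩ : L) = 1 := by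
    refine AbBAux.no_div hfg ?_ n hn2 _ ?_
    · intro p m hm hpm
      have h1 : (p : P) ^ m = 1 := by
        have := congrArg (Subtype.val) hpm
        simpa using this
      exact Subtype.ext (htf _ _ hm h1)
    · intro s
      refine ⟨⟨_, hmem s⟩, ?_⟩
      apply Subtype.ext
      change ((φ (a ^ s)⁻¹ e) ^ (q ^ t)) ^ (n ^ s) = e ^ (q ^ t)
      rw [← pow_mul, mul_comm, pow_mul, hps]
  have h1 : e ^ (q ^ t) = 1 := congrArg Subtype.val hone
  exact he (htf e _ (pow_pos hq0 t) h1)

end Pool.Agent.RPC
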