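import Pool.Agent.RPC.Defs

/-!
MODULE RPC/Mean : solvable groups have a right invariant mean.
(1) abelian group Γ: iterated averages over the powers of the elements of a finite set, limit along an
  ultrafilter on Finset Γ × ℕ finer than atTop.
(2) extension: N normal in G with RMean N and RMean (G ⧸ N).  Φ_f(g) := m_N (n ↦ f(n g)) depends only on
  the coset N g = g N: Φ_f(n' g) = m_N(n ↦ f(n n' g)) = Φ_f(g); m f := m_{G/N}(Φ_f);
  f(· c): Φ(g) becomes Φ_f(g c).
(3) induction on the derived length.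
-/

set_option autoImplicit false

namespace Pool.Agent.RPC

open Filter Topology

/-- average of `f` over the translates by `γ ^ k`, `k ≤ n` -/
noncomputable def mAv {A : Type} [Group A] (n : ℕ) (γ : A) (f : A → ℝ) : A → ℝ :=
  fun x => (∑ k ∈ Finset.range (n + 1), f (x * γ ^ k)) / (n + 1 : ℝ)

/-- iterated average -/
noncomputable def mAvL {A : Type} [Group A] (n : ℕ) : List A → (A → ℝ) → (A → ℝ)
  | [], f => f
  | γ :: l, f => mAv n γ (mAvL n l f)

theorem mAv_add {A : Type} [Group A] (n : ℕ) (γ : A) (f g : A → ℝ) :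
    mAv n γ (fun x => f x + g x) = fun x => mAv n γ f x + mAv n γ g x := by
  funext x
  simp only [mAv, Finset.sum_add_distrib, add_div]

theorem mAv_smul {A : Type} [Group A] (n : ℕ) (γ : A) (c : ℝ) (f : A → ℝ) :
    mAv n γ (fun x => c * f x) = fun x => c * mAv n γ f x := by
  funext x
  simp only [mAv, ← Finset.mul_sum, mul_div_assoc]

theorem mAv_mono {A : Type} [Group A] (n : ℕ) (γ : A) (f g : A → ℝ) (h : ∀ x, f x ≤ g x) (x : A) :
    mAv n γ f x ≤ mAv n γ g x := by
  simp only [mAv]
  apply div_le_div_of_nonneg_right _ (by positivity)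
  exact Finset.sum_le_sum (fun k _ => h _)

theorem mAv_const {A : Type} [Group A] (n : ℕ) (γ : A) (c : ℝ) :
    mAv n γ (fun _ => c) = fun _ => c := by
  funext x
  simp only [mAv, Finset.sum_const, Finset.card_range, nsmul_eq_mul]
  have : ((n : ℝ) + 1) ≠ 0 := by positivity
  push_cast
  field_simp

theorem mAvL_add {A : Type} [Group A] (n : ℕ) (l : List A) (f g : A → ℝ) :
    mAvL n l (fun x => f x + g x) = fun x => mAvL n l f x + mAvL n l g x := by
  induction l with
  | nil => rfl
  | cons γ l ih => simp only [mAvL, ih, mAv_add]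

theorem mAvL_smul {A : Type} [Group A] (n : ℕ) (l : List A) (c : ℝ) (f : A → ℝ) :
    mAvL n l (fun x => c * f x) = fun x => c * mAvL n l f x := by
  induction l with
  | nil => rfl
  | cons γ l ih => simp only [mAvL, ih, mAv_smul]

theorem mAvL_mono {A : Type} [Group A] (n : ℕ) (l : List A) (f g : A → ℝ) (h : ∀ x, f x ≤ g x)
    (x : A) : mAvL n l f x ≤ mAvL n l g x := by
  induction l generalizing x with
  | nil => exact h x
  | cons γ l ih => exact mAv_mono n γ _ _ ih x

theorem mAvL_const {A : Type} [Group A] (n : ℕ) (l : List A) (c : ℝ) :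
    mAvL n l (fun _ => c) = fun _ => c := by
  induction l with
  | nil => rfl
  | cons γ l ih => simp only [mAvL, ih, mAv_const]

theorem mAvL_abs {A : Type} [Group A] (n : ℕ) (l : List A) (f : A → ℝ) (C : ℝ)
    (h : ∀ x, |f x| ≤ C) (x : A) : |mAvL n l f x| ≤ C := by
  rw [abs_le]
  constructor
  · have := mAvL_mono n l (fun _ => -C) f (fun x => (abs_le.mp (h x)).1) x
    rwa [mAvL_const] at this
  · have := mAvL_mono n l f (fun _ => C) (fun x => (abs_le.mp (h x)).2) x
    rwa [mAvL_const] at this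

theorem mAv_trans {A : Type} [Group A] (hc : ∀ a b : A, a * b = b * a) (n : ℕ) (γ c : A)
    (f : A → ℝ) : mAv n γ (fun x => f (x * c)) = fun x => mAv n γ f (x * c) := by
  funext x
  simp only [mAv]
  congr 1
  refine Finset.sum_congr rfl (fun k _ => ?_)
  rw [mul_assoc, hc (γ ^ k) c, ← mul_assoc]

theorem mAvL_trans {A : Type} [Group A] (hc : ∀ a b : A, a * b = b * a) (n : ℕ) (l : List A)
    (c : A) (f : A → ℝ) : mAvL n l (fun x => f (x * c)) = fun x => mAvL n l f (x * c) := by
  induction l with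
  | nil => rfl
  | cons γ l ih => simp only [mAvL, ih, mAv_trans hc]

theorem mAv_diff {A : Type} [Group A] (n : ℕ) (γ : A) (f : A → ℝ) (C : ℝ)
    (h : ∀ x, |f x| ≤ C) (x : A) (hc : ∀ a b : A, a * b = b * a) :
    |mAv n γ (fun x => f (x * γ)) x - mAv n γ f x| ≤ 2 * C / (n + 1) := by
  have hpos : (0 : ℝ) < (n : ℝ) + 1 := by positivity
  have key : mAv n γ (fun x => f (x * γ)) x - mAv n γ f x
      = (f (x * γ ^ (n + 1)) - f x) / (n + 1) := by
    simp only [mAv]
    rw [← sub_div, ← Finset.sum_sub_distrib]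
    congr 1
    have : ∀ k ∈ Finset.range (n + 1), f (x * γ ^ k * γ) - f (x * γ ^ k)
        = (fun j => f (x * γ ^ j)) (k + 1) - (fun j => f (x * γ ^ j)) k := by
      intro k _
      simp only
      rw [pow_succ, mul_assoc]
    rw [Finset.sum_congr rfl this, Finset.sum_range_sub (fun j => f (x * γ ^ j))]
    simp
  rw [key, abs_div, abs_of_pos hpos]
  apply div_le_div_of_nonneg_right _ hpos.le
  calc |f (x * γ ^ (n + 1)) - f x| ≤ |f (x * γ ^ (n + 1))| + |f x| := abs_sub _ _
    _ ≤ C + C := add_le_add (h _) (h _)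
    _ = 2 * C := by ring

theorem mAvL_diff {A : Type} [Group A] (hc : ∀ a b : A, a * b = b * a) (n : ℕ) (l : List A)
    (γ : A) (hγ : γ ∈ l) (f : A → ℝ) (C : ℝ) (h : ∀ x, |f x| ≤ C) (x : A) :
    |mAvL n l (fun x => f (x * γ)) x - mAvL n l f x| ≤ 2 * C / (n + 1) := by
  induction l generalizing x with
  | nil => simp at hγ
  | cons γ' l ih =>
    rcases List.mem_cons.mp hγ with rfl | hγ
    · simp only [mAvL]
      rw [mAvL_trans hc]
      exact mAv_diff n γ (mAvL n l f) C (fun y => mAvL_abs n l f C h y) x hc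
    · have ih' := fun y => ih hγ y
      simp only [mAvL]
      have e : mAv n γ' (mAvL n l (fun x => f (x * γ))) x - mAv n γ' (mAvL n l f) x
          = mAv n γ' (fun y => mAvL n l (fun x => f (x * γ)) y + (-1) * mAvL n l f y) x := by
        rw [mAv_add, mAv_smul]; ring
      rw [e, abs_le]
      constructor
      · have := mAv_mono n γ' (fun _ => -(2 * C / (n + 1)))
          (fun y => mAvL n l (fun x => f (x * γ)) y + (-1) * mAvL n l f y)
          (fun y => by have := (abs_le.mp (ih' y)).1; linarith) x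
        rwa [mAv_const] at this
      · have := mAv_mono n γ'
          (fun y => mAvL n l (fun x => f (x * γ)) y + (-1) * mAvL n l f y)
          (fun _ => (2 * C / (n + 1)))
          (fun y => by have := (abs_le.mp (ih' y)).2; linarith) x
        rwa [mAv_const] at this

theorem ultra_lim {ι : Type} (U : Ultrafilter ι) (g : ι → ℝ) (C : ℝ) (h : ∀ i, |g i| ≤ C) :
    ∃ x, Tendsto g U (𝓝 x) := by
  have hcomp : IsCompact (Set.Icc (-C) C) := isCompact_Icc
  have := hcomp.ultrafilter_le_nhds (U.map g) (by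
    rw [le_principal_iff]
    show g ⁻¹' (Set.Icc (-C) C) ∈ U
    have : g ⁻¹' (Set.Icc (-C) C) = Set.univ := by
      ext i
      simp only [Set.mem_preimage, Set.mem_Icc, Set.mem_univ, iff_true]
      exact abs_le.mp (h i)
    rw [this]
    exact univ_mem)
  obtain ⟨x, _, hx⟩ := this
  exact ⟨x, hx⟩

theorem exists_rmean_comm (A : Type) [Group A] (hc : ∀ a b : A, a * b = b * a) :
    Nonempty (RMean A) := by
  classical
  set U : Ultrafilter (Finset A × ℕ) := Ultrafilter.of atTop with hU
  have hUle : (U : Filter (Finset A × ℕ)) ≤ atTop := Ultrafilter.of_le atTop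
  set g : (A → ℝ) → (Finset A × ℕ) → ℝ := fun f p => mAvL p.2 p.1.toList f 1 with hg
  have hlim : ∀ f : A → ℝ, Bdd f → Tendsto (g f) U (𝓝 (limUnder (U : Filter _) (g f))) := by
    intro f hf
    obtain ⟨C, hC⟩ := hf
    obtain ⟨x, hx⟩ := ultra_lim U (g f) C (fun p => mAvL_abs _ _ f C hC 1)
    exact tendsto_nhds_limUnder ⟨x, hx⟩
  refine ⟨{ m := fun f => limUnder (U : Filter _) (g f), add := ?_, smul := ?_, mono := ?_,
            one := ?_, inv := ?_ }⟩
  · intro f h hf hh
    apply Tendsto.limUnder_eq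
    have := (hlim f hf).add (hlim h hh)
    refine this.congr (fun p => ?_)
    simp only [hg, mAvL_add]
  · intro c f hf
    apply Tendsto.limUnder_eq
    have := (hlim f hf).const_mul c
    refine this.congr (fun p => ?_)
    simp only [hg, mAvL_smul]
  · intro f h hf hh hle
    exact le_of_tendsto_of_tendsto (hlim f hf) (hlim h hh)
      (Eventually.of_forall (fun p => mAvL_mono _ _ f h hle 1))
  · apply Tendsto.limUnder_eq
    have : g (fun _ => 1) = fun _ => (1 : ℝ) := by
      funext p
      simp only [hg, mAvL_const]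
    rw [this]
    exact tendsto_const_nhds
  · intro f c hf
    apply Tendsto.limUnder_eq
    obtain ⟨C, hC⟩ := hf
    have hd : Tendsto (fun p => g (fun x => f (x * c)) p - g f p) (U : Filter _) (𝓝 0) := by
      have hev : ∀ᶠ p in (U : Filter (Finset A × ℕ)), c ∈ p.1 := by
        have h0 : ∀ᶠ p in (atTop : Filter (Finset A × ℕ)), c ∈ p.1 := by
          rw [Filter.eventually_atTop]
          exact ⟨({c}, 0), fun p hp => hp.1 (Finset.mem_singleton_self c)⟩
        exact hUle h0
      have hz : Tendsto (fun p : Finset A × ℕ => 2 * C / ((p.2 : ℝ) + 1)) (U : Filter _) (𝓝 0) := by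
        have h1 : Tendsto (fun p : Finset A × ℕ => p.2) atTop atTop := by
          rw [← prod_atTop_atTop_eq]
          exact tendsto_snd
        have h2 : Tendsto (fun n : ℕ => 2 * C / ((n : ℝ) + 1)) atTop (𝓝 0) := by
          have := (tendsto_const_div_atTop_nhds_zero_nat (2 * C)).comp (tendsto_add_atTop_nat 1)
          refine this.congr (fun n => ?_)
          simp
        exact (h2.comp h1).mono_left hUle
      refine squeeze_zero_norm' ?_ hz
      filter_upwards [hev] with p hp
      rw [Real.norm_eq_abs]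
      exact mAvL_diff hc p.2 p.1.toList c (Finset.mem_toList.mpr hp) f C hC 1
    have := hd.add (hlim f ⟨C, hC⟩)
    rw [zero_add] at this
    refine this.congr (fun p => ?_)
    ring

theorem bdd_m {A : Type} [Group A] (μ : RMean A) (f : A → ℝ) (C : ℝ) (h : ∀ x, |f x| ≤ C) :
    |μ.m f| ≤ C := by
  have hb : Bdd f := ⟨C, h⟩
  have h1 : ∀ c : ℝ, μ.m (fun _ => c) = c := by
    intro c
    have := μ.smul c (fun _ => 1) ⟨1, fun _ => by simp⟩
    rw [μ.one, mul_one] at this
    simpa using this
  rw [abs_le]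
  constructor
  · have := μ.mono (fun _ => -C) f ⟨|C|, fun _ => by simp⟩ hb (fun x => (abs_le.mp (h x)).1)
    rwa [h1] at this
  · have := μ.mono f (fun _ => C) hb ⟨|C|, fun _ => by simp⟩ (fun x => (abs_le.mp (h x)).2)
    rwa [h1] at this

theorem exists_rmean_ext (A : Type) [Group A] (N : Subgroup A) [N.Normal]
    (h1 : Nonempty (RMean N)) (h2 : Nonempty (RMean (A ⧸ N))) : Nonempty (RMean A) := by
  classical
  obtain ⟨μ⟩ := h1
  obtain ⟨ν⟩ := h2
  set Φ : (A → ℝ) → A → ℝ := fun f g => μ.m (fun n : N => f ((n : A) * g)) with hΦ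
  have hinv : ∀ f, Bdd f → ∀ g (n : N), Φ f ((n : A) * g) = Φ f g := by
    intro f hf g n
    obtain ⟨C, hC⟩ := hf
    have := μ.inv (fun k : N => f ((k : A) * g)) n ⟨C, fun _ => hC _⟩
    simp only [hΦ]
    rw [← this]
    congr 1
    funext k
    simp [mul_assoc]
  set Ψ : (A → ℝ) → (A ⧸ N) → ℝ := fun f q => Φ f (Quotient.out q) with hΨ
  have hmk : ∀ f, Bdd f → ∀ g : A, Ψ f (QuotientGroup.mk g) = Φ f g := by
    intro f hf g
    obtain ⟨n, hn⟩ := QuotientGroup.mk_out_eq_mul N g
    simp only [hΨ]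
    have e : (Quotient.out (QuotientGroup.mk g : A ⧸ N) : A)
        = ((⟨g * n * g⁻¹, (inferInstance : N.Normal).conj_mem n n.2 g⟩ : N) : A) * g := by
      rw [hn]
      simp
    rw [e]
    exact hinv f hf g _
  have hΦb : ∀ f C, (∀ x, |f x| ≤ C) → ∀ g, |Φ f g| ≤ C := by
    intro f C hC g
    exact bdd_m μ _ C (fun n => hC _)
  have hΨb : ∀ f, Bdd f → Bdd (Ψ f) := by
    rintro f ⟨C, hC⟩
    exact ⟨C, fun q => hΦb f C hC _⟩
  refine ⟨{ m := fun f => ν.m (Ψ f), add := ?_, smul := ?_, mono := ?_, one := ?_, inv := ?_ }⟩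
  · intro f g hf hg
    rw [← ν.add _ _ (hΨb f hf) (hΨb g hg)]
    congr 1
    funext q
    obtain ⟨C, hC⟩ := hf
    obtain ⟨C', hC'⟩ := hg
    exact μ.add _ _ ⟨C, fun _ => hC _⟩ ⟨C', fun _ => hC' _⟩
  · intro c f hf
    rw [← ν.smul _ _ (hΨb f hf)]
    congr 1
    funext q
    obtain ⟨C, hC⟩ := hf
    exact μ.smul c _ ⟨C, fun _ => hC _⟩
  · intro f g hf hg hle
    refine ν.mono _ _ (hΨb f hf) (hΨb g hg) (fun q => ?_)
    obtain ⟨C, hC⟩ := hf
    obtain ⟨C', hC'⟩ := hg
    exact μ.mono _ _ ⟨C, fun _ => hC _⟩ ⟨C', fun _ => hC' _⟩ (fun n => hle _)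
  · have : Ψ (fun _ => 1) = fun _ => 1 := by
      funext q
      exact μ.one
    rw [this]
    exact ν.one
  · intro f c hf
    rw [← ν.inv (Ψ f) (QuotientGroup.mk c) (hΨb f hf)]
    congr 1
    funext q
    induction q using QuotientGroup.induction_on with
    | H g =>
      have hf' : Bdd (fun x => f (x * c)) := by
        obtain ⟨C, hC⟩ := hf
        exact ⟨C, fun _ => hC _⟩
      rw [hmk _ hf', ← QuotientGroup.mk_mul, hmk _ hf]
      simp only [hΦ, mul_assoc]

theorem exists_rmean_aux (n : ℕ) : ∀ (A : Type) [Group A], derivedSeries A n = ⊥ →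
    Nonempty (RMean A) := by
  induction n with
  | zero =>
    intro A _ h
    apply exists_rmean_comm
    intro a b
    have ha : a ∈ (⊥ : Subgroup A) := by rw [← h]; simp
    have hb : b ∈ (⊥ : Subgroup A) := by rw [← h]; simp
    rw [Subgroup.mem_bot] at ha hb
    rw [ha, hb]
  | succ n ih =>
    intro A _ h
    have hn : (derivedSeries A n).Normal := inferInstance
    apply exists_rmean_ext A (derivedSeries A n)
    · apply exists_rmean_comm
      rintro ⟨a, ha⟩ ⟨b, hb⟩
      have h3 : a * b * a⁻¹ * b⁻¹ ∈ derivedSeries A (n + 1) := by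
        rw [derivedSeries_succ]
        exact Subgroup.commutator_mem_commutator ha hb
      rw [h, Subgroup.mem_bot] at h3
      apply Subtype.ext
      show a * b = b * a
      calc a * b = (a * b * a⁻¹ * b⁻¹) * (b * a) := by group
        _ = b * a := by rw [h3, one_mul]
    · apply ih
      have := map_derivedSeries_eq (f := QuotientGroup.mk' (derivedSeries A n))
        (QuotientGroup.mk'_surjective _) n
      rw [← this, eq_bot_iff]
      rintro _ ⟨x, hx, rfl⟩
      rw [Subgroup.mem_bot]
      exact (QuotientGroup.eq_one_iff x).mpr hx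

theorem exists_rmean (A : Type) [Group A] (h : IsSolvable A) : Nonempty (RMean A) := by
  obtain ⟨n, hn⟩ := h.solvable
  exact exists_rmean_aux n A hn

end Pool.Agent.RPC
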