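import Pool.Agent.RPC.Defs

/-!
MODULE RPC/Mu : elementary properties of the mean μ.m, of integrals μ.on S f and of the finitely
additive measure μ.mu S.  All from add, smul, mono, one, inv of RMean.
* `mu_sum_le` : if every x lies in at most k of the sets S i (i in a finite set I) then ∑ mu (S i) ≤ k.
* `mu_coset` : A₁ of finite index: 0 < mu A₁ (A is the union of finitely many right translates
  A₁ x_i, all of the same measure).
* `on_le_of_bad` : if |f| ≤ B on S, |g| ≤ B on S and |f - g| ≤ ε on S outside a set of measure ≤ η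
  then |on S f - on S g| ≤ ε + 2 B η.
-/

set_option autoImplicit false

namespace Pool.Agent.RPC

variable {A : Type} [Group A] (μ : RMean A)

theorem bdd_const (c : ℝ) : Bdd (fun _ : A => c) := ⟨|c|, fun _ => le_rfl⟩

theorem bdd_add {f g : A → ℝ} (hf : Bdd f) (hg : Bdd g) : Bdd (fun x => f x + g x) := by
  obtain ⟨C, hC⟩ := hf
  obtain ⟨D, hD⟩ := hg
  exact ⟨C + D, fun x => (abs_add_le _ _).trans (add_le_add (hC x) (hD x))⟩

theorem bdd_smul (c : ℝ) {f : A → ℝ} (hf : Bdd f) : Bdd (fun x => c * f x) := by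
  obtain ⟨C, hC⟩ := hf
  refine ⟨|c| * C, fun x => ?_⟩
  rw [abs_mul]
  exact mul_le_mul_of_nonneg_left (hC x) (abs_nonneg c)

theorem bdd_mul {f g : A → ℝ} (hf : Bdd f) (hg : Bdd g) : Bdd (fun x => f x * g x) := by
  obtain ⟨C, hC⟩ := hf
  obtain ⟨D, hD⟩ := hg
  refine ⟨C * D, fun x => ?_⟩
  rw [abs_mul]
  exact mul_le_mul (hC x) (hD x) (abs_nonneg _) ((abs_nonneg _).trans (hC x))

theorem bdd_ind (S : Set A) : Bdd (S.indicator (fun _ => (1 : ℝ))) := by
  refine ⟨1, fun x => ?_⟩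
  by_cases hx : x ∈ S
  · rw [Set.indicator_of_mem hx]
    simp
  · rw [Set.indicator_of_notMem hx]
    simp

theorem bdd_indicator {S : Set A} {f : A → ℝ} {B : ℝ} (hB : 0 ≤ B) (h : ∀ y ∈ S, |f y| ≤ B) :
    Bdd (S.indicator f) := by
  refine ⟨B, fun x => ?_⟩
  by_cases hx : x ∈ S
  · rw [Set.indicator_of_mem hx]
    exact h x hx
  · rw [Set.indicator_of_notMem hx, abs_zero]
    exact hB

theorem m_zero : μ.m (fun _ => 0) = 0 := by
  have h := μ.smul 0 (fun _ => 0) (bdd_const 0)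
  simpa using h

theorem m_const (c : ℝ) : μ.m (fun _ => c) = c := by
  have h := μ.smul c (fun _ => 1) (bdd_const 1)
  rw [μ.one] at h
  simpa using h

theorem bdd_sum {ι : Type} (I : Finset ι) (f : ι → A → ℝ) (hf : ∀ i ∈ I, Bdd (f i)) :
    Bdd (fun x => ∑ i ∈ I, f i x) := by
  classical
  induction I using Finset.induction_on with
  | empty => simpa using bdd_const (A := A) 0
  | insert a s ha ih =>
    simp only [Finset.sum_insert ha]
    exact bdd_add (hf a (Finset.mem_insert_self a s))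
      (ih (fun i hi => hf i (Finset.mem_insert_of_mem hi)))

theorem m_sum {ι : Type} (I : Finset ι) (f : ι → A → ℝ) (hf : ∀ i ∈ I, Bdd (f i)) :
    μ.m (fun x => ∑ i ∈ I, f i x) = ∑ i ∈ I, μ.m (f i) := by
  classical
  induction I using Finset.induction_on with
  | empty => simpa using m_zero μ
  | insert a s ha ih =>
    simp only [Finset.sum_insert ha]
    have hs : ∀ i ∈ s, Bdd (f i) := fun i hi => hf i (Finset.mem_insert_of_mem hi)
    rw [μ.add _ _ (hf a (Finset.mem_insert_self a s)) (bdd_sum s f hs), ih hs]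

theorem on_eq (S : Set A) (f : A → ℝ) : μ.on S f = μ.m (S.indicator f) := rfl

theorem mu_eq (S : Set A) : μ.mu S = μ.m (S.indicator (fun _ => 1)) := on_eq μ S _

theorem mu_nonneg (S : Set A) : 0 ≤ μ.mu S := by
  rw [mu_eq, ← m_zero μ]
  apply μ.mono _ _ (bdd_const 0) (bdd_ind S)
  intro x
  exact Set.indicator_nonneg (fun _ _ => zero_le_one) x

theorem mu_univ : μ.mu (Set.univ : Set A) = 1 := by
  rw [mu_eq, Set.indicator_univ, μ.one]

theorem mu_empty : μ.mu (∅ : Set A) = 0 := by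
  rw [mu_eq, Set.indicator_empty, m_zero]

theorem mu_mono {S T : Set A} (h : S ⊆ T) : μ.mu S ≤ μ.mu T := by
  rw [mu_eq, mu_eq]
  apply μ.mono _ _ (bdd_ind S) (bdd_ind T)
  exact fun x => Set.indicator_le_indicator_of_subset h (fun _ => zero_le_one) x

theorem mu_le_one (S : Set A) : μ.mu S ≤ 1 := by
  rw [← mu_univ μ]
  exact mu_mono μ (Set.subset_univ S)

theorem mu_union (S T : Set A) : μ.mu (S ∪ T) ≤ μ.mu S + μ.mu T := by
  rw [mu_eq, mu_eq, mu_eq, ← μ.add _ _ (bdd_ind S) (bdd_ind T)]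
  apply μ.mono _ _ (bdd_ind _) (bdd_add (bdd_ind S) (bdd_ind T))
  intro x
  by_cases h1 : x ∈ S <;> by_cases h2 : x ∈ T <;> simp [h1, h2]

theorem mu_union_eq {S T : Set A} (h : Disjoint S T) : μ.mu (S ∪ T) = μ.mu S + μ.mu T := by
  rw [mu_eq, mu_eq, mu_eq, ← μ.add _ _ (bdd_ind S) (bdd_ind T)]
  congr 1
  funext x
  by_cases h1 : x ∈ S
  · have h2 : x ∉ T := Set.disjoint_left.1 h h1
    simp [h1, h2]
  · by_cases h2 : x ∈ T <;> simp [h1, h2]

theorem mu_biUnion {ι : Type} (I : Finset ι) (S : ι → Set A) :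
    μ.mu {x | ∃ i ∈ I, x ∈ S i} ≤ ∑ i ∈ I, μ.mu (S i) := by
  simp only [mu_eq]
  rw [← m_sum μ I (fun i => (S i).indicator (fun _ => 1)) (fun i _ => bdd_ind (S i))]
  apply μ.mono _ _ (bdd_ind _) (bdd_sum I _ (fun i _ => bdd_ind (S i)))
  intro x
  have h0 : ∀ i ∈ I, (0 : ℝ) ≤ (S i).indicator (fun _ => 1) x := fun i _ =>
    Set.indicator_nonneg (fun _ _ => zero_le_one) x
  by_cases hx : ∃ i ∈ I, x ∈ S i
  · have hx' : x ∈ {x | ∃ i ∈ I, x ∈ S i} := hx
    rw [Set.indicator_of_mem hx']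
    obtain ⟨i, hi, hxi⟩ := hx
    have h1 := Finset.single_le_sum h0 hi
    rwa [Set.indicator_of_mem hxi] at h1
  · have hx' : x ∉ {x | ∃ i ∈ I, x ∈ S i} := hx
    rw [Set.indicator_of_notMem hx']
    exact Finset.sum_nonneg h0

/-- invariance: the set of `x` with `x c ∈ S` -/
theorem mu_inv (S : Set A) (c : A) : μ.mu {x | x * c ∈ S} = μ.mu S := by
  rw [mu_eq, mu_eq, ← μ.inv _ c (bdd_ind S)]
  congr 1

theorem mu_sum_le {ι : Type} (I : Finset ι) (S : ι → Set A) (k : ℕ)
    (h : ∀ x, ∀ J : Finset ι, J ⊆ I → (∀ i ∈ J, x ∈ S i) → J.card ≤ k) :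
    ∑ i ∈ I, μ.mu (S i) ≤ k := by
  classical
  simp only [mu_eq]
  rw [← m_sum μ I (fun i => (S i).indicator (fun _ => 1)) (fun i _ => bdd_ind (S i)),
    ← m_const μ (k : ℝ)]
  apply μ.mono _ _ (bdd_sum I _ (fun i _ => bdd_ind (S i))) (bdd_const _)
  intro x
  have h1 : ∑ i ∈ I, (S i).indicator (fun _ => (1 : ℝ)) x =
      ((I.filter (fun i => x ∈ S i)).card : ℝ) := by
    rw [Finset.card_filter]
    push_cast
    apply Finset.sum_congr rfl
    intro i _
    by_cases hi : x ∈ S i <;> simp [hi]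
  rw [h1]
  exact_mod_cast h x _ (Finset.filter_subset _ _) (fun i hi => (Finset.mem_filter.1 hi).2)

/-- pigeonhole: one of the sets is small -/
theorem mu_exists_small {ι : Type} (I : Finset ι) (hI : I.Nonempty) (S : ι → Set A) (k : ℕ)
    (h : ∀ x, ∀ J : Finset ι, J ⊆ I → (∀ i ∈ J, x ∈ S i) → J.card ≤ k) :
    ∃ i ∈ I, μ.mu (S i) ≤ k / I.card := by
  by_contra hcon
  push Not at hcon
  have h1 := mu_sum_le μ I S k h
  have h2 : ∑ _i ∈ I, ((k : ℝ) / I.card) < ∑ i ∈ I, μ.mu (S i) :=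
    Finset.sum_lt_sum_of_nonempty hI hcon
  have h3 : (0 : ℝ) < I.card := by exact_mod_cast Finset.card_pos.2 hI
  rw [Finset.sum_const, nsmul_eq_mul, mul_div_cancel₀ _ h3.ne'] at h2
  linarith

theorem mu_coset (A₁ : Subgroup A) (h : A₁.FiniteIndex) : 0 < μ.mu (A₁ : Set A) := by
  have hfin : Finite (A ⧸ A₁) := inferInstance
  have hft : Fintype (A ⧸ A₁) := Fintype.ofFinite _
  have h1 := mu_biUnion μ (Finset.univ : Finset (A ⧸ A₁))
    (fun i => {x | x * i.out ∈ (A₁ : Set A)})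
  have h2 : {x | ∃ i ∈ (Finset.univ : Finset (A ⧸ A₁)), x ∈ {x | x * i.out ∈ (A₁ : Set A)}} =
      Set.univ := by
    rw [Set.eq_univ_iff_forall]
    intro x
    refine ⟨((x⁻¹ : A) : A ⧸ A₁), Finset.mem_univ _, ?_⟩
    have h3 : ((((x⁻¹ : A) : A ⧸ A₁).out : A) : A ⧸ A₁) = ((x⁻¹ : A) : A ⧸ A₁) :=
      QuotientGroup.out_eq' _
    have h4 := QuotientGroup.eq.1 h3.symm
    rwa [inv_inv] at h4
  rw [h2, mu_univ] at h1
  simp only [mu_inv] at h1
  rw [Finset.sum_const, nsmul_eq_mul] at h1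
  have h3 := mu_nonneg μ (A₁ : Set A)
  rcases h3.lt_or_eq with h4 | h4
  · exact h4
  · rw [← h4, mul_zero] at h1
    linarith

theorem on_add (S : Set A) (f g : A → ℝ) (hf : Bdd (fun y => S.indicator f y))
    (hg : Bdd (fun y => S.indicator g y)) :
    μ.on S (fun y => f y + g y) = μ.on S f + μ.on S g := by
  rw [on_eq, on_eq, on_eq, ← μ.add _ _ hf hg]
  congr 1
  funext y
  by_cases hy : y ∈ S <;> simp [hy]

theorem on_smul (S : Set A) (c : ℝ) (f : A → ℝ) (hf : Bdd (fun y => S.indicator f y)) :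
    μ.on S (fun y => c * f y) = c * μ.on S f := by
  rw [on_eq, on_eq, ← μ.smul _ _ hf]
  congr 1
  funext y
  by_cases hy : y ∈ S <;> simp [hy]

theorem on_mono (S : Set A) (f g : A → ℝ) (hf : Bdd (fun y => S.indicator f y))
    (hg : Bdd (fun y => S.indicator g y)) (h : ∀ y ∈ S, f y ≤ g y) : μ.on S f ≤ μ.on S g := by
  rw [on_eq, on_eq]
  apply μ.mono _ _ hf hg
  intro y
  by_cases hy : y ∈ S
  · rw [Set.indicator_of_mem hy, Set.indicator_of_mem hy]
    exact h y hy
  · rw [Set.indicator_of_notMem hy, Set.indicator_of_notMem hy]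

/-- integral over `S`, translated: `x ∈ S ↔ x c ∈ S` -/
theorem on_inv (S : Set A) (f : A → ℝ) (hf : Bdd (fun y => S.indicator f y)) (c : A)
    (hc : ∀ x, x ∈ S ↔ x * c ∈ S) : μ.on S (fun y => f (y * c)) = μ.on S f := by
  rw [on_eq, on_eq, ← μ.inv _ c hf]
  congr 1
  funext y
  by_cases hy : y ∈ S
  · rw [Set.indicator_of_mem hy, Set.indicator_of_mem ((hc y).1 hy)]
  · have hy' : y * c ∉ S := fun h => hy ((hc y).2 h)
    rw [Set.indicator_of_notMem hy, Set.indicator_of_notMem hy']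

theorem on_close (S : Set A) (f g : A → ℝ) (B ε η : ℝ) (hB : 0 ≤ B) (hε : 0 ≤ ε)
    (hf : ∀ y ∈ S, |f y| ≤ B) (hg : ∀ y ∈ S, |g y| ≤ B)
    (h : μ.mu {y | y ∈ S ∧ ε < |f y - g y|} ≤ η) :
    |μ.on S f - μ.on S g| ≤ ε + 2 * B * η := by
  obtain ⟨T, hT⟩ : ∃ T : Set A, T = {y | y ∈ S ∧ ε < |f y - g y|} := ⟨_, rfl⟩
  rw [← hT] at h
  have hf' : Bdd (fun y => S.indicator f y) := bdd_indicator hB hf
  have hg' : Bdd (fun y => S.indicator g y) := bdd_indicator hB hg
  -- a one sided estimate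
  have key : ∀ u v : A → ℝ, (∀ y ∈ S, |u y| ≤ B) → (∀ y ∈ S, |v y| ≤ B) →
      (∀ y ∈ S, y ∉ T → u y ≤ v y + ε) → μ.on S u ≤ μ.on S v + (ε + 2 * B * η) := by
    intro u v hu hv huv
    have hu' : Bdd (fun y => S.indicator u y) := bdd_indicator hB hu
    have hv' : Bdd (fun y => S.indicator v y) := bdd_indicator hB hv
    have hb : Bdd (fun y => ε + 2 * B * T.indicator (fun _ => (1 : ℝ)) y) :=
      bdd_add (bdd_const ε) (bdd_smul (2 * B) (bdd_ind T))
    have h1 : μ.m (fun y => S.indicator u y) ≤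
        μ.m (fun y => S.indicator v y + (ε + 2 * B * T.indicator (fun _ => (1 : ℝ)) y)) := by
      apply μ.mono _ _ hu' (bdd_add hv' hb)
      intro y
      by_cases hy : y ∈ S
      · rw [Set.indicator_of_mem hy, Set.indicator_of_mem hy]
        by_cases hyT : y ∈ T
        · rw [Set.indicator_of_mem hyT]
          have h2 := (abs_le.1 (hu y hy)).2
          have h3 := (abs_le.1 (hv y hy)).1
          linarith
        · rw [Set.indicator_of_notMem hyT]
          have := huv y hy hyT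
          linarith
      · have hyT : y ∉ T := by
          rw [hT]
          exact fun h => hy h.1
        rw [Set.indicator_of_notMem hy, Set.indicator_of_notMem hy, Set.indicator_of_notMem hyT]
        linarith
    rw [μ.add _ _ hv' hb, μ.add _ _ (bdd_const ε) (bdd_smul (2 * B) (bdd_ind T)), m_const,
      μ.smul _ _ (bdd_ind T)] at h1
    have h4 : μ.m (T.indicator (fun _ => (1 : ℝ))) = μ.mu T := (mu_eq μ T).symm
    have h5 : 2 * B * μ.mu T ≤ 2 * B * η := mul_le_mul_of_nonneg_left h (by linarith)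
    rw [on_eq, on_eq]
    have h6 : μ.m (S.indicator u) ≤ μ.m (S.indicator v) + (ε + 2 * B * μ.mu T) := by
      rw [← h4]
      exact h1
    linarith
  have hTS : ∀ y ∈ S, y ∉ T → |f y - g y| ≤ ε := by
    intro y hy hyT
    by_contra hcon
    apply hyT
    rw [hT]
    exact ⟨hy, not_le.1 hcon⟩
  have k1 := key f g hf hg (fun y hy hyT => by
    have := (abs_le.1 (hTS y hy hyT)).2
    linarith)
  have k2 := key g f hg hf (fun y hy hyT => by
    have := (abs_le.1 (hTS y hy hyT)).1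
    linarith)
  rw [abs_le]
  constructor <;> linarith

/-- Chebyshev type lower bound -/
theorem on_lower (S : Set A) (f : A → ℝ) (hf : Bdd (fun y => S.indicator f y))
    (h0 : ∀ y ∈ S, 0 ≤ f y) (c : ℝ) (hc : 0 ≤ c) :
    c * μ.mu {y | y ∈ S ∧ c ≤ f y} ≤ μ.on S f := by
  rw [mu_eq, on_eq, ← μ.smul _ _ (bdd_ind _)]
  apply μ.mono _ _ (bdd_smul c (bdd_ind _)) hf
  intro y
  by_cases hy : y ∈ S
  · rw [Set.indicator_of_mem hy]
    by_cases hyc : c ≤ f y
    · have h1 : y ∈ {y | y ∈ S ∧ c ≤ f y} := ⟨hy, hyc⟩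
      rw [Set.indicator_of_mem h1, mul_one]
      exact hyc
    · have h1 : y ∉ {y | y ∈ S ∧ c ≤ f y} := fun h => hyc h.2
      rw [Set.indicator_of_notMem h1, mul_zero]
      exact h0 y hy
  · have h1 : y ∉ {y | y ∈ S ∧ c ≤ f y} := fun h => hy h.1
    rw [Set.indicator_of_notMem h1, Set.indicator_of_notMem hy, mul_zero]

/-- Cauchy–Schwarz with the support: `(∫ f²)² ≤ (∫ f⁴) mu(supp f)` -/
theorem on_cauchy (S : Set A) (f : A → ℝ) (hf : Bdd (fun y => S.indicator f y)) :
    (μ.on S (fun y => f y ^ 2)) ^ 2 ≤ μ.on S (fun y => f y ^ 4) * μ.mu {y | y ∈ S ∧ f y ≠ 0} := by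
  obtain ⟨T, hT⟩ : ∃ T : Set A, T = {y | y ∈ S ∧ f y ≠ 0} := ⟨_, rfl⟩
  rw [← hT]
  obtain ⟨C, hC⟩ := hf
  have hC0 : 0 ≤ C := (abs_nonneg _).trans (hC 1)
  have hfC : ∀ y ∈ S, |f y| ≤ C := by
    intro y hy
    have := hC y
    simpa only [Set.indicator_of_mem hy] using this
  have h2 : Bdd (S.indicator (fun y => f y ^ 2)) := by
    apply bdd_indicator (B := C ^ 2) (by positivity)
    intro y hy
    rw [abs_pow]
    exact pow_le_pow_left₀ (abs_nonneg _) (hfC y hy) 2
  have h4 : Bdd (S.indicator (fun y => f y ^ 4)) := by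
    apply bdd_indicator (B := C ^ 4) (by positivity)
    intro y hy
    rw [abs_pow]
    exact pow_le_pow_left₀ (abs_nonneg _) (hfC y hy) 4
  have hq : ∀ t : ℝ, 0 ≤ μ.mu T * (t * t) + (-2 * μ.on S (fun y => f y ^ 2)) * t +
      μ.on S (fun y => f y ^ 4) := by
    intro t
    have e1 : μ.m (fun y => (t * t) * T.indicator (fun _ => (1 : ℝ)) y +
        ((-2 * t) * S.indicator (fun y => f y ^ 2) y + S.indicator (fun y => f y ^ 4) y)) =
        (t * t) * μ.mu T + ((-2 * t) * μ.on S (fun y => f y ^ 2) +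
          μ.on S (fun y => f y ^ 4)) := by
      rw [μ.add _ _ (bdd_smul (t * t) (bdd_ind T)) (bdd_add (bdd_smul (-2 * t) h2) h4),
        μ.smul _ _ (bdd_ind T), μ.add _ _ (bdd_smul (-2 * t) h2) h4, μ.smul _ _ h2, mu_eq,
        on_eq, on_eq]
    have e2 : 0 ≤ μ.m (fun y => (t * t) * T.indicator (fun _ => (1 : ℝ)) y +
        ((-2 * t) * S.indicator (fun y => f y ^ 2) y + S.indicator (fun y => f y ^ 4) y)) := by
      rw [← m_zero μ]
      apply μ.mono _ _ (bdd_const 0)
        (bdd_add (bdd_smul (t * t) (bdd_ind T)) (bdd_add (bdd_smul (-2 * t) h2) h4))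
      intro y
      by_cases hy : y ∈ S
      · rw [Set.indicator_of_mem hy, Set.indicator_of_mem hy]
        by_cases hf0 : f y = 0
        · have h5 : y ∉ T := by
            rw [hT]
            exact fun h => h.2 hf0
          rw [Set.indicator_of_notMem h5, hf0]
          norm_num
        · have h5 : y ∈ T := by
            rw [hT]
            exact ⟨hy, hf0⟩
          rw [Set.indicator_of_mem h5]
          nlinarith [sq_nonneg (f y ^ 2 - t)]
      · have h5 : y ∉ T := by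
          rw [hT]
          exact fun h => hy h.1
        rw [Set.indicator_of_notMem hy, Set.indicator_of_notMem hy, Set.indicator_of_notMem h5]
        norm_num
    rw [e1] at e2
    linarith
  have h5 := discrim_le_zero hq
  unfold discrim at h5
  nlinarith

end Pool.Agent.RPC
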