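import Pool.Agent.RPC.Defs

/-!
MODULE RPC/PCBasic : closure properties of the class PC (solvable, all subgroups f.g.).
* `sub`, `map`, `equiv` : subgroups, images, isomorphic copies.
* `ext` : extensions (for K ≤ G: K ⊓ N is f.g. and the image of K in G ⧸ N is f.g.).
* `acc` : ascending chain condition on subgroups (all subgroups f.g.).
* `fin` : finite solvable groups are PC (not needed for non-solvable ones).
Everything here is standard; Mathlib has solvable_of_..., Group.fg..., `wellFoundedGT` criteria for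
subgroups may have to be proved from `all subgroups f.g.` (CompleteLattice.IsCompactElement /
`Subgroup.fg_iff_...`, or directly: the union of a chain is f.g., so it is reached).
-/

set_option autoImplicit false

namespace Pool.Agent.RPC

theorem fg_map {G H : Type*} [Group G] [Group H] (f : G →* H) {K : Subgroup G} (h : K.FG) :
    (K.map f).FG := by
  rw [← Group.fg_iff_subgroup_fg] at h ⊢
  exact Group.fg_of_surjective (f.subgroupMap_surjective K)

theorem fg_of_map {G H : Type*} [Group G] [Group H] (f : G →* H) (hf : Function.Injective f)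
    {K : Subgroup G} (h : (K.map f).FG) : K.FG := by
  rw [← Group.fg_iff_subgroup_fg] at h ⊢
  exact Group.fg_of_surjective (f := (K.equivMapOfInjective f hf).symm.toMonoidHom)
    (K.equivMapOfInjective f hf).symm.surjective

theorem exists_fg_lift {G H : Type*} [Group G] [Group H] (f : G →* H) (K : Subgroup G)
    (h : (K.map f).FG) : ∃ L : Subgroup G, L ≤ K ∧ L.FG ∧ L.map f = K.map f := by
  classical
  obtain ⟨T, hT⟩ := h
  have h1 : (T : Set H) ⊆ f '' (K : Set G) := by
    intro t ht
    have h2 : t ∈ K.map f := by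
      rw [← hT]
      exact Subgroup.subset_closure ht
    obtain ⟨k, hk, rfl⟩ := Subgroup.mem_map.1 h2
    exact ⟨k, hk, rfl⟩
  obtain ⟨S, hS, hST⟩ := Finset.subset_set_image_iff.1 h1
  refine ⟨Subgroup.closure (S : Set G), (Subgroup.closure_le K).2 hS, ⟨S, rfl⟩, ?_⟩
  rw [MonoidHom.map_closure, ← hT, ← hST, Finset.coe_image]

theorem PC.sub {G : Type} [Group G] (h : PC G) (H : Subgroup G) : PC H := by
  have : Group.IsSolvable G := h.1
  have h1 : Group.IsSolvable H := inferInstance
  refine ⟨h1, fun K => ?_⟩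
  exact fg_of_map H.subtype H.subtype_injective (h.2 _)

theorem PC.map {G H : Type} [Group G] [Group H] (h : PC G) (f : G →* H)
    (hf : Function.Surjective f) : PC H := by
  have : Group.IsSolvable G := h.1
  refine ⟨Group.isSolvable_of_surjective hf, fun K => ?_⟩
  have h1 := fg_map f (h.2 (K.comap f))
  rwa [Subgroup.map_comap_eq_self_of_surjective hf] at h1

theorem PC.equiv {G H : Type} [Group G] [Group H] (e : G ≃* H) (h : PC G) : PC H :=
  h.map e.toMonoidHom e.surjective

theorem PC.ext {G : Type} [Group G] (N : Subgroup G) [N.Normal] (h1 : PC N)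
    (h2 : PC (G ⧸ N)) : PC G := by
  have : Group.IsSolvable N := h1.1
  have : Group.IsSolvable (G ⧸ N) := h2.1
  refine ⟨Group.isSolvable_of_ker_le_range N.subtype (QuotientGroup.mk' N) (by
    rw [QuotientGroup.ker_mk', Subgroup.range_subtype]), fun K => ?_⟩
  obtain ⟨L, hL1, hL2, hL3⟩ := exists_fg_lift (QuotientGroup.mk' N) K (h2.2 _)
  have h3 : (K ⊓ N).FG := by
    rw [← Subgroup.subgroupOf_map_subtype]
    exact fg_map _ (h1.2 _)
  have h4 : K = L ⊔ (K ⊓ N) := by
    apply le_antisymm
    · intro k hk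
      have h5 : QuotientGroup.mk' N k ∈ L.map (QuotientGroup.mk' N) := by
        rw [hL3]
        exact Subgroup.mem_map_of_mem _ hk
      obtain ⟨l, hl, hlk⟩ := Subgroup.mem_map.1 h5
      have h6 : l⁻¹ * k ∈ N := by
        have h7 : ((l : G) : G ⧸ N) = ((k : G) : G ⧸ N) := hlk
        exact QuotientGroup.eq.1 h7
      have h7 : l⁻¹ * k ∈ K := K.mul_mem (K.inv_mem (hL1 hl)) hk
      have h8 : k = l * (l⁻¹ * k) := by group
      rw [h8]
      exact Subgroup.mul_mem_sup hl ⟨h7, h6⟩
    · exact sup_le hL1 inf_le_left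
  rw [h4]
  exact hL2.sup h3

theorem PC.fg {G : Type} [Group G] (h : PC G) : Group.FG G := ⟨h.2 ⊤⟩

theorem PC.acc {G : Type} [Group G] (h : PC G) : WellFoundedGT (Subgroup G) := by
  rw [wellFoundedGT_iff_monotone_chain_condition]
  intro a
  obtain ⟨S, hS⟩ := h.2 (⨆ n, a n)
  have hdir : Directed (· ≤ ·) (fun n => a n) := a.monotone.directed_le
  have hmem : ∀ s ∈ S, ∃ n, s ∈ a n := by
    intro s hs
    have h1 : s ∈ ⨆ n, a n := by
      rw [← hS]
      exact Subgroup.subset_closure hs
    exact (Subgroup.mem_iSup_of_directed hdir).1 h1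
  have hex : ∀ s : G, ∃ n, s ∈ S → s ∈ a n := by
    intro s
    by_cases hs : s ∈ S
    · obtain ⟨n, hn⟩ := hmem s hs
      exact ⟨n, fun _ => hn⟩
    · exact ⟨0, fun h' => absurd h' hs⟩
  choose f hf using hex
  refine ⟨S.sup f, fun m hm => ?_⟩
  apply le_antisymm
  · exact a.monotone hm
  · refine (le_iSup (fun n => a n) m).trans ?_
    rw [← hS, Subgroup.closure_le]
    intro s hs
    exact a.monotone (Finset.le_sup (f := f) hs) (hf s hs)

/-- every nonempty family of subgroups has a maximal element -/
theorem PC.exists_max {G : Type} [Group G] (h : PC G) (S : Set (Subgroup G)) (hS : S.Nonempty) :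
    ∃ U ∈ S, ∀ V ∈ S, U ≤ V → V = U := by
  have := h.acc
  obtain ⟨U, hU, hU2⟩ := (wellFounded_gt (α := Subgroup G)).has_min S hS
  refine ⟨U, hU, fun V hV hUV => ?_⟩
  by_contra hne
  exact hU2 V hV (lt_of_le_of_ne hUV (Ne.symm hne))

end Pool.Agent.RPC
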