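import Pool.Agent.RPC.Can
import Pool.Agent.RPC.Mean
import Pool.Agent.RPC.Mu
import Pool.Agent.RPC.PCBasic

/-!
MODULE RPC/Avg : averaging lemma.
H ≤ A solvable, N ≤ H normal in A, P = Tr φ N D, ψ additive on N, ψ (x n x⁻¹) = ψ n for x ∈ H, n ∈ N, and
there is a nonzero (N, ψ)-equivariant norm.  Then ψ|N extends to a real character of H.
Proof.  Let ν be the canonical norm (exists_can for D finite; it takes the value 1 on D by
not_sub_of_norm).  For x ∈ H, by the last clause of exists_can with l = 1: ν (φ x p) ≤ C_x ν p, C_x > 0, for all p.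
So for p with ν p ≠ 0 also ν (φ x p) ≠ 0 (apply it to x⁻¹), and
s(x) := sup {log ν (φ x p) - log ν p | ν p ≠ 0} is a real number, s(xy) ≤ s(x) + s(y),
s(n x) = s(x) - ψ n for n ∈ N (φ (n x) p = φ n (φ x p)).  For x, b ∈ H: |s(x b) - s(b)| ≤ max(s x, s x⁻¹).
Let m be a LEFT invariant mean on ↥H (from a right invariant one, exists_rmean, by f ↦ f ∘ inv).
χ(x) := m_b (s(x b) - s(b)).  χ(x y) = m_b(s(x y b) - s(y b)) + m_b(s(y b) - s(b)) = χ x + χ y.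
χ(n) = - ψ n on N.  Take -χ.
-/

set_option autoImplicit false

namespace Pool.Agent.RPC

namespace AvgAux

variable {A P : Type} [Group A] [Group P] (φ : A →* MulAut P) (ν : UNorm P)

/-- the set of logarithmic expansion rates -/
def rates (x : A) : Set ℝ :=
  {r | ∃ p, ν.N p ≠ 0 ∧ r = Real.log (ν.N (φ x p)) - Real.log (ν.N p)}

/-- the maximal expansion rate -/
noncomputable def s (x : A) : ℝ := sSup (rates φ ν x)

variable {φ ν}

theorem pos {p : P} (h : ν.N p ≠ 0) : 0 < ν.N p := lt_of_le_of_ne (ν.nonneg p) (Ne.symm h)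

theorem act_mul (x y : A) (p : P) : φ (x * y) p = φ x (φ y p) := by
  rw [map_mul, MulAut.mul_apply]

theorem ne {H : Subgroup A} (hC : ∀ x ∈ H, ∃ C, 0 < C ∧ ∀ p, ν.N (φ x p) ≤ C * ν.N p) {x : A}
    (hx : x ∈ H) {p : P} (h : ν.N p ≠ 0) : ν.N (φ x p) ≠ 0 := by
  intro h0
  obtain ⟨C, hC0, hC1⟩ := hC x⁻¹ (H.inv_mem hx)
  have h1 := hC1 (φ x p)
  rw [← act_mul, inv_mul_cancel, map_one, MulAut.one_apply, h0, mul_zero] at h1
  exact absurd (pos h) (not_lt.2 h1)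

theorem bdd {H : Subgroup A} (hC : ∀ x ∈ H, ∃ C, 0 < C ∧ ∀ p, ν.N (φ x p) ≤ C * ν.N p) {x : A}
    (hx : x ∈ H) : BddAbove (rates φ ν x) := by
  obtain ⟨C, hC0, hC1⟩ := hC x hx
  refine ⟨Real.log C, ?_⟩
  rintro _ ⟨p, hp, rfl⟩
  have h1 := Real.log_le_log (pos (ne hC hx hp)) (hC1 p)
  rw [Real.log_mul hC0.ne' hp] at h1
  linarith

theorem nonempty {p₀ : P} (h : ν.N p₀ ≠ 0) (x : A) : (rates φ ν x).Nonempty := ⟨_, p₀, h, rfl⟩

theorem le_s {H : Subgroup A} (hC : ∀ x ∈ H, ∃ C, 0 < C ∧ ∀ p, ν.N (φ x p) ≤ C * ν.N p) {x : A}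
    (hx : x ∈ H) {p : P} (hp : ν.N p ≠ 0) :
    Real.log (ν.N (φ x p)) - Real.log (ν.N p) ≤ s φ ν x :=
  le_csSup (bdd hC hx) ⟨p, hp, rfl⟩

theorem s_mul {H : Subgroup A} (hC : ∀ x ∈ H, ∃ C, 0 < C ∧ ∀ p, ν.N (φ x p) ≤ C * ν.N p) {p₀ : P}
    (h₀ : ν.N p₀ ≠ 0) {x y : A} (hx : x ∈ H) (hy : y ∈ H) :
    s φ ν (x * y) ≤ s φ ν x + s φ ν y := by
  refine csSup_le (nonempty h₀ _) ?_
  rintro _ ⟨p, hp, rfl⟩
  have h1 := le_s hC hy hp
  have h2 := le_s hC hx (ne hC hy hp)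
  rw [act_mul]
  linarith

theorem s_one {p₀ : P} (h₀ : ν.N p₀ ≠ 0) : s φ ν 1 = 0 := by
  have h : rates φ ν 1 = {0} := by
    ext r
    constructor
    · rintro ⟨p, hp, rfl⟩
      rw [map_one, MulAut.one_apply, sub_self]
      rfl
    · intro hr
      rw [Set.mem_singleton_iff] at hr
      exact ⟨p₀, h₀, by rw [map_one, MulAut.one_apply, sub_self, hr]⟩
  rw [s, h, csSup_singleton]

theorem s_n {N : Subgroup A} {ψ : A → ℝ} {H : Subgroup A}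
    (hC : ∀ x ∈ H, ∃ C, 0 < C ∧ ∀ p, ν.N (φ x p) ≤ C * ν.N p) {p₀ : P}
    (h₀ : ν.N p₀ ≠ 0) (hE : Eqv φ N ψ ν) {n x : A} (hn : n ∈ N) (hnH : n ∈ H) (hx : x ∈ H) :
    s φ ν (n * x) = s φ ν x - ψ n := by
  have key : ∀ p, ν.N p ≠ 0 → Real.log (ν.N (φ (n * x) p)) - Real.log (ν.N p) =
      (Real.log (ν.N (φ x p)) - Real.log (ν.N p)) - ψ n := by
    intro p hp
    rw [act_mul, hE n hn, Real.log_mul (Real.exp_pos _).ne' (ne hC hx hp), Real.log_exp]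
    ring
  apply le_antisymm
  · refine csSup_le (nonempty h₀ _) ?_
    rintro _ ⟨p, hp, rfl⟩
    rw [key p hp]
    linarith [le_s hC hx hp]
  · have h1 : s φ ν x ≤ s φ ν (n * x) + ψ n := by
      refine csSup_le (nonempty h₀ _) ?_
      rintro _ ⟨p, hp, rfl⟩
      have h2 := le_s hC (H.mul_mem hnH hx) hp
      rw [key p hp] at h2
      linarith
    linarith

end AvgAux

open AvgAux in
theorem avg {A P : Type} [Group A] [Group P] {φ : A →* MulAut P} (N H : Subgroup A)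
    (hN : N.Normal) (hNH : N ≤ H) (hH : IsSolvable H) (ψ : A → ℝ) (hadd : Addi N ψ)
    (hinv : ∀ x ∈ H, ∀ n ∈ N, ψ (x * n * x⁻¹) = ψ n) (hF : FGO φ N)
    (hν : ∃ ν : UNorm P, (∃ p, ν.N p ≠ 0) ∧ Eqv φ N ψ ν) :
    ∃ χ : A → ℝ, Addi H χ ∧ ∀ n ∈ N, χ n = ψ n := by
  obtain ⟨D, hgen⟩ := hF
  obtain ⟨ν₀, hν₀, hE₀⟩ := hν
  obtain ⟨ν, hE, -, hor, hlast⟩ := exists_can φ N D ψ hadd hgen
  obtain ⟨d₀, -, hd₀⟩ : ∃ d ∈ D, ν.N d = 1 := by
    rcases hor with h | h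
    · exact h
    · exact absurd h (not_sub_of_norm φ N D ψ hgen ν₀ hE₀ hν₀)
  have h₀ : ν.N d₀ ≠ 0 := by rw [hd₀]; exact one_ne_zero
  have hC : ∀ x ∈ H, ∃ C, 0 < C ∧ ∀ p, ν.N (φ x p) ≤ C * ν.N p := by
    intro x hx
    have hsum : 0 ≤ ∑ d ∈ D, ν.N (φ x d) := Finset.sum_nonneg fun _ _ => ν.nonneg _
    refine ⟨1 + ∑ d ∈ D, ν.N (φ x d), by linarith, fun p => ?_⟩
    have h1 := hlast x 1 (1 + ∑ d ∈ D, ν.N (φ x d)) one_pos (by linarith)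
      (fun n hn => ⟨hN.conj_mem n hn x, by rw [hinv x hx n hn, one_mul]⟩)
      (fun d hd => by
        have h2 := Finset.single_le_sum (f := fun d => ν.N (φ x d)) (fun _ _ => ν.nonneg _) hd
        linarith) p
    rwa [Real.rpow_one] at h1
  obtain ⟨μ⟩ := exists_rmean H hH
  -- the cocycle
  have hbdd : ∀ x ∈ H, ∃ C, ∀ b ∈ H, |s φ ν (x * b) - s φ ν b| ≤ C := by
    intro x hx
    refine ⟨|s φ ν x| + |s φ ν x⁻¹|, fun b hb => ?_⟩
    have h1 := s_mul hC h₀ hx hb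
    have h2 := s_mul hC h₀ (H.inv_mem hx) (H.mul_mem hx hb)
    rw [inv_mul_cancel_left] at h2
    have h3 := le_abs_self (s φ ν x)
    have h4 := le_abs_self (s φ ν x⁻¹)
    have h5 := abs_nonneg (s φ ν x)
    have h6 := abs_nonneg (s φ ν x⁻¹)
    rw [abs_le]
    constructor <;> linarith
  let c : A → H → ℝ := fun x b => s φ ν (x * (b⁻¹ : H)) - s φ ν ((b⁻¹ : H) : A)
  have hcb : ∀ x ∈ H, Bdd (c x) := by
    intro x hx
    obtain ⟨C, hC⟩ := hbdd x hx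
    exact ⟨C, fun b => hC _ (b⁻¹).2⟩
  have hadd' : ∀ x ∈ H, ∀ y ∈ H, μ.m (c (x * y)) = μ.m (c x) + μ.m (c y) := by
    intro x hx y hy
    have h1 : μ.m (fun b => c x (b * (⟨y, hy⟩ : H)⁻¹)) = μ.m (c x) := μ.inv _ _ (hcb x hx)
    have h2 : Bdd (fun b => c x (b * (⟨y, hy⟩ : H)⁻¹)) := by
      obtain ⟨C, hC⟩ := hcb x hx
      exact ⟨C, fun b => hC _⟩
    rw [← h1, ← μ.add _ _ h2 (hcb y hy)]
    congr 1
    funext b
    simp only [c]
    rw [mul_inv_rev, inv_inv]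
    show s φ ν (x * y * ((b⁻¹ : H) : A)) - s φ ν ((b⁻¹ : H) : A) =
      s φ ν (x * (y * ((b⁻¹ : H) : A))) - s φ ν (y * ((b⁻¹ : H) : A)) +
        (s φ ν (y * ((b⁻¹ : H) : A)) - s φ ν ((b⁻¹ : H) : A))
    rw [mul_assoc]
    ring
  refine ⟨fun x => -μ.m (c x), fun x hx y hy => ?_, fun n hn => ?_⟩
  · show -μ.m (c (x * y)) = -μ.m (c x) + -μ.m (c y)
    rw [hadd' x hx y hy]
    ring
  · show -μ.m (c n) = ψ n
    have h1 : c n = fun _ => -ψ n * 1 := by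
      funext b
      simp only [c]
      rw [s_n hC h₀ hE hn (hNH hn) (b⁻¹).2]
      ring
    have h2 : Bdd (fun _ : H => (1 : ℝ)) := ⟨1, fun _ => by rw [abs_one]⟩
    rw [h1, μ.smul _ _ h2, μ.one]
    ring

end Pool.Agent.RPC
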