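import Pool.Agent.RPC.SigF

/-!
MODULE RPC/BNS : P f.g. over N but not over N₁ ⇒ Sig φ L ≠ ∅.
Proof.  P = Tr φ N D, D finite.  Suppose Sig is empty: by sig_iff for every θ ≠ 0,
D ⊆ Tr φ {n ∈ N : ψ_θ n > 0} D; for each θ this is witnessed by a finite set E_θ ⊆ N with ψ_θ > 0 on
E_θ; on a neighbourhood U_θ of θ one has ψ_θ' > δ_θ > 0 on E_θ.  By compactness of the unit sphere
(euclidean norm |z|² = ∑ z_i² on vectors) there are finitely many E_j, a
δ > 0 and Q with: for every unit vector θ there is j with D ⊆ Tr φ E_j D, ψ_θ ≥ δ on E_j,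
|pi n|² ≤ Q on all E_j.
Claim: if n ∈ N, |pi n| ≥ (Q + 1) / (2 δ) then φ n D ⊆ Tr φ {n' ∈ N : |pi n'|² ≤ |pi n|² - 1} D:
take θ = - pi n/|pi n|, E_j for it; φ n D ⊆ Tr φ (n E_j) D and for m ∈ E_j
|pi(n m)|² = |pi n|² + 2⟨pi n, pi m⟩ + |pi m|² ≤ |pi n|² - 2 δ |pi n| + Q ≤ |pi n|² - 1.
Iterating (induction on the natural number |pi n|²): φ n D ⊆ Tr φ {n' ∈ N: |pi n'|² ≤ r} D for
all n ∈ N.  The set of values pi n' with |pi n'|² ≤ r is finite; choose representatives x_k ∈ N;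
{n' ∈ N : |pi n'|² ≤ r} ⊆ ⋃ N₁ x_k (pi_ker, pi_mul).  So P = Tr φ N₁ E with the finite set
E = ⋃ φ x_k D: FGO φ N₁.
-/

set_option autoImplicit false

namespace Pool.Agent.RPC

lemma bns_tr_mono {A P : Type} [Group A] [Group P] {φ : A →* MulAut P} {S T : Set A} {D E : Set P}
    (hS : S ⊆ T) (hD : D ⊆ E) : Tr φ S D ≤ Tr φ T E := by
  refine Subgroup.closure_mono ?_
  rintro x ⟨a, ha, d, hd, rfl⟩
  exact ⟨a, hS ha, d, hD hd, rfl⟩

lemma bns_mem_tr {A P : Type} [Group A] [Group P] {φ : A →* MulAut P} {S : Set A} {D : Set P}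
    {a : A} {d : P} (ha : a ∈ S) (hd : d ∈ D) : φ a d ∈ Tr φ S D :=
  Subgroup.subset_closure ⟨a, ha, d, hd, rfl⟩

/-- translates of `Tr` -/
lemma bns_act_tr {A P : Type} [Group A] [Group P] {φ : A →* MulAut P} {S : Set A} {D : Set P}
    {K : Subgroup P} {n : A} (h : ∀ a ∈ S, ∀ d ∈ D, φ (n * a) d ∈ K) {x : P} (hx : x ∈ Tr φ S D) :
    φ n x ∈ K := by
  induction hx using Subgroup.closure_induction with
  | mem x hx =>
    obtain ⟨a, ha, d, hd, rfl⟩ := hx
    have := h a ha d hd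
    rw [map_mul] at this
    exact this
  | one => rw [map_one]; exact K.one_mem
  | mul x y _ _ hx hy => rw [map_mul]; exact K.mul_mem hx hy
  | inv x _ hx => rw [map_inv]; exact K.inv_mem hx

lemma bns_tr_fin1 {A P : Type} [Group A] [Group P] {φ : A →* MulAut P} {S : Set A} {D : Set P}
    {x : P} (hx : x ∈ Tr φ S D) : ∃ E : Finset A, (E : Set A) ⊆ S ∧ x ∈ Tr φ (E : Set A) D := by
  classical
  induction hx using Subgroup.closure_induction with
  | mem x hx =>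
    obtain ⟨a, ha, d, hd, rfl⟩ := hx
    refine ⟨{a}, by simpa using ha, bns_mem_tr (by simp) hd⟩
  | one => exact ⟨∅, by simp, Subgroup.one_mem _⟩
  | mul x y _ _ hx hy =>
    obtain ⟨E, hE, hx⟩ := hx
    obtain ⟨F, hF, hy⟩ := hy
    refine ⟨E ∪ F, by simp [hE, hF], Subgroup.mul_mem _ ?_ ?_⟩
    · exact bns_tr_mono (by simp) (le_refl D) hx
    · exact bns_tr_mono (by simp) (le_refl D) hy
  | inv x _ hx =>
    obtain ⟨E, hE, hx⟩ := hx
    exact ⟨E, hE, Subgroup.inv_mem _ hx⟩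

lemma bns_tr_fin {A P : Type} [Group A] [Group P] {φ : A →* MulAut P} {S : Set A} {D : Set P}
    (C : Finset P) (hx : (C : Set P) ⊆ (Tr φ S D : Set P)) :
    ∃ E : Finset A, (E : Set A) ⊆ S ∧ (C : Set P) ⊆ (Tr φ (E : Set A) D : Set P) := by
  classical
  have h : ∀ x : P, ∃ E : Finset A, (E : Set A) ⊆ S ∧ (x ∈ C → x ∈ Tr φ (E : Set A) D) := by
    intro x
    by_cases hxC : x ∈ C
    · obtain ⟨E, hE, h⟩ := bns_tr_fin1 (hx hxC)
      exact ⟨E, hE, fun _ => h⟩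
    · exact ⟨∅, by simp, fun h => absurd h hxC⟩
  choose E hE h using h
  refine ⟨C.biUnion E, ?_, ?_⟩
  · intro a ha
    obtain ⟨x, -, hxa⟩ := Finset.mem_biUnion.1 (Finset.mem_coe.1 ha)
    exact hE x hxa
  · intro x hxC
    refine bns_tr_mono ?_ (le_refl D) (h x hxC)
    intro a ha
    exact Finset.mem_coe.2 (Finset.mem_biUnion.2 ⟨x, hxC, ha⟩)

/-- the square of the euclidean norm -/
def bnsSq {d : ℕ} (z : Fin d → ℤ) : ℕ := ∑ i, (z i).natAbs ^ 2

lemma bns_sq_cast {d : ℕ} (z : Fin d → ℤ) : (bnsSq z : ℝ) = ∑ i, (z i : ℝ) ^ 2 := by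
  unfold bnsSq
  push_cast
  refine Finset.sum_congr rfl fun i _ => ?_
  rw [Nat.cast_natAbs]
  push_cast
  rw [sq_abs]

lemma bns_sq_add {d : ℕ} (z w : Fin d → ℤ) :
    (bnsSq (z + w) : ℝ) = bnsSq z + 2 * dot (fun i => (z i : ℝ)) w + bnsSq w := by
  rw [bns_sq_cast, bns_sq_cast, bns_sq_cast, dot, Finset.mul_sum, ← Finset.sum_add_distrib,
    ← Finset.sum_add_distrib]
  refine Finset.sum_congr rfl fun i _ => ?_
  rw [Pi.add_apply]
  push_cast
  ring

lemma bns_sq_finite {d : ℕ} (r : ℕ) : {z : Fin d → ℤ | bnsSq z ≤ r}.Finite := by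
  refine Set.Finite.subset (Set.finite_Icc (fun _ => -(r : ℤ)) (fun _ => (r : ℤ))) ?_
  intro z hz
  have h : ∀ i, (z i).natAbs ≤ r := by
    intro i
    have h1 : (z i).natAbs ^ 2 ≤ bnsSq z :=
      Finset.single_le_sum (f := fun i => (z i).natAbs ^ 2) (fun _ _ => Nat.zero_le _)
        (Finset.mem_univ i)
    have h2 : (z i).natAbs ≤ (z i).natAbs ^ 2 := Nat.le_self_pow (by norm_num) _
    exact h2.trans (h1.trans hz)
  refine ⟨fun i => ?_, fun i => ?_⟩
  · have := h i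
    show -(r : ℤ) ≤ z i
    omega
  · have := h i
    show z i ≤ (r : ℤ)
    omega

theorem bns {A P : Type} [Group A] [Group P] {φ : A →* MulAut P} {N N₁ : Subgroup A} {d : ℕ}
    (L : Lat N N₁ d) (hF : FGO φ N) (h1 : ¬ FGO φ N₁) : (Sig φ L).Nonempty := by
  classical
  obtain ⟨D, hgen⟩ := hF
  by_contra hne
  have hS : ∀ θ : Fin d → ℝ, θ ≠ 0 →
      (D : Set P) ⊆ (Tr φ {n | n ∈ N ∧ 0 < L.psi θ n} (D : Set P) : Set P) := by
    intro θ hθ
    by_contra hc
    exact hne ⟨θ, (sig_iff L D hgen θ).2 ⟨hθ, hc⟩⟩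
  -- the open cover
  let ι : Type := {E : Finset A // (E : Set A) ⊆ (N : Set A) ∧
    (D : Set P) ⊆ (Tr φ (E : Set A) (D : Set P) : Set P)} × ℕ
  let U : ι → Set (Fin d → ℝ) := fun i => ⋂ n ∈ i.1.1, {θ | 1 / ((i.2 : ℝ) + 1) < L.psi θ n}
  have hcont : ∀ n : A, Continuous fun θ : Fin d → ℝ => L.psi θ n := by
    intro n
    unfold Lat.psi dot
    fun_prop
  have hUo : ∀ i, IsOpen (U i) := by
    intro i
    refine isOpen_biInter_finset fun n _ => ?_
    exact isOpen_lt continuous_const (hcont n)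
  have hcomp : IsCompact {θ : Fin d → ℝ | ∑ i, θ i ^ 2 = 1} := by
    refine Metric.isCompact_of_isClosed_isBounded ?_ ?_
    · exact isClosed_eq (by fun_prop) continuous_const
    · refine (Metric.isBounded_closedBall (x := (0 : Fin d → ℝ)) (r := 1)).subset ?_
      intro θ hθ
      rw [mem_closedBall_zero_iff, pi_norm_le_iff_of_nonneg zero_le_one]
      intro i
      have h2 : θ i ^ 2 ≤ ∑ i, θ i ^ 2 :=
        Finset.single_le_sum (f := fun i => θ i ^ 2) (fun _ _ => sq_nonneg _) (Finset.mem_univ i)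
      rw [Set.mem_ofPred_eq] at hθ
      rw [hθ] at h2
      rw [Real.norm_eq_abs]
      exact (sq_le_one_iff_abs_le_one _).1 h2
  have hcov : {θ : Fin d → ℝ | ∑ i, θ i ^ 2 = 1} ⊆ ⋃ i, U i := by
    intro θ hθ
    have hθ0 : θ ≠ 0 := by
      rintro rfl
      simp at hθ
    obtain ⟨E, hE, hDE⟩ := bns_tr_fin D (hS θ hθ0)
    have hpos : ∀ n ∈ E, 0 < L.psi θ n := fun n hn => (hE hn).2
    obtain ⟨k, hk⟩ : ∃ k : ℕ, ∀ n ∈ E, 1 / ((k : ℝ) + 1) < L.psi θ n := by
      have : ∀ n : A, ∃ k : ℕ, n ∈ E → 1 / ((k : ℝ) + 1) < L.psi θ n := by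
        intro n
        by_cases hn : n ∈ E
        · obtain ⟨k, hk⟩ := exists_nat_one_div_lt (hpos n hn)
          exact ⟨k, fun _ => hk⟩
        · exact ⟨0, fun h => absurd h hn⟩
      choose k hk using this
      refine ⟨E.sup k, fun n hn => lt_of_le_of_lt ?_ (hk n hn)⟩
      refine one_div_le_one_div_of_le (by positivity) ?_
      have : k n ≤ E.sup k := Finset.le_sup hn
      have : (k n : ℝ) ≤ (E.sup k : ℕ) := by exact_mod_cast this
      linarith
    rw [Set.mem_iUnion]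
    refine ⟨(⟨E, fun n hn => (hE hn).1, hDE⟩, k), ?_⟩
    simp only [U, Set.mem_iInter, Set.mem_ofPred_eq]
    exact hk
  obtain ⟨t, ht⟩ := hcomp.elim_finite_subcover U hUo hcov
  -- the constants
  obtain ⟨δ, hδ, hδt⟩ : ∃ δ : ℝ, 0 < δ ∧ ∀ i ∈ t, δ ≤ 1 / ((i.2 : ℝ) + 1) := by
    refine ⟨1 / (((t.sup fun i => i.2 : ℕ) : ℝ) + 1), by positivity, fun i hi => ?_⟩
    refine one_div_le_one_div_of_le (by positivity) ?_
    have : i.2 ≤ t.sup fun i => i.2 := Finset.le_sup (f := fun i : ι => i.2) hi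
    have : (i.2 : ℝ) ≤ ((t.sup fun i => i.2 : ℕ) : ℝ) := by exact_mod_cast this
    linarith
  obtain ⟨Q, hQ⟩ : ∃ Q : ℕ, ∀ i ∈ t, ∀ n ∈ i.1.1, bnsSq (L.pi n) ≤ Q := by
    refine ⟨∑ i ∈ t, ∑ n ∈ i.1.1, bnsSq (L.pi n), fun i hi n hn => ?_⟩
    have h2 : bnsSq (L.pi n) ≤ ∑ n ∈ i.1.1, bnsSq (L.pi n) :=
      Finset.single_le_sum (f := fun n => bnsSq (L.pi n)) (fun _ _ => Nat.zero_le _) hn
    exact h2.trans (Finset.single_le_sum (f := fun i : ι => ∑ n ∈ i.1.1, bnsSq (L.pi n))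
      (fun _ _ => Nat.zero_le _) hi)
  obtain ⟨r, hr⟩ : ∃ r : ℕ, ((Q : ℝ) + 1) / (2 * δ) ≤ r := exists_nat_ge _
  -- one step
  have hstep : ∀ n ∈ N, r ^ 2 < bnsSq (L.pi n) → ∃ i ∈ t, ∀ m ∈ i.1.1, bnsSq (L.pi (n * m)) < bnsSq (L.pi n) := by
    intro n hn hbig
    set s : ℝ := Real.sqrt (bnsSq (L.pi n)) with hs
    have hs2 : s ^ 2 = bnsSq (L.pi n) := Real.sq_sqrt (Nat.cast_nonneg _)
    have hs0 : 0 ≤ s := Real.sqrt_nonneg _
    have hrs : (r : ℝ) < s := by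
      have : (r : ℝ) ^ 2 < s ^ 2 := by
        rw [hs2]
        exact_mod_cast hbig
      exact lt_of_pow_lt_pow_left₀ 2 hs0 this
    have hspos : 0 < s := lt_of_le_of_lt (Nat.cast_nonneg _) hrs
    let θ : Fin d → ℝ := fun i => -(L.pi n i : ℝ) / s
    have hθ : ∑ i, θ i ^ 2 = 1 := by
      have : ∀ i, θ i ^ 2 = (L.pi n i : ℝ) ^ 2 * (s ^ 2)⁻¹ := by
        intro i
        simp only [θ]
        field_simp
      rw [Finset.sum_congr rfl fun i _ => this i, ← Finset.sum_mul, ← bns_sq_cast, ← hs2]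
      exact mul_inv_cancel₀ (by positivity)
    have hθ' := ht hθ
    rw [Set.mem_iUnion₂] at hθ'
    obtain ⟨i, hi, hθi⟩ := hθ'
    refine ⟨i, hi, fun m hm => ?_⟩
    simp only [U, Set.mem_iInter, Set.mem_ofPred_eq] at hθi
    have h2 := hθi m hm
    have h3 : L.psi θ m = -(dot (fun i => (L.pi n i : ℝ)) (L.pi m)) / s := by
      unfold Lat.psi dot
      rw [neg_div, Finset.sum_div, ← Finset.sum_neg_distrib]
      refine Finset.sum_congr rfl fun j _ => ?_
      simp only [θ]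
      ring
    rw [h3] at h2
    have h4 : δ < -(dot (fun i => (L.pi n i : ℝ)) (L.pi m)) / s := lt_of_le_of_lt (hδt i hi) h2
    rw [lt_div_iff₀ hspos] at h4
    have h5 : (bnsSq (L.pi (n * m)) : ℝ) < bnsSq (L.pi n) := by
      rw [L.pi_mul n hn m (i.1.2.1 hm), bns_sq_add]
      have h6 : (bnsSq (L.pi m) : ℝ) ≤ Q := by exact_mod_cast hQ i hi m hm
      have h7 : (Q : ℝ) + 1 < 2 * δ * s := by
        have h8 : ((Q : ℝ) + 1) / (2 * δ) < s := lt_of_le_of_lt hr hrs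
        rw [div_lt_iff₀ (by positivity)] at h8
        linarith
      linarith
    exact_mod_cast h5
  -- induction
  have hind : ∀ k : ℕ, ∀ n ∈ N, bnsSq (L.pi n) ≤ k → ∀ x ∈ D,
      φ n x ∈ Tr φ {n' | n' ∈ N ∧ bnsSq (L.pi n') ≤ r ^ 2} (D : Set P) := by
    intro k
    induction k with
    | zero =>
      intro n hn hk x hx
      exact bns_mem_tr ⟨hn, hk.trans (Nat.zero_le _)⟩ hx
    | succ k ih =>
      intro n hn hk x hx
      by_cases hsm : bnsSq (L.pi n) ≤ r ^ 2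
      · exact bns_mem_tr ⟨hn, hsm⟩ hx
      · obtain ⟨i, hi, hm⟩ := hstep n hn (not_le.1 hsm)
        refine bns_act_tr (fun m hm' y hy => ?_) (i.1.2.2 hx)
        refine ih (n * m) (N.mul_mem hn (i.1.2.1 hm')) ?_ y hy
        have := hm m hm'
        omega
  have htop : Tr φ {n' | n' ∈ N ∧ bnsSq (L.pi n') ≤ r ^ 2} (D : Set P) = ⊤ := by
    rw [eq_top_iff, ← hgen]
    refine (Subgroup.closure_le _).2 ?_
    rintro x ⟨a, ha, y, hy, rfl⟩
    exact hind _ a ha le_rfl y hy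
  -- representatives
  choose x hxN hx using L.pi_surj
  apply h1
  refine ⟨((bns_sq_finite (r ^ 2)).toFinset ×ˢ D).image fun p => φ (x p.1) p.2, ?_⟩
  rw [eq_top_iff, ← htop]
  refine (Subgroup.closure_le _).2 ?_
  rintro y ⟨a, ⟨haN, hasq⟩, y, hy, rfl⟩
  have haN₁ : a * (x (L.pi a))⁻¹ ∈ N₁ := by
    have hm : a * (x (L.pi a))⁻¹ ∈ N := N.mul_mem haN (N.inv_mem (hxN _))
    refine (L.pi_ker _ hm).1 ?_
    have h2 := L.pi_mul (a * (x (L.pi a))⁻¹) hm (x (L.pi a)) (hxN _)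
    rw [inv_mul_cancel_right, hx] at h2
    exact left_eq_add.1 (by rw [add_comm]; exact h2)
  have h3 : φ a y = φ (a * (x (L.pi a))⁻¹) (φ (x (L.pi a)) y) := by
    rw [← MulAut.mul_apply, ← map_mul, inv_mul_cancel_right]
  rw [SetLike.mem_coe, h3]
  refine bns_mem_tr haN₁ ?_
  rw [Finset.mem_coe, Finset.mem_image]
  exact ⟨(L.pi a, y), by simpa using ⟨hasq, hy⟩, rfl⟩

/-- finite generation over a subgroup of finite index -/
theorem FGO_finite_index {A P : Type} [Group A] [Group P] {φ : A →* MulAut P}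
    {N N₂ : Subgroup A} (hle : N₂ ≤ N) (hfin : N₂.relIndex N ≠ 0) (hF : FGO φ N) :
    FGO φ N₂ := by
  classical
  obtain ⟨D, hD⟩ := hF
  have : (N₂.subgroupOf N).FiniteIndex := ⟨hfin⟩
  have : Finite (N ⧸ N₂.subgroupOf N) := inferInstance
  have := Fintype.ofFinite (N ⧸ N₂.subgroupOf N)
  refine ⟨((Finset.univ : Finset (N ⧸ N₂.subgroupOf N)) ×ˢ D).image
    fun p => φ ((p.1.out : N) : A)⁻¹ p.2, ?_⟩
  rw [eq_top_iff, ← hD]
  refine (Subgroup.closure_le _).2 ?_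
  rintro y ⟨a, ha, y, hy, rfl⟩
  let b : N := ⟨a, ha⟩
  let c : N ⧸ N₂.subgroupOf N := QuotientGroup.mk b⁻¹
  have hc : (c.out)⁻¹ * b⁻¹ ∈ N₂.subgroupOf N := by
    have : (QuotientGroup.mk c.out : N ⧸ N₂.subgroupOf N) = QuotientGroup.mk b⁻¹ :=
      QuotientGroup.out_eq' c
    exact QuotientGroup.eq.1 this
  have hc' : a * ((c.out : N) : A) ∈ N₂ := by
    have h2 := (N₂.subgroupOf N).inv_mem hc
    rw [Subgroup.mem_subgroupOf] at h2
    simpa [b] using h2
  have h3 : φ a y = φ (a * ((c.out : N) : A)) (φ ((c.out : N) : A)⁻¹ y) := by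
    rw [← MulAut.mul_apply, ← map_mul, mul_inv_cancel_right]
  rw [SetLike.mem_coe, h3]
  refine bns_mem_tr hc' ?_
  rw [Finset.mem_coe, Finset.mem_image]
  exact ⟨(c, y), by simpa using hy, rfl⟩

/-- `P` is finitely generated over `A` if there is a surjective cocycle and `A` is f.g. -/
theorem FGO_top {A P : Type} [Group A] [Group P] {φ : A →* MulAut P} {δ : A → P}
    (hA : Group.FG A) (hδ : Coc φ δ) : FGO φ (⊤ : Subgroup A) := by
  classical
  obtain ⟨S, hS⟩ := Group.fg_iff'.1 hA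
  obtain ⟨S, -, hS⟩ : ∃ S' : Finset A, S'.card = S ∧ Subgroup.closure (S' : Set A) = ⊤ := hS
  refine ⟨S.image δ, ?_⟩
  have hone : δ 1 = 1 := by
    have := hδ.mul 1 1
    rw [mul_one, map_one, MulAut.one_apply] at this
    exact left_eq_mul.1 this
  have hact : ∀ (a : A) (x : P), x ∈ Tr φ ((⊤ : Subgroup A) : Set A) ((S.image δ : Finset P) : Set P) →
      φ a x ∈ Tr φ ((⊤ : Subgroup A) : Set A) ((S.image δ : Finset P) : Set P) := by
    intro a x hx
    exact bns_act_tr (fun m _ y hy => bns_mem_tr (by simp) hy) hx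
  have key : ∀ a : A, δ a ∈ Tr φ ((⊤ : Subgroup A) : Set A) ((S.image δ : Finset P) : Set P) := by
    intro a
    have ha : a ∈ Subgroup.closure (S : Set A) := by rw [hS]; trivial
    induction ha using Subgroup.closure_induction with
    | mem x hx =>
      have : φ 1 (δ x) ∈ Tr φ ((⊤ : Subgroup A) : Set A) ((S.image δ : Finset P) : Set P) :=
        bns_mem_tr (by simp) (by
          rw [Finset.mem_coe]
          exact Finset.mem_image_of_mem _ hx)
      simpa using this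
    | one => rw [hone]; exact Subgroup.one_mem _
    | mul x y _ _ hx hy =>
      rw [hδ.mul]
      exact Subgroup.mul_mem _ hx (hact x _ hy)
    | inv x _ hx =>
      have h2 : δ x⁻¹ = φ x⁻¹ (δ x)⁻¹ := by
        have h3 := hδ.mul x⁻¹ x
        rw [inv_mul_cancel, hone] at h3
        rw [map_inv]
        exact eq_inv_of_mul_eq_one_left h3.symm
      rw [h2]
      exact hact _ _ (Subgroup.inv_mem _ hx)
  rw [eq_top_iff]
  intro p _
  obtain ⟨a, rfl⟩ := hδ.surj p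
  exact key a

/-- finitely generated over a finite subgroup: finitely generated -/
theorem FGO_finite {A P : Type} [Group A] [Group P] {φ : A →* MulAut P} {N : Subgroup A}
    (hN : Finite N) (hF : FGO φ N) : Group.FG P := by
  classical
  obtain ⟨D, hD⟩ := hF
  rw [Group.fg_iff]
  refine ⟨_, hD, ?_⟩
  have hfin : (N : Set A).Finite := hN
  refine Set.Finite.subset ((hfin.prod D.finite_toSet).image fun p => φ p.1 p.2) ?_
  rintro x ⟨a, ha, y, hy, rfl⟩
  exact ⟨(a, y), ⟨ha, hy⟩, rfl⟩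

end Pool.Agent.RPC
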