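import Pool.Agent.RPC.Filt

/-!
MODULE RPC/Can : the canonical (N, ψ)-equivariant norm.
P = Tr φ N D, D finite (so every p lies in the subgroup generated by finitely many φ n d).
B r := Tr φ {n | n ∈ N ∧ exp (-ψ n) ≤ r} D; use exists_filt.
* equivariance: φ n maps B r onto B (exp(-ψ n) r)  (φ n (φ m d) = φ (n m) d).  (filt_map with l = 1)
* ν d ≤ 1 for d ∈ D: d = φ 1 d ∈ B 1 (ψ 1 = 0).
* if ν d < 1 for all d ∈ D then D ⊆ B r for some r < 1 (D finite), and
  B r ≤ Tr φ {n ∈ N | 0 < ψ n} D.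
* last clause: let a ∈ A, l > 0, ψ(a n a⁻¹) = l ψ(n) for n ∈ N, ν (φ a d) ≤ C for d ∈ D, C ≥ 0.
  If p ∈ B r (r > 0) then φ a p is in the group generated by φ (a n a⁻¹) (φ a d), whose norm is
  exp(-l ψ n) ν (φ a d) ≤ r^l C.  Inf over r.
-/

set_option autoImplicit false

namespace Pool.Agent.RPC

theorem addi_one {A : Type} [Group A] {N : Subgroup A} {ψ : A → ℝ} (h : Addi N ψ) : ψ 1 = 0 := by
  have h1 := h 1 N.one_mem 1 N.one_mem
  rw [mul_one] at h1
  linarith

theorem addi_inv {A : Type} [Group A] {N : Subgroup A} {ψ : A → ℝ} (h : Addi N ψ) {n : A}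
    (hn : n ∈ N) : ψ n⁻¹ = -ψ n := by
  have h1 := h n hn n⁻¹ (N.inv_mem hn)
  rw [mul_inv_cancel, addi_one h] at h1
  linarith

/-- the filtration of the canonical norm -/
def CB {A P : Type} [Group A] [Group P] (φ : A →* MulAut P) (N : Subgroup A)
    (D : Finset P) (ψ : A → ℝ) (r : ℝ) : Subgroup P :=
  Tr φ {n | n ∈ N ∧ Real.exp (-(ψ n)) ≤ r} (D : Set P)

theorem cb_gen {A P : Type} [Group A] [Group P] {φ : A →* MulAut P} {N : Subgroup A}
    {D : Finset P} {ψ : A → ℝ} {r : ℝ} {n : A} (hn : n ∈ N) (h : Real.exp (-(ψ n)) ≤ r) {d : P}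
    (hd : d ∈ D) : φ n d ∈ CB φ N D ψ r :=
  Subgroup.subset_closure ⟨n, ⟨hn, h⟩, d, hd, rfl⟩

theorem cb_mono {A P : Type} [Group A] [Group P] {φ : A →* MulAut P} {N : Subgroup A}
    {D : Finset P} {ψ : A → ℝ} {r r' : ℝ} (h : r ≤ r') : CB φ N D ψ r ≤ CB φ N D ψ r' := by
  unfold CB Tr
  apply Subgroup.closure_mono
  rintro x ⟨n, hn, d, hd, rfl⟩
  exact ⟨n, ⟨hn.1, hn.2.trans h⟩, d, hd, rfl⟩

theorem cb_map {A P : Type} [Group A] [Group P] {φ : A →* MulAut P} {N : Subgroup A}
    {D : Finset P} {ψ : A → ℝ} (hadd : Addi N ψ) {r : ℝ} {n : A} (hn : n ∈ N) {p : P}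
    (hp : p ∈ CB φ N D ψ r) : φ n p ∈ CB φ N D ψ (Real.exp (-(ψ n)) * r) := by
  unfold CB Tr at hp
  induction hp using Subgroup.closure_induction with
  | mem x hx =>
    obtain ⟨m, hm, d, hd, rfl⟩ := hx
    have h1 : φ n (φ m d) = φ (n * m) d := by rw [map_mul]; rfl
    rw [h1]
    refine cb_gen (N.mul_mem hn hm.1) ?_ hd
    rw [hadd n hn m hm.1, neg_add, Real.exp_add]
    exact mul_le_mul_of_nonneg_left hm.2 (Real.exp_pos _).le
  | one => rw [map_one]; exact Subgroup.one_mem _
  | mul x y _ _ hx hy => rw [map_mul]; exact Subgroup.mul_mem _ hx hy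
  | inv x _ hx => rw [map_inv]; exact Subgroup.inv_mem _ hx

theorem cb_ex {A P : Type} [Group A] [Group P] {φ : A →* MulAut P} {N : Subgroup A}
    {D : Finset P} {ψ : A → ℝ} (hgen : Tr φ (N : Set A) (D : Set P) = ⊤) (p : P) :
    ∃ r, 0 < r ∧ p ∈ CB φ N D ψ r := by
  have hp : p ∈ Tr φ (N : Set A) (D : Set P) := by rw [hgen]; exact Subgroup.mem_top p
  unfold Tr at hp
  induction hp using Subgroup.closure_induction with
  | mem x hx =>
    obtain ⟨m, hm, d, hd, rfl⟩ := hx
    exact ⟨Real.exp (-(ψ m)), Real.exp_pos _, cb_gen hm le_rfl hd⟩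
  | one => exact ⟨1, one_pos, Subgroup.one_mem _⟩
  | mul x y _ _ hx hy =>
    obtain ⟨r, hr, hxr⟩ := hx
    obtain ⟨s, hs, hys⟩ := hy
    exact ⟨max r s, lt_max_of_lt_left hr, Subgroup.mul_mem _ (cb_mono (le_max_left r s) hxr)
      (cb_mono (le_max_right r s) hys)⟩
  | inv x _ hx =>
    obtain ⟨r, hr, hxr⟩ := hx
    exact ⟨r, hr, Subgroup.inv_mem _ hxr⟩

theorem exists_can {A P : Type} [Group A] [Group P] (φ : A →* MulAut P) (N : Subgroup A)
    (D : Finset P) (ψ : A → ℝ) (hadd : Addi N ψ) (hgen : Tr φ (N : Set A) (D : Set P) = ⊤) :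
    ∃ ν : UNorm P, Eqv φ N ψ ν ∧ (∀ d ∈ D, ν.N d ≤ 1) ∧
      ((∃ d ∈ D, ν.N d = 1) ∨
        (D : Set P) ⊆ (Tr φ {n | n ∈ N ∧ 0 < ψ n} (D : Set P) : Set P)) ∧
      (∀ (a : A) (l C : ℝ), 0 < l → 0 ≤ C →
        (∀ n ∈ N, a * n * a⁻¹ ∈ N ∧ ψ (a * n * a⁻¹) = l * ψ n) →
        (∀ d ∈ D, ν.N (φ a d) ≤ C) → ∀ p, ν.N (φ a p) ≤ C * (ν.N p) ^ l) := by
  obtain ⟨ν, h1, h2⟩ := exists_filt (CB φ N D ψ) (fun r r' _ h => cb_mono h) (cb_ex hgen)
  have hone : ψ 1 = 0 := addi_one hadd
  have heqv : Eqv φ N ψ ν := by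
    intro n hn p
    have h3 := filt_map (CB φ N D ψ) ν h1 h2 (φ n) 1 (Real.exp (-(ψ n))) one_pos (Real.exp_pos _)
      (by
        intro r q _
        rw [Real.rpow_one]
        constructor
        · intro hq
          exact cb_map hadd hn hq
        · intro hq
          have h4 := cb_map hadd (N.inv_mem hn) hq
          have h5 : φ n⁻¹ (φ n q) = q := by
            rw [← MulAut.mul_apply, ← map_mul, inv_mul_cancel, map_one]; rfl
          have h6 : Real.exp (-(ψ n⁻¹)) * (Real.exp (-(ψ n)) * r) = r := by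
            rw [addi_inv hadd hn, ← mul_assoc, ← Real.exp_add]
            simp
          rw [h5, h6] at h4
          exact h4) p
    rw [Real.rpow_one] at h3
    exact h3
  have hd1 : ∀ d ∈ D, ν.N d ≤ 1 := by
    intro d hd
    apply h2 d 1 one_pos
    have h3 := cb_gen (φ := φ) (N := N) (ψ := ψ) (r := 1) N.one_mem (by rw [hone]; simp) hd
    rw [map_one] at h3
    exact h3
  refine ⟨ν, heqv, hd1, ?_, ?_⟩
  · by_cases hex : ∃ d ∈ D, ν.N d = 1
    · exact Or.inl hex
    · right
      have hlt : ∀ d ∈ D, ν.N d < 1 := fun d hd =>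
        lt_of_le_of_ne (hd1 d hd) fun h => hex ⟨d, hd, h⟩
      intro d hd
      have hne : D.Nonempty := ⟨d, hd⟩
      obtain ⟨d0, hd0, hmax⟩ := D.exists_max_image ν.N hne
      have h3 : ν.N d < (1 + ν.N d0) / 2 := by
        have := hmax d hd
        have := hlt d0 hd0
        linarith
      have h4 := h1 d _ h3
      have h5 : (1 + ν.N d0) / 2 < 1 := by
        have := hlt d0 hd0
        linarith
      unfold CB at h4
      have h6 : Tr φ {n | n ∈ N ∧ Real.exp (-(ψ n)) ≤ (1 + ν.N d0) / 2} (D : Set P) ≤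
          Tr φ {n | n ∈ N ∧ 0 < ψ n} (D : Set P) := by
        unfold Tr
        apply Subgroup.closure_mono
        rintro x ⟨n, hn, e, he, rfl⟩
        refine ⟨n, ⟨hn.1, ?_⟩, e, he, rfl⟩
        have h7 : Real.exp (-(ψ n)) < 1 := lt_of_le_of_lt hn.2 h5
        rw [Real.exp_lt_one_iff] at h7
        linarith
      exact h6 h4
  · intro a l C hl hC ha haD p
    have key : ∀ r : ℝ, 0 < r → ∀ q ∈ CB φ N D ψ r, ν.N (φ a q) ≤ C * r ^ l := by
      intro r hr q hq
      have hnn : 0 ≤ C * r ^ l := mul_nonneg hC (Real.rpow_nonneg hr.le l)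
      unfold CB Tr at hq
      induction hq using Subgroup.closure_induction with
      | mem x hx =>
        obtain ⟨n, hn, d, hd, rfl⟩ := hx
        have h3 : φ a (φ n d) = φ (a * n * a⁻¹) (φ a d) := by
          rw [← MulAut.mul_apply, ← MulAut.mul_apply, ← map_mul, ← map_mul]
          congr 2
          group
        obtain ⟨h4, h5⟩ := ha n hn.1
        rw [h3, heqv _ h4, h5, mul_comm]
        apply mul_le_mul (haD d hd) _ (Real.exp_pos _).le hC
        have h6 : Real.exp (-(l * ψ n)) = (Real.exp (-(ψ n))) ^ l := by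
          rw [← Real.exp_mul]
          congr 1
          ring
        rw [h6]
        exact Real.rpow_le_rpow (Real.exp_pos _).le hn.2 hl.le
      | one => rw [map_one, ν.one]; exact hnn
      | mul x y _ _ hx hy => rw [map_mul]; exact (ν.mul _ _).trans (max_le hx hy)
      | inv x _ hx => rw [map_inv, ν.inv]; exact hx
    have hlim : Filter.Tendsto (fun ε : ℝ => C * (ν.N p + ε) ^ l) (nhdsWithin 0 (Set.Ioi 0))
        (nhds (C * (ν.N p) ^ l)) := by
      have hc : ContinuousAt (fun ε : ℝ => C * (ν.N p + ε) ^ l) 0 := by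
        apply ContinuousAt.mul continuousAt_const
        apply ContinuousAt.rpow_const (by fun_prop)
        exact Or.inr hl.le
      have h3 := hc.tendsto
      rw [add_zero] at h3
      exact h3.mono_left nhdsWithin_le_nhds
    apply ge_of_tendsto hlim
    filter_upwards [self_mem_nhdsWithin] with ε hε
    have hε' : 0 < ε := hε
    have hr : 0 < ν.N p + ε := by
      have := ν.nonneg p
      linarith
    exact key _ hr p (h1 p _ (by linarith))

/-- if there is a nonzero equivariant norm, the canonical norm takes the value 1 on `D` -/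
theorem not_sub_of_norm {A P : Type} [Group A] [Group P] (φ : A →* MulAut P) (N : Subgroup A)
    (D : Finset P) (ψ : A → ℝ) (hgen : Tr φ (N : Set A) (D : Set P) = ⊤)
    (ν : UNorm P) (hν : Eqv φ N ψ ν) (hnz : ∃ p, ν.N p ≠ 0) :
    ¬ ((D : Set P) ⊆ (Tr φ {n | n ∈ N ∧ 0 < ψ n} (D : Set P) : Set P)) := by
  intro hsub
  have hDne : D.Nonempty := by
    rw [Finset.nonempty_iff_ne_empty]
    intro h0
    obtain ⟨p, hp⟩ := hnz
    have hp1 : p ∈ Tr φ (N : Set A) (D : Set P) := by rw [hgen]; exact Subgroup.mem_top p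
    have h1 : p = 1 := by
      unfold Tr at hp1
      have h2 : {x : P | ∃ a ∈ (N : Set A), ∃ d ∈ (D : Set P), x = φ a d} = ∅ := by
        rw [h0]
        ext x
        simp
      rw [h2, Subgroup.closure_empty] at hp1
      exact Subgroup.mem_bot.1 hp1
    rw [h1, ν.one] at hp
    exact hp rfl
  obtain ⟨d0, hd0, hmax⟩ := D.exists_max_image ν.N hDne
  have hM : 0 < ν.N d0 := by
    rcases (ν.nonneg d0).lt_or_eq with h | h
    · exact h
    · exfalso
      obtain ⟨p, hp⟩ := hnz
      have hp1 : p ∈ Tr φ (N : Set A) (D : Set P) := by rw [hgen]; exact Subgroup.mem_top p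
      have h1 : ν.N p = 0 := by
        unfold Tr at hp1
        induction hp1 using Subgroup.closure_induction with
        | mem x hx =>
          obtain ⟨n, hn, d, hd, rfl⟩ := hx
          rw [hν n hn]
          have h2 : ν.N d = 0 := le_antisymm ((hmax d hd).trans h.symm.le) (ν.nonneg d)
          rw [h2, mul_zero]
        | one => exact ν.one
        | mul x y _ _ hx hy =>
          apply le_antisymm _ (ν.nonneg _)
          refine (ν.mul x y).trans ?_
          have hx' : ν.N x = 0 := by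
            by_contra h3
            exact h3 (hx h3)
          have hy' : ν.N y = 0 := by
            by_contra h3
            exact h3 (hy h3)
          rw [hx', hy', max_self]
        | inv x _ hx =>
          have hx' : ν.N x = 0 := by
            by_contra h3
            exact h3 (hx h3)
          rw [ν.inv, hx']
      exact hp h1
  have h1 : d0 ∈ Tr φ {n | n ∈ N ∧ 0 < ψ n} (D : Set P) := hsub hd0
  have h2 : ∀ x ∈ Tr φ {n | n ∈ N ∧ 0 < ψ n} (D : Set P), ν.N x < ν.N d0 := by
    intro x hx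
    unfold Tr at hx
    induction hx using Subgroup.closure_induction with
    | mem x hx =>
      obtain ⟨n, hn, d, hd, rfl⟩ := hx
      rw [hν n hn.1]
      have h3 : Real.exp (-(ψ n)) < 1 := by
        rw [Real.exp_lt_one_iff]
        have := hn.2
        linarith
      calc Real.exp (-(ψ n)) * ν.N d ≤ Real.exp (-(ψ n)) * ν.N d0 :=
            mul_le_mul_of_nonneg_left (hmax d hd) (Real.exp_pos _).le
        _ < 1 * ν.N d0 := mul_lt_mul_of_pos_right h3 hM
        _ = ν.N d0 := one_mul _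
    | one => rw [ν.one]; exact hM
    | mul x y _ _ hx hy => exact lt_of_le_of_lt (ν.mul x y) (max_lt hx hy)
    | inv x _ hx => rw [ν.inv]; exact hx
  exact lt_irrefl _ (h2 d0 h1)

end Pool.Agent.RPC
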