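import Pool.Agent.RPC.PCBasic

/-!
MODULE RPC/Chars : the common kernel `KR L` of the real characters of a subgroup L.
All statements are elementary: real characters of L are functions χ : A → ℝ additive on L
(values outside L are irrelevant; extend a hom ↥L → ℝ by 0).
* `KR_fin` : L is f.g., L/[L,L] is a f.g. abelian group; the common kernel of its homs to ℝ is its
  torsion subgroup, which is finite.
* `KR_ne` : if L/[L,L] is infinite, it has a nonzero hom to ℝ.
-/

set_option autoImplicit false

namespace Pool.Agent.RPC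

theorem KR_le {A : Type} [Group A] (L : Subgroup A) : KR L ≤ L := fun _ h => h.1

theorem KR_apply {A : Type} [Group A] {L : Subgroup A} {χ : A → ℝ} (h : Addi L χ) {x : A}
    (hx : x ∈ KR L) : χ x = 0 := hx.2 χ h

theorem Addi.map_one75 {A : Type} [Group A] {L : Subgroup A} {χ : A → ℝ} (h : Addi L χ) : χ 1 = 0 := by
  have := h 1 L.one_mem 1 L.one_mem
  rw [mul_one] at this
  linarith

theorem Addi.map_inv75 {A : Type} [Group A] {L : Subgroup A} {χ : A → ℝ} (h : Addi L χ) {x : A}
    (hx : x ∈ L) : χ x⁻¹ = - χ x := by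
  have := h x hx x⁻¹ (L.inv_mem hx)
  rw [mul_inv_cancel, h.map_one75] at this
  linarith

theorem Addi.map_pow75 {A : Type} [Group A] {L : Subgroup A} {χ : A → ℝ} (h : Addi L χ) {x : A}
    (hx : x ∈ L) (k : ℕ) : χ (x ^ k) = k * χ x := by
  induction k with
  | zero => simp [h.map_one75]
  | succ k ih =>
      rw [pow_succ, h _ (L.pow_mem hx k) _ hx, ih]
      push_cast
      ring

theorem KR_normal {A : Type} [Group A] (L : Subgroup A) (h : L.Normal) : (KR L).Normal := by
  refine ⟨fun x hx g => ⟨h.conj_mem x hx.1 g, fun χ hχ => ?_⟩⟩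
  have h1 : Addi L (fun y => χ (g * y * g⁻¹)) := by
    intro n hn m hm
    have := hχ (g * n * g⁻¹) (h.conj_mem n hn g) (g * m * g⁻¹) (h.conj_mem m hm g)
    rw [← this]
    group
  exact hx.2 _ h1

theorem KR_mono {A : Type} [Group A] {L₂ L : Subgroup A} (h : L₂ ≤ L) : KR L₂ ≤ KR L := by
  intro x hx
  exact ⟨h hx.1, fun χ hχ => hx.2 χ (fun n hn m hm => hχ n (h hn) m (h hm))⟩

theorem KR_comm {A : Type} [Group A] (L : Subgroup A) : ⁅L, L⁆ ≤ KR L := by
  rw [Subgroup.commutator_le]
  intro a ha b hb
  refine ⟨?_, fun χ hχ => ?_⟩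
  · rw [commutatorElement_def]
    exact L.mul_mem (L.mul_mem (L.mul_mem ha hb) (L.inv_mem ha)) (L.inv_mem hb)
  · rw [commutatorElement_def,
      hχ _ (L.mul_mem (L.mul_mem ha hb) (L.inv_mem ha)) _ (L.inv_mem hb),
      hχ _ (L.mul_mem ha hb) _ (L.inv_mem ha), hχ _ ha _ hb, hχ.map_inv75 ha, hχ.map_inv75 hb]
    ring

theorem KR_isol {A : Type} [Group A] (L : Subgroup A) {x : A} (hx : x ∈ L) {k : ℕ} (hk : 0 < k)
    (h : x ^ k ∈ KR L) : x ∈ KR L := by
  refine ⟨hx, fun χ hχ => ?_⟩
  have h1 := h.2 χ hχ
  rw [hχ.map_pow75 hx k] at h1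
  have hk' : (k : ℝ) ≠ 0 := by positivity
  rcases mul_eq_zero.mp h1 with h2 | h2
  · exact absurd h2 hk'
  · exact h2

/-- in a finitely generated additive abelian group, an element killed by all real characters is
torsion -/
theorem tors_of_char75 {M : Type} [AddCommGroup M] [Module.Finite ℤ M] (x : M)
    (hx : ∀ f : M →+ ℝ, f x = 0) : x ∈ Submodule.torsion ℤ M := by
  by_contra hc
  let T := Submodule.torsion ℤ M
  have : Module.Free ℤ (M ⧸ T) := by
    have : Module.IsTorsionFree ℤ (M ⧸ T) := inferInstance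
    infer_instance
  let b := Module.Free.chooseBasis ℤ (M ⧸ T)
  have hne : (Submodule.Quotient.mk x : M ⧸ T) ≠ 0 := by
    intro h
    exact hc ((Submodule.Quotient.mk_eq_zero T).mp h)
  apply hne
  apply b.repr.injective
  ext i
  rw [map_zero, Finsupp.zero_apply]
  have := hx ((Int.castAddHom ℝ).comp
    ((b.coord i).toAddMonoidHom.comp (T.mkQ).toAddMonoidHom))
  simpa using this

theorem KR_fin {A : Type} [Group A] (hA : PC A) (L : Subgroup A) :
    (⁅L, L⁆ : Subgroup A).relIndex (KR L) ≠ 0 := by
  have hPL : PC L := hA.sub L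
  have hPQ : PC (Abelianization L) := hPL.map Abelianization.of (QuotientGroup.mk_surjective)
  have hfg : Group.FG (Abelianization L) := hPQ.fg
  let M := Additive (Abelianization L)
  have hM : AddGroup.FG M := AddGroup.fg_iff_mul_fg.mpr hfg
  have hMf : Module.Finite ℤ M := Module.Finite.iff_addGroup_fg.mpr hM
  have htf : Finite (Submodule.torsion ℤ M) := by
    apply Module.finite_of_fg_torsion
    exact Submodule.torsion_isTorsion
  -- the hom from `KR L`
  let f : KR L →* Abelianization L := Abelianization.of.comp (Subgroup.inclusion (KR_le L))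
  have hker : f.ker = (⁅L, L⁆ : Subgroup A).subgroupOf (KR L) := by
    ext x
    rw [MonoidHom.mem_ker, Subgroup.mem_subgroupOf]
    have h1 : f x = 1 ↔ (Subgroup.inclusion (KR_le L) x) ∈ commutator L := by
      change Abelianization.of (Subgroup.inclusion (KR_le L) x) = 1 ↔ _
      rw [← MonoidHom.mem_ker, Abelianization.ker_of]
    rw [h1]
    have h2 : (⁅L, L⁆ : Subgroup A) = (commutator L).map L.subtype := by
      rw [commutator_def, Subgroup.map_commutator, ← MonoidHom.range_eq_map, Subgroup.range_subtype]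
    rw [h2]
    constructor
    · intro h
      exact ⟨_, h, rfl⟩
    · rintro ⟨y, hy, hyx⟩
      have : y = Subgroup.inclusion (KR_le L) x := Subtype.ext hyx
      rw [← this]; exact hy
  have hran : Finite f.range := by
    have key : ∀ y : f.range, (Additive.ofMul (y : Abelianization L) : M) ∈
        Submodule.torsion ℤ M := by
      rintro ⟨_, x, rfl⟩
      apply tors_of_char75
      intro g
      classical
      have hAd : Addi L (fun a => if h : a ∈ L then g (Additive.ofMul (Abelianization.of ⟨a, h⟩))
          else 0) := by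
        intro n hn m hm
        beta_reduce
        rw [dif_pos hn, dif_pos hm, dif_pos (L.mul_mem hn hm)]
        rw [← map_add, ← ofMul_mul, ← map_mul]
        rfl
      have := KR_apply hAd x.2
      rw [dif_pos (KR_le L x.2)] at this
      exact this
    exact Finite.of_injective (fun y : f.range => (⟨_, key y⟩ : Submodule.torsion ℤ M))
      (fun a b h => Subtype.ext (by
        have := congrArg Subtype.val h
        exact this))
  rw [Subgroup.relIndex, ← hker, Subgroup.index_ker]
  exact Nat.card_pos.ne'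

theorem KR_ne {A : Type} [Group A] (hA : PC A) (L : Subgroup A)
    (h : (⁅L, L⁆ : Subgroup A).relIndex L = 0) : (KR L).relIndex L = 0 := by
  have h1 := Subgroup.relIndex_mul_relIndex _ _ _ (KR_comm L) (KR_le L)
  rw [h] at h1
  rcases mul_eq_zero.mp h1 with h2 | h2
  · exact absurd h2 (KR_fin hA L)
  · exact h2

end Pool.Agent.RPC
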