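import Mathlib

/-!
RPC : frozen statement S03053 (MP_cad4a2_al), radical G = AB with A, B polycyclic is polycyclic.
Definitions.  The complete paper proof is /team-store/RPC_proof.txt.
-/

set_option autoImplicit false

namespace Pool.Agent.RPC

/-- polycyclic, in the form of the frozen statement -/
def PC (G : Type) [Group G] : Prop := IsSolvable G ∧ ∀ K : Subgroup G, K.FG

/-- locally nilpotent -/
def LN (P : Type) [Group P] : Prop :=
  ∀ s : Finset P, Group.IsNilpotent (Subgroup.closure (↑s : Set P))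

/-- surjective cocycle for the action `φ` -/
structure Coc {A P : Type} [Group A] [Group P] (φ : A →* MulAut P) (δ : A → P) : Prop where
  mul : ∀ a b, δ (a * b) = δ a * φ a (δ b)
  surj : Function.Surjective δ

/-- the core statement for a group `A` -/
def Core (A : Type) [Group A] : Prop :=
  ∀ (P : Type) [Group P] (φ : A →* MulAut P) (δ : A → P), Coc φ δ → LN P → Group.FG P

/-- `W` is invariant under the action `φ` -/
def Inv {A P : Type} [Group A] [Group P] (φ : A →* MulAut P) (W : Subgroup P) : Prop :=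
  ∀ a : A, ∀ p ∈ W, φ a p ∈ W

/-- minimal configuration -/
structure MC {A P : Type} [Group A] [Group P] (φ : A →* MulAut P) (δ : A → P) : Prop where
  pc : PC A
  coc : Coc φ δ
  ln : LN P
  nfg : ¬ Group.FG P
  m1 : ∀ W : Subgroup P, W.FG → Inv φ W → W = ⊥
  m2 : ∀ W : Subgroup P, Inv φ W → W ≠ ⊥ → W.FiniteIndex
  ih : ∀ K : Subgroup A, ¬ K.FiniteIndex → Core K

/-- ultrametric (pseudo)norm on a group -/
structure UNorm (P : Type) [Group P] where
  N : P → ℝ
  nonneg : ∀ p, 0 ≤ N p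
  one : N 1 = 0
  inv : ∀ p, N p⁻¹ = N p
  mul : ∀ p q, N (p * q) ≤ max (N p) (N q)

/-- `ψ` is additive on `N` -/
def Addi {A : Type} [Group A] (N : Subgroup A) (ψ : A → ℝ) : Prop :=
  ∀ n ∈ N, ∀ m ∈ N, ψ (n * m) = ψ n + ψ m

/-- the norm is `(N, ψ)`-equivariant -/
def Eqv {A P : Type} [Group A] [Group P] (φ : A →* MulAut P) (N : Subgroup A) (ψ : A → ℝ)
    (ν : UNorm P) : Prop :=
  ∀ n ∈ N, ∀ p, ν.N (φ n p) = Real.exp (-(ψ n)) * ν.N p

/-- subgroup generated by the translates `φ a d`, `a ∈ S`, `d ∈ D` -/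
def Tr {A P : Type} [Group A] [Group P] (φ : A →* MulAut P) (S : Set A) (D : Set P) :
    Subgroup P :=
  Subgroup.closure {x | ∃ a ∈ S, ∃ d ∈ D, x = φ a d}

/-- `P` is finitely generated over `N` -/
def FGO {A P : Type} [Group A] [Group P] (φ : A →* MulAut P) (N : Subgroup A) : Prop :=
  ∃ D : Finset P, Tr φ (N : Set A) (D : Set P) = ⊤

/-- a lattice quotient `N / N₁ = ℤ^d` with the conjugation action of `A` -/
structure Lat {A : Type} [Group A] (N N₁ : Subgroup A) (d : ℕ) where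
  pi : A → (Fin d → ℤ)
  M : A → Matrix (Fin d) (Fin d) ℤ
  pi_mul : ∀ n ∈ N, ∀ m ∈ N, pi (n * m) = pi n + pi m
  pi_surj : ∀ z, ∃ n ∈ N, pi n = z
  pi_ker : ∀ n ∈ N, (pi n = 0 ↔ n ∈ N₁)
  M_mul : ∀ a b, M (a * b) = M a * M b
  M_one : M 1 = 1
  conj : ∀ a, ∀ n ∈ N, pi (a * n * a⁻¹) = (M a).mulVec (pi n)

/-- real scalar product of a real and an integer vector -/
def dot {d : ℕ} (θ : Fin d → ℝ) (z : Fin d → ℤ) : ℝ := ∑ i, θ i * (z i : ℝ)

/-- real scalar product -/
def rdot {d : ℕ} (θ e : Fin d → ℝ) : ℝ := ∑ i, θ i * e i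

/-- the character of `N` attached to `θ` -/
def Lat.psi {A : Type} [Group A] {N N₁ : Subgroup A} {d : ℕ} (L : Lat N N₁ d)
    (θ : Fin d → ℝ) (n : A) : ℝ := dot θ (L.pi n)

/-- `θ_a = M_a^T θ` -/
def Lat.th {A : Type} [Group A] {N N₁ : Subgroup A} {d : ℕ} (L : Lat N N₁ d)
    (a : A) (θ : Fin d → ℝ) : Fin d → ℝ :=
  Matrix.vecMul θ ((L.M a).map (fun z : ℤ => (z : ℝ)))

/-- the set of `θ ≠ 0` for which there is a non-zero `(N, ψ_θ)`-equivariant norm on `P` -/
def Sig {A P : Type} [Group A] [Group P] (φ : A →* MulAut P) {N N₁ : Subgroup A} {d : ℕ}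
    (L : Lat N N₁ d) : Set (Fin d → ℝ) :=
  {θ | θ ≠ 0 ∧ ∃ ν : UNorm P, (∃ p, ν.N p ≠ 0) ∧ Eqv φ N (L.psi θ) ν}

/-- bounded function -/
def Bdd {A : Type} (f : A → ℝ) : Prop := ∃ C, ∀ x, |f x| ≤ C

/-- right invariant mean on the bounded functions on `A` -/
structure RMean (A : Type) [Group A] where
  m : (A → ℝ) → ℝ
  add : ∀ f g, Bdd f → Bdd g → m (fun x => f x + g x) = m f + m g
  smul : ∀ (c : ℝ) (f), Bdd f → m (fun x => c * f x) = c * m f
  mono : ∀ f g, Bdd f → Bdd g → (∀ x, f x ≤ g x) → m f ≤ m g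
  one : m (fun _ => 1) = 1
  inv : ∀ (f) (c : A), Bdd f → m (fun x => f (x * c)) = m f

open Classical in
/-- integral over a subset -/
noncomputable def RMean.on {A : Type} [Group A] (μ : RMean A) (S : Set A) (f : A → ℝ) : ℝ :=
  μ.m (fun y => if y ∈ S then f y else 0)

/-- measure of a subset -/
noncomputable def RMean.mu {A : Type} [Group A] (μ : RMean A) (S : Set A) : ℝ :=
  μ.on S (fun _ => 1)

/-- common kernel of the real characters of the subgroup `L` -/
def KR {A : Type} [Group A] (L : Subgroup A) : Subgroup A where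
  carrier := {x | x ∈ L ∧ ∀ χ : A → ℝ, Addi L χ → χ x = 0}
  mul_mem' := by
    rintro a b ⟨ha, ha'⟩ ⟨hb, hb'⟩
    refine ⟨L.mul_mem ha hb, fun χ hχ => ?_⟩
    rw [hχ a ha b hb, ha' χ hχ, hb' χ hχ, add_zero]
  one_mem' := by
    refine ⟨L.one_mem, fun χ hχ => ?_⟩
    have := hχ 1 L.one_mem 1 L.one_mem
    rw [mul_one] at this
    linarith
  inv_mem' := by
    rintro a ⟨ha, ha'⟩
    refine ⟨L.inv_mem ha, fun χ hχ => ?_⟩
    have h1 := hχ 1 L.one_mem 1 L.one_mem
    rw [mul_one] at h1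
    have := hχ a ha a⁻¹ (L.inv_mem ha)
    rw [mul_inv_cancel, ha' χ hχ] at this
    linarith

/-- stability: the real characters of `A`-normal subgroups of finite index come from `L` -/
def Stab {A : Type} [Group A] (L : Subgroup A) : Prop :=
  ∀ L₂ : Subgroup A, L₂.Normal → L₂ ≤ L → L₂.relIndex L ≠ 0 → KR L₂ = KR L ⊓ L₂

/-- the point at infinity of the second complement: distance function `F` to it -/
structure Pt {A P : Type} [Group A] [Group P] (φ : A →* MulAut P) (δ : A → P)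
    (N : Subgroup A) (ψ : A → ℝ) (ν : UNorm P) (F : P → ℝ) : Prop where
  nonneg : ∀ p, 0 ≤ F p
  tri1 : ∀ p q, F p ≤ max (F q) (ν.N (q⁻¹ * p))
  tri2 : ∀ p q, ν.N (p⁻¹ * q) ≤ max (F p) (F q)
  eqv : ∀ n ∈ N, ∀ p, F (δ n * φ n p) = Real.exp (-(ψ n)) * F p

end Pool.Agent.RPC
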