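import Pool.Agent.RPC.Point

/-!
MODULE RPC/FBig : data of Lemma F; elements that are large for finitely many translated norms.
`big`: for every finite Y ⊆ A and C there is p with ν (φ y p) > C for all y ∈ Y.
Proof.  WLOG C > 0.  H_C = {p | ν p ≤ C} is a subgroup.  It has infinite index in P: take n ∈ N with
β = ψ n > 0; φ (n^k) (k ∈ ℤ) maps H_C onto H_{C exp(-kβ)}; if H_C had finite index, all
H_{C exp(-kβ)} would have the same finite index, being nested they are equal; then every p is in H_C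
(k → -∞) and ν p ≤ C exp(-kβ) for all k, so ν = 0, contradiction.
{p | ν (φ y p) ≤ C} is the image of H_C under an automorphism, so of infinite index; by B.H. Neumann
(Mathlib `Subgroup.exists_finiteIndex_of_leftCoset_cover`) these finitely many subgroups do not cover P.
-/

set_option autoImplicit false

open scoped Pointwise

namespace Pool.Agent.RPC

/-- data of Lemma F -/
structure FDat {A P : Type} [Group A] [Group P] (φ : A →* MulAut P) (A₀ N : Subgroup A)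
    (ν : UNorm P) (rho b : A → ℝ) : Prop where
  fin : A₀.FiniteIndex
  le : N ≤ A₀
  norm : N.Normal
  nz : ∃ p, ν.N p ≠ 0
  pos : ∀ a ∈ A₀, 0 < rho a
  aff : ∀ a ∈ A₀, ∀ p, ν.N (φ a p) = (ν.N p) ^ (rho a) * Real.exp (-(b a))
  rhoN : ∀ n ∈ N, rho n = 1
  bN : Addi N b
  b0 : ∃ n ∈ N, b n ≠ 0

variable {A P : Type} [Group A] [Group P] {φ : A →* MulAut P} {δ : A → P} {N : Subgroup A}
  {ψ : A → ℝ} {ν : UNorm P}

theorem FDat.eqv {A₀ : Subgroup A} {rho b : A → ℝ} (h : FDat φ A₀ N ν rho b) : Eqv φ N b ν := by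
  intro n hn p
  rw [h.aff n (h.le hn) p, h.rhoN n hn, Real.rpow_one, mul_comm]

namespace FBig

/-- the ball of radius `C` as a subgroup -/
def HC (ν : UNorm P) (C : ℝ) (hC : 0 ≤ C) : Subgroup P where
  carrier := {p | ν.N p ≤ C}
  mul_mem' := by
    intro a b ha hb
    exact (ν.mul a b).trans (max_le ha hb)
  one_mem' := by
    show ν.N 1 ≤ C
    rw [ν.one]
    exact hC
  inv_mem' := by
    intro a ha
    show ν.N a⁻¹ ≤ C
    rw [ν.inv]
    exact ha

theorem mem_HC {C : ℝ} (hC : 0 ≤ C) (p : P) : p ∈ HC ν C hC ↔ ν.N p ≤ C := Iff.rfl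

theorem psi_one (hψ : Addi N ψ) : ψ 1 = 0 := by
  have h := hψ 1 N.one_mem 1 N.one_mem
  rw [mul_one] at h
  linarith

theorem psi_inv (hψ : Addi N ψ) {n : A} (hn : n ∈ N) : ψ n⁻¹ = -ψ n := by
  have h := hψ n hn n⁻¹ (N.inv_mem hn)
  rw [mul_inv_cancel, psi_one hψ] at h
  linarith

theorem psi_pow (hψ : Addi N ψ) {n : A} (hn : n ∈ N) (k : ℕ) : ψ (n ^ k) = k * ψ n := by
  induction k with
  | zero => rw [pow_zero, psi_one hψ, Nat.cast_zero, zero_mul]
  | succ k ih =>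
    rw [pow_succ, hψ _ (N.pow_mem hn k) _ hn, ih]
    push_cast
    ring

theorem exists_large (hψ : Addi N ψ) (hψ0 : ∃ n ∈ N, ψ n ≠ 0) (x : ℝ) : ∃ m ∈ N, x < ψ m := by
  have h1 : ∃ n ∈ N, 0 < ψ n := by
    obtain ⟨n, hn, h0⟩ := hψ0
    rcases lt_or_gt_of_ne h0 with h | h
    · refine ⟨n⁻¹, N.inv_mem hn, ?_⟩
      rw [psi_inv hψ hn]
      linarith
    · exact ⟨n, hn, h⟩
  obtain ⟨n, hn, h⟩ := h1
  obtain ⟨k, hk⟩ := exists_nat_gt (x / ψ n)
  refine ⟨n ^ k, N.pow_mem hn k, ?_⟩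
  rw [psi_pow hψ hn]
  rwa [div_lt_iff₀ h] at hk

theorem index_HC (hν : Eqv φ N ψ ν) {m : A} (hm : m ∈ N) {C : ℝ} (hC : 0 ≤ C)
    (hC' : 0 ≤ C * Real.exp (-(ψ m))) :
    (HC ν (C * Real.exp (-(ψ m))) hC').index = (HC ν C hC).index := by
  have h1 : HC ν C hC = (HC ν (C * Real.exp (-(ψ m))) hC').comap (φ m).toMonoidHom := by
    ext p
    rw [Subgroup.mem_comap, mem_HC, mem_HC]
    show ν.N p ≤ C ↔ ν.N (φ m p) ≤ C * Real.exp (-(ψ m))
    rw [hν m hm p, mul_comm]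
    exact (mul_le_mul_iff_left₀ (Real.exp_pos _)).symm
  rw [h1]
  exact (Subgroup.index_comap_of_surjective _ (φ m).surjective).symm

theorem HC_not_finite (hψ : Addi N ψ) (hψ0 : ∃ n ∈ N, ψ n ≠ 0) (hν : Eqv φ N ψ ν)
    (hnz : ∃ p, ν.N p ≠ 0) {C : ℝ} (hC : 0 < C) : ¬ (HC ν C hC.le).FiniteIndex := by
  intro hf
  obtain ⟨p, hp⟩ := hnz
  have hp0 : 0 < ν.N p := lt_of_le_of_ne (ν.nonneg p) (Ne.symm hp)
  obtain ⟨m1, hm1, h1⟩ := exists_large hψ hψ0 (Real.log (ν.N p / C))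
  obtain ⟨m2, hm2, h2⟩ := exists_large hψ hψ0 (Real.log (C / ν.N p))
  have hC1 : 0 < C * Real.exp (-(ψ m1⁻¹)) := by positivity
  have hC2 : 0 < C * Real.exp (-(ψ m2)) := by positivity
  have e1 := index_HC hν (N.inv_mem hm1) hC.le hC1.le
  have e2 := index_HC hν hm2 hC.le hC2.le
  -- the two radii
  have r1 : ν.N p ≤ C * Real.exp (-(ψ m1⁻¹)) := by
    rw [psi_inv hψ hm1, neg_neg]
    have h3 : ν.N p / C < Real.exp (ψ m1) := by
      rwa [← Real.log_lt_iff_lt_exp (by positivity)]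
    rw [div_lt_iff₀ hC] at h3
    linarith
  have r2 : C * Real.exp (-(ψ m2)) < ν.N p := by
    have h3 : C / ν.N p < Real.exp (ψ m2) := by
      rwa [← Real.log_lt_iff_lt_exp (by positivity)]
    rw [div_lt_iff₀ hp0] at h3
    rw [Real.exp_neg, ← div_eq_mul_inv, div_lt_iff₀ (Real.exp_pos _)]
    linarith
  have hle : HC ν (C * Real.exp (-(ψ m2))) hC2.le ≤ HC ν (C * Real.exp (-(ψ m1⁻¹))) hC1.le := by
    intro q hq
    rw [mem_HC] at hq ⊢
    linarith
  have hfi : (HC ν (C * Real.exp (-(ψ m2))) hC2.le).FiniteIndex := by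
    constructor
    rw [e2]
    exact hf.index_ne_zero
  have hlt : HC ν (C * Real.exp (-(ψ m2))) hC2.le < HC ν (C * Real.exp (-(ψ m1⁻¹))) hC1.le := by
    refine lt_of_le_of_ne hle ?_
    intro heq
    have h3 : p ∈ HC ν (C * Real.exp (-(ψ m1⁻¹))) hC1.le := r1
    rw [← heq, mem_HC] at h3
    linarith
  have h4 := Subgroup.index_strictAnti hlt
  rw [e1, e2] at h4
  exact lt_irrefl _ h4

end FBig

open FBig

theorem big (hψ : Addi N ψ) (hψ0 : ∃ n ∈ N, ψ n ≠ 0) (hν : Eqv φ N ψ ν)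
    (hnz : ∃ p, ν.N p ≠ 0) (Y : Finset A) (C : ℝ) : ∃ p, ∀ y ∈ Y, C < ν.N (φ y p) := by
  by_contra hcon
  push Not at hcon
  have hC : (0 : ℝ) < max C 1 := lt_of_lt_of_le one_pos (le_max_right _ _)
  let K : A → Subgroup P := fun y => (HC ν (max C 1) hC.le).comap (φ y).toMonoidHom
  have hcov : ⋃ y ∈ Y, ((1 : P) • (K y : Set P)) = Set.univ := by
    rw [Set.eq_univ_iff_forall]
    intro p
    obtain ⟨y, hy, h⟩ := hcon p
    rw [Set.mem_iUnion₂]
    refine ⟨y, hy, ?_⟩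
    rw [one_smul]
    show ν.N (φ y p) ≤ max C 1
    exact h.trans (le_max_left _ _)
  obtain ⟨y, -, hy⟩ := Subgroup.exists_finiteIndex_of_leftCoset_cover hcov
  apply HC_not_finite hψ hψ0 hν hnz hC
  constructor
  have h1 : (K y).index = (HC ν (max C 1) hC.le).index :=
    Subgroup.index_comap_of_surjective _ (φ y).surjective
  rw [← h1]
  exact hy.index_ne_zero

end Pool.Agent.RPC
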