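import Pool.Agent.RPC.PCBasic

/-!
MODULE RPC/NilPC : a finitely generated nilpotent group is PC; a f.g. locally nilpotent group is
nilpotent, hence PC.
Proof of the first: induction on the nilpotency class (or on n with lowerCentralSeries G n = ⊥) :
the last nontrivial term γ of the lower central series is central and f.g. (generated by the
commutators [x, y] with x in a finite set generating the previous term modulo γ, y in a finite
generating set of G; so first show by induction that every lower central factor is f.g.: if G = ⟨S⟩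
then γ_{i+1}/γ_{i+2} is generated by the left normed commutators of weight i+1 in S), and G/γ is f.g.
nilpotent of smaller class; γ is f.g. abelian so PC; apply PC.ext.  Alternative: induct with
Z(G): show that a f.g. group of class c has PC subgroup γ_c (f.g. abelian central).
-/

set_option autoImplicit false

namespace Pool.Agent.RPC

open scoped commutatorElement

theorem pc_of_comm_fg {G : Type} [Group G] (hc : ∀ a b : G, a * b = b * a) (hf : Group.FG G) :
    PC G := by
  refine ⟨Group.isSolvable_of_comm hc, fun K => ?_⟩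
  let _ : CommGroup G := { (inferInstance : Group G) with mul_comm := hc }
  have h1 : AddGroup.FG (Additive G) := GroupFG.iff_add_fg.1 hf
  have h2 : Module.Finite ℤ (Additive G) := Module.Finite.iff_addGroup_fg.2 h1
  have h3 : IsNoetherian ℤ (Additive G) := inferInstance
  have h4 := h3.noetherian (AddSubgroup.toIntSubmodule K.toAddSubgroup)
  rw [Submodule.fg_iff_addSubgroup_fg, AddSubgroup.toIntSubmodule_toAddSubgroup] at h4
  exact (Subgroup.fg_iff_add_fg K).2 h4

private theorem comm_mul_left {G : Type} [Group G] (x x' y : G)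
    (hz : ∀ g : G, g * ⁅x', y⁆ = ⁅x', y⁆ * g) : ⁅x * x', y⁆ = ⁅x, y⁆ * ⁅x', y⁆ := by
  have h1 : ⁅x * x', y⁆ = x * ⁅x', y⁆ * y * x⁻¹ * y⁻¹ := by
    simp only [commutatorElement_def]
    group
  rw [h1, hz x, hz ⁅x, y⁆]
  simp only [commutatorElement_def]
  group

private theorem comm_mul_right {G : Type} [Group G] (x y y' : G)
    (hz : ∀ g : G, g * ⁅x, y'⁆ = ⁅x, y'⁆ * g) : ⁅x, y * y'⁆ = ⁅x, y⁆ * ⁅x, y'⁆ := by
  have h1 : ⁅x, y * y'⁆ = ⁅x, y⁆ * (y * ⁅x, y'⁆) * y⁻¹ := by
    simp only [commutatorElement_def]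
    group
  rw [h1, hz y]
  group

private theorem gamma_fg {G : Type} [Group G] (hf : Group.FG G) (A L : Subgroup G)
    (hc : ⁅⁅A, (⊤ : Subgroup G)⁆, (⊤ : Subgroup G)⁆ = ⊥) (hLA : L ≤ A) (hL : L.FG)
    (hA : ∀ a ∈ A, ∃ l ∈ L, ∃ z ∈ ⁅A, (⊤ : Subgroup G)⁆, l * z = a) :
    (⁅A, (⊤ : Subgroup G)⁆).FG := by
  classical
  obtain ⟨S, hS⟩ := hL
  obtain ⟨T, hT⟩ := hf.out
  have hcen : ∀ z ∈ ⁅A, (⊤ : Subgroup G)⁆, ∀ g : G, g * z = z * g := by
    intro z hz g
    have h1 : ⁅z, g⁆ ∈ ⁅⁅A, (⊤ : Subgroup G)⁆, (⊤ : Subgroup G)⁆ :=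
      Subgroup.commutator_mem_commutator hz (Subgroup.mem_top g)
    rw [hc, Subgroup.mem_bot, commutatorElement_eq_one_iff_mul_comm] at h1
    exact h1.symm
  have hmem : ∀ x ∈ A, ∀ y : G, ⁅x, y⁆ ∈ ⁅A, (⊤ : Subgroup G)⁆ := fun x hx y =>
    Subgroup.commutator_mem_commutator hx (Subgroup.mem_top y)
  have hS' : ∀ s ∈ S, s ∈ L := fun s hs => by
    rw [← hS]
    exact Subgroup.subset_closure hs
  set F : Finset G := (S ×ˢ T).image (fun p => ⁅p.1, p.2⁆) with hF
  set M := Subgroup.closure (F : Set G) with hM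
  have step1 : ∀ s ∈ S, ∀ y : G, ⁅s, y⁆ ∈ M := by
    intro s hs y
    have hy : y ∈ Subgroup.closure (T : Set G) := by rw [hT]; exact Subgroup.mem_top y
    induction hy using Subgroup.closure_induction with
    | mem t ht =>
      apply Subgroup.subset_closure
      rw [Finset.mem_coe, hF, Finset.mem_image]
      exact ⟨(s, t), Finset.mem_product.2 ⟨hs, ht⟩, rfl⟩
    | one =>
      rw [commutatorElement_one_right]
      exact M.one_mem
    | mul a b _ _ ha hb =>
      rw [comm_mul_right s a b (hcen _ (hmem s (hLA (hS' s hs)) b))]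
      exact M.mul_mem ha hb
    | inv a _ ha =>
      have h1 := comm_mul_right s a a⁻¹ (hcen _ (hmem s (hLA (hS' s hs)) a⁻¹))
      rw [mul_inv_cancel, commutatorElement_one_right] at h1
      rw [← inv_eq_of_mul_eq_one_right h1.symm]
      exact M.inv_mem ha
  have step2 : ∀ x ∈ L, ∀ y : G, ⁅x, y⁆ ∈ M := by
    intro x hx y
    have hx' : x ∈ Subgroup.closure (S : Set G) := by rw [hS]; exact hx
    have key : ∀ z ∈ Subgroup.closure (S : Set G), z ∈ A := fun z hz => by
      rw [hS] at hz
      exact hLA hz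
    clear hx
    induction hx' using Subgroup.closure_induction with
    | mem s hs => exact step1 s hs y
    | one =>
      rw [commutatorElement_one_left]
      exact M.one_mem
    | mul a b _ hb' ha hb =>
      rw [comm_mul_left a b y (hcen _ (hmem b (key b hb') y))]
      exact M.mul_mem ha hb
    | inv a ha' ha =>
      have h1 := comm_mul_left a a⁻¹ y (hcen _ (hmem a⁻¹ (A.inv_mem (key a ha')) y))
      rw [mul_inv_cancel, commutatorElement_one_left] at h1
      rw [← inv_eq_of_mul_eq_one_right h1.symm]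
      exact M.inv_mem ha
  have hle : ⁅A, (⊤ : Subgroup G)⁆ ≤ M := by
    rw [Subgroup.commutator_le]
    intro x hx y _
    obtain ⟨l, hl, z, hz, rfl⟩ := hA x hx
    · have h0 : ⁅z, y⁆ = 1 := by
        rw [commutatorElement_eq_one_iff_mul_comm]
        exact (hcen z hz y).symm
      have h1 := comm_mul_left l z y (by
        intro g
        rw [h0, mul_one, one_mul])
      rw [h1, h0, mul_one]
      exact step2 l hl y
  have hge : M ≤ ⁅A, (⊤ : Subgroup G)⁆ := by
    rw [hM, Subgroup.closure_le]
    intro f hf'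
    rw [Finset.mem_coe, hF, Finset.mem_image] at hf'
    obtain ⟨p, hp, rfl⟩ := hf'
    exact hmem p.1 (hLA (hS' _ (Finset.mem_product.1 hp).1)) p.2
  rw [le_antisymm hle hge]
  exact ⟨F, rfl⟩

private theorem pc_aux : ∀ n : ℕ, ∀ (G : Type) [Group G], Group.FG G →
    (⊤ : Subgroup G).lowerCentralSeries n = ⊥ → PC G := by
  intro n
  induction n with
  | zero =>
    intro G _ hf h
    rw [Subgroup.lowerCentralSeries_zero] at h
    have hs : ∀ a : G, a = 1 := fun a => by
      have : a ∈ (⊤ : Subgroup G) := Subgroup.mem_top a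
      rw [h] at this
      exact Subgroup.mem_bot.1 this
    exact pc_of_comm_fg (fun a b => by rw [hs a, hs b]) hf
  | succ n ih =>
    intro G _ hf h
    rcases n with _ | m
    · refine pc_of_comm_fg (fun a b => ?_) hf
      have h1 : ⁅a, b⁆ ∈ (⊤ : Subgroup G).lowerCentralSeries (0 + 1) :=
        Subgroup.commutator_mem_commutator (Subgroup.mem_top a) (Subgroup.mem_top b)
      rw [h, Subgroup.mem_bot, commutatorElement_eq_one_iff_mul_comm] at h1
      exact h1
    · set A := (⊤ : Subgroup G).lowerCentralSeries m with hA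
      set C := (⊤ : Subgroup G).lowerCentralSeries (m + 1) with hC
      have hCA : C = ⁅A, (⊤ : Subgroup G)⁆ := rfl
      have hCt : ⁅C, (⊤ : Subgroup G)⁆ = ⊥ := h
      have hnorm : C.Normal := by
        rw [hC]
        infer_instance
      have hq : PC (G ⧸ C) := by
        have hfq : Group.FG (G ⧸ C) :=
          Group.fg_of_surjective (f := QuotientGroup.mk' C) (QuotientGroup.mk'_surjective C)
        refine ih (G ⧸ C) hfq ?_
        have h1 := Subgroup.map_lowerCentralSeries (⊤ : Subgroup G) (QuotientGroup.mk' C) (m + 1)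
        rw [Subgroup.map_top_of_surjective _ (QuotientGroup.mk'_surjective C)] at h1
        rw [← h1, ← hC, Subgroup.map_eq_bot_iff, QuotientGroup.ker_mk']
      obtain ⟨L, hL1, hL2, hL3⟩ := exists_fg_lift (QuotientGroup.mk' C) A (hq.2 _)
      have hCfg : C.FG := by
        rw [hCA]
        refine gamma_fg hf A L hCt hL1 hL2 ?_
        intro a ha
        have h5 : QuotientGroup.mk' C a ∈ L.map (QuotientGroup.mk' C) := by
          rw [hL3]
          exact Subgroup.mem_map_of_mem _ ha
        obtain ⟨l, hl, hla⟩ := Subgroup.mem_map.1 h5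
        have h6 : l⁻¹ * a ∈ C := by
          have h7 : ((l : G) : G ⧸ C) = ((a : G) : G ⧸ C) := hla
          exact QuotientGroup.eq.1 h7
        exact ⟨l, hl, l⁻¹ * a, h6, by group⟩
      have hCpc : PC C := by
        refine pc_of_comm_fg ?_ ((Group.fg_iff_subgroup_fg C).2 hCfg)
        intro a b
        apply Subtype.ext
        have h1 : ⁅(a : G), (b : G)⁆ ∈ ⁅C, (⊤ : Subgroup G)⁆ :=
          Subgroup.commutator_mem_commutator a.2 (Subgroup.mem_top _)
        rw [hCt, Subgroup.mem_bot, commutatorElement_eq_one_iff_mul_comm] at h1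
        exact h1
      exact PC.ext C hCpc hq

theorem pc_of_nilpotent {G : Type} [Group G] (hf : Group.FG G) (hn : Group.IsNilpotent G) :
    PC G := by
  obtain ⟨n, hn⟩ := Subgroup.nilpotent_iff_lowerCentralSeries.1 hn
  exact pc_aux n G hf hn

theorem nilpotent_of_LN_fg {P : Type} [Group P] (hl : LN P) (hf : Group.FG P) :
    Group.IsNilpotent P := by
  obtain ⟨S, hS⟩ := hf.out
  have h := hl S
  rw [hS] at h
  exact Group.isNilpotent_top.1 h

end Pool.Agent.RPC
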