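import Pool.Agent.RPC.Restr
import Pool.Agent.RPC.NilPC

/-!
MODULE RPC/FNil : MC, and P is locally embedded in one f.g. subgroup Q by automorphisms ⇒ P is
abelian, torsion-free, of finite rank.
Proof.  Q is f.g. and locally nilpotent, so nilpotent of some class c.  Every finitely generated
subgroup of P is isomorphic (by the automorphism α) to a subgroup of Q, so of class ≤ c; hence P is
nilpotent of class ≤ c (an element of lowerCentralSeries P n lies in the image of
lowerCentralSeries (closure E) n for a finite set E).  P ≠ 1 (not f.g.), so Z(P) ≠ 1; Z(P) is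
characteristic so φ-invariant, so of finite index (m2); by Schur the commutator subgroup of P is finite
(Mathlib: finite commutator subgroup if the centre has finite index), so f.g. and invariant, so trivial
(m1).  So P is abelian, Q ≅ f.g. abelian.  Torsion: Q has finite torsion subgroup of order t; a set of
t+1 torsion elements of P would embed in it; so the torsion subgroup of P is finite, invariant, trivial.
Rank: Q is generated by r elements, so any r+1 elements of Q are dependent (Q torsion-free).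
-/

set_option autoImplicit false

namespace Pool.Agent.RPC

variable {A P : Type} [Group A] [Group P] {φ : A →* MulAut P} {δ : A → P}

open scoped commutatorElement

private theorem fn_lcs {P : Type} [Group P] : ∀ n : ℕ,
    ∀ p ∈ (⊤ : Subgroup P).lowerCentralSeries n,
    ∃ E : Finset P, ∀ H : Subgroup P, (∀ e ∈ E, e ∈ H) → p ∈ H.lowerCentralSeries n := by
  classical
  intro n
  induction n with
  | zero =>
    intro p _
    exact ⟨{p}, fun H hH => hH p (Finset.mem_singleton_self p)⟩
  | succ n ih =>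
    intro p hp
    rw [Subgroup.mem_lowerCentralSeries_succ_iff] at hp
    induction hp using Subgroup.closure_induction with
    | mem x hx =>
      obtain ⟨a, ha, b, -, rfl⟩ := hx
      obtain ⟨E, hE⟩ := ih a ha
      refine ⟨insert b E, fun H hH => ?_⟩
      rw [Subgroup.lowerCentralSeries_succ]
      exact Subgroup.commutator_mem_commutator
        (hE H fun e he => hH e (Finset.mem_insert_of_mem he)) (hH b (Finset.mem_insert_self b E))
    | one => exact ⟨∅, fun H _ => Subgroup.one_mem _⟩
    | mul x y _ _ hx hy =>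
      obtain ⟨E, hE⟩ := hx
      obtain ⟨F, hF⟩ := hy
      exact ⟨E ∪ F, fun H hH => Subgroup.mul_mem _
        (hE H fun e he => hH e (Finset.mem_union_left _ he))
        (hF H fun e he => hH e (Finset.mem_union_right _ he))⟩
    | inv x _ hx =>
      obtain ⟨E, hE⟩ := hx
      exact ⟨E, fun H hH => Subgroup.inv_mem _ (hE H hH)⟩

private theorem fn_nil {P : Type} [Group P] (hl : LN P) (Q : Subgroup P) (hQ : Q.FG)
    (hE : ∀ E : Finset P, ∃ α : MulAut P, ∀ p ∈ E, α p ∈ Q) :
    ∃ c : ℕ, (⊤ : Subgroup P).lowerCentralSeries c = ⊥ := by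
  obtain ⟨s, hs⟩ := hQ
  have h1 := hl s
  rw [hs] at h1
  obtain ⟨c, hc⟩ := (Subgroup.isNilpotent_iff_lowerCentralSeries Q).mp h1
  refine ⟨c, ?_⟩
  rw [Subgroup.eq_bot_iff_forall]
  intro p hp
  obtain ⟨E, hE'⟩ := fn_lcs c p hp
  obtain ⟨α, hα⟩ := hE E
  have h2 := hE' (Q.comap (MulEquiv.toMonoidHom α)) (fun e he => hα e he)
  have h3 : (MulEquiv.toMonoidHom α) p ∈
      ((Q.comap (MulEquiv.toMonoidHom α)).lowerCentralSeries c).map (MulEquiv.toMonoidHom α) :=
    Subgroup.mem_map_of_mem _ h2
  rw [Subgroup.map_lowerCentralSeries] at h3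
  have h4 := Subgroup.lowerCentralSeries_mono c (Subgroup.map_comap_le (MulEquiv.toMonoidHom α) Q) h3
  have h5 : (MulEquiv.toMonoidHom α) p ∈ Q.lowerCentralSeries c := h4
  rw [hc, Subgroup.mem_bot] at h5
  have h6 : α p = α 1 := by
    rw [map_one]
    exact h5
  exact α.injective h6

private theorem fn_center {P : Type} [Group P] (hn : (⊤ : Subgroup P) ≠ ⊥)
    (hc : ∃ c : ℕ, (⊤ : Subgroup P).lowerCentralSeries c = ⊥) : Subgroup.center P ≠ ⊥ := by
  classical
  have h1 := Nat.find_spec hc
  have h2 : Nat.find hc ≠ 0 := by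
    intro h0
    rw [h0] at h1
    exact hn h1
  obtain ⟨m, hm⟩ := Nat.exists_eq_succ_of_ne_zero h2
  have h3 : (⊤ : Subgroup P).lowerCentralSeries m ≠ ⊥ := Nat.find_min hc (by omega)
  rw [hm, Nat.succ_eq_add_one, Subgroup.lowerCentralSeries_succ] at h1
  intro hbot
  apply h3
  rw [eq_bot_iff, ← hbot]
  intro x hx
  rw [Subgroup.mem_center_iff]
  intro g
  have h4 : ⁅x, g⁆ ∈ ⁅(⊤ : Subgroup P).lowerCentralSeries m, (⊤ : Subgroup P)⁆ :=
    Subgroup.commutator_mem_commutator hx (Subgroup.mem_top g)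
  rw [h1, Subgroup.mem_bot, commutatorElement_eq_one_iff_mul_comm] at h4
  exact h4.symm

private theorem fn_schur {P : Type} [Group P] (hz : (Subgroup.center P).FiniteIndex) :
    Finite (commutatorSet P) := by
  have hfin : Finite (P ⧸ Subgroup.center P) := Subgroup.finiteIndex_iff_finite_quotient.mp hz
  have h1 : ∀ (z g k : P), z ∈ Subgroup.center P → ⁅g * z, k⁆ = ⁅g, k⁆ := by
    intro z g k hz
    have hzk : z * k = k * z := (Subgroup.mem_center_iff.mp hz k).symm
    calc ⁅g * z, k⁆ = g * (z * k) * z⁻¹ * g⁻¹ * k⁻¹ := by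
          rw [commutatorElement_def]
          group
      _ = g * (k * z) * z⁻¹ * g⁻¹ * k⁻¹ := by rw [hzk]
      _ = ⁅g, k⁆ := by
          rw [commutatorElement_def]
          group
  have h2 : ∀ (z g k : P), z ∈ Subgroup.center P → ⁅g, k * z⁆ = ⁅g, k⁆ := by
    intro z g k hz
    have hzk : z * g⁻¹ = g⁻¹ * z := (Subgroup.mem_center_iff.mp hz g⁻¹).symm
    calc ⁅g, k * z⁆ = g * k * (z * g⁻¹) * z⁻¹ * k⁻¹ := by
          rw [commutatorElement_def]
          group
      _ = g * k * (g⁻¹ * z) * z⁻¹ * k⁻¹ := by rw [hzk]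
      _ = ⁅g, k⁆ := by
          rw [commutatorElement_def]
          group
  let f : (P ⧸ Subgroup.center P) × (P ⧸ Subgroup.center P) → P :=
    fun x => ⁅x.1.out, x.2.out⁆
  have h3 : commutatorSet P ⊆ Set.range f := by
    rintro x ⟨g₁, g₂, rfl⟩
    refine ⟨((g₁ : P ⧸ Subgroup.center P), (g₂ : P ⧸ Subgroup.center P)), ?_⟩
    obtain ⟨z₁, hz₁⟩ := QuotientGroup.mk_out_eq_mul (Subgroup.center P) g₁
    obtain ⟨z₂, hz₂⟩ := QuotientGroup.mk_out_eq_mul (Subgroup.center P) g₂
    show ⁅(g₁ : P ⧸ Subgroup.center P).out, (g₂ : P ⧸ Subgroup.center P).out⁆ = ⁅g₁, g₂⁆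
    rw [hz₁, hz₂, h1 _ _ _ z₁.2, h2 _ _ _ z₂.2]
  exact ((Set.finite_range f).subset h3).to_subtype

theorem exh_comm (h : MC φ δ) (Q : Subgroup P) (hQ : Q.FG)
    (hE : ∀ E : Finset P, ∃ α : MulAut P, ∀ p ∈ E, α p ∈ Q) :
    (∀ p q : P, p * q = q * p) ∧ (∀ p : P, ∀ k : ℕ, 0 < k → p ^ k = 1 → p = 1) ∧
      ∃ r : ℕ, ∀ v : Fin (r + 1) → P, ∃ z : Fin (r + 1) → ℤ, z ≠ 0 ∧
        (List.ofFn (fun i => v i ^ z i)).prod = 1 := by
  classical
  have hnil := fn_nil h.ln Q hQ hE
  have htop : (⊤ : Subgroup P) ≠ ⊥ := by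
    intro h0
    apply h.nfg
    refine ⟨?_⟩
    rw [h0]
    exact ⟨∅, by simp⟩
  have hchar : ∀ K : Subgroup P, K.Characteristic → Inv φ K := by
    intro K hK a p hp
    have h1 := hK.fixed (φ a)
    have h2 : p ∈ K.comap (MulEquiv.toMonoidHom (φ a)) := by
      rw [h1]
      exact hp
    exact h2
  have hz1 := fn_center htop hnil
  have hz2 := h.m2 (Subgroup.center P) (hchar _ inferInstance) hz1
  have hfin := fn_schur hz2
  have hcf : Finite (_root_.commutator P) := inferInstance
  have hcfg : (_root_.commutator P).FG :=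
    (Group.fg_iff_subgroup_fg _).1 inferInstance
  have hcbot := h.m1 _ hcfg (hchar _ inferInstance)
  have hcomm : ∀ p q : P, p * q = q * p := by
    intro p q
    have h1 : ⁅p, q⁆ ∈ _root_.commutator P :=
      Subgroup.commutator_mem_commutator (Subgroup.mem_top p) (Subgroup.mem_top q)
    rw [hcbot, Subgroup.mem_bot, commutatorElement_eq_one_iff_mul_comm] at h1
    exact h1
  have hcommQ : ∀ p q : Q, p * q = q * p := fun p q => Subtype.ext (hcomm p q)
  have hQfg : Group.FG Q := (Group.fg_iff_subgroup_fg Q).2 hQ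
  have hQpc := pc_of_comm_fg hcommQ hQfg
  refine ⟨hcomm, ?_, ?_⟩
  · -- torsion
    let T : Subgroup P :=
      { carrier := {p | IsOfFinOrder p}
        mul_mem' := fun {a b} ha hb => (Commute.isOfFinOrder_mul (hcomm a b) ha hb)
        one_mem' := IsOfFinOrder.one
        inv_mem' := fun {a} ha => IsOfFinOrder.inv ha }
    have hTm : ∀ p, p ∈ T ↔ IsOfFinOrder p := fun p => Iff.rfl
    have hKfg : (T.subgroupOf Q).FG := hQpc.2 _
    have hKfin : Finite (T.subgroupOf Q) := by
      have h1 : Group.FG (T.subgroupOf Q) := (Group.fg_iff_subgroup_fg _).2 hKfg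
      let _ : CommGroup (T.subgroupOf Q) :=
        { (inferInstance : Group (T.subgroupOf Q)) with
          mul_comm := fun a b => Subtype.ext (hcommQ a b) }
      refine CommGroup.finite_of_fg_isMulTorsion (T.subgroupOf Q) ?_
      intro x
      have h2 : IsOfFinOrder ((x : Q) : P) := (hTm _).1 (Subgroup.mem_subgroupOf.1 x.2)
      obtain ⟨n, hn, hx⟩ := isOfFinOrder_iff_pow_eq_one.mp h2
      refine isOfFinOrder_iff_pow_eq_one.mpr ⟨n, hn, Subtype.ext (Subtype.ext ?_)⟩
      exact hx
    have hSfin : (Set.range (fun x : T.subgroupOf Q => ((x : Q) : P))).Finite :=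
      Set.finite_range _
    have hTfin : ((T : Set P)).Finite := by
      by_contra hinf
      obtain ⟨t, ht1, ht2⟩ := Set.Infinite.exists_subset_card_eq hinf (hSfin.toFinset.card + 1)
      obtain ⟨α, hα⟩ := hE t
      have h1 : (t.image α) ⊆ hSfin.toFinset := by
        intro y hy
        obtain ⟨p, hp, rfl⟩ := Finset.mem_image.mp hy
        rw [Set.Finite.mem_toFinset]
        have h2 : IsOfFinOrder (α p) := MonoidHom.isOfFinOrder (MulEquiv.toMonoidHom α) (ht1 hp)
        exact ⟨⟨⟨α p, hα p hp⟩, h2⟩, rfl⟩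
      have h3 := Finset.card_le_card h1
      rw [Finset.card_image_of_injective t α.injective] at h3
      omega
    have hTfin' : Finite T := hTfin.to_subtype
    have hTfg : T.FG := (Group.fg_iff_subgroup_fg _).1 inferInstance
    have hTinv : Inv φ T := by
      intro a p hp
      exact MonoidHom.isOfFinOrder (MulEquiv.toMonoidHom (φ a)) hp
    have hTbot := h.m1 T hTfg hTinv
    intro p k hk hpk
    have h4 : p ∈ T := isOfFinOrder_iff_pow_eq_one.mpr ⟨k, hk, hpk⟩
    rw [hTbot, Subgroup.mem_bot] at h4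
    exact h4
  · -- rank
    let iQ : CommGroup Q := { (inferInstance : Group Q) with mul_comm := hcommQ }
    have hA : AddGroup.FG (Additive Q) := GroupFG.iff_add_fg.1 hQfg
    have hM : Module.Finite ℤ (Additive Q) := Module.Finite.iff_addGroup_fg.2 hA
    refine ⟨Module.finrank ℤ (Additive Q), ?_⟩
    intro v
    obtain ⟨α, hα⟩ := hE (Finset.univ.image v)
    have hα' : ∀ i, α (v i) ∈ Q := fun i => hα _ (Finset.mem_image_of_mem v (Finset.mem_univ i))
    let w : Fin (Module.finrank ℤ (Additive Q) + 1) → Additive Q :=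
      fun i => Additive.ofMul (⟨α (v i), hα' i⟩ : Q)
    have hdep : ¬ LinearIndependent ℤ w := by
      intro hli
      have h1 := hli.fintype_card_le_finrank
      rw [Fintype.card_fin] at h1
      omega
    rw [Fintype.not_linearIndependent_iff] at hdep
    obtain ⟨z, hz1, i, hz2⟩ := hdep
    refine ⟨z, fun h0 => hz2 (by rw [h0]; rfl), ?_⟩
    have h1 : (List.ofFn (fun i => (⟨α (v i), hα' i⟩ : Q) ^ z i)).prod = 1 := by
      rw [List.prod_ofFn]
      have h2 : ∑ i, z i • w i = Additive.ofMul (∏ i, (⟨α (v i), hα' i⟩ : Q) ^ z i) := by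
        rw [ofMul_prod]
        rfl
      rw [h2] at hz1
      exact hz1
    have h2 : α (List.ofFn (fun i => v i ^ z i)).prod = 1 := by
      have h3 : Q.subtype (List.ofFn (fun i => (⟨α (v i), hα' i⟩ : Q) ^ z i)).prod = 1 := by
        rw [h1]
        rfl
      rw [map_list_prod, List.map_ofFn] at h3
      rw [map_list_prod, List.map_ofFn, ← h3]
      congr 2
      funext i
      simp
    have h4 : α (List.ofFn (fun i => v i ^ z i)).prod = α 1 := by rw [h2, map_one]
    exact α.injective h4

end Pool.Agent.RPC
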