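import Pool.Agent.RPC.PCBasic

/-!
MODULE RPC/Restr : restriction of a cocycle to subgroups.
* `cocycle_one`, `cocycle_inv`: δ 1 = 1, δ a⁻¹ = φ_{a⁻¹} (δ a)⁻¹.
* `preim`: if every a with δ a ∈ W normalises W (p ∈ W ↔ φ a p ∈ W), then {a | δ a ∈ W} is a subgroup.
* `restr_core`: K ≤ A, W ≤ P with φ a W ⊆ W (a ∈ K; then also φ a⁻¹ W ⊆ W), δ K = W.  Then
  (K, W, δ|K) is a surjective cocycle, W is locally nilpotent; Core K gives that W is f.g.
  (build φ' : K →* MulAut W by restriction.)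
* `index_iff`: W invariant under A, K = δ⁻¹ W, δ onto: a K ↦ δ(a) W is a bijection A/K → P/W.
-/

set_option autoImplicit false

namespace Pool.Agent.RPC

variable {A P : Type} [Group A] [Group P] {φ : A →* MulAut P} {δ : A → P}

theorem cocycle_one (hδ : ∀ a b, δ (a * b) = δ a * φ a (δ b)) : δ 1 = 1 := by
  have := hδ 1 1
  rw [mul_one, map_one] at this
  simpa using this

theorem cocycle_inv (hδ : ∀ a b, δ (a * b) = δ a * φ a (δ b)) (a : A) :
    δ a⁻¹ = φ a⁻¹ (δ a)⁻¹ := by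
  have h1 := hδ a⁻¹ a
  rw [inv_mul_cancel, cocycle_one hδ] at h1
  rw [map_inv]
  exact eq_inv_of_mul_eq_one_left h1.symm

theorem preim (hδ : ∀ a b, δ (a * b) = δ a * φ a (δ b)) (W : Subgroup P)
    (h : ∀ a, δ a ∈ W → ∀ p, p ∈ W ↔ φ a p ∈ W) :
    ∃ K : Subgroup A, ∀ a, a ∈ K ↔ δ a ∈ W := by
  refine ⟨{ carrier := {a | δ a ∈ W}
            mul_mem' := ?_
            one_mem' := ?_
            inv_mem' := ?_ }, fun a => Iff.rfl⟩
  · intro a b ha hb
    show δ (a * b) ∈ W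
    rw [hδ]
    exact W.mul_mem ha ((h a ha _).1 hb)
  · show δ 1 ∈ W
    rw [cocycle_one hδ]
    exact W.one_mem
  · intro a ha
    show δ a⁻¹ ∈ W
    rw [cocycle_inv hδ]
    refine (h a ha _).2 ?_
    have h2 : φ a (φ a⁻¹ (δ a)⁻¹) = (δ a)⁻¹ := by
      rw [← MulAut.mul_apply, ← map_mul, mul_inv_cancel, map_one, MulAut.one_apply]
    rw [h2]
    exact W.inv_mem ha

theorem restr_LN (hl : LN P) (W : Subgroup P) : LN W := by
  classical
  intro s
  have h1 := hl (s.image (fun w : W => (w : P)))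
  have h2 : Subgroup.closure (↑(s.image (fun w : W => (w : P))) : Set P) =
      (Subgroup.closure (↑s : Set W)).map W.subtype := by
    rw [MonoidHom.map_closure]
    congr 1
    ext x
    simp
  rw [h2] at h1
  exact Group.nilpotent_of_mulEquiv
    ((Subgroup.closure (↑s : Set W)).equivMapOfInjective W.subtype W.subtype_injective).symm

theorem phi_inv_left (φ : A →* MulAut P) (a : A) (p : P) : φ a⁻¹ (φ a p) = p := by
  rw [← MulAut.mul_apply, ← map_mul, inv_mul_cancel, map_one, MulAut.one_apply]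

theorem phi_inv_right (φ : A →* MulAut P) (a : A) (p : P) : φ a (φ a⁻¹ p) = p := by
  rw [← MulAut.mul_apply, ← map_mul, mul_inv_cancel, map_one, MulAut.one_apply]

/-- the restricted action -/
def restrAct (φ : A →* MulAut P) (K : Subgroup A) (W : Subgroup P)
    (h1 : ∀ a ∈ K, ∀ p ∈ W, φ a p ∈ W) : K →* MulAut W where
  toFun a :=
    { toFun := fun w => ⟨φ (a : A) (w : P), h1 a a.2 w w.2⟩
      invFun := fun w => ⟨φ (a : A)⁻¹ (w : P), h1 (a : A)⁻¹ (K.inv_mem a.2) w w.2⟩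
      left_inv := fun w => Subtype.ext (phi_inv_left φ _ _)
      right_inv := fun w => Subtype.ext (phi_inv_right φ _ _)
      map_mul' := fun w w' => Subtype.ext (by simp) }
  map_one' := by
    ext w
    simp
  map_mul' a b := by
    ext w
    simp

theorem restrAct_apply (φ : A →* MulAut P) (K : Subgroup A) (W : Subgroup P)
    (h1 : ∀ a ∈ K, ∀ p ∈ W, φ a p ∈ W) (a : K) (w : W) :
    ((restrAct φ K W h1 a w : W) : P) = φ (a : A) (w : P) := rfl

theorem restr_core (hδ : ∀ a b, δ (a * b) = δ a * φ a (δ b)) (hl : LN P) (K : Subgroup A)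
    (W : Subgroup P) (h1 : ∀ a ∈ K, ∀ p ∈ W, φ a p ∈ W) (h2 : ∀ a ∈ K, δ a ∈ W)
    (h3 : ∀ w ∈ W, ∃ a ∈ K, δ a = w) (hC : Core K) : W.FG := by
  have h := hC W (restrAct φ K W h1) (fun a => ⟨δ a, h2 a a.2⟩)
    ⟨fun a b => Subtype.ext (hδ a b), fun w => by
      obtain ⟨a, ha, hw⟩ := h3 w w.2
      exact ⟨⟨a, ha⟩, Subtype.ext hw⟩⟩ (restr_LN hl W)
  exact (Group.fg_iff_subgroup_fg W).1 h

theorem index_iff (hδ : Coc φ δ) (W : Subgroup P) (hW : Inv φ W) (K : Subgroup A)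
    (hK : ∀ a, a ∈ K ↔ δ a ∈ W) : K.FiniteIndex ↔ W.FiniteIndex := by
  have hinv : ∀ (a : A) (p : P), φ a p ∈ W ↔ p ∈ W := by
    intro a p
    refine ⟨fun h => ?_, hW a p⟩
    have := hW a⁻¹ _ h
    rwa [phi_inv_left] at this
  have key : ∀ a b : A, a⁻¹ * b ∈ K ↔ (δ a)⁻¹ * δ b ∈ W := by
    intro a b
    rw [hK, hδ.mul, cocycle_inv hδ.mul, ← map_mul, hinv]
  let e : A ⧸ K → P ⧸ W := Quotient.map' δ (fun a b hab => by
    rw [QuotientGroup.leftRel_apply] at hab ⊢
    exact (key a b).1 hab)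
  have he : Function.Bijective e := by
    constructor
    · intro x y
      induction x using QuotientGroup.induction_on with
      | H a =>
        induction y using QuotientGroup.induction_on with
        | H b =>
          intro hab
          have hab' : ((δ a : P) : P ⧸ W) = ((δ b : P) : P ⧸ W) := hab
          rw [QuotientGroup.eq] at hab' ⊢
          exact (key a b).2 hab'
    · intro y
      induction y using QuotientGroup.induction_on with
      | H p =>
        obtain ⟨a, rfl⟩ := hδ.surj p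
        exact ⟨(a : A ⧸ K), rfl⟩
  rw [Subgroup.finiteIndex_iff_finite_quotient, Subgroup.finiteIndex_iff_finite_quotient]
  exact (Equiv.ofBijective e he).finite_iff

/-- `W ↦ δ⁻¹ W` is injective and monotone: maximal elements among invariant subgroups -/
theorem exists_max_inv (hA : PC A) (hδ : Coc φ δ) (S : Set (Subgroup P)) (hS : S.Nonempty)
    (hinv : ∀ W ∈ S, Inv φ W) : ∃ U ∈ S, ∀ V ∈ S, U ≤ V → V = U := by
  have hpre : ∀ W ∈ S, ∃ K : Subgroup A, ∀ a, a ∈ K ↔ δ a ∈ W := by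
    intro W hW
    refine preim hδ.mul W (fun a _ p => ⟨hinv W hW a p, fun h => ?_⟩)
    have := hinv W hW a⁻¹ _ h
    rwa [phi_inv_left] at this
  obtain ⟨K, ⟨U, hU, hKU⟩, hmax⟩ := hA.exists_max
    {K : Subgroup A | ∃ W ∈ S, ∀ a, a ∈ K ↔ δ a ∈ W} (by
      obtain ⟨W, hW⟩ := hS
      obtain ⟨K, hK⟩ := hpre W hW
      exact ⟨K, W, hW, hK⟩)
  refine ⟨U, hU, fun V hV hUV => ?_⟩
  obtain ⟨L, hL⟩ := hpre V hV
  have hLK : L = K := hmax L ⟨V, hV, hL⟩ (fun a ha => (hL a).2 (hUV ((hKU a).1 ha)))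
  refine le_antisymm (fun v hv => ?_) hUV
  obtain ⟨a, rfl⟩ := hδ.surj v
  exact (hKU a).1 (hLK ▸ (hL a).2 hv)

end Pool.Agent.RPC
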