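import Pool.Agent.RPC.FBig
import Pool.Agent.RPC.Restr

/-!
MODULE RPC/FQ : Lemma F, the subgroup Q.   (F = distance to the point at infinity, Pt.)
* `F_aff`: for a ∈ A₀: F (δ (a y)) = F (δ y)^(rho a) exp(-b a)   (pt_aff, δ(ay) = δ a φ_a(δ y)).
* `F_pos`: finite set Y ⊆ A of representatives of the right cosets A₀ y.  C := max over Y of F (δ y).
  `big`: p with ν (φ y p) > C for y ∈ Y; p = δ c.  pt_two: F (δ (y c)) = ν (φ y p) > 0 for y ∈ Y.
  For z ∈ A: z c⁻¹ = a y with a ∈ A₀, y ∈ Y; z = a (y c), F (δ z) = F (δ (yc))^(..) exp(..) > 0.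
* `F_exh` : for every finite set Y' ⊆ A... in the form: for every C : ℝ there is c ∈ A such that
  F (δ (y c)) > C for all y in the finite set Y  (same proof).
* Q := {p | ∀ y q, F q < F (δ y) → F (t q) < F (δ y) ∧ F (t⁻¹ q) < F (δ y), t := δ y φ_y(p) (δ y)⁻¹}
  (the elements all whose conjugates t stabilise the balls {F < F (δ y)}).  It is a subgroup since
  p ↦ δ y φ_y(p) (δ y)⁻¹ is a homomorphism.
* `Q_f`: p = δ a ∈ Q ⇒ F (δ (y a)) = F (δ y) for all y: δ(y a) = δ y φ_y(p) = t δ y.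
  If F (t δ y) < F (δ y) then, t⁻¹ stabilising the ball, F (δ y) < F (δ y), absurd.  Conversely choose q
  with F q < F (δ y) (pt_small, F_pos): F (t δ y) ≤ max (F (t q)) (ν ((t q)⁻¹ t δ y)) and
  ν (q⁻¹ δ y) ≤ max (F q) (F (δ y)) = F (δ y).
* A_Q = {a | δ a ∈ Q}: for a ∈ A_Q, p ∈ P: p ∈ Q ↔ δ a φ_a(p) (δ a)⁻¹ ∈ Q  since
  δ y φ_y(δ a φ_a(p) (δ a)⁻¹) (δ y)⁻¹ = δ(ya) φ_{ya}(p) (δ(ya))⁻¹ and F (δ (ya)) = F (δ y), y ↦ ya is a
  bijection; as δ a ∈ Q also p ∈ Q ↔ φ_a p ∈ Q.  So `preim`, `restr_core` apply, δ(A_Q) = Q.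
* A_Q has infinite index: n ∈ N with b n > 0; n^k ∈ A_Q, k ≥ 1 would give F(δ(n^k)) = F (δ 1) but
  F (δ (n^k)) = exp(-k b n) F (δ 1), F (δ 1) > 0.
* so Core A_Q by MC.ih, Q is f.g.
* exhaustion: E finite, want a ∈ A with δ a φ_a(p) (δ a)⁻¹ ∈ Q for p ∈ E.  For y ∈ A put
  e_y(p) := t_y(p) = δ y φ_y(p)(δ y)⁻¹.  Membership of t_a(p) in Q: for all y, t_{ya}(p)^{±1} stabilises
  {F < F (δ y)}.  With z = ya: t_z(p)^{±1} stabilises {F < F(δ(z a⁻¹))} for all z ∈ A.  By A₀-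
  equivariance (δ a₀ φ_{a₀}(·) maps P to P, multiplies F by the increasing function of F_aff, and
  t_{a₀ z}(p) δ a₀ φ_{a₀}(q) = δ a₀ φ_{a₀}(t_z(p) q)) it suffices to have it for z ∈ Y.  For z ∈ Y, p ∈ E fix one q₀
  and put C_z = max (F q₀, F (t_z(p)^{±1} q₀)); if r > C_z then t stabilises {F < r}: F q < r ⇒
  F (t q) ≤ max (F (t q₀)) (ν (q₀⁻¹ q)) ≤ max (F(t q₀), F q₀, F q) < r.  So choose c with F(δ(z c)) > C_z
  for z ∈ Y (F_exh), a := c⁻¹.
-/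

set_option autoImplicit false

namespace Pool.Agent.RPC

variable {A P : Type} [Group A] [Group P] {φ : A →* MulAut P} {δ : A → P} {A₀ N : Subgroup A}
  {ν : UNorm P} {rho b : A → ℝ} {F : P → ℝ}

theorem F_aff (hc : Coc φ δ) (hf : FDat φ A₀ N ν rho b) (hF : Pt φ δ N b ν F) {a : A}
    (ha : a ∈ A₀) (y : A) :
    F (δ (a * y)) = (F (δ y)) ^ (rho a) * Real.exp (-(b a)) := by
  rw [hc.mul]
  exact pt_aff hf.norm hc.mul hf.bN hf.b0 hf.eqv hf.nz hF a (rho a) (b a) (hf.pos a ha)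
    (hf.aff a ha) _

/-- there is a finite set `Y` meeting every right coset of `A₀` such that `F (δ (y c))` is large on
`Y` for suitable `c` -/
theorem F_exh (hc : Coc φ δ) (hf : FDat φ A₀ N ν rho b) (hF : Pt φ δ N b ν F) :
    ∃ Y : Finset A, (∀ z : A, ∃ a ∈ A₀, ∃ y ∈ Y, z = a * y) ∧
      ∀ C : ℝ, ∃ c : A, ∀ y ∈ Y, C < F (δ (y * c)) := by
  classical
  have hfi := hf.fin
  have hfin : Finite (A ⧸ A₀) := inferInstance
  have hft : Fintype (A ⧸ A₀) := Fintype.ofFinite _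
  refine ⟨Finset.univ.image (fun x : A ⧸ A₀ => (Quotient.out x)⁻¹), ?_, ?_⟩
  · intro z
    set g : A := Quotient.out ((z⁻¹ : A) : A ⧸ A₀) with hg
    have h1 : ((g : A) : A ⧸ A₀) = ((z⁻¹ : A) : A ⧸ A₀) := Quotient.out_eq _
    rw [QuotientGroup.eq] at h1
    refine ⟨z * g, ?_, g⁻¹, ?_, ?_⟩
    · have h2 := A₀.inv_mem h1
      rwa [mul_inv_rev, inv_inv, inv_inv] at h2
    · exact Finset.mem_image.2 ⟨_, Finset.mem_univ _, rfl⟩
    · rw [mul_inv_cancel_right]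
  · intro C
    set Y : Finset A := Finset.univ.image (fun x : A ⧸ A₀ => (Quotient.out x)⁻¹) with hY
    obtain ⟨p, hp⟩ := big hf.bN hf.b0 hf.eqv hf.nz Y (max C (∑ y ∈ Y, F (δ y)))
    obtain ⟨c, rfl⟩ := hc.surj p
    refine ⟨c, fun y hy => ?_⟩
    have h1 := hp y hy
    have h2 : F (δ y) ≤ ∑ y ∈ Y, F (δ y) :=
      Finset.single_le_sum (f := fun y => F (δ y)) (fun i _ => hF.nonneg _) hy
    have h3 : F (δ y) < ν.N (φ y (δ c)) := lt_of_le_of_lt (h2.trans (le_max_right _ _)) h1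
    rw [pt_two hc.mul hF h3]
    exact lt_of_le_of_lt (le_max_left _ _) h1

theorem F_pos (hc : Coc φ δ) (hf : FDat φ A₀ N ν rho b) (hF : Pt φ δ N b ν F) (z : A) :
    0 < F (δ z) := by
  obtain ⟨Y, hY1, hY2⟩ := F_exh hc hf hF
  obtain ⟨c, hcc⟩ := hY2 0
  obtain ⟨a, ha, y, hy, hz⟩ := hY1 (z * c⁻¹)
  have h1 : z = a * (y * c) := by
    rw [← mul_assoc, ← hz, inv_mul_cancel_right]
  rw [h1, F_aff hc hf hF ha]
  exact mul_pos (Real.rpow_pos_of_pos (hcc y hy) _) (Real.exp_pos _)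

/-- the conjugate of `φ y p` by `δ y` -/
def tw (φ : A →* MulAut P) (δ : A → P) (y : A) (p : P) : P := δ y * φ y p * (δ y)⁻¹

theorem tw_mul (y : A) (p q : P) : tw φ δ y (p * q) = tw φ δ y p * tw φ δ y q := by
  unfold tw
  rw [map_mul]
  group

theorem tw_one (y : A) : tw φ δ y 1 = 1 := by
  unfold tw
  rw [map_one, mul_one, mul_inv_cancel]

theorem tw_inv (y : A) (p : P) : tw φ δ y p⁻¹ = (tw φ δ y p)⁻¹ := by
  unfold tw
  rw [map_inv]
  group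

theorem tw_tw (hδ : ∀ a b, δ (a * b) = δ a * φ a (δ b)) (y a : A) (p : P) :
    tw φ δ y (tw φ δ a p) = tw φ δ (y * a) p := by
  unfold tw
  rw [hδ, map_mul, map_mul, map_inv, map_mul, MulAut.mul_apply]
  group

/-- `t` stabilises the ball of radius `r` around the point at infinity -/
def Stb (F : P → ℝ) (r : ℝ) (t : P) : Prop := ∀ q, F q < r → F (t * q) < r ∧ F (t⁻¹ * q) < r

theorem Stb.mul {r : ℝ} {t s : P} (ht : Stb F r t) (hs : Stb F r s) : Stb F r (t * s) := by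
  intro q hq
  constructor
  · rw [mul_assoc]
    exact (ht _ (hs q hq).1).1
  · rw [mul_inv_rev, mul_assoc]
    exact (hs _ (ht q hq).2).2

theorem Stb.inv {r : ℝ} {t : P} (ht : Stb F r t) : Stb F r t⁻¹ := by
  intro q hq
  rw [inv_inv]
  exact ⟨(ht q hq).2, (ht q hq).1⟩

theorem Stb.one {r : ℝ} : Stb F r (1 : P) := by
  intro q hq
  rw [inv_one, one_mul]
  exact ⟨hq, hq⟩

/-- the subgroup `Q` -/
def QQ (φ : A →* MulAut P) (δ : A → P) (F : P → ℝ) : Subgroup P where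
  carrier := {p | ∀ y, Stb F (F (δ y)) (tw φ δ y p)}
  mul_mem' := by
    intro p q hp hq y
    rw [tw_mul]
    exact (hp y).mul (hq y)
  one_mem' := by
    intro y
    rw [tw_one]
    exact Stb.one
  inv_mem' := by
    intro p hp y
    rw [tw_inv]
    exact (hp y).inv

theorem mem_QQ {p : P} : p ∈ QQ φ δ F ↔ ∀ y, Stb F (F (δ y)) (tw φ δ y p) := Iff.rfl

theorem Q_f (hc : Coc φ δ) (hf : FDat φ A₀ N ν rho b) (hF : Pt φ δ N b ν F) {a : A}
    (ha : δ a ∈ QQ φ δ F) (y : A) : F (δ (y * a)) = F (δ y) := by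
  have h1 := mem_QQ.1 ha y
  set t := tw φ δ y (δ a) with ht
  have h2 : t * δ y = δ (y * a) := by
    rw [ht, hc.mul]
    unfold tw
    rw [inv_mul_cancel_right]
  rw [← h2]
  refine le_antisymm ?_ ?_
  · obtain ⟨q, hq⟩ := pt_small hf.bN hf.b0 hF (F_pos hc hf hF y)
    have h3 := (h1 q hq).1
    have h4 := hF.tri1 (t * δ y) (t * q)
    have h5 : (t * q)⁻¹ * (t * δ y) = q⁻¹ * δ y := by group
    rw [h5] at h4
    have h6 := hF.tri2 q (δ y)
    rw [max_eq_right hq.le] at h6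
    exact h4.trans (max_le h3.le h6)
  · by_contra hlt
    push Not at hlt
    have h3 := (h1 _ hlt).2
    rw [inv_mul_cancel_left] at h3
    exact lt_irrefl _ h3

theorem Q_conj (hc : Coc φ δ) (hf : FDat φ A₀ N ν rho b) (hF : Pt φ δ N b ν F) {a : A}
    (ha : δ a ∈ QQ φ δ F) (p : P) : p ∈ QQ φ δ F ↔ φ a p ∈ QQ φ δ F := by
  have h1 : p ∈ QQ φ δ F ↔ tw φ δ a p ∈ QQ φ δ F := by
    rw [mem_QQ, mem_QQ]
    constructor
    · intro h y
      rw [tw_tw hc.mul, ← Q_f hc hf hF ha y]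
      exact h (y * a)
    · intro h z
      have h2 := h (z * a⁻¹)
      rw [tw_tw hc.mul, ← Q_f hc hf hF ha, inv_mul_cancel_right] at h2
      exact h2
  rw [h1]
  unfold tw
  constructor
  · intro h
    have h2 := (QQ φ δ F).mul_mem ((QQ φ δ F).mul_mem ((QQ φ δ F).inv_mem ha) h) ha
    have e : (δ a)⁻¹ * (δ a * φ a p * (δ a)⁻¹) * δ a = φ a p := by group
    rwa [e] at h2
  · intro h
    exact (QQ φ δ F).mul_mem ((QQ φ δ F).mul_mem ha h) ((QQ φ δ F).inv_mem ha)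

theorem addi_pow {N : Subgroup A} {b : A → ℝ} (hb : Addi N b) {n : A} (hn : n ∈ N) (k : ℕ) :
    b (n ^ k) = k * b n := by
  induction k with
  | zero =>
    have h := hb 1 N.one_mem 1 N.one_mem
    rw [mul_one] at h
    rw [pow_zero]
    push_cast
    linarith
  | succ k ih =>
    rw [pow_succ, hb _ (N.pow_mem hn k) _ hn, ih]
    push_cast
    ring

theorem Q_fg (h : MC φ δ) (hf : FDat φ A₀ N ν rho b) (hF : Pt φ δ N b ν F) :
    (QQ φ δ F).FG := by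
  obtain ⟨K, hK⟩ := preim h.coc.mul (QQ φ δ F) (fun a ha p => Q_conj h.coc hf hF ha p)
  have hnf : ¬ K.FiniteIndex := by
    intro hfi
    obtain ⟨n, hn, hbn⟩ := hf.b0
    obtain ⟨k, hk, -, hkK⟩ := Subgroup.exists_pow_mem_of_index_ne_zero hfi.index_ne_zero n
    have h1 := Q_f h.coc hf hF ((hK _).1 hkK) 1
    have h2 := pt_N h.coc.mul hF (N.pow_mem hn k) 1
    rw [one_mul] at h1
    rw [mul_one, h1] at h2
    have h3 := F_pos h.coc hf hF 1
    have h4 : Real.exp (-(b (n ^ k))) = 1 := by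
      have : (Real.exp (-(b (n ^ k))) - 1) * F (δ 1) = 0 := by linarith
      rcases mul_eq_zero.1 this with h5 | h5
      · linarith
      · exact absurd h5 h3.ne'
    rw [Real.exp_eq_one_iff, addi_pow hf.bN hn] at h4
    have h5 : (k : ℝ) * b n = 0 := by linarith
    rcases mul_eq_zero.1 h5 with h6 | h6
    · have : k = 0 := by exact_mod_cast h6
      omega
    · exact hbn h6
  refine restr_core h.coc.mul h.ln K (QQ φ δ F) ?_ ?_ ?_ (h.ih K hnf)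
  · intro a ha p hp
    exact (Q_conj h.coc hf hF ((hK a).1 ha) p).1 hp
  · intro a ha
    exact (hK a).1 ha
  · intro w hw
    obtain ⟨a, rfl⟩ := h.coc.surj w
    exact ⟨a, (hK a).2 hw, rfl⟩

/-- large balls are stabilised -/
theorem stb_large (hF : Pt φ δ N b ν F) {r : ℝ} {t : P} (h1 : F 1 < r) (h2 : F t < r)
    (h3 : F t⁻¹ < r) : Stb F r t := by
  have key : ∀ s : P, F s < r → ∀ q, F q < r → F (s * q) < r := by
    intro s hs q hq
    have h4 := hF.tri1 (s * q) s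
    rw [inv_mul_cancel_left] at h4
    have h5 := hF.tri2 1 q
    rw [inv_one, one_mul] at h5
    exact lt_of_le_of_lt h4 (max_lt hs (lt_of_le_of_lt h5 (max_lt h1 hq)))
  intro q hq
  exact ⟨key t h2 q hq, key t⁻¹ h3 q hq⟩

/-- translation by elements of `A₀` -/
theorem stb_trans (hc : Coc φ δ) (hf : FDat φ A₀ N ν rho b) (hF : Pt φ δ N b ν F) {a : A}
    (ha : a ∈ A₀) {z w : A} {p : P} (h : Stb F (F (δ w)) (tw φ δ z p)) :
    Stb F (F (δ (a * w))) (tw φ δ (a * z) p) := by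
  have haff : ∀ q, F (δ a * φ a q) = (F q) ^ (rho a) * Real.exp (-(b a)) := fun q =>
    pt_aff hf.norm hc.mul hf.bN hf.b0 hf.eqv hf.nz hF a (rho a) (b a) (hf.pos a ha)
      (hf.aff a ha) q
  have hpos := hf.pos a ha
  have hmono : ∀ q, F q < F (δ w) ↔ F (δ a * φ a q) < F (δ (a * w)) := by
    intro q
    rw [hc.mul, haff, haff, mul_lt_mul_iff_left₀ (Real.exp_pos _),
      Real.rpow_lt_rpow_iff (hF.nonneg _) (hF.nonneg _) hpos]
  intro q hq
  set q' := φ a⁻¹ ((δ a)⁻¹ * q) with hq'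
  have e1 : δ a * φ a q' = q := by
    rw [hq', phi_inv_right, mul_inv_cancel_left]
  have h1 : F q' < F (δ w) := by
    rw [hmono, e1]
    exact hq
  have e2 : ∀ x : P, δ a * φ a (x * q') = tw φ δ a x * q := by
    intro x
    rw [map_mul]
    conv_rhs => rw [← e1]
    unfold tw
    group
  obtain ⟨h2, h3⟩ := h q' h1
  rw [hmono, e2] at h2 h3
  rw [← tw_tw hc.mul]
  refine ⟨h2, ?_⟩
  rw [← tw_inv]
  exact h3

theorem lemF_Q (h : MC φ δ) (hf : FDat φ A₀ N ν rho b) (hF : Pt φ δ N b ν F) :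
    ∃ Q : Subgroup P, Q.FG ∧
      ∀ E : Finset P, ∃ a : A, ∀ p ∈ E, δ a * φ a p * (δ a)⁻¹ ∈ Q := by
  refine ⟨QQ φ δ F, Q_fg h hf hF, fun E => ?_⟩
  obtain ⟨Y, hY1, hY2⟩ := F_exh h.coc hf hF
  obtain ⟨c, hcc⟩ := hY2 (F 1 + ∑ z ∈ Y, ∑ p ∈ E, (F (tw φ δ z p) + F (tw φ δ z p)⁻¹))
  refine ⟨c⁻¹, fun p hp => ?_⟩
  show tw φ δ c⁻¹ p ∈ QQ φ δ F
  rw [mem_QQ]
  have hbase : ∀ z ∈ Y, Stb F (F (δ (z * c))) (tw φ δ z p) := by
    intro z hz
    have h1 := hcc z hz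
    have h2 : F (tw φ δ z p) + F (tw φ δ z p)⁻¹ ≤
        ∑ p ∈ E, (F (tw φ δ z p) + F (tw φ δ z p)⁻¹) :=
      Finset.single_le_sum (f := fun p => F (tw φ δ z p) + F (tw φ δ z p)⁻¹)
        (fun i _ => add_nonneg (hF.nonneg _) (hF.nonneg _)) hp
    have h3 : ∑ p ∈ E, (F (tw φ δ z p) + F (tw φ δ z p)⁻¹) ≤
        ∑ z ∈ Y, ∑ p ∈ E, (F (tw φ δ z p) + F (tw φ δ z p)⁻¹) :=
      Finset.single_le_sum (f := fun z => ∑ p ∈ E, (F (tw φ δ z p) + F (tw φ δ z p)⁻¹))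
        (fun i _ => Finset.sum_nonneg fun j _ => add_nonneg (hF.nonneg _) (hF.nonneg _)) hz
    have h4 := hF.nonneg 1
    have h5 := hF.nonneg (tw φ δ z p)
    have h6 := hF.nonneg (tw φ δ z p)⁻¹
    refine stb_large hF ?_ ?_ ?_ <;> linarith
  intro y
  rw [tw_tw h.coc.mul]
  obtain ⟨a, ha, z, hz, hyz⟩ := hY1 (y * c⁻¹)
  rw [hyz]
  have h1 : y = a * (z * c) := by
    rw [← mul_assoc, ← hyz, inv_mul_cancel_right]
  rw [h1]
  exact stb_trans h.coc hf hF ha (hbase z hz)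

end Pool.Agent.RPC
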