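import Pool.Agent.RPC.Defs

/-!
MODULE RPC/Filt : a norm from an increasing family of subgroups.
Let B r (r > 0) be subgroups of P, B r ≤ B r' for r ≤ r', and every p lies in some B r.
N p := sInf {r | 0 < r ∧ p ∈ B r}.  It is a UNorm; `lt`: N p < r ⇒ p ∈ B r; `le`: p ∈ B r, r > 0 ⇒
N p ≤ r.
* `map`: if α is an automorphism of P, l > 0, c > 0 and α maps B r onto B (c * r ^ l) for all
  r > 0, then N (α p) = c * (N p) ^ l for all p  (r ↦ c r^l is an increasing bijection of (0,∞);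
  0 ^ l = 0).
-/

set_option autoImplicit false

namespace Pool.Agent.RPC

theorem exists_filt {P : Type} [Group P] (B : ℝ → Subgroup P)
    (hm : ∀ r r', 0 < r → r ≤ r' → B r ≤ B r') (hex : ∀ p, ∃ r, 0 < r ∧ p ∈ B r) :
    ∃ ν : UNorm P, (∀ p r, ν.N p < r → p ∈ B r) ∧ (∀ p r, 0 < r → p ∈ B r → ν.N p ≤ r) := by
  have hne : ∀ p, {r : ℝ | 0 < r ∧ p ∈ B r}.Nonempty := hex
  have hbd : ∀ p, BddBelow {r : ℝ | 0 < r ∧ p ∈ B r} := fun p => ⟨0, fun r hr => hr.1.le⟩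
  have h0 : ∀ p, 0 ≤ sInf {r : ℝ | 0 < r ∧ p ∈ B r} := fun p =>
    Real.sInf_nonneg fun r hr => hr.1.le
  have hlt : ∀ p r, sInf {r : ℝ | 0 < r ∧ p ∈ B r} < r → p ∈ B r := by
    intro p r h
    obtain ⟨r', hr', hr'r⟩ := exists_lt_of_csInf_lt (hne p) h
    exact hm r' r hr'.1 hr'r.le hr'.2
  have hle : ∀ p r, 0 < r → p ∈ B r → sInf {r : ℝ | 0 < r ∧ p ∈ B r} ≤ r := fun p r hr hp =>
    csInf_le (hbd p) ⟨hr, hp⟩
  refine ⟨⟨fun p => sInf {r : ℝ | 0 < r ∧ p ∈ B r}, h0, ?_, ?_, ?_⟩, hlt, hle⟩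
  · apply le_antisymm _ (h0 1)
    apply le_of_forall_pos_le_add
    intro ε hε
    rw [zero_add]
    exact hle 1 ε hε (B ε).one_mem
  · intro p
    have : {r : ℝ | 0 < r ∧ p⁻¹ ∈ B r} = {r : ℝ | 0 < r ∧ p ∈ B r} := by
      ext r
      simp only [Set.mem_ofPred_eq, inv_mem_iff]
    simp only [this]
  · intro p q
    apply le_of_forall_pos_le_add
    intro ε hε
    have hp : sInf {r : ℝ | 0 < r ∧ p ∈ B r} < max (sInf {r : ℝ | 0 < r ∧ p ∈ B r})
        (sInf {r : ℝ | 0 < r ∧ q ∈ B r}) + ε :=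
      lt_of_le_of_lt (le_max_left _ _) (by linarith)
    have hq : sInf {r : ℝ | 0 < r ∧ q ∈ B r} < max (sInf {r : ℝ | 0 < r ∧ p ∈ B r})
        (sInf {r : ℝ | 0 < r ∧ q ∈ B r}) + ε :=
      lt_of_le_of_lt (le_max_right _ _) (by linarith)
    exact hle _ _ (lt_of_le_of_lt (h0 p) hp) ((B _).mul_mem (hlt p _ hp) (hlt q _ hq))

theorem filt_map {P : Type} [Group P] (B : ℝ → Subgroup P) (ν : UNorm P)
    (h1 : ∀ p r, ν.N p < r → p ∈ B r) (h2 : ∀ p r, 0 < r → p ∈ B r → ν.N p ≤ r)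
    (α : MulAut P) (l c : ℝ) (hl : 0 < l) (hc : 0 < c)
    (hα : ∀ r p, 0 < r → (p ∈ B r ↔ α p ∈ B (c * r ^ l))) (p : P) :
    ν.N (α p) = c * (ν.N p) ^ l := by
  have hroot : ∀ s : ℝ, 0 < s → 0 < (s / c) ^ l⁻¹ ∧ c * ((s / c) ^ l⁻¹) ^ l = s := by
    intro s hs
    refine ⟨Real.rpow_pos_of_pos (div_pos hs hc) _, ?_⟩
    rw [Real.rpow_inv_rpow (div_pos hs hc).le hl.ne', mul_div_cancel₀ _ hc.ne']
  apply le_antisymm
  · by_contra hcon
    rw [not_le] at hcon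
    obtain ⟨s, hs1, hs2⟩ := exists_between hcon
    have hs0 : 0 < s := lt_of_le_of_lt (mul_nonneg hc.le (Real.rpow_nonneg (ν.nonneg p) l)) hs1
    obtain ⟨hr0, hr⟩ := hroot s hs0
    have hlt : ν.N p < (s / c) ^ l⁻¹ := by
      by_contra hle
      rw [not_lt] at hle
      have h3 := Real.rpow_le_rpow hr0.le hle hl.le
      have h4 := mul_le_mul_of_nonneg_left h3 hc.le
      rw [hr] at h4
      linarith
    have h5 := (hα _ p hr0).1 (h1 p _ hlt)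
    rw [hr] at h5
    have h6 := h2 _ _ hs0 h5
    linarith
  · apply le_of_forall_pos_le_add
    intro ε hε
    obtain ⟨s, hs⟩ : ∃ s, s = ν.N (α p) + ε := ⟨_, rfl⟩
    rw [← hs]
    have hs0 : 0 < s := by
      rw [hs]
      have := ν.nonneg (α p)
      linarith
    obtain ⟨hr0, hr⟩ := hroot s hs0
    have h5 : α p ∈ B (c * ((s / c) ^ l⁻¹) ^ l) := by
      rw [hr]
      apply h1
      rw [hs]
      linarith
    have h6 := h2 p _ hr0 ((hα _ p hr0).2 h5)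
    have h3 := Real.rpow_le_rpow (ν.nonneg p) h6 hl.le
    have h4 := mul_le_mul_of_nonneg_left h3 hc.le
    rw [hr] at h4
    exact h4

end Pool.Agent.RPC
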