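import Pool.Agent.RPC.IDefs

/-!
MODULE RPC/FinCase : finitely many lines ⇒ a subgroup of finite index acts on θ by positive scalars.
Suppose there is n such that no g : Fin n → A₁ has pairwise non parallel θ_{g i}.
A₂ := {a ∈ A₁ : ∃ λ > 0, L.th a θ = λ • θ} is a subgroup (th_mul, linearity), contains N (th_N), and has finite
index in A₁: St = {a ∈ A₁ : Par (L.th a θ) θ} has index < n (elements g_i of A₁ in different right cosets St g_i have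
non parallel θ_{g_i}: θ_{g_i} ∥ θ_{g_j} ⇒ apply L.th g_j⁻¹ : θ_{g_i g_j⁻¹} ∥ θ; orders do not matter as
th_{ab} = th_{ba} on A₁), and A₂ has index ≤ 2 in St.  A₁ has finite index in A.
-/

set_option autoImplicit false

namespace Pool.Agent.RPC

/-- the stabiliser of the line of `θ` -/
private def St {A : Type} [Group A] {N N₁ : Subgroup A} {d : ℕ} (L : Lat N N₁ d)
    (θ : Fin d → ℝ) (A₁ : Subgroup A) : Subgroup A where
  carrier := {a | a ∈ A₁ ∧ ∃ c : ℝ, c ≠ 0 ∧ L.th a θ = c • θ}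
  mul_mem' := by
    rintro a b ⟨ha, c, hc, hac⟩ ⟨hb, c', hc', hbc⟩
    refine ⟨A₁.mul_mem ha hb, c * c', mul_ne_zero hc hc', ?_⟩
    rw [L.th_mul, hac, L.th_smul, hbc, smul_smul]
  one_mem' := ⟨A₁.one_mem, 1, one_ne_zero, by rw [L.th_one, one_smul]⟩
  inv_mem' := by
    rintro a ⟨ha, c, hc, hac⟩
    refine ⟨A₁.inv_mem ha, c⁻¹, inv_ne_zero hc, ?_⟩
    have h := L.th_mul a a⁻¹ θ
    rw [mul_inv_cancel, L.th_one, hac, L.th_smul] at h
    conv_rhs => rw [h, smul_smul, inv_mul_cancel₀ hc, one_smul]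

/-- the stabiliser of the ray of `θ` -/
private def St2 {A : Type} [Group A] {N N₁ : Subgroup A} {d : ℕ} (L : Lat N N₁ d)
    (θ : Fin d → ℝ) (A₁ : Subgroup A) : Subgroup A where
  carrier := {a | a ∈ A₁ ∧ ∃ c : ℝ, 0 < c ∧ L.th a θ = c • θ}
  mul_mem' := by
    rintro a b ⟨ha, c, hc, hac⟩ ⟨hb, c', hc', hbc⟩
    refine ⟨A₁.mul_mem ha hb, c * c', mul_pos hc hc', ?_⟩
    rw [L.th_mul, hac, L.th_smul, hbc, smul_smul]
  one_mem' := ⟨A₁.one_mem, 1, one_pos, by rw [L.th_one, one_smul]⟩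
  inv_mem' := by
    rintro a ⟨ha, c, hc, hac⟩
    refine ⟨A₁.inv_mem ha, c⁻¹, inv_pos.mpr hc, ?_⟩
    have h := L.th_mul a a⁻¹ θ
    rw [mul_inv_cancel, L.th_one, hac, L.th_smul] at h
    conv_rhs => rw [h, smul_smul, inv_mul_cancel₀ hc.ne', one_smul]

private theorem mem_St {A : Type} [Group A] {N N₁ : Subgroup A} {d : ℕ} {L : Lat N N₁ d}
    {θ : Fin d → ℝ} {A₁ : Subgroup A} {a : A} :
    a ∈ St L θ A₁ ↔ a ∈ A₁ ∧ ∃ c : ℝ, c ≠ 0 ∧ L.th a θ = c • θ := Iff.rfl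

private theorem mem_St2 {A : Type} [Group A] {N N₁ : Subgroup A} {d : ℕ} {L : Lat N N₁ d}
    {θ : Fin d → ℝ} {A₁ : Subgroup A} {a : A} :
    a ∈ St2 L θ A₁ ↔ a ∈ A₁ ∧ ∃ c : ℝ, 0 < c ∧ L.th a θ = c • θ := Iff.rfl

private theorem smul_inj {d : ℕ} {θ : Fin d → ℝ} (h : θ ≠ 0) {c c' : ℝ}
    (hc : c • θ = c' • θ) : c = c' := smul_left_injective ℝ h hc

/-- the multiplier -/
private noncomputable def lamf {A : Type} [Group A] {N N₁ : Subgroup A} {d : ℕ} (L : Lat N N₁ d)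
    (θ : Fin d → ℝ) (a : A) : ℝ :=
  open Classical in if h : ∃ c : ℝ, L.th a θ = c • θ then h.choose else 0

private theorem lamf_spec {A : Type} [Group A] {N N₁ : Subgroup A} {d : ℕ} {L : Lat N N₁ d}
    {θ : Fin d → ℝ} (hθ : θ ≠ 0) {a : A} {c : ℝ} (h : L.th a θ = c • θ) : lamf L θ a = c := by
  have hex : ∃ c : ℝ, L.th a θ = c • θ := ⟨c, h⟩
  have e : lamf L θ a = hex.choose := dif_pos hex
  rw [e]
  exact smul_inj hθ (hex.choose_spec.symm.trans h)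

private theorem lamf_mul {A : Type} [Group A] {N N₁ : Subgroup A} {d : ℕ} {L : Lat N N₁ d}
    {θ : Fin d → ℝ} (hθ : θ ≠ 0) {a b : A} {c c' : ℝ} (h : L.th a θ = c • θ)
    (h' : L.th b θ = c' • θ) : lamf L θ (a * b) = lamf L θ a * lamf L θ b := by
  rw [lamf_spec hθ h, lamf_spec hθ h']
  apply lamf_spec hθ
  rw [L.th_mul, h, L.th_smul, h', smul_smul]

/-- the sign of the multiplier -/
private noncomputable def sg {A : Type} [Group A] {N N₁ : Subgroup A} {d : ℕ} (L : Lat N N₁ d)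
    {θ : Fin d → ℝ} (hθ : θ ≠ 0) (A₁ : Subgroup A) : ↥(St L θ A₁) →* SignType where
  toFun a := SignType.sign (lamf L θ a)
  map_one' := by
    rw [Subgroup.coe_one, lamf_spec hθ (c := 1) (by rw [L.th_one, one_smul])]
    simp
  map_mul' a b := by
    obtain ⟨-, c, -, hc⟩ := a.2
    obtain ⟨-, c', -, hc'⟩ := b.2
    rw [Subgroup.coe_mul, lamf_mul hθ hc hc', sign_mul]

private theorem St2_rel {A : Type} [Group A] {N N₁ : Subgroup A} {d : ℕ} (L : Lat N N₁ d)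
    {θ : Fin d → ℝ} (hθ : θ ≠ 0) (A₁ : Subgroup A) : (St2 L θ A₁).relIndex (St L θ A₁) ≠ 0 := by
  have hfi : ((sg L hθ A₁).toHomUnits).ker.FiniteIndex := Subgroup.finiteIndex_ker _
  have hle : ((sg L hθ A₁).toHomUnits).ker ≤ (St2 L θ A₁).subgroupOf (St L θ A₁) := by
    intro a ha
    rw [MonoidHom.mem_ker] at ha
    have h1 : sg L hθ A₁ a = 1 := by
      have := congrArg Units.val ha
      rwa [MonoidHom.coe_toHomUnits, Units.val_one] at this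
    have h2 : SignType.sign (lamf L θ a) = 1 := h1
    rw [sign_eq_one_iff] at h2
    rw [Subgroup.mem_subgroupOf]
    obtain ⟨h3, c, hc, hac⟩ := a.2
    rw [lamf_spec hθ hac] at h2
    exact ⟨h3, c, h2, hac⟩
  exact (Subgroup.finiteIndex_of_le hle).index_ne_zero

private theorem St_rel {A : Type} [Group A] {N N₁ : Subgroup A} {d : ℕ} (L : Lat N N₁ d)
    {θ : Fin d → ℝ} (A₁ : Subgroup A)
    (hfin : ¬ ∀ n : ℕ, ∃ g : Fin n → A, (∀ i, g i ∈ A₁) ∧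
      ∀ i j, i ≠ j → ¬ Par (L.th (g i) θ) (L.th (g j) θ)) : (St L θ A₁).relIndex A₁ ≠ 0 := by
  intro h0
  apply hfin
  intro n
  have hinf : Infinite (↥A₁ ⧸ (St L θ A₁).subgroupOf A₁) := by
    rw [← not_finite_iff_infinite]
    intro hf
    exact Subgroup.index_ne_zero_of_finite (H := (St L θ A₁).subgroupOf A₁) h0
  let e := Infinite.natEmbedding (↥A₁ ⧸ (St L θ A₁).subgroupOf A₁)
  let o : Fin n → ↥A₁ := fun i => (e (i : ℕ)).out
  refine ⟨fun i => ((o i)⁻¹ : ↥A₁), fun i => ((o i)⁻¹).2, ?_⟩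
  intro i j hij hp
  apply hij
  obtain ⟨c, hc, hcc⟩ := hp
  have hmem : (o i)⁻¹ * o j ∈ (St L θ A₁).subgroupOf A₁ := by
    rw [Subgroup.mem_subgroupOf]
    refine ⟨((o i)⁻¹ * o j).2, c, hc, ?_⟩
    rw [Subgroup.coe_mul, L.th_mul]
    rw [hcc, L.th_smul, ← L.th_mul, ← Subgroup.coe_mul, inv_mul_cancel, Subgroup.coe_one, L.th_one]
  have h1 : e (i : ℕ) = e (j : ℕ) := by
    have h2 : (QuotientGroup.mk (o i) : ↥A₁ ⧸ (St L θ A₁).subgroupOf A₁) = QuotientGroup.mk (o j) :=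
      QuotientGroup.eq.mpr hmem
    have e1 : (QuotientGroup.mk (o i) : ↥A₁ ⧸ (St L θ A₁).subgroupOf A₁) = e (i : ℕ) :=
      QuotientGroup.out_eq' _
    have e2 : (QuotientGroup.mk (o j) : ↥A₁ ⧸ (St L θ A₁).subgroupOf A₁) = e (j : ℕ) :=
      QuotientGroup.out_eq' _
    rw [← e1, ← e2, h2]
  exact Fin.ext (e.injective h1)

theorem fin_case {A : Type} [Group A] {N N₁ : Subgroup A} {d : ℕ} {L : Lat N N₁ d}
    {θ : Fin d → ℝ} {A₁ : Subgroup A} {ρ : A → ℝ} {c₀ C₀ : ℝ} (hg : Gro L θ A₁ ρ c₀ C₀)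
    (hfin : ¬ ∀ n : ℕ, ∃ g : Fin n → A, (∀ i, g i ∈ A₁) ∧
      ∀ i j, i ≠ j → ¬ Par (L.th (g i) θ) (L.th (g j) θ)) :
    ∃ A₂ : Subgroup A, A₂.FiniteIndex ∧ N ≤ A₂ ∧ A₂ ≤ A₁ ∧
      ∃ lam : A → ℝ, (∀ a ∈ A₂, 0 < lam a) ∧
        (∀ a ∈ A₂, ∀ b ∈ A₂, lam (a * b) = lam a * lam b) ∧ (∀ n ∈ N, lam n = 1) ∧
        ∀ a ∈ A₂, L.th a θ = lam a • θ := by
  have hθ := hg.th0
  have hle2 : St2 L θ A₁ ≤ A₁ := fun a ha => (mem_St2.mp ha).1
  refine ⟨St2 L θ A₁, ⟨?_⟩, ?_, hle2, lamf L θ, ?_, ?_, ?_, ?_⟩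
  · have h1 := Subgroup.relIndex_ne_zero_trans (St2_rel L hθ A₁) (St_rel L A₁ hfin)
    rw [← Subgroup.relIndex_mul_index hle2]
    exact mul_ne_zero h1 hg.fin.index_ne_zero
  · intro n hn
    exact ⟨hg.le hn, 1, one_pos, by rw [L.th_N hg.norm hn, one_smul]⟩
  · intro a ha
    obtain ⟨-, c, hc, hac⟩ := mem_St2.mp ha
    rw [lamf_spec hθ hac]; exact hc
  · intro a ha b hb
    obtain ⟨-, c, hc, hac⟩ := mem_St2.mp ha
    obtain ⟨-, c', hc', hbc⟩ := mem_St2.mp hb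
    exact lamf_mul hθ hac hbc
  · intro n hn
    exact lamf_spec hθ (by rw [L.th_N hg.norm hn, one_smul])
  · intro a ha
    obtain ⟨-, c, hc, hac⟩ := mem_St2.mp ha
    rw [lamf_spec hθ hac]; exact hac

end Pool.Agent.RPC
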