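import Pool.Agent.RPC.Defs

/-!
MODULE RPC/Norma : locally nilpotent groups: subgroups, quotients, isomorphic copies of LN groups are
LN; a finitely generated proper subgroup is not self-normalising.
`lt_normalizer`: U f.g., U ≠ ⊤: take x ∉ U; V = ⟨U, x⟩ is f.g., nilpotent, U < V, so U is properly
contained in its normaliser in V (Mathlib: `normalizerCondition_of_isNilpotent`).
-/

set_option autoImplicit false

namespace Pool.Agent.RPC

theorem nil_of_inj {G H : Type} [Group G] [Group H] (f : G →* H) (hf : Function.Injective f)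
    (h : Group.IsNilpotent H) : Group.IsNilpotent G := by
  have e := (MonoidHom.ofInjective hf).symm
  exact Group.nilpotent_of_mulEquiv e

theorem LN.sub {P : Type} [Group P] (h : LN P) (W : Subgroup P) : LN W := by
  classical
  intro s
  have h1 := h (s.image W.subtype)
  have hmem : ∀ x : Subgroup.closure (↑s : Set W),
      ((x : W) : P) ∈ Subgroup.closure (↑(s.image W.subtype) : Set P) := by
    intro x
    have h2 : (Subgroup.closure (↑s : Set W)).map W.subtype =
        Subgroup.closure (↑(s.image W.subtype) : Set P) := by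
      rw [MonoidHom.map_closure, Finset.coe_image]
    rw [← h2]
    exact ⟨x, x.2, rfl⟩
  refine nil_of_inj ((W.subtype.comp (Subgroup.closure (↑s : Set W)).subtype).codRestrict
    (Subgroup.closure (↑(s.image W.subtype) : Set P)) hmem) ?_ h1
  intro a b hab
  have h3 := congrArg Subtype.val hab
  exact Subtype.ext (Subtype.ext h3)

theorem LN.map {P Q : Type} [Group P] [Group Q] (h : LN P) (f : P →* Q)
    (hf : Function.Surjective f) : LN Q := by
  classical
  intro s
  have h1 := h (s.image (Function.surjInv hf))
  have h2 : (Subgroup.closure (↑(s.image (Function.surjInv hf)) : Set P)).map f =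
      Subgroup.closure (↑s : Set Q) := by
    rw [MonoidHom.map_closure, Finset.coe_image, ← Set.image_comp]
    congr 1
    ext q
    simp only [Set.mem_image, Function.comp, Function.surjInv_eq hf]
    simp
  rw [← h2]
  exact Group.nilpotent_of_surjective
    (f.subgroupMap (Subgroup.closure (↑(s.image (Function.surjInv hf)) : Set P)))
    (f.subgroupMap_surjective _)

theorem lt_normalizer {P : Type} [Group P] (h : LN P) (U : Subgroup P) (hU : U.FG)
    (hne : U ≠ ⊤) : ∃ x, x ∉ U ∧ x ∈ Subgroup.normalizer (U : Set P) := by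
  classical
  obtain ⟨S, hS⟩ := hU
  obtain ⟨x, -, hx⟩ := SetLike.exists_of_lt (lt_top_iff_ne_top.2 hne)
  set V := Subgroup.closure (↑(insert x S) : Set P) with hV
  have hnil : Group.IsNilpotent V := h (insert x S)
  have hUV : U ≤ V := by
    rw [← hS, hV]
    apply Subgroup.closure_mono
    intro y hy
    exact Finset.mem_coe.2 (Finset.mem_insert_of_mem hy)
  have hxV : x ∈ V := Subgroup.subset_closure (by simp)
  set U' := U.subgroupOf V with hU'
  have hlt : U' < ⊤ := by
    rw [lt_top_iff_ne_top]
    intro h0
    have : (⟨x, hxV⟩ : V) ∈ U' := by rw [h0]; trivial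
    exact hx (Subgroup.mem_subgroupOf.1 this)
  have hnc := Group.normalizerCondition_of_isNilpotent (G := V) U' hlt
  obtain ⟨y, hy1, hy2⟩ := SetLike.exists_of_lt hnc
  refine ⟨y, fun hy => hy2 (Subgroup.mem_subgroupOf.2 hy), ?_⟩
  rw [Subgroup.mem_normalizer_iff] at hy1 ⊢
  intro u
  constructor
  · intro hu
    have := (hy1 ⟨u, hUV hu⟩).1 (Subgroup.mem_subgroupOf.2 hu)
    exact Subgroup.mem_subgroupOf.1 this
  · intro hu
    have huV : u ∈ V := by
      have h3 : (y : P)⁻¹ * ((y : P) * u * (y : P)⁻¹) * y ∈ V :=
        V.mul_mem (V.mul_mem (V.inv_mem y.2) (hUV hu)) y.2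
      have h4 : (y : P)⁻¹ * ((y : P) * u * (y : P)⁻¹) * y = u := by group
      rwa [h4] at h3
    have := (hy1 ⟨u, huV⟩).2 (Subgroup.mem_subgroupOf.2 hu)
    exact Subgroup.mem_subgroupOf.1 this

end Pool.Agent.RPC
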