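import Pool.Agent.RPC.Red1
import Pool.Agent.RPC.Norma

/-!
MODULE RPC/Red2 : Theorem X from `Core A` for all PC groups A.
G = AB, A, B PC, P normal LN.
(a) Among the subgroups U ≤ P which are f.g., normalised by B, and contain B ⊓ P, there is a maximal
one: U = (B ⊔ U) ⊓ P, and H = B ⊔ U ≥ B is determined by A ⊓ H (H = (A ⊓ H) B), a subgroup of A.
B ⊓ P is such a subgroup.
(b) Suppose U ≠ P.  W := N_P(U) = P ⊓ normalizer U > U by lt_normalizer (in ↥P), normalised by B.
G₁ := B ⊔ W = B W ≥ B, G₁ = (A ⊓ G₁) B.  W and U are normal in G₁.  Let A₁ = A ⊓ G₁ (PC).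
P' := W/U (quotient of ↥W by U.subgroupOf W), LN.  A₁ acts on P' by conjugation.
For a ∈ A₁: a ∈ G₁ = W B (W normal in G₁): a = w⁻¹ b with w ∈ W, b ∈ B, i.e. w a ∈ B; w is unique
modulo U on the left/right: if w a, w' a ∈ B then w' w⁻¹ ∈ B ⊓ P ≤ U.  δ a := class of w in P'.
Cocycle: w a ∈ B, w' a' ∈ B ⇒ (w · a w' a⁻¹) (a a') ∈ B.  Surjective: w ∈ W ⊆ G₁ = (A₁ B)⁻¹ = B A₁:
w = b a, w a⁻¹ = b ∈ B, so δ(a⁻¹) = class of w.
Core A₁ ⇒ P' f.g. ⇒ W f.g., W normalised by B, contains B ⊓ P, bigger than U: contradiction.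
It may be convenient to work in the group G₁ (type ↥G₁) or to define the action by MulAut.conjNormal
on the normal subgroup W/U of G₁/U.
-/

set_option autoImplicit false

namespace Pool.Agent.RPC

/-- images of f.g. subgroups are f.g. -/
private theorem r2_fg_map {G H : Type} [Group G] [Group H] (f : G →* H) {K : Subgroup G}
    (h : K.FG) : (K.map f).FG := by
  classical
  obtain ⟨S, hS⟩ := h
  refine ⟨S.image f, ?_⟩
  rw [← hS, MonoidHom.map_closure, Finset.coe_image]

/-- an extension of f.g. by f.g. -/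
private theorem r2_fg_ext {G H : Type} [Group G] [Group H] (f : G →* H) {W : Subgroup G}
    (h1 : (W.map f).FG) (h2 : f.ker.FG) (hk : f.ker ≤ W) : W.FG := by
  classical
  obtain ⟨T, hT⟩ := h1
  have hex : ∀ t : H, ∃ w : G, t ∈ T → (w ∈ W ∧ f w = t) := by
    intro t
    by_cases ht : t ∈ T
    · have : t ∈ W.map f := by
        rw [← hT]
        exact Subgroup.subset_closure (by exact_mod_cast ht)
      obtain ⟨w, hw, hwt⟩ := this
      exact ⟨w, fun _ => ⟨hw, hwt⟩⟩
    · exact ⟨1, fun h => absurd h ht⟩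
  choose g hg using hex
  set S : Finset G := T.image g with hS
  have hSW : Subgroup.closure (S : Set G) ≤ W := by
    rw [Subgroup.closure_le]
    intro x hx
    rw [hS, Finset.coe_image] at hx
    obtain ⟨t, ht, rfl⟩ := hx
    exact (hg t (by exact_mod_cast ht)).1
  have hmap : (Subgroup.closure (S : Set G)).map f = W.map f := by
    rw [MonoidHom.map_closure, ← hT]
    congr 1
    rw [hS, Finset.coe_image, Set.image_image]
    ext t
    constructor
    · rintro ⟨s, hs, rfl⟩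
      have := (hg s (by exact_mod_cast hs)).2
      simp only [this]
      exact hs
    · intro ht
      exact ⟨t, ht, (hg t (by exact_mod_cast ht)).2⟩
  have hW : W = Subgroup.closure (S : Set G) ⊔ f.ker := by
    apply le_antisymm
    · intro w hw
      have h3 : f w ∈ (Subgroup.closure (S : Set G)).map f := by
        rw [hmap]
        exact ⟨w, hw, rfl⟩
      obtain ⟨c, hc, hcw⟩ := h3
      have h4 : c⁻¹ * w ∈ f.ker := by
        rw [MonoidHom.mem_ker, map_mul, map_inv, hcw, inv_mul_cancel]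
      have h5 : w = c * (c⁻¹ * w) := by group
      rw [h5]
      exact Subgroup.mul_mem_sup hc h4
    · exact sup_le hSW hk
  rw [hW]
  exact Subgroup.FG.sup ⟨S, rfl⟩ h2

/-- the core applied in a group with normal subgroups `U ≤ W` -/
private theorem r2_core {G A₁ : Type} [Group G] [Group A₁] (ι : A₁ →* G) (B W U : Subgroup G)
    [hWn : W.Normal] [hUn : U.Normal] (hUW : U ≤ W) (hBW : B ⊓ W ≤ U) (hC : Core A₁)
    (h1 : ∀ a : A₁, ∃ w ∈ W, w * ι a ∈ B) (h2 : ∀ w ∈ W, ∃ a : A₁, w * ι a ∈ B)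
    (hLN : LN W) (hU : U.FG) : W.FG := by
  classical
  choose ω hω hωB using h1
  have hmem : ∀ w ∈ W, QuotientGroup.mk' U w ∈ W.map (QuotientGroup.mk' U) :=
    fun w hw => ⟨w, hw, rfl⟩
  have hPn : (W.map (QuotientGroup.mk' U)).Normal :=
    hWn.map (QuotientGroup.mk' U) (QuotientGroup.mk'_surjective U)
  have huniq : ∀ w w' : G, w ∈ W → w' ∈ W → ∀ a : A₁, w * ι a ∈ B → w' * ι a ∈ B →
      QuotientGroup.mk' U w = QuotientGroup.mk' U w' := by
    intro w w' hw hw' a ha ha'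
    have h3 : w * w'⁻¹ ∈ U := by
      apply hBW
      refine ⟨?_, W.mul_mem hw (W.inv_mem hw')⟩
      have h4 : w * w'⁻¹ = (w * ι a) * (w' * ι a)⁻¹ := by group
      rw [h4]
      exact B.mul_mem ha (B.inv_mem ha')
    have h5 : w'⁻¹ * w ∈ U := by
      have := hUn.conj_mem _ h3 w'⁻¹
      have h6 : w'⁻¹ * (w * w'⁻¹) * w'⁻¹⁻¹ = w'⁻¹ * w := by group
      rwa [h6] at this
    exact (QuotientGroup.eq.mpr h5).symm
  let δ : A₁ → ↥(W.map (QuotientGroup.mk' U)) :=
    fun a => ⟨QuotientGroup.mk' U (ω a), hmem _ (hω a)⟩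
  let φ : A₁ →* MulAut ↥(W.map (QuotientGroup.mk' U)) :=
    (MulAut.conjNormal (H := W.map (QuotientGroup.mk' U))).comp ((QuotientGroup.mk' U).comp ι)
  have hcoc : Coc φ δ := by
    constructor
    · intro a b
      apply Subtype.ext
      rw [Subgroup.coe_mul]
      have h3 : ((φ a (δ b) : ↥(W.map (QuotientGroup.mk' U))) : G ⧸ U) =
          QuotientGroup.mk' U (ι a) * QuotientGroup.mk' U (ω b) * (QuotientGroup.mk' U (ι a))⁻¹ :=
        MulAut.conjNormal_apply _ _
      rw [h3]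
      have h4 : QuotientGroup.mk' U (ω a) *
          (QuotientGroup.mk' U (ι a) * QuotientGroup.mk' U (ω b) * (QuotientGroup.mk' U (ι a))⁻¹)
          = QuotientGroup.mk' U (ω a * (ι a * ω b * (ι a)⁻¹)) := by
        simp only [map_mul, map_inv]
      change QuotientGroup.mk' U (ω (a * b)) = QuotientGroup.mk' U (ω a) * _
      rw [h4]
      refine huniq _ _ (hω _) (W.mul_mem (hω a) (hWn.conj_mem _ (hω b) _)) (a * b) (hωB _) ?_
      have h5 : ω a * (ι a * ω b * (ι a)⁻¹) * ι (a * b) = (ω a * ι a) * (ω b * ι b) := by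
        rw [map_mul]
        group
      rw [h5]
      exact B.mul_mem (hωB a) (hωB b)
    · rintro ⟨q, w, hw, rfl⟩
      obtain ⟨a, ha⟩ := h2 w hw
      exact ⟨a, Subtype.ext (huniq _ _ (hω a) hw a (hωB a) ha)⟩
  have hLN' : LN ↥(W.map (QuotientGroup.mk' U)) :=
    hLN.map ((QuotientGroup.mk' U).subgroupMap W) (MonoidHom.subgroupMap_surjective _ _)
  have hfg : Group.FG ↥(W.map (QuotientGroup.mk' U)) := hC _ φ δ hcoc hLN'
  have hfg2 : (W.map (QuotientGroup.mk' U)).FG := (Group.fg_iff_subgroup_fg _).mp hfg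
  refine r2_fg_ext (QuotientGroup.mk' U) hfg2 ?_ ?_
  · rw [QuotientGroup.ker_mk']
    exact hU
  · rw [QuotientGroup.ker_mk']
    exact hUW

/-- `B ⊔ U = U B` if `B` normalises `U` -/
private theorem r2_mem_sup {G : Type} [Group G] (B U : Subgroup G)
    (h : ∀ b ∈ B, ∀ u ∈ U, b * u * b⁻¹ ∈ U) {g : G} (hg : g ∈ B ⊔ U) :
    ∃ u ∈ U, ∃ b ∈ B, g = u * b := by
  let K : Subgroup G :=
    { carrier := {g | ∃ u ∈ U, ∃ b ∈ B, g = u * b}
      mul_mem' := by
        rintro x y ⟨u, hu, b, hb, rfl⟩ ⟨v, hv, c, hc, rfl⟩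
        exact ⟨u * (b * v * b⁻¹), U.mul_mem hu (h b hb v hv), b * c, B.mul_mem hb hc, by group⟩
      one_mem' := ⟨1, U.one_mem, 1, B.one_mem, by simp⟩
      inv_mem' := by
        rintro x ⟨u, hu, b, hb, rfl⟩
        refine ⟨b⁻¹ * u⁻¹ * b⁻¹⁻¹, h _ (B.inv_mem hb) _ (U.inv_mem hu), b⁻¹, B.inv_mem hb, ?_⟩
        group }
  have hle : B ⊔ U ≤ K := by
    apply sup_le
    · intro b hb
      exact ⟨1, U.one_mem, b, hb, by simp⟩
    · intro u hu
      exact ⟨u, hu, 1, B.one_mem, by simp⟩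
  exact hle hg

/-- admissible subgroups -/
private structure R2Adm {G : Type} [Group G] (B P U : Subgroup G) : Prop where
  le : U ≤ P
  fg : U.FG
  bp : B ⊓ P ≤ U
  conj : ∀ b ∈ B, ∀ u ∈ U, b * u * b⁻¹ ∈ U

private theorem r2_eq {G : Type} [Group G] (A B P U U' : Subgroup G)
    (hAB : ∀ g : G, ∃ a ∈ A, ∃ b ∈ B, g = a * b) (hU : R2Adm B P U) (hU' : R2Adm B P U')
    (hle : U ≤ U') (heq : (B ⊔ U').subgroupOf A = (B ⊔ U).subgroupOf A) : U' = U := by
  apply le_antisymm _ hle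
  intro u' hu'
  obtain ⟨a, ha, b, hb, hab⟩ := hAB u'
  have h1 : a ∈ B ⊔ U' := by
    have : a = u' * b⁻¹ := by rw [hab]; group
    rw [this]
    exact (B ⊔ U').mul_mem ((le_sup_right : U' ≤ B ⊔ U') hu')
      ((le_sup_left : B ≤ B ⊔ U') (B.inv_mem hb))
  have h2 : (⟨a, ha⟩ : A) ∈ (B ⊔ U').subgroupOf A := Subgroup.mem_subgroupOf.mpr h1
  rw [heq] at h2
  have h3 : a ∈ B ⊔ U := Subgroup.mem_subgroupOf.mp h2
  have h4 : u' ∈ B ⊔ U := by
    rw [hab]
    exact (B ⊔ U).mul_mem h3 ((le_sup_left : B ≤ B ⊔ U) hb)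
  obtain ⟨u, hu, c, hc, huc⟩ := r2_mem_sup B U hU.conj h4
  have h5 : c = u⁻¹ * u' := by rw [huc]; group
  have h6 : c ∈ U := by
    apply hU.bp
    refine ⟨hc, ?_⟩
    rw [h5]
    exact P.mul_mem (P.inv_mem (hU.le hu)) (hU'.le hu')
  rw [huc]
  exact U.mul_mem hu h6

private theorem r2_step {G : Type} [Group G] (hC : ∀ (A : Type) [Group A], PC A → Core A)
    (A B P U : Subgroup G) (hA : PC A)
    (hAB : ∀ g : G, ∃ a ∈ A, ∃ b ∈ B, g = a * b) (hPn : P.Normal) (hLN : LN P)
    (hU : R2Adm B P U) :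
    R2Adm B P (P ⊓ Subgroup.normalizer (U : Set G)) := by
  set W : Subgroup G := P ⊓ Subgroup.normalizer (U : Set G) with hW
  have hUN : U ≤ Subgroup.normalizer (U : Set G) := Subgroup.le_normalizer
  have hUW : U ≤ W := le_inf hU.le hUN
  have hBN : B ≤ Subgroup.normalizer (U : Set G) := by
    intro b hb
    rw [Subgroup.mem_normalizer_iff]
    intro n
    constructor
    · intro hn
      exact hU.conj b hb n hn
    · intro hn
      have := hU.conj b⁻¹ (B.inv_mem hb) _ hn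
      have h1 : b⁻¹ * (b * n * b⁻¹) * b⁻¹⁻¹ = n := by group
      rwa [h1] at this
  have hconjW : ∀ g ∈ Subgroup.normalizer (U : Set G), ∀ w ∈ W, g * w * g⁻¹ ∈ W := by
    intro g hg w hw
    refine ⟨hPn.conj_mem w hw.1 g, ?_⟩
    exact Subgroup.mul_mem _ (Subgroup.mul_mem _ hg hw.2) (Subgroup.inv_mem _ hg)
  set G₁ : Subgroup G := B ⊔ W with hG₁
  have hG₁N : G₁ ≤ Subgroup.normalizer (U : Set G) := sup_le hBN inf_le_right
  have hWG : W ≤ G₁ := le_sup_right
  have hBG : B ≤ G₁ := le_sup_left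
  have hconjB : ∀ b ∈ B, ∀ w ∈ W, b * w * b⁻¹ ∈ W := fun b hb => hconjW b (hBN hb)
  have hWfg : W.FG := by
    have hWn : (W.subgroupOf G₁).Normal := by
      constructor
      intro n hn g
      rw [Subgroup.mem_subgroupOf] at hn ⊢
      exact hconjW _ (hG₁N g.2) _ hn
    have hUn : (U.subgroupOf G₁).Normal := by
      constructor
      intro n hn g
      rw [Subgroup.mem_subgroupOf] at hn ⊢
      exact (Subgroup.mem_normalizer_iff.mp (hG₁N g.2) _).mp hn
    have hPCA : PC ↥(G₁.subgroupOf A) := hA.sub _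
    let ι : ↥(G₁.subgroupOf A) →* ↥G₁ :=
      { toFun := fun a => ⟨((a : A) : G), Subgroup.mem_subgroupOf.mp a.2⟩
        map_one' := rfl
        map_mul' := fun _ _ => rfl }
    have hUfg : (U.subgroupOf G₁).FG := by
      obtain ⟨S, hS⟩ := hU.fg
      classical
      have hSU : ∀ s ∈ S, s ∈ U := by
        intro s hs
        rw [← hS]
        exact Subgroup.subset_closure (by exact_mod_cast hs)
      have hSG : ∀ s ∈ S, s ∈ G₁ := fun s hs => hWG (hUW (hSU s hs))
      refine ⟨S.attach.image (fun s => (⟨s.1, hSG s.1 s.2⟩ : ↥G₁)), ?_⟩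
      apply Subgroup.map_injective (Subgroup.subtype_injective G₁)
      rw [MonoidHom.map_closure, Subgroup.subgroupOf_map_subtype,
        inf_eq_left.mpr (hUW.trans hWG), ← hS]
      congr 1
      ext x
      simp only [Finset.coe_image, Set.mem_image, Finset.mem_coe, Finset.mem_attach, true_and,
        Subtype.exists, Subgroup.subtype_apply]
      constructor
      · rintro ⟨y, hy, ⟨s, hs, h⟩, rfl⟩
        have : s = y := congrArg Subtype.val h
        exact this ▸ hs
      · intro hx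
        exact ⟨x, hSG x hx, ⟨x, hx, rfl⟩, rfl⟩
    have hLNW : LN ↥(W.subgroupOf G₁) := by
      have h1 : LN ↥(W.subgroupOf P) := hLN.sub _
      refine h1.map
        { toFun := fun x => (⟨⟨((x : P) : G), hWG (Subgroup.mem_subgroupOf.mp x.2)⟩,
            Subgroup.mem_subgroupOf.mpr (Subgroup.mem_subgroupOf.mp x.2)⟩ :
              ↥(W.subgroupOf G₁))
          map_one' := rfl
          map_mul' := fun _ _ => rfl } ?_
      rintro ⟨⟨w, hw1⟩, hw2⟩
      have hw3 : w ∈ W := Subgroup.mem_subgroupOf.mp hw2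
      exact ⟨⟨⟨w, hw3.1⟩, Subgroup.mem_subgroupOf.mpr hw3⟩, rfl⟩
    have hfin : (W.subgroupOf G₁).FG := by
      refine r2_core ι (B.subgroupOf G₁) (W.subgroupOf G₁) (U.subgroupOf G₁) ?_ ?_
        (hC _ hPCA) ?_ ?_ hLNW hUfg
      · intro x hx
        rw [Subgroup.mem_subgroupOf] at hx ⊢
        exact hUW hx
      · intro x hx
        have h1 : (x : G) ∈ B := Subgroup.mem_subgroupOf.mp hx.1
        have h2 : (x : G) ∈ W := Subgroup.mem_subgroupOf.mp hx.2
        rw [Subgroup.mem_subgroupOf]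
        exact hU.bp ⟨h1, h2.1⟩
      · intro a
        have h1 : ((a : A) : G) ∈ B ⊔ W := Subgroup.mem_subgroupOf.mp a.2
        obtain ⟨w, hw, b, hb, hwb⟩ := r2_mem_sup B W hconjB h1
        refine ⟨⟨w⁻¹, hWG (W.inv_mem hw)⟩, Subgroup.mem_subgroupOf.mpr (W.inv_mem hw), ?_⟩
        rw [Subgroup.mem_subgroupOf]
        change w⁻¹ * ((a : A) : G) ∈ B
        rw [hwb, inv_mul_cancel_left]
        exact hb
      · intro w hw
        obtain ⟨a, ha, b, hb, hab⟩ := hAB ((w : G)⁻¹)
        have h1 : a = (w : G)⁻¹ * b⁻¹ := by rw [hab]; group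
        have h2 : a ∈ G₁ := by
          rw [h1]
          exact G₁.mul_mem (G₁.inv_mem w.2) (hBG (B.inv_mem hb))
        refine ⟨⟨⟨a, ha⟩, Subgroup.mem_subgroupOf.mpr h2⟩, ?_⟩
        rw [Subgroup.mem_subgroupOf]
        change (w : G) * a ∈ B
        rw [h1, mul_inv_cancel_left]
        exact B.inv_mem hb
    have h3 := r2_fg_map G₁.subtype hfin
    rwa [Subgroup.subgroupOf_map_subtype, inf_eq_left.mpr hWG] at h3
  exact ⟨inf_le_left, hWfg, hU.bp.trans hUW, hconjB⟩

theorem X_of_core (hC : ∀ (A : Type) [Group A], PC A → Core A) : ThmX := by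
  intro G _ A B P hA hB hAB hPn hLN
  have hbase : R2Adm B P (B ⊓ P) := by
    refine ⟨inf_le_right, ?_, le_refl _, ?_⟩
    · have h1 : (P.subgroupOf B).FG := hB.2 _
      have h2 := r2_fg_map B.subtype h1
      rwa [Subgroup.subgroupOf_map_subtype, inf_comm] at h2
    · intro b hb u hu
      exact ⟨B.mul_mem (B.mul_mem hb hu.1) (B.inv_mem hb), hPn.conj_mem u hu.2 b⟩
  obtain ⟨K, ⟨U, hU, rfl⟩, hmax⟩ := hA.exists_max
    {K : Subgroup A | ∃ U : Subgroup G, R2Adm B P U ∧ (B ⊔ U).subgroupOf A = K}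
    ⟨_, B ⊓ P, hbase, rfl⟩
  by_cases hUP : U = P
  · rw [← hUP]
    exact hU.fg
  · exfalso
    have hW := r2_step hC A B P U hA hAB hPn hLN hU
    have hUW : U ≤ P ⊓ Subgroup.normalizer (U : Set G) := le_inf hU.le Subgroup.le_normalizer
    have h1 : (B ⊔ U).subgroupOf A ≤
        (B ⊔ (P ⊓ Subgroup.normalizer (U : Set G))).subgroupOf A :=
      Subgroup.comap_mono (sup_le_sup_left hUW B)
    have h2 := hmax _ ⟨_, hW, rfl⟩ h1
    have h3 := r2_eq A B P U _ hAB hU hW hUW h2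
    -- the subgroup `U` of `P` is f.g. and proper
    have hUfg : (U.subgroupOf P).FG := by
      obtain ⟨S, hS⟩ := hU.fg
      classical
      have hSU : ∀ s ∈ S, s ∈ U := by
        intro s hs
        rw [← hS]
        exact Subgroup.subset_closure (by exact_mod_cast hs)
      have hSG : ∀ s ∈ S, s ∈ P := fun s hs => hU.le (hSU s hs)
      refine ⟨S.attach.image (fun s => (⟨s.1, hSG s.1 s.2⟩ : ↥P)), ?_⟩
      apply Subgroup.map_injective (Subgroup.subtype_injective P)
      rw [MonoidHom.map_closure, Subgroup.subgroupOf_map_subtype,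
        inf_eq_left.mpr hU.le, ← hS]
      congr 1
      ext x
      simp only [Finset.coe_image, Set.mem_image, Finset.mem_coe, Finset.mem_attach, true_and,
        Subtype.exists, Subgroup.subtype_apply]
      constructor
      · rintro ⟨y, hy, ⟨s, hs, h⟩, rfl⟩
        have : s = y := congrArg Subtype.val h
        exact this ▸ hs
      · intro hx
        exact ⟨x, hSG x hx, ⟨x, hx, rfl⟩, rfl⟩
    have hne : U.subgroupOf P ≠ ⊤ := by
      intro h
      apply hUP
      apply le_antisymm hU.le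
      exact Subgroup.subgroupOf_eq_top.mp h
    obtain ⟨x, hx1, hx2⟩ := lt_normalizer hLN (U.subgroupOf P) hUfg hne
    have hx3 : (x : G) ∈ P ⊓ Subgroup.normalizer (U : Set G) := by
      refine Subgroup.mem_inf.mpr ⟨x.2, ?_⟩
      rw [Subgroup.mem_normalizer_iff] at hx2 ⊢
      intro n
      constructor
      · intro hn
        have := (hx2 ⟨n, hU.le hn⟩).mp (Subgroup.mem_subgroupOf.mpr hn)
        exact Subgroup.mem_subgroupOf.mp this
      · intro hn
        have hnP : n ∈ P := by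
          have := hPn.conj_mem _ (hU.le hn) (x : G)⁻¹
          have h4 : (x : G)⁻¹ * ((x : G) * n * (x : G)⁻¹) * (x : G)⁻¹⁻¹ = n := by group
          rwa [h4] at this
        have := (hx2 ⟨n, hnP⟩).mpr (Subgroup.mem_subgroupOf.mpr hn)
        exact Subgroup.mem_subgroupOf.mp this
    rw [h3] at hx3
    exact hx1 (Subgroup.mem_subgroupOf.mpr hx3)

end Pool.Agent.RPC
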