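import Pool.Agent.RPC.PCBasic

/-!
MODULE RPC/WFInf : in a PC group there is no infinite descending chain of subgroups
H 0 ≥ H 1 ≥ ... with all H (i+1) of infinite index in H i.
Proof.  Say W(G): no such chain exists in G.  (a) W(G) for f.g. abelian G: the rank
(Module.finrank ℤ of the additive group, or of ℚ ⊗) of H (i+1) is smaller than that of H i.
(b) N normal in G, W(N), W(G/N) ⇒ W(G): for a chain H i, either (H (i+1) ⊓ N) has infinite index in
(H i ⊓ N) or the image of H (i+1) in G/N has infinite index in the image of H i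
(Subgroup.relIndex_... : [K:H] ≤ [KN:HN][K∩N:H∩N]); one of the two happens for infinitely many i;
the subchain (composite of infinite index steps is infinite index, intermediate terms only increase
the index) contradicts W(N) or W(G/N).
(c) induction on the derived length: G' has smaller derived length, G/G' is f.g. abelian.
Use the well-foundedness ⇔ no infinite sequence (`wellFounded_iff_isEmpty_descending_chain`),
relIndex lemmas `Subgroup.relIndex_mul_relIndex`, `Subgroup.relIndex_eq_zero_of_le_left` ...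
-/

set_option autoImplicit false
set_option linter.all false

namespace Pool.Agent.RPC

/-- there is a rank function for the subgroups -/
def Rk (G : Type) [Group G] : Prop :=
  ∃ ρ : Subgroup G → ℕ, ∀ H K : Subgroup G, H ≤ K →
    ρ H ≤ ρ K ∧ (H.relIndex K = 0 → ρ H < ρ K)

theorem rk_fin_of {G : Type} [Group G] (H K : Subgroup G) (h : H.relIndex K ≠ 0) :
    ∃ F : Set G, F.Finite ∧ (∀ f ∈ F, f ∈ K) ∧ ∀ k ∈ K, ∃ f ∈ F, f⁻¹ * k ∈ H := by
  have h1 : (H.subgroupOf K).FiniteIndex := ⟨h⟩
  have h2 : Finite (K ⧸ H.subgroupOf K) := Subgroup.finite_quotient_of_finiteIndex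
  refine ⟨Set.range (fun q : K ⧸ H.subgroupOf K => ((q.out : K) : G)), Set.finite_range _,
    ?_, ?_⟩
  · rintro _ ⟨q, rfl⟩
    exact q.out.2
  · intro k hk
    refine ⟨_, ⟨QuotientGroup.mk ⟨k, hk⟩, rfl⟩, ?_⟩
    have h3 := QuotientGroup.out_eq' (QuotientGroup.mk ⟨k, hk⟩ : K ⧸ H.subgroupOf K)
    rw [QuotientGroup.eq] at h3
    exact Subgroup.mem_subgroupOf.1 h3

theorem rk_of_fin {G : Type} [Group G] (H K : Subgroup G) (F : Set G) (hF : F.Finite)
    (h : ∀ k ∈ K, ∃ f ∈ F, f⁻¹ * k ∈ H) : H.relIndex K ≠ 0 := by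
  have hF' : Finite F := hF
  choose! φ hφ1 hφ2 using h
  have hfin : Finite (K ⧸ H.subgroupOf K) := by
    apply Finite.of_injective (fun q : K ⧸ H.subgroupOf K =>
      (⟨φ ((q.out : K) : G), hφ1 _ q.out.2⟩ : F))
    intro q q' hqq
    have e : φ ((q.out : K) : G) = φ ((q'.out : K) : G) := congrArg Subtype.val hqq
    have h1 := hφ2 _ q.out.2
    have h2 := hφ2 _ q'.out.2
    rw [e] at h1
    rw [← QuotientGroup.out_eq' q, ← QuotientGroup.out_eq' q', QuotientGroup.eq,
      Subgroup.mem_subgroupOf]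
    have h3 := H.mul_mem (H.inv_mem h1) h2
    have e2 : ((q.out⁻¹ * q'.out : K) : G) = ((φ ((q'.out : K) : G))⁻¹ * ((q.out : K) : G))⁻¹ *
        ((φ ((q'.out : K) : G))⁻¹ * ((q'.out : K) : G)) := by
      rw [Subgroup.coe_mul, Subgroup.coe_inv]
      group
    rw [e2]
    exact h3
  exact Subgroup.index_ne_zero_of_finite

theorem rk_ext {G : Type} [Group G] (N : Subgroup G) [N.Normal] (h1 : Rk N) (h2 : Rk (G ⧸ N)) :
    Rk G := by
  obtain ⟨ρ1, h1⟩ := h1
  obtain ⟨ρ2, h2⟩ := h2
  refine ⟨fun H => ρ1 (H.subgroupOf N) + ρ2 (H.map (QuotientGroup.mk' N)), ?_⟩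
  intro H K hHK
  have m1 : H.subgroupOf N ≤ K.subgroupOf N := Subgroup.comap_mono hHK
  have m2 : H.map (QuotientGroup.mk' N) ≤ K.map (QuotientGroup.mk' N) := Subgroup.map_mono hHK
  obtain ⟨a1, b1⟩ := h1 _ _ m1
  obtain ⟨a2, b2⟩ := h2 _ _ m2
  refine ⟨add_le_add a1 a2, ?_⟩
  intro h0
  by_cases c1 : (H.subgroupOf N).relIndex (K.subgroupOf N) = 0
  · exact add_lt_add_of_lt_of_le (b1 c1) a2
  by_cases c2 : (H.map (QuotientGroup.mk' N)).relIndex (K.map (QuotientGroup.mk' N)) = 0
  · exact add_lt_add_of_le_of_lt a1 (b2 c2)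
  exfalso
  obtain ⟨F2, hF2, hF2K, hF2'⟩ := rk_fin_of _ _ c1
  obtain ⟨F1, hF1, hF1K, hF1'⟩ := rk_fin_of _ _ c2
  have hl : ∀ f ∈ F1, ∃ k ∈ K, QuotientGroup.mk' N k = f := fun f hf =>
    Subgroup.mem_map.1 (hF1K f hf)
  choose! l hlK hl using hl
  apply rk_of_fin H K (Set.image2 (fun (f1 : G ⧸ N) (f2 : N) => l f1 * (f2 : G)) F1 F2)
    (hF1.image2 _ hF2) _ h0
  intro k hk
  obtain ⟨f1, hf1, hf1'⟩ := hF1' (QuotientGroup.mk' N k) (Subgroup.mem_map_of_mem _ hk)
  obtain ⟨y, hy, hye⟩ := Subgroup.mem_map.1 hf1'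
  have e1 : QuotientGroup.mk' N (y⁻¹ * ((l f1)⁻¹ * k)) = 1 := by
    rw [map_mul, map_mul, map_inv, map_inv, hl f1 hf1, hye]
    group
  have hn : y⁻¹ * ((l f1)⁻¹ * k) ∈ N := by
    rwa [QuotientGroup.mk'_apply, QuotientGroup.eq_one_iff] at e1
  have hn2 : (l f1)⁻¹ * k * y⁻¹ ∈ N := by
    have h3 := (inferInstance : N.Normal).conj_mem _ hn y
    have e2 : y * (y⁻¹ * ((l f1)⁻¹ * k)) * y⁻¹ = (l f1)⁻¹ * k * y⁻¹ := by group
    rwa [e2] at h3
  have hn3 : (l f1)⁻¹ * k * y⁻¹ ∈ K :=
    K.mul_mem (K.mul_mem (K.inv_mem (hlK f1 hf1)) hk) (K.inv_mem (hHK hy))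
  obtain ⟨f2, hf2, hf2'⟩ := hF2' ⟨_, hn2⟩ (Subgroup.mem_subgroupOf.2 hn3)
  refine ⟨_, Set.mem_image2_of_mem hf1 hf2, ?_⟩
  have h4 : (f2 : G)⁻¹ * ((l f1)⁻¹ * k * y⁻¹) ∈ H := Subgroup.mem_subgroupOf.1 hf2'
  have h5 := H.mul_mem h4 hy
  have e3 : (f2 : G)⁻¹ * ((l f1)⁻¹ * k * y⁻¹) * y = (l f1 * (f2 : G))⁻¹ * k := by group
  rwa [e3] at h5

theorem rk_cyc {G : Type} [Group G] (g : G) (hg : ∀ x : G, ∃ n : ℤ, x = g ^ n) : Rk G := by
  classical
  refine ⟨fun H => if Infinite H then 1 else 0, ?_⟩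
  intro H K hHK
  beta_reduce
  constructor
  · by_cases hH : Infinite H
    · have hK : Infinite K := by
        apply Infinite.of_injective (Subgroup.inclusion hHK) (Subgroup.inclusion_injective hHK)
      rw [if_pos hH, if_pos hK]
    · rw [if_neg hH]
      exact Nat.zero_le _
  · intro h0
    have hK : Infinite K := by
      by_contra hK
      rw [not_infinite_iff_finite] at hK
      exact Subgroup.index_ne_zero_of_finite (H := H.subgroupOf K) h0
    have hH : ¬ Infinite H := by
      intro hH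
      have hne : ∃ h : H, h ≠ 1 := exists_ne 1
      obtain ⟨⟨x, hx⟩, hx1⟩ := hne
      obtain ⟨n, rfl⟩ := hg x
      have hn : n ≠ 0 := by
        rintro rfl
        apply hx1
        apply Subtype.ext
        exact zpow_zero g
      apply rk_of_fin H K ((fun i : ℤ => g ^ i) '' (Set.Icc 0 |n|))
        ((Set.finite_Icc _ _).image _) _ h0
      intro k hk
      obtain ⟨m, rfl⟩ := hg k
      refine ⟨g ^ (m % n), ⟨m % n, ⟨Int.emod_nonneg _ hn, (Int.emod_lt_abs _ hn).le⟩, rfl⟩, ?_⟩
      have e : (g ^ (m % n))⁻¹ * g ^ m = (g ^ n) ^ (m / n) := by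
        rw [← zpow_neg, ← zpow_add, ← zpow_mul]
        congr 1
        have := Int.emod_add_mul_ediv m n
        linarith
      rw [e]
      exact H.zpow_mem hx _
    rw [if_neg hH, if_pos hK]
    exact Nat.one_pos

theorem rk_triv {G : Type} [Group G] (h : ∀ x : G, x = 1) : Rk G :=
  rk_cyc 1 fun x => ⟨0, by rw [h x, one_zpow]⟩

theorem rk_comm (n : ℕ) : ∀ (G : Type) [Group G], (∀ a b : G, a * b = b * a) →
    ∀ S : Finset G, S.card ≤ n → Subgroup.closure (S : Set G) = ⊤ → Rk G := by
  induction n with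
  | zero =>
    intro G _ _ S hS hcl
    apply rk_triv
    intro x
    have hS0 : S = ∅ := Finset.card_eq_zero.1 (Nat.le_zero.1 hS)
    rw [hS0, Finset.coe_empty, Subgroup.closure_empty] at hcl
    have hx : x ∈ (⊥ : Subgroup G) := by
      rw [hcl]
      exact Subgroup.mem_top x
    exact Subgroup.mem_bot.1 hx
  | succ n ih =>
    intro G _ hc S hS hcl
    classical
    rcases S.eq_empty_or_nonempty with hS0 | ⟨s, hs⟩
    · exact ih G hc S (by rw [hS0]; simp) hcl
    have hnorm : (Subgroup.zpowers s).Normal := by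
      constructor
      intro x hx y
      rw [hc y x, mul_assoc, mul_inv_cancel, mul_one]
      exact hx
    refine rk_ext (Subgroup.zpowers s) ?_ ?_
    · apply rk_cyc (⟨s, Subgroup.mem_zpowers s⟩ : Subgroup.zpowers s)
      rintro ⟨x, hx⟩
      obtain ⟨m, rfl⟩ := Subgroup.mem_zpowers_iff.1 hx
      refine ⟨m, ?_⟩
      apply Subtype.ext
      rw [Subgroup.coe_zpow]
    · refine ih (G ⧸ Subgroup.zpowers s) ?_
        ((S.erase s).image (QuotientGroup.mk' (Subgroup.zpowers s))) ?_ ?_
      · intro a b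
        obtain ⟨a, rfl⟩ := QuotientGroup.mk'_surjective _ a
        obtain ⟨b, rfl⟩ := QuotientGroup.mk'_surjective _ b
        rw [← map_mul, ← map_mul, hc a b]
      · refine (Finset.card_image_le).trans ?_
        rw [Finset.card_erase_of_mem hs]
        omega
      · rw [eq_top_iff]
        intro q _
        obtain ⟨x, rfl⟩ := QuotientGroup.mk'_surjective _ q
        have hx : x ∈ Subgroup.closure (S : Set G) := by
          rw [hcl]
          exact Subgroup.mem_top x
        have hle : Subgroup.closure (S : Set G) ≤ (Subgroup.closure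
            (((S.erase s).image (QuotientGroup.mk' (Subgroup.zpowers s)) :
              Finset (G ⧸ Subgroup.zpowers s)) : Set (G ⧸ Subgroup.zpowers s))).comap
                (QuotientGroup.mk' (Subgroup.zpowers s)) := by
          rw [Subgroup.closure_le]
          intro y hy
          rw [SetLike.mem_coe, Subgroup.mem_comap]
          by_cases hys : y = s
          · have : QuotientGroup.mk' (Subgroup.zpowers s) y = 1 := by
              rw [hys, QuotientGroup.mk'_apply, QuotientGroup.eq_one_iff]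
              exact Subgroup.mem_zpowers s
            rw [this]
            exact Subgroup.one_mem _
          · apply Subgroup.subset_closure
            rw [Finset.mem_coe]
            exact Finset.mem_image_of_mem _ (Finset.mem_erase.2 ⟨hys, hy⟩)
        exact hle hx

theorem rk_solv (n : ℕ) : ∀ (G : Type) [Group G], PC G → derivedSeries G n = ⊥ → Rk G := by
  induction n with
  | zero =>
    intro G _ _ h
    apply rk_triv
    intro x
    rw [derivedSeries_zero] at h
    have hx : x ∈ (⊥ : Subgroup G) := by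
      rw [← h]
      exact Subgroup.mem_top x
    exact Subgroup.mem_bot.1 hx
  | succ n ih =>
    intro G _ hpc h
    refine rk_ext (derivedSeries G n) ?_ ?_
    · have hfg : Group.FG (derivedSeries G n) := (Group.fg_iff_subgroup_fg _).2 (hpc.2 _)
      obtain ⟨S, hS⟩ := (Group.fg_def.1 hfg)
      refine rk_comm S.card (derivedSeries G n) ?_ S le_rfl hS
      rw [derivedSeries_succ, Subgroup.commutator_eq_bot_iff_le_centralizer] at h
      intro a b
      have h1 := Subgroup.mem_centralizer_iff.1 (h a.2) b.1 b.2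
      exact Subtype.ext h1.symm
    · apply ih
      · exact hpc.map (QuotientGroup.mk' _) (QuotientGroup.mk'_surjective _)
      · rw [← map_derivedSeries_eq (QuotientGroup.mk'_surjective (derivedSeries G n)),
          Subgroup.map_eq_bot_iff, QuotientGroup.ker_mk']

theorem wf_inf {G : Type} [Group G] (h : PC G) :
    WellFounded (fun H K : Subgroup G => H ≤ K ∧ H.relIndex K = 0) := by
  obtain ⟨n, hn⟩ := (isSolvable_def G).1 h.1
  obtain ⟨ρ, hρ⟩ := rk_solv n G h hn
  refine Subrelation.wf (r := InvImage (· < ·) ρ) ?_ (InvImage.wf ρ Nat.lt_wfRel.wf)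
  intro H K hHK
  exact (hρ H K hHK.1).2 hHK.2

end Pool.Agent.RPC
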