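import Pool.Agent.RPC.Restr
import Pool.Agent.RPC.Norma
import Pool.Agent.RPC.WFInf
import Pool.Agent.RPC.NilPC

/-!
MODULE RPC/Red3 : if there is no minimal configuration MC then Core A holds for every PC group A.
Part 1 (`core_step`): A PC, Core K for all K ≤ A of infinite index, no MC exists ⇒ Core A.
Suppose (A, P, φ, δ) is a surjective cocycle, P LN, not f.g.
 Let U be maximal among the φ-invariant f.g. subgroups of P (exists_max_inv).  U ≠ ⊤ as P is not f.g.
 W := normalizer of U, invariant, contains an x ∉ U.  K := δ⁻¹ W (preim).  If K has infinite index in A, then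
 Core K and restr_core give W f.g., contradiction to the maximality of U (W > U).  So K has finite index.
 New configuration: A' = ↥K, P' = W/U (quotient of ↥W by U.subgroupOf W), φ' and δ' induced.
 - PC, LN, surjective cocycle: clear.  P' not f.g.: otherwise W f.g. (U f.g.), contradiction as before.
 - m1: V' ≤ P' f.g. and K-invariant; its preimage V ≤ W is f.g., contains U, is K-invariant; let
   x_1..x_k represent A/K; V⁺ := ⟨φ_{x_i} V⟩ ≤ W is f.g., A-invariant, contains U (1 may be taken among the
   x_i); so V⁺ = U by maximality, V = U, V' = ⊥.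
 - m2: V' ≤ P' K-invariant, V' ≠ ⊥.  K_V := δ'⁻¹(V') ≤ K.  If it has infinite index in K, then its image in
   A has infinite index in A (K finite index or not), Core of it holds (transport along the isomorphism of
   the subgroup of ↥K with its image in A), restr_core gives V' f.g., so V' = ⊥ by m1.  So finite index,
   index_iff gives V'.FiniteIndex.
 - ih: subgroups of ↥K of infinite index: their images in A have infinite index.
Part 2 (`core_of_mc`): for A PC, show Core H for all subgroups H of A by well-founded induction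
(wf_inf); for K ≤ ↥H of infinite index, K.map H.subtype ≤ H is of infinite index in H, Core holds for it
by induction, and for K by isomorphism (`Core.equiv`).  Finally A ≅ ⊤.
-/

set_option autoImplicit false

namespace Pool.Agent.RPC

namespace Red3Aux

/-- an action from a multiplicative family of endomorphisms -/
def mkAct {A Q : Type} [Group A] [Group Q] (f : A → Q →* Q) (h1 : f 1 = MonoidHom.id Q)
    (hm : ∀ a b, f (a * b) = (f a).comp (f b)) : A →* MulAut Q where
  toFun a := MonoidHom.toMulEquiv (f a) (f a⁻¹) (by rw [← hm, inv_mul_cancel, h1])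
    (by rw [← hm, mul_inv_cancel, h1])
  map_one' := by
    ext x
    show f 1 x = x
    rw [h1]
    rfl
  map_mul' a b := by
    ext x
    show f (a * b) x = f a (f b x)
    rw [hm]
    rfl

theorem mkAct_apply {A Q : Type} [Group A] [Group Q] (f : A → Q →* Q) (h1 : f 1 = MonoidHom.id Q)
    (hm : ∀ a b, f (a * b) = (f a).comp (f b)) (a : A) (q : Q) : mkAct f h1 hm a q = f a q := rfl

theorem fg_map {G H : Type} [Group G] [Group H] (f : G →* H) {K : Subgroup G} (hK : K.FG) :
    (K.map f).FG := by
  classical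
  obtain ⟨s, hs⟩ := hK
  exact ⟨s.image f, by rw [Finset.coe_image, ← MonoidHom.map_closure, hs]⟩

theorem fg_comap {G H : Type} [Group G] [Group H] (f : G →* H) (hf : Function.Surjective f)
    (hk : f.ker.FG) {V : Subgroup H} (hV : V.FG) : (V.comap f).FG := by
  classical
  obtain ⟨s, hs⟩ := hV
  set T : Finset G := s.image (Function.surjInv hf) with hT
  have hmap : (Subgroup.closure (T : Set G)).map f = V := by
    rw [MonoidHom.map_closure, hT, Finset.coe_image, Set.image_image]
    simp only [Function.surjInv_eq hf, Set.image_id']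
    exact hs
  rw [← hmap, Subgroup.comap_map_eq]
  exact Subgroup.FG.sup ⟨T, rfl⟩ hk

theorem fg_subgroupOf {G : Type} [Group G] {A B : Subgroup G} (h : A.FG) (hAB : A ≤ B) :
    (A.subgroupOf B).FG := by
  rw [← Group.fg_iff_subgroup_fg] at h ⊢
  exact Group.fg_of_surjective (f := (Subgroup.subgroupOfEquivOfLe hAB).symm.toMonoidHom)
    (Subgroup.subgroupOfEquivOfLe hAB).symm.surjective

section
variable {A P : Type} [Group A] [Group P] {φ : A →* MulAut P}

theorem act_inv_act (a : A) (p : P) : φ a⁻¹ (φ a p) = p := by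
  rw [← MulAut.mul_apply, ← map_mul, inv_mul_cancel, map_one, MulAut.one_apply]

theorem act_act_inv (a : A) (p : P) : φ a (φ a⁻¹ p) = p := by
  rw [← MulAut.mul_apply, ← map_mul, mul_inv_cancel, map_one, MulAut.one_apply]

theorem inv_iff {U : Subgroup P} (hU : Inv φ U) (a : A) (p : P) : p ∈ U ↔ φ a p ∈ U := by
  refine ⟨hU a p, fun h => ?_⟩
  have := hU a⁻¹ _ h
  rwa [act_inv_act] at this

theorem inv_normalizer {U : Subgroup P} (hU : Inv φ U) :
    Inv φ (Subgroup.normalizer (U : Set P)) := by
  intro a p hp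
  rw [Subgroup.mem_normalizer_iff] at hp ⊢
  intro h
  have e : φ a (p * φ a⁻¹ h * p⁻¹) = φ a p * h * (φ a p)⁻¹ := by
    rw [map_mul, map_mul, act_act_inv, map_inv]
  rw [← e, ← inv_iff hU, ← hp, ← inv_iff hU]

/-- restriction of the action of one element to an invariant subgroup -/
def resHom {W : Subgroup P} (hW : Inv φ W) (a : A) : W →* W where
  toFun w := ⟨φ a w, hW a w w.2⟩
  map_one' := by
    ext
    simp
  map_mul' v w := by
    ext
    simp

/-- the action induced on `W / U` -/
def quoHom {W U : Subgroup P} (hW : Inv φ W) (hU : Inv φ U) [(U.subgroupOf W).Normal] (a : A) :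
    (W ⧸ U.subgroupOf W) →* (W ⧸ U.subgroupOf W) :=
  QuotientGroup.map _ _ (resHom hW a) (by
    intro w hw
    rw [Subgroup.mem_comap, Subgroup.mem_subgroupOf]
    rw [Subgroup.mem_subgroupOf] at hw
    exact hU a _ hw)

theorem quoHom_mk {W U : Subgroup P} (hW : Inv φ W) (hU : Inv φ U) [(U.subgroupOf W).Normal]
    (a : A) (w : W) : quoHom hW hU a (w : W ⧸ U.subgroupOf W) = ((resHom hW a w : W) :
      W ⧸ U.subgroupOf W) := rfl

/-- the action on `W / U` of a subgroup `K` -/
def quoAct {W U : Subgroup P} (hW : Inv φ W) (hU : Inv φ U) [(U.subgroupOf W).Normal]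
    (K : Subgroup A) : K →* MulAut (W ⧸ U.subgroupOf W) :=
  mkAct (fun k : K => quoHom hW hU (k : A)) (by
    refine QuotientGroup.monoidHom_ext _ ?_
    ext w
    show ((resHom hW ((1 : K) : A) w : W) : W ⧸ U.subgroupOf W) = (w : W ⧸ U.subgroupOf W)
    congr 1
    ext
    show φ ((1 : K) : A) w = w
    simp) (by
    intro a b
    refine QuotientGroup.monoidHom_ext _ ?_
    ext w
    show ((resHom hW ((a * b : K) : A) w : W) : W ⧸ U.subgroupOf W) =
      ((resHom hW (a : A) (resHom hW (b : A) w) : W) : W ⧸ U.subgroupOf W)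
    congr 1
    ext
    show φ ((a * b : K) : A) w = φ (a : A) (φ (b : A) w)
    rw [Subgroup.coe_mul, map_mul, MulAut.mul_apply])

theorem quoAct_mk {W U : Subgroup P} (hW : Inv φ W) (hU : Inv φ U) [(U.subgroupOf W).Normal]
    (K : Subgroup A) (k : K) (w : W) : quoAct hW hU K k (w : W ⧸ U.subgroupOf W) =
      ((resHom hW (k : A) w : W) : W ⧸ U.subgroupOf W) := rfl

end

end Red3Aux

open Red3Aux

theorem Core.equiv {A B : Type} [Group A] [Group B] (e : A ≃* B) (h : Core A) : Core B := by
  intro P _ φ δ hδ hl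
  refine h P (φ.comp e.toMonoidHom) (fun a => δ (e a)) ⟨fun a b => ?_, ?_⟩ hl
  · show δ (e (a * b)) = δ (e a) * φ (e a) (δ (e b))
    rw [map_mul, hδ.mul]
  · exact hδ.surj.comp e.surjective

namespace Red3Aux

theorem core_sub {A : Type} [Group A] (ih : ∀ K : Subgroup A, ¬ K.FiniteIndex → Core K)
    (K : Subgroup A) (L : Subgroup K) (hL : ¬ L.FiniteIndex) : Core L := by
  have h1 : ¬ (L.map K.subtype).FiniteIndex := by
    rw [Subgroup.finiteIndex_iff, not_not] at hL ⊢
    rw [Subgroup.index_map_subtype, hL, zero_mul]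
  exact Core.equiv (L.equivMapOfInjective K.subtype K.subtype_injective).symm (ih _ h1)

end Red3Aux

theorem core_step (hno : ∀ (A P : Type) [Group A] [Group P] (φ : A →* MulAut P) (δ : A → P),
      ¬ MC φ δ)
    (A : Type) [Group A] (hA : PC A) (ih : ∀ K : Subgroup A, ¬ K.FiniteIndex → Core K) :
    Core A := by
  intro P _ φ δ hδ hl
  by_contra hfg
  obtain ⟨U, ⟨hUinv, hUfg⟩, hUmax⟩ := exists_max_inv hA hδ {U : Subgroup P | Inv φ U ∧ U.FG}
    ⟨⊥, fun a p hp => by
      rw [Subgroup.mem_bot] at hp ⊢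
      rw [hp, map_one], ⟨∅, by simp⟩⟩ (fun W hW => hW.1)
  have hUtop : U ≠ ⊤ := by
    rintro rfl
    exact hfg (Group.fg_def.2 hUfg)
  obtain ⟨x, hxU, hxW⟩ := lt_normalizer hl U hUfg hUtop
  set W := Subgroup.normalizer (U : Set P) with hWdef
  have hW : Inv φ W := inv_normalizer hUinv
  have hUW : U ≤ W := Subgroup.le_normalizer
  have hWfg : ¬ W.FG := by
    intro h
    have := hUmax W ⟨hW, h⟩ hUW
    rw [this] at hxW
    exact hxU hxW
  obtain ⟨K, hK⟩ := preim hδ.mul W (fun a _ p => inv_iff hW a p)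
  have hKfi : K.FiniteIndex := by
    by_contra hKn
    refine hWfg (restr_core hδ.mul hl K W (fun a _ p hp => hW a p hp) (fun a ha => (hK a).1 ha)
      (fun w hw => ?_) (ih K hKn))
    obtain ⟨a, ha⟩ := hδ.surj w
    exact ⟨a, (hK a).2 (by rw [ha]; exact hw), ha⟩
  have hnorm : (U.subgroupOf W).Normal := Subgroup.normal_subgroupOf_of_le_normalizer le_rfl
  set N := U.subgroupOf W with hN
  have hNfg : N.FG := fg_subgroupOf hUfg hUW
  set φ' : K →* MulAut (W ⧸ N) := quoAct hW hUinv K with hφ'
  set δ' : K → W ⧸ N := fun k => ((⟨δ k, (hK k).1 k.2⟩ : W) : W ⧸ N) with hδ'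
  have hcoc : Coc φ' δ' := by
    refine ⟨fun a b => ?_, fun q => ?_⟩
    · have e : (⟨δ ((a * b : K) : A), (hK _).1 (a * b).2⟩ : W) =
          (⟨δ a, (hK a).1 a.2⟩ : W) * resHom hW (a : A) (⟨δ b, (hK b).1 b.2⟩ : W) := by
        ext
        show δ ((a * b : K) : A) = δ a * φ a (δ b)
        rw [Subgroup.coe_mul, hδ.mul]
      show ((⟨δ ((a * b : K) : A), (hK _).1 (a * b).2⟩ : W) : W ⧸ N) = _
      rw [e, QuotientGroup.mk_mul]
      rfl
    · obtain ⟨w, rfl⟩ := QuotientGroup.mk_surjective q
      obtain ⟨a, ha⟩ := hδ.surj w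
      refine ⟨⟨a, (hK a).2 (by rw [ha]; exact w.2)⟩, ?_⟩
      show ((⟨δ a, _⟩ : W) : W ⧸ N) = (w : W ⧸ N)
      congr 1
      ext
      exact ha
  have hln' : LN (W ⧸ N) := (hl.sub W).map (QuotientGroup.mk' N) (QuotientGroup.mk'_surjective N)
  have hker : (QuotientGroup.mk' N).ker.FG := by
    rw [QuotientGroup.ker_mk']
    exact hNfg
  have hm1 : ∀ V : Subgroup (W ⧸ N), V.FG → Inv φ' V → V = ⊥ := by
    intro V' hV'fg hV'inv
    set V0 : Subgroup W := V'.comap (QuotientGroup.mk' N) with hV0
    have hV0fg : V0.FG := fg_comap _ (QuotientGroup.mk'_surjective N) hker hV'fg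
    set V : Subgroup P := V0.map W.subtype with hV
    have hVfg : V.FG := fg_map _ hV0fg
    have hUV : U ≤ V := by
      intro u hu
      refine ⟨⟨u, hUW hu⟩, ?_, rfl⟩
      show (⟨u, hUW hu⟩ : W) ∈ V'.comap (QuotientGroup.mk' N)
      rw [Subgroup.mem_comap]
      have : QuotientGroup.mk' N (⟨u, hUW hu⟩ : W) = 1 := by
        rw [QuotientGroup.mk'_apply, QuotientGroup.eq_one_iff]
        exact hu
      rw [this]
      exact V'.one_mem
    have hVK : ∀ k ∈ K, V.map (φ k).toMonoidHom ≤ V := by
      intro k hk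
      rintro _ ⟨_, ⟨w, hw, rfl⟩, rfl⟩
      refine ⟨resHom hW k w, ?_, rfl⟩
      exact hV'inv ⟨k, hk⟩ _ hw
    have hmapmul : ∀ a b : A, V.map (φ (a * b)).toMonoidHom =
        (V.map (φ b).toMonoidHom).map (φ a).toMonoidHom := by
      intro a b
      have e : (φ (a * b)).toMonoidHom = (φ a).toMonoidHom.comp (φ b).toMonoidHom := by
        refine MonoidHom.ext fun p => ?_
        show φ (a * b) p = φ a (φ b p)
        rw [map_mul, MulAut.mul_apply]
      rw [e]
      exact (Subgroup.map_map V _ _).symm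
    have hmapone : V.map (φ 1).toMonoidHom = V := by
      have : (φ (1 : A)).toMonoidHom = MonoidHom.id P := by
        refine MonoidHom.ext fun p => ?_
        show φ 1 p = p
        rw [map_one, MulAut.one_apply]
      rw [this, Subgroup.map_id]
    have hVKeq : ∀ k ∈ K, V.map (φ k).toMonoidHom = V := by
      intro k hk
      refine le_antisymm (hVK k hk) ?_
      have h1 := Subgroup.map_mono (f := (φ k).toMonoidHom) (hVK k⁻¹ (K.inv_mem hk))
      rw [← hmapmul, mul_inv_cancel, hmapone] at h1
      exact h1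
    have hcoset : ∀ a b : A, a⁻¹ * b ∈ K → V.map (φ b).toMonoidHom = V.map (φ a).toMonoidHom := by
      intro a b hab
      have e : b = a * (a⁻¹ * b) := by group
      rw [e, hmapmul, hVKeq _ hab]
    have : Finite (A ⧸ K) := Subgroup.finite_quotient_of_finiteIndex
    set Vp : Subgroup P := ⨆ q : A ⧸ K, V.map (φ q.out).toMonoidHom with hVp
    have hVpfg : Vp.FG := Subgroup.FG.iSup _ fun q => fg_map _ hVfg
    have hle : ∀ a : A, V.map (φ a).toMonoidHom ≤ Vp := by
      intro a
      have h1 : V.map (φ a).toMonoidHom =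
          V.map (φ ((a : A ⧸ K)).out).toMonoidHom := by
        refine hcoset _ _ ?_
        rw [← QuotientGroup.eq, QuotientGroup.out_eq']
      rw [h1]
      exact le_iSup (fun q : A ⧸ K => V.map (φ q.out).toMonoidHom) (a : A ⧸ K)
    have hVpinv : Inv φ Vp := by
      intro b p hp
      have h1 : Vp.map (φ b).toMonoidHom ≤ Vp := by
        rw [hVp, Subgroup.map_iSup]
        refine iSup_le fun q => ?_
        rw [← hmapmul]
        exact hle _
      exact h1 ⟨p, hp, rfl⟩
    have hVVp : V ≤ Vp := by
      have := hle 1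
      rwa [hmapone] at this
    have heq : Vp = U := hUmax Vp ⟨hVpinv, hVpfg⟩ (hUV.trans hVVp)
    rw [eq_bot_iff]
    intro q hq
    obtain ⟨w, rfl⟩ := QuotientGroup.mk_surjective q
    rw [Subgroup.mem_bot, QuotientGroup.eq_one_iff]
    show (w : P) ∈ U
    rw [← heq]
    exact hVVp ⟨w, hq, rfl⟩
  have hmc : MC φ' δ' := by
    refine ⟨hA.sub K, hcoc, hln', ?_, hm1, ?_, core_sub ih K⟩
    · intro h
      refine hWfg ?_
      have h1 : ((⊤ : Subgroup (W ⧸ N)).comap (QuotientGroup.mk' N)).FG :=
        fg_comap _ (QuotientGroup.mk'_surjective N) hker (Group.fg_def.1 h)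
      rw [Subgroup.comap_top] at h1
      exact (Group.fg_iff_subgroup_fg W).1 (Group.fg_def.2 h1)
    · intro V' hV'inv hV'ne
      obtain ⟨KV, hKV⟩ := preim hcoc.mul V' (fun a _ p => inv_iff hV'inv a p)
      rw [← index_iff hcoc V' hV'inv KV hKV]
      by_contra hKVn
      refine hV'ne (hm1 V' ?_ hV'inv)
      refine restr_core hcoc.mul hln' KV V' (fun a _ p hp => hV'inv a p hp)
        (fun a ha => (hKV a).1 ha) (fun w hw => ?_) (core_sub ih K KV hKVn)
      obtain ⟨a, ha⟩ := hcoc.surj w
      exact ⟨a, (hKV a).2 (by rw [ha]; exact hw), ha⟩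
  exact hno K (W ⧸ N) φ' δ' hmc

theorem core_of_mc (hno : ∀ (A P : Type) [Group A] [Group P] (φ : A →* MulAut P) (δ : A → P),
      ¬ MC φ δ) :
    ∀ (A : Type) [Group A], PC A → Core A := by
  intro A _ hA
  have key : ∀ H : Subgroup A, Core H := by
    intro H
    induction H using (wf_inf hA).induction with
    | _ H ihH =>
      refine core_step hno H (hA.sub H) fun L hL => ?_
      have h1 : (L.map H.subtype).relIndex H = 0 := by
        rw [Subgroup.finiteIndex_iff, not_not] at hL
        rw [Subgroup.relIndex, Subgroup.subgroupOf,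
          Subgroup.comap_map_eq_self_of_injective H.subtype_injective]
        exact hL
      exact Core.equiv (L.equivMapOfInjective H.subtype H.subtype_injective).symm
        (ihH _ ⟨Subgroup.map_subtype_le L, h1⟩)
  exact Core.equiv Subgroup.topEquiv (key ⊤)

end Pool.Agent.RPC
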