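import Pool.Agent.RPC.Step3
import Pool.Agent.RPC.Red2
import Pool.Agent.RPC.Red3

/-! RPC/Final (helper22): the frozen statement. -/

set_option autoImplicit false

namespace Pool.Agent.RPC

theorem final :
    ∀ (G : Type) [Group G] (A B : Subgroup G),
    (IsSolvable A ∧ ∀ K : Subgroup A, K.FG) →
    (IsSolvable B ∧ ∀ K : Subgroup B, K.FG) →
    (∀ g : G, ∃ a ∈ A, ∃ b ∈ B, g = a * b) →
    (∀ (N : Subgroup G) [N.Normal], N ≠ ⊤ →
      ∃ M : Subgroup G, M.Normal ∧ N < M ∧
        ∀ s : Finset G, (↑s : Set G) ⊆ (M : Set G) →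
          Group.IsNilpotent
            (Subgroup.map (QuotientGroup.mk' N) (Subgroup.closure (↑s : Set G)))) →
    (IsSolvable G ∧ ∀ K : Subgroup G, K.FG) :=
  main_of_X (X_of_core (core_of_mc no_MC))

end Pool.Agent.RPC
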