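import Pool.Agent.RPC.Can

/-!
MODULE RPC/Hyp : the exact norm in the hyperbolic case.
N normal in A, N ≤ A₂, [A₂, A₂] ⊆ N, ψ additive on N, ψ(a n a⁻¹) = lam a · ψ n (a ∈ A₂), lam > 0
multiplicative on A₂, lam t ≠ 1 for some t ∈ A₂; a nonzero (N, ψ)-equivariant norm exists, FGO φ N.
WLOG lam t < 1 (else t⁻¹).  ψ ≠ 0 is not needed (if ψ = 0 on N everything still works).
b a := ψ(a t a⁻¹ t⁻¹) / (1 - lam t) for a ∈ A₂.
 [ac, t] = a [c,t] a⁻¹ · [a,t] ⇒ b(ac) = b a + lam a · b c;  n ∈ N: [n,t] = n · (t n⁻¹ t⁻¹), b n = ψ n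
 (lam n = 1 is needed only through ψ: if ψ ≠ 0 then lam n = 1; here it is a hypothesis); b t = 0.
ν := canonical norm for D.  For a ∈ A: S a := max (over D) of ν (φ a d) > 0 if a ∈ A₂ (if all ν(φ a d) = 0 then
ν (φ a p) = 0 for all p since P = Tr N D and N is normal, contradiction).
K a := log (S a) + b a  (a ∈ A₂).
 (1) last clause of exists_can with l = lam a, C = S a: ν (φ a p) ≤ S a (ν p)^(lam a); with p = φ c d:
     S(ac) ≤ S a (S c)^(lam a), i.e. K(ac) ≤ K a + lam a K c.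
 (2) n ∈ N: S(n a) = exp(-ψ n) S a, b(na) = ψ n + b a, K(na) = K a.   K 1 = 0 (max over D of ν d = 1).
 (3) t⁻¹ a t = n a with n ∈ N; a t = t (t⁻¹ a t): K(at) ≤ K t + lam t K a;  a = (at) t⁻¹:
     K a ≤ K(at) + lam a lam t K(t⁻¹).  So (1 - lam t) K a ≤ K t + lam a lam t K(t⁻¹) and
     K a ≤ κ (1 + lam a) with κ := max(K t, lam t K(t⁻¹), 0)/(1 - lam t).
B r := Tr φ {a ∈ A₂ | b a - κ lam a ≥ -log r} D for r > 0, ν* := exists_filt.
 - every p is in some B r: P = Tr φ N D, n ∈ N is in the set for r = exp(κ - ψ n).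
 - for a in the set: ν (φ a d) ≤ S a = exp(K a - b a) ≤ exp(κ) r, so ν p ≤ exp(κ) ν* p: ν* ≠ 0.
 - a ∈ A₂: φ a maps B r onto B(exp(-b a) r^(lam a)): b(a⁻¹a'') = (b a'' - b a)/lam a etc.
   filt_map: ν*(φ a p) = exp(-b a) (ν* p)^(lam a).
-/

set_option autoImplicit false

namespace Pool.Agent.RPC

theorem hyp_mem_Tr {A P : Type} [Group A] [Group P] {φ : A →* MulAut P} {S : Set A} {D : Set P}
    {a : A} {d : P} (ha : a ∈ S) (hd : d ∈ D) : φ a d ∈ Tr φ S D :=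
  Subgroup.subset_closure ⟨a, ha, d, hd, rfl⟩

theorem hyp_Tr_le {A P : Type} [Group A] [Group P] {φ : A →* MulAut P} {S : Set A} {D : Set P}
    {H : Subgroup P} (h : ∀ a ∈ S, ∀ d ∈ D, φ a d ∈ H) : Tr φ S D ≤ H := by
  rw [Tr, Subgroup.closure_le]
  rintro _ ⟨a, ha, d, hd, rfl⟩
  exact h a ha d hd

/-- sublevel subgroups of a norm -/
def hyp_lev {P : Type} [Group P] (ν : UNorm P) (r : ℝ) (hr : 0 ≤ r) : Subgroup P where
  carrier := {p | ν.N p ≤ r}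
  mul_mem' := by
    intro a b ha hb
    exact (ν.mul a b).trans (max_le ha hb)
  one_mem' := by
    change ν.N 1 ≤ r
    rw [ν.one]; exact hr
  inv_mem' := by
    intro a ha
    change ν.N a⁻¹ ≤ r
    rw [ν.inv]; exact ha

theorem hyp_Tr_shift {A P : Type} [Group A] [Group P] {φ : A →* MulAut P} {S S' : Set A} {D : Set P}
    {a : A} (h : ∀ x ∈ S, a * x ∈ S') {p : P} (hp : p ∈ Tr φ S D) : φ a p ∈ Tr φ S' D := by
  have : Tr φ S D ≤ (Tr φ S' D).comap (φ a : P ≃* P).toMonoidHom := by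
    apply hyp_Tr_le
    intro x hx d hd
    rw [Subgroup.mem_comap]
    have h1 : (φ a : P ≃* P).toMonoidHom (φ x d) = φ (a * x) d := by
      rw [map_mul]; rfl
    rw [h1]
    exact hyp_mem_Tr (h x hx) hd
  exact this hp

theorem hyp_lt {A P : Type} [Group A] [Group P] {φ : A →* MulAut P} (N A₂ : Subgroup A)
    (hN : N.Normal) (hle : N ≤ A₂) (hcomm : ⁅A₂, A₂⁆ ≤ N) (ψ lam : A → ℝ) (hadd : Addi N ψ)
    (hpos : ∀ a ∈ A₂, 0 < lam a) (hmul : ∀ a ∈ A₂, ∀ c ∈ A₂, lam (a * c) = lam a * lam c)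
    (hlN : ∀ n ∈ N, lam n = 1)
    (hconj : ∀ a ∈ A₂, ∀ n ∈ N, ψ (a * n * a⁻¹) = lam a * ψ n)
    (t : A) (ht : t ∈ A₂) (ht1 : lam t < 1) (hF : FGO φ N)
    (hν : ∃ ν : UNorm P, (∃ p, ν.N p ≠ 0) ∧ Eqv φ N ψ ν) :
    ∃ (ν : UNorm P) (b : A → ℝ), (∃ p, ν.N p ≠ 0) ∧ (∀ n ∈ N, b n = ψ n) ∧
      ∀ a ∈ A₂, ∀ p, ν.N (φ a p) = (ν.N p) ^ (lam a) * Real.exp (-(b a)) := by
  have hψ1 : ψ 1 = 0 := by
    have := hadd 1 N.one_mem 1 N.one_mem
    rw [mul_one] at this; linarith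
  have hψinv : ∀ n ∈ N, ψ n⁻¹ = - ψ n := by
    intro n hn
    have := hadd n hn n⁻¹ (N.inv_mem hn)
    rw [mul_inv_cancel, hψ1] at this; linarith
  have h1t : 0 < 1 - lam t := by linarith
  -- commutators lie in `N`
  have hcN : ∀ a ∈ A₂, ∀ c ∈ A₂, a * c * a⁻¹ * c⁻¹ ∈ N := by
    intro a ha c hc
    exact hcomm (Subgroup.commutator_mem_commutator ha hc)
  obtain ⟨b, hb⟩ : ∃ b : A → ℝ, ∀ a, b a = ψ (a * t * a⁻¹ * t⁻¹) / (1 - lam t) := ⟨_, fun _ => rfl⟩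
  have hbmul : ∀ a ∈ A₂, ∀ c ∈ A₂, b (a * c) = b a + lam a * b c := by
    intro a ha c hc
    have e1 : a * c * t * (a * c)⁻¹ * t⁻¹
        = (a * (c * t * c⁻¹ * t⁻¹) * a⁻¹) * (a * t * a⁻¹ * t⁻¹) := by group
    have e2 := hadd (a * (c * t * c⁻¹ * t⁻¹) * a⁻¹) (hN.conj_mem _ (hcN c hc t ht) a)
      (a * t * a⁻¹ * t⁻¹) (hcN a ha t ht)
    rw [hb, hb, hb, e1, e2, hconj a ha _ (hcN c hc t ht)]
    field_simp
    ring
  have hbN : ∀ n ∈ N, b n = ψ n := by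
    intro n hn
    have e1 : n * t * n⁻¹ * t⁻¹ = n * (t * n⁻¹ * t⁻¹) := by group
    rw [hb, e1, hadd n hn _ (hN.conj_mem _ (N.inv_mem hn) t), hconj t ht _ (N.inv_mem hn),
      hψinv n hn]
    field_simp
    ring
  -- canonical norm
  obtain ⟨D, hD⟩ := hF
  obtain ⟨ν, hνe, hνD, hν1, hνl⟩ := exists_can φ N D ψ hadd hD
  obtain ⟨ν₀, hν₀, hν₀e⟩ := hν
  have hd1 : ∃ d ∈ D, ν.N d = 1 := by
    rcases hν1 with h | h
    · exact h
    · exact absurd h (not_sub_of_norm φ N D ψ hD ν₀ hν₀e hν₀)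
  obtain ⟨d₀, hd₀, hd₀1⟩ := hd1
  have hDne : D.Nonempty := ⟨d₀, hd₀⟩
  obtain ⟨S, hS⟩ : ∃ S : A → ℝ, ∀ a, S a = D.sup' hDne (fun d => ν.N (φ a d)) := ⟨_, fun _ => rfl⟩
  have hSle : ∀ a, ∀ d ∈ D, ν.N (φ a d) ≤ S a := by
    intro a d hd
    rw [hS]
    exact Finset.le_sup' (fun d => ν.N (φ a d)) hd
  have hSlub : ∀ a C, (∀ d ∈ D, ν.N (φ a d) ≤ C) → S a ≤ C := by
    intro a C h
    rw [hS]
    exact Finset.sup'_le _ _ h
  have hS0 : ∀ a, 0 ≤ S a := fun a => (ν.nonneg _).trans (hSle a d₀ hd₀)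
  have hcl : ∀ a ∈ A₂, ∀ p, ν.N (φ a p) ≤ S a * (ν.N p) ^ (lam a) := by
    intro a ha p
    exact hνl a (lam a) (S a) (hpos a ha) (hS0 a)
      (fun n hn => ⟨hN.conj_mem n hn a, hconj a ha n hn⟩) (hSle a) p
  have hSpos : ∀ a ∈ A₂, 0 < S a := by
    intro a ha
    rcases (hS0 a).lt_or_eq with h | h
    · exact h
    · exfalso
      have h1 := hcl a ha (φ a⁻¹ d₀)
      have h2 : φ a (φ a⁻¹ d₀) = d₀ := by
        rw [map_inv]; exact MulEquiv.apply_symm_apply (φ a) d₀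
      rw [h2, ← h, zero_mul, hd₀1] at h1
      linarith
  have hSmul : ∀ a ∈ A₂, ∀ c ∈ A₂, S (a * c) ≤ S a * (S c) ^ (lam a) := by
    intro a ha c hc
    apply hSlub
    intro d hd
    have h1 : φ (a * c) d = φ a (φ c d) := by rw [map_mul]; rfl
    rw [h1]
    refine (hcl a ha _).trans ?_
    apply mul_le_mul_of_nonneg_left _ (hS0 a)
    exact Real.rpow_le_rpow (ν.nonneg _) (hSle c d hd) (hpos a ha).le
  have hSN : ∀ n ∈ N, ∀ a ∈ A₂, S (n * a) ≤ Real.exp (-(ψ n)) * S a := by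
    intro n hn a ha
    apply hSlub
    intro d hd
    have h1 : φ (n * a) d = φ n (φ a d) := by rw [map_mul]; rfl
    rw [h1, hνe n hn]
    exact mul_le_mul_of_nonneg_left (hSle a d hd) (Real.exp_pos _).le
  obtain ⟨K, hK⟩ : ∃ K : A → ℝ, ∀ a, K a = Real.log (S a) + b a := ⟨_, fun _ => rfl⟩
  have hKmul : ∀ a ∈ A₂, ∀ c ∈ A₂, K (a * c) ≤ K a + lam a * K c := by
    intro a ha c hc
    have h1 : Real.log (S (a * c)) ≤ Real.log (S a) + lam a * Real.log (S c) := by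
      have := Real.log_le_log (hSpos _ (A₂.mul_mem ha hc)) (hSmul a ha c hc)
      rwa [Real.log_mul (hSpos a ha).ne' (Real.rpow_pos_of_pos (hSpos c hc) _).ne',
        Real.log_rpow (hSpos c hc)] at this
    rw [hK, hK, hK, hbmul a ha c hc]
    nlinarith
  have hKN : ∀ n ∈ N, ∀ a ∈ A₂, K (n * a) ≤ K a := by
    intro n hn a ha
    have h1 : Real.log (S (n * a)) ≤ -(ψ n) + Real.log (S a) := by
      have := Real.log_le_log (hSpos _ (A₂.mul_mem (hle hn) ha)) (hSN n hn a ha)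
      rwa [Real.log_mul (Real.exp_pos _).ne' (hSpos a ha).ne', Real.log_exp] at this
    rw [hK, hK, hbmul n (hle hn) a ha, hlN n hn, hbN n hn]
    linarith
  have htinv : t⁻¹ ∈ A₂ := A₂.inv_mem ht
  -- the bound for `K`
  have hlt : 0 < lam t := hpos t ht
  obtain ⟨κ, hκ⟩ : ∃ κ : ℝ, κ = max (max (K t) (lam t * K t⁻¹)) 0 / (1 - lam t) := ⟨_, rfl⟩
  have hκ0 : 0 ≤ κ := by
    rw [hκ]; exact div_nonneg (le_max_right _ _) h1t.le
  have hκ1 : K t ≤ κ * (1 - lam t) := by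
    rw [hκ, div_mul_cancel₀ _ h1t.ne']
    exact (le_max_left _ _).trans (le_max_left _ _)
  have hκ2 : lam t * K t⁻¹ ≤ κ * (1 - lam t) := by
    rw [hκ, div_mul_cancel₀ _ h1t.ne']
    exact (le_max_right _ _).trans (le_max_left _ _)
  have hKb : ∀ a ∈ A₂, K a ≤ κ * (1 + lam a) := by
    intro a ha
    have hn : t⁻¹ * a * t * a⁻¹ ∈ N := by
      have := hcN t⁻¹ htinv a ha
      rwa [inv_inv] at this
    have e1 : a * t = t * ((t⁻¹ * a * t * a⁻¹) * a) := by group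
    have h1 : K (a * t) ≤ K t + lam t * K a := by
      rw [e1]
      refine (hKmul t ht _ (A₂.mul_mem (hle hn) ha)).trans ?_
      have := hKN _ hn a ha
      nlinarith
    have h2 : K a ≤ K (a * t) + lam a * (lam t * K t⁻¹) := by
      have h3 := hKmul (a * t) (A₂.mul_mem ha ht) t⁻¹ htinv
      rw [mul_inv_cancel_right, hmul a ha t ht] at h3
      linarith
    have h4 : lam a * (lam t * K t⁻¹) ≤ lam a * (κ * (1 - lam t)) :=
      mul_le_mul_of_nonneg_left hκ2 (hpos a ha).le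
    have h5 : (1 - lam t) * K a ≤ (1 - lam t) * (κ * (1 + lam a)) := by nlinarith
    exact le_of_mul_le_mul_left h5 h1t
  -- the filtration
  obtain ⟨W, hW⟩ : ∃ W : ℝ → Set A, ∀ r, W r = {a | a ∈ A₂ ∧ -(Real.log r) ≤ b a - κ * lam a} :=
    ⟨_, fun _ => rfl⟩
  have hWm : ∀ r r', 0 < r → r ≤ r' → W r ⊆ W r' := by
    intro r r' hr hrr a ha
    rw [hW] at ha ⊢
    refine ⟨ha.1, ?_⟩
    have := Real.log_le_log hr hrr
    linarith [ha.2]
  have hBm : ∀ r r', 0 < r → r ≤ r' → Tr φ (W r) (D : Set P) ≤ Tr φ (W r') (D : Set P) := by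
    intro r r' hr hrr
    apply hyp_Tr_le
    intro a ha d hd
    exact hyp_mem_Tr (hWm r r' hr hrr ha) hd
  have hBex : ∀ p, ∃ r, 0 < r ∧ p ∈ Tr φ (W r) (D : Set P) := by
    intro p
    have hp : p ∈ Tr φ (N : Set A) (D : Set P) := by rw [hD]; trivial
    unfold Tr at hp
    induction hp using Subgroup.closure_induction with
    | mem x hx =>
        obtain ⟨n, hn, d, hd, rfl⟩ := hx
        refine ⟨Real.exp (κ - ψ n), Real.exp_pos _, hyp_mem_Tr ?_ hd⟩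
        rw [hW]
        refine ⟨hle hn, ?_⟩
        rw [Real.log_exp, hbN n hn, hlN n hn]
        linarith
    | one => exact ⟨1, one_pos, one_mem _⟩
    | mul x y _ _ hx hy =>
        obtain ⟨r, hr, hxr⟩ := hx
        obtain ⟨s, hs, hys⟩ := hy
        exact ⟨max r s, lt_max_of_lt_left hr, mul_mem (hBm r _ hr (le_max_left _ _) hxr)
          (hBm s _ hs (le_max_right _ _) hys)⟩
    | inv x _ hx =>
        obtain ⟨r, hr, hxr⟩ := hx
        exact ⟨r, hr, inv_mem hxr⟩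
  obtain ⟨μ, hμ1, hμ2⟩ := exists_filt (fun r => Tr φ (W r) (D : Set P)) hBm hBex
  have hlog : ∀ a ∈ A₂, ∀ r, 0 < r → Real.log (Real.exp (-(b a)) * r ^ lam a)
      = -(b a) + lam a * Real.log r := by
    intro a ha r hr
    rw [Real.log_mul (Real.exp_pos _).ne' (Real.rpow_pos_of_pos hr _).ne', Real.log_exp,
      Real.log_rpow hr]
  refine ⟨μ, b, ⟨d₀, ?_⟩, hbN, ?_⟩
  · intro h0
    have hr : 0 < Real.exp (-κ) / 2 := by positivity
    have h1 := hμ1 d₀ (Real.exp (-κ) / 2) (by rw [h0]; exact hr)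
    have hr2 : (0:ℝ) ≤ 1 / 2 := by norm_num
    have h2 : Tr φ (W (Real.exp (-κ) / 2)) (D : Set P) ≤ hyp_lev ν (1 / 2) hr2 := by
      apply hyp_Tr_le
      intro a ha d hd
      rw [hW] at ha
      change ν.N (φ a d) ≤ 1 / 2
      refine (hSle a d hd).trans ?_
      have hS1 := hSpos a ha.1
      have h3 := hKb a ha.1
      rw [hK] at h3
      have h4 := ha.2
      rw [Real.log_div (Real.exp_pos _).ne' (by norm_num), Real.log_exp] at h4
      have h5 : Real.log (S a) ≤ Real.log (1 / 2) := by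
        rw [one_div, Real.log_inv]
        nlinarith
      exact (Real.log_le_log_iff hS1 (by norm_num)).mp h5
    have h3 : ν.N d₀ ≤ 1 / 2 := h2 h1
    rw [hd₀1] at h3
    norm_num at h3
  · intro a ha p
    rw [mul_comm]
    apply filt_map (fun r => Tr φ (W r) (D : Set P)) μ hμ1 hμ2 (φ a) (lam a)
      (Real.exp (-(b a))) (hpos a ha) (Real.exp_pos _)
    intro r q hr
    have hla := hpos a ha
    constructor
    · intro hq
      refine hyp_Tr_shift ?_ hq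
      intro x hx
      rw [hW] at hx ⊢
      refine ⟨A₂.mul_mem ha hx.1, ?_⟩
      rw [hlog a ha r hr, hbmul a ha x hx.1, hmul a ha x hx.1]
      have := mul_le_mul_of_nonneg_left hx.2 hla.le
      nlinarith
    · intro hq
      have h1 : ∀ x ∈ W (Real.exp (-(b a)) * r ^ lam a), a⁻¹ * x ∈ W r := by
        intro x hx
        rw [hW] at hx ⊢
        have hy : a⁻¹ * x ∈ A₂ := A₂.mul_mem (A₂.inv_mem ha) hx.1
        refine ⟨hy, ?_⟩
        have e1 : a * (a⁻¹ * x) = x := by group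
        have h2 := hx.2
        rw [hlog a ha r hr, ← e1, hbmul a ha _ hy, hmul a ha _ hy] at h2
        have h3 : lam a * (-(Real.log r)) ≤ lam a * (b (a⁻¹ * x) - κ * lam (a⁻¹ * x)) := by
          nlinarith
        exact le_of_mul_le_mul_left h3 hla
      have h2 := hyp_Tr_shift h1 hq
      have h3 : φ a⁻¹ (φ a q) = q := by
        rw [map_inv]; exact MulEquiv.symm_apply_apply (φ a) q
      rwa [h3] at h2

theorem hyp_norm {A P : Type} [Group A] [Group P] {φ : A →* MulAut P} (N A₂ : Subgroup A)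
    (hN : N.Normal) (hle : N ≤ A₂) (hcomm : ⁅A₂, A₂⁆ ≤ N) (ψ lam : A → ℝ) (hadd : Addi N ψ)
    (hpos : ∀ a ∈ A₂, 0 < lam a) (hmul : ∀ a ∈ A₂, ∀ c ∈ A₂, lam (a * c) = lam a * lam c)
    (hlN : ∀ n ∈ N, lam n = 1)
    (hconj : ∀ a ∈ A₂, ∀ n ∈ N, ψ (a * n * a⁻¹) = lam a * ψ n)
    (t : A) (ht : t ∈ A₂) (ht1 : lam t ≠ 1) (hF : FGO φ N)
    (hν : ∃ ν : UNorm P, (∃ p, ν.N p ≠ 0) ∧ Eqv φ N ψ ν) :
    ∃ (ν : UNorm P) (b : A → ℝ), (∃ p, ν.N p ≠ 0) ∧ (∀ n ∈ N, b n = ψ n) ∧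
      ∀ a ∈ A₂, ∀ p, ν.N (φ a p) = (ν.N p) ^ (lam a) * Real.exp (-(b a)) := by
  rcases lt_or_gt_of_ne ht1 with h | h
  · exact hyp_lt N A₂ hN hle hcomm ψ lam hadd hpos hmul hlN hconj t ht h hF hν
  · have h1 : lam t * lam t⁻¹ = 1 := by
      rw [← hmul t ht t⁻¹ (A₂.inv_mem ht), mul_inv_cancel, hlN 1 N.one_mem]
    have h2 : lam t⁻¹ < 1 := by
      have := hpos t⁻¹ (A₂.inv_mem ht)
      nlinarith
    exact hyp_lt N A₂ hN hle hcomm ψ lam hadd hpos hmul hlN hconj t⁻¹ (A₂.inv_mem ht) h2 hF hν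

end Pool.Agent.RPC
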