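import Pool.Agent.RPC.Chars

/-!
MODULE RPC/LatEx : N, N₁ normal in the PC group A, N₁ ≤ N, N/N₁ torsion-free abelian.  Then
N/N₁ ≅ ℤ^d and conjugation gives integer matrices.
Proof.  N/N₁ (as the quotient of ↥N by N₁.subgroupOf N) is a f.g. torsion-free abelian group, so
free of finite rank: Additive (N/N₁) ≃+ (Fin d → ℤ).  Define pi n for n ∈ N by this iso, pi n = 0
outside N.  For a ∈ A conjugation by a induces an automorphism of N/N₁, given by a matrix
M a ∈ Matrix (Fin d) (Fin d) ℤ (columns = images of the basis vectors).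
* `Lat.M_N` : M n = 1 for n ∈ N since pi is additive on N, so pi (n m n⁻¹) = pi m.
* `th_*`, `psi_*` : formal properties of θ_a and ψ_θ.
-/

set_option autoImplicit false

namespace Pool.Agent.RPC

theorem LatEx.torsionFree_of {M : Type*} [AddCommGroup M]
    (h : ∀ (x : M) (k : ℕ), 0 < k → k • x = 0 → x = 0) : Module.IsTorsionFree ℤ M where
  isSMulRegular r hr := by
    intro x y hxy
    have hr0 : r ≠ 0 := by
      rintro rfl
      exact not_isRegular_zero hr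
    have h1 : r • (x - y) = 0 := by
      rw [smul_sub, sub_eq_zero]
      exact hxy
    have h2 : r.natAbs • (x - y) = 0 := by
      rcases Int.natAbs_eq r with h3 | h3
      · rw [h3, natCast_zsmul] at h1
        exact h1
      · rw [h3, neg_smul, natCast_zsmul, neg_eq_zero] at h1
        exact h1
    exact sub_eq_zero.1 (h _ _ (Int.natAbs_pos.2 hr0) h2)

theorem LatEx.exists_pi {A : Type} [Group A] (hA : PC A) (N N₁ : Subgroup A)
    (hN₁ : N₁.Normal) (hle : N₁ ≤ N) (hc : ⁅N, N⁆ ≤ N₁)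
    (ht : ∀ x ∈ N, ∀ k : ℕ, 0 < k → x ^ k ∈ N₁ → x ∈ N₁) :
    ∃ (d : ℕ) (pi : A → (Fin d → ℤ)), (∀ n ∈ N, ∀ m ∈ N, pi (n * m) = pi n + pi m) ∧
      (∀ z, ∃ n ∈ N, pi n = z) ∧ (∀ n ∈ N, (pi n = 0 ↔ n ∈ N₁)) := by
  classical
  have hnor : (N₁.subgroupOf N).Normal := hN₁.subgroupOf N
  have hcomm : ∀ a b : N ⧸ N₁.subgroupOf N, a * b = b * a := by
    intro a b
    obtain ⟨x, rfl⟩ := QuotientGroup.mk_surjective a
    obtain ⟨y, rfl⟩ := QuotientGroup.mk_surjective b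
    rw [← QuotientGroup.mk_mul, ← QuotientGroup.mk_mul, QuotientGroup.eq, Subgroup.mem_subgroupOf]
    have h1 : ((y⁻¹ * x⁻¹ * y * x : N) : A) ∈ N₁ := by
      apply hc
      have h2 := Subgroup.commutator_mem_commutator (N.inv_mem y.2) (N.inv_mem x.2)
      rw [commutatorElement_def, inv_inv, inv_inv] at h2
      exact h2
    have h2 : ((x * y)⁻¹ * (y * x) : N) = y⁻¹ * x⁻¹ * y * x := by group
    rw [h2]
    exact h1
  let _ : CommGroup (N ⧸ N₁.subgroupOf N) :=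
    { (inferInstance : Group (N ⧸ N₁.subgroupOf N)) with mul_comm := hcomm }
  have hfgN : Group.FG N := (Group.fg_iff_subgroup_fg N).2 (hA.2 N)
  have hfg : Group.FG (N ⧸ N₁.subgroupOf N) :=
    Group.fg_of_surjective (f := QuotientGroup.mk' (N₁.subgroupOf N))
      (QuotientGroup.mk'_surjective _)
  have hfin : Module.Finite ℤ (Additive (N ⧸ N₁.subgroupOf N)) :=
    Module.Finite.iff_addGroup_fg.2 (GroupFG.iff_add_fg.1 hfg)
  have htf : Module.IsTorsionFree ℤ (Additive (N ⧸ N₁.subgroupOf N)) := by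
    apply LatEx.torsionFree_of
    intro x k hk hx
    obtain ⟨y, hy⟩ := QuotientGroup.mk_surjective (Additive.toMul x)
    have h1 : (Additive.toMul x) ^ k = 1 := by
      rw [← toMul_nsmul, hx, toMul_zero]
    rw [← hy, ← QuotientGroup.mk_pow, QuotientGroup.eq_one_iff, Subgroup.mem_subgroupOf] at h1
    have h2 : (y : A) ∈ N₁ := ht y y.2 k hk (by simpa using h1)
    have h3 : (QuotientGroup.mk y : N ⧸ N₁.subgroupOf N) = 1 := by
      rw [QuotientGroup.eq_one_iff, Subgroup.mem_subgroupOf]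
      exact h2
    have h4 : Additive.toMul x = 1 := by rw [← hy, h3]
    exact toMul_eq_one.1 h4
  let e : Additive (N ⧸ N₁.subgroupOf N) ≃ₗ[ℤ]
      (Fin (Module.finrank ℤ (Additive (N ⧸ N₁.subgroupOf N))) → ℤ) :=
    (Module.finBasis ℤ (Additive (N ⧸ N₁.subgroupOf N))).equivFun
  let pi : A → (Fin (Module.finrank ℤ (Additive (N ⧸ N₁.subgroupOf N))) → ℤ) := fun a =>
    if h : a ∈ N then e (Additive.ofMul (QuotientGroup.mk ⟨a, h⟩)) else 0
  have hpi : ∀ (a : A) (h : a ∈ N), pi a = e (Additive.ofMul (QuotientGroup.mk ⟨a, h⟩)) :=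
    fun a h => dif_pos h
  refine ⟨_, pi, ?_, ?_, ?_⟩
  · intro n hn m hm
    rw [hpi n hn, hpi m hm, hpi _ (N.mul_mem hn hm), ← map_add]
    rfl
  · intro z
    obtain ⟨x, hx⟩ := e.surjective z
    obtain ⟨y, hy⟩ := QuotientGroup.mk_surjective (Additive.toMul x)
    refine ⟨y, y.2, ?_⟩
    rw [hpi _ y.2, ← hx]
    congr 1
  · intro n hn
    rw [hpi n hn, LinearEquiv.map_eq_zero_iff, ofMul_eq_zero, QuotientGroup.eq_one_iff,
      Subgroup.mem_subgroupOf]

theorem exists_lat {A : Type} [Group A] (hA : PC A) (N N₁ : Subgroup A) (hN : N.Normal)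
    (hN₁ : N₁.Normal) (hle : N₁ ≤ N) (hc : ⁅N, N⁆ ≤ N₁)
    (ht : ∀ x ∈ N, ∀ k : ℕ, 0 < k → x ^ k ∈ N₁ → x ∈ N₁) :
    ∃ d : ℕ, Nonempty (Lat N N₁ d) := by
  classical
  obtain ⟨d, pi, hmul, hsurj, hker⟩ := LatEx.exists_pi hA N N₁ hN₁ hle hc ht
  have hone : pi 1 = 0 := (hker 1 N.one_mem).2 N₁.one_mem
  have hinv : ∀ n ∈ N, pi n⁻¹ = -pi n := by
    intro n hn
    have h1 := hmul n hn n⁻¹ (N.inv_mem hn)
    rw [mul_inv_cancel, hone] at h1
    exact (neg_eq_of_add_eq_zero_right h1.symm).symm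
  choose s hsN hs using hsurj
  have hconj : ∀ (a : A), ∀ n ∈ N, a * n * a⁻¹ ∈ N := fun a n hn => hN.conj_mem n hn a
  have hwd : ∀ (a : A) (n m : A), n ∈ N → m ∈ N → pi n = pi m →
      pi (a * n * a⁻¹) = pi (a * m * a⁻¹) := by
    intro a n m hn hm h
    have h1 : n * m⁻¹ ∈ N₁ := by
      rw [← hker _ (N.mul_mem hn (N.inv_mem hm)), hmul n hn _ (N.inv_mem hm), hinv m hm, h,
        add_neg_cancel]
    have h2 : a * (n * m⁻¹) * a⁻¹ ∈ N₁ := hN₁.conj_mem _ h1 a
    have h3 : a * n * a⁻¹ = (a * (n * m⁻¹) * a⁻¹) * (a * m * a⁻¹) := by group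
    rw [h3, hmul _ (hle h2) _ (hconj a m hm), (hker _ (hle h2)).2 h2, zero_add]
  let c : A → ((Fin d → ℤ) →ₗ[ℤ] (Fin d → ℤ)) := fun a =>
    AddMonoidHom.toIntLinearMap
      { toFun := fun z => pi (a * s z * a⁻¹)
        map_zero' := by
          have h1 := hwd a (s 0) 1 (hsN 0) N.one_mem (by rw [hs, hone])
          rw [h1, mul_one, mul_inv_cancel, hone]
        map_add' := fun z w => by
          have h1 := hwd a (s (z + w)) (s z * s w) (hsN _) (N.mul_mem (hsN z) (hsN w))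
            (by rw [hs, hmul _ (hsN z) _ (hsN w), hs, hs])
          have h2 : a * (s z * s w) * a⁻¹ = (a * s z * a⁻¹) * (a * s w * a⁻¹) := by group
          rw [h1, h2, hmul _ (hconj a _ (hsN z)) _ (hconj a _ (hsN w))] }
  have hcpi : ∀ (a : A), ∀ n ∈ N, c a (pi n) = pi (a * n * a⁻¹) := by
    intro a n hn
    exact hwd a (s (pi n)) n (hsN _) hn (hs _)
  have hM : ∀ (a : A) (z : Fin d → ℤ), (LinearMap.toMatrix' (c a)).mulVec z = c a z := by
    intro a z
    rw [LinearMap.toMatrix'_mulVec]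
  refine ⟨d, ⟨{ pi := pi
                M := fun a => LinearMap.toMatrix' (c a)
                pi_mul := hmul
                pi_surj := fun z => ⟨s z, hsN z, hs z⟩
                pi_ker := hker
                M_mul := ?_
                M_one := ?_
                conj := ?_ }⟩⟩
  · intro a b
    rw [← LinearMap.toMatrix'_comp]
    congr 1
    apply LinearMap.ext
    intro z
    rw [LinearMap.comp_apply, ← hs z, hcpi _ _ (hsN z), hcpi _ _ (hsN z),
      hcpi _ _ (hconj b _ (hsN z))]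
    congr 1
    group
  · rw [← LinearMap.toMatrix'_id]
    congr 1
    apply LinearMap.ext
    intro z
    rw [← hs z, hcpi _ _ (hsN z), LinearMap.id_apply]
    congr 1
    group
  · intro a n hn
    rw [hM, hcpi a n hn]

section
variable {A : Type} [Group A] {N N₁ : Subgroup A} {d : ℕ} (L : Lat N N₁ d)

theorem Lat.M_N (hN : N.Normal) {n : A} (hn : n ∈ N) : L.M n = 1 := by
  have hone : L.pi 1 = 0 := by
    have := L.pi_mul 1 N.one_mem 1 N.one_mem
    rw [mul_one] at this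
    exact left_eq_add.1 this
  apply Matrix.toLin'.injective
  apply LinearMap.ext
  intro z
  obtain ⟨m, hm, rfl⟩ := L.pi_surj z
  have h1 := L.conj n m hm
  have h2 : L.pi n⁻¹ = -L.pi n := by
    have h3 := L.pi_mul n hn n⁻¹ (N.inv_mem hn)
    rw [mul_inv_cancel, hone] at h3
    exact (neg_eq_of_add_eq_zero_right h3.symm).symm
  rw [L.pi_mul _ (N.mul_mem hn hm) _ (N.inv_mem hn), L.pi_mul n hn m hm, h2] at h1
  rw [Matrix.toLin'_apply, Matrix.toLin'_apply, Matrix.one_mulVec, ← h1]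
  abel

theorem Lat.psi_add (θ : Fin d → ℝ) : Addi N (L.psi θ) := by
  intro n hn m hm
  simp only [Lat.psi, dot, L.pi_mul n hn m hm, Pi.add_apply, Int.cast_add, mul_add,
    Finset.sum_add_distrib]

theorem Lat.psi_ker (θ : Fin d → ℝ) {n : A} (hn : n ∈ N₁) (hle : N₁ ≤ N) : L.psi θ n = 0 := by
  have h := (L.pi_ker n (hle hn)).2 hn
  simp [Lat.psi, dot, h]

/-- `ψ_θ(a n a⁻¹) = ψ_{θ_a}(n)` -/
theorem Lat.psi_conj (θ : Fin d → ℝ) (a : A) {n : A} (hn : n ∈ N) :
    L.psi θ (a * n * a⁻¹) = L.psi (L.th a θ) n := by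
  rw [Lat.psi, Lat.psi, L.conj a n hn]
  have h1 : dot θ ((L.M a).mulVec (L.pi n)) =
      θ ⬝ᵥ ((L.M a).map (fun z : ℤ => (z : ℝ))).mulVec (fun i => ((L.pi n i : ℤ) : ℝ)) := by
    simp only [dot, dotProduct, Matrix.mulVec, Matrix.map_apply]
    apply Finset.sum_congr rfl
    intro i _
    push_cast
    rfl
  rw [h1, Matrix.dotProduct_mulVec]
  rfl

theorem Lat.th_mul (a b : A) (θ : Fin d → ℝ) : L.th (a * b) θ = L.th b (L.th a θ) := by
  have h : (L.M (a * b)).map (fun z : ℤ => (z : ℝ)) =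
      (L.M a).map (fun z : ℤ => (z : ℝ)) * (L.M b).map (fun z : ℤ => (z : ℝ)) := by
    rw [L.M_mul]
    exact (Int.castRingHom ℝ).mapMatrix.map_mul (L.M a) (L.M b)
  rw [Lat.th, Lat.th, Lat.th, h, Matrix.vecMul_vecMul]

theorem Lat.map_one_aux : ((1 : Matrix (Fin d) (Fin d) ℤ)).map (fun z : ℤ => (z : ℝ)) = 1 :=
  (Int.castRingHom ℝ).mapMatrix.map_one

theorem Lat.th_one (θ : Fin d → ℝ) : L.th 1 θ = θ := by
  rw [Lat.th, L.M_one, Lat.map_one_aux, Matrix.vecMul_one]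

theorem Lat.th_N (hN : N.Normal) {n : A} (hn : n ∈ N) (θ : Fin d → ℝ) : L.th n θ = θ := by
  rw [Lat.th, L.M_N hN hn, Lat.map_one_aux, Matrix.vecMul_one]

theorem Lat.th_smul (a : A) (c : ℝ) (θ : Fin d → ℝ) : L.th a (c • θ) = c • L.th a θ := by
  rw [Lat.th, Lat.th, Matrix.smul_vecMul]

theorem Lat.th_add (a : A) (θ η : Fin d → ℝ) : L.th a (θ + η) = L.th a θ + L.th a η := by
  rw [Lat.th, Lat.th, Lat.th, Matrix.add_vecMul]

theorem Lat.th_ne (a : A) {θ : Fin d → ℝ} (h : θ ≠ 0) : L.th a θ ≠ 0 := by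
  intro h0
  apply h
  have h1 := L.th_mul a a⁻¹ θ
  rw [mul_inv_cancel, L.th_one, h0] at h1
  rw [h1, Lat.th, Matrix.zero_vecMul]

theorem Lat.dot_single (θ : Fin d → ℝ) (i : Fin d) (c : ℤ) :
    dot θ (Pi.single i c) = θ i * c := by
  rw [dot, Finset.sum_eq_single i]
  · rw [Pi.single_eq_same]
  · intro j _ hj
    rw [Pi.single_eq_of_ne hj, Int.cast_zero, mul_zero]
  · intro h
    exact absurd (Finset.mem_univ i) h

/-- for `θ ≠ 0` there is `n ∈ N` with `ψ_θ(n) > 0` -/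
theorem Lat.exists_pos {θ : Fin d → ℝ} (h : θ ≠ 0) : ∃ n ∈ N, 0 < L.psi θ n := by
  obtain ⟨i, hi⟩ := Function.ne_iff.1 h
  rcases lt_or_gt_of_ne hi with h1 | h1
  · obtain ⟨n, hn, hz⟩ := L.pi_surj (Pi.single i (-1))
    refine ⟨n, hn, ?_⟩
    rw [Lat.psi, hz, Lat.dot_single]
    rw [Pi.zero_apply] at h1
    push_cast
    linarith
  · obtain ⟨n, hn, hz⟩ := L.pi_surj (Pi.single i 1)
    refine ⟨n, hn, ?_⟩
    rw [Lat.psi, hz, Lat.dot_single]
    rw [Pi.zero_apply] at h1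
    push_cast
    linarith

/-- if `ψ_θ = ψ_η` on `N` then `θ = η` -/
theorem Lat.psi_inj {θ η : Fin d → ℝ} (h : ∀ n ∈ N, L.psi θ n = L.psi η n) : θ = η := by
  funext i
  obtain ⟨n, hn, hz⟩ := L.pi_surj (Pi.single i 1)
  have h1 := h n hn
  rw [Lat.psi, Lat.psi, hz, Lat.dot_single, Lat.dot_single, Int.cast_one, mul_one, mul_one] at h1
  exact h1

theorem Lat.rdot_th (a : A) (θ e : Fin d → ℝ) :
    rdot (L.th a θ) e = rdot θ (((L.M a).map (fun z : ℤ => (z : ℝ))).mulVec e) := by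
  exact (Matrix.dotProduct_mulVec θ _ e).symm

end

end Pool.Agent.RPC
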