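import Pool.Agent.RPC.Point
import Pool.Agent.RPC.LatEx
import Pool.Agent.RPC.Mu

/-! RPC/IDefs : data for Lemma I (infinite orbits), operator Sop, polynomial Rpol. -/

set_option autoImplicit false

namespace Pool.Agent.RPC

/-- data for Lemma I: `s y` is the maximum of `ν (φ y x)`, `x ∈ D` -/
structure IDat {A P : Type} [Group A] [Group P] (φ : A →* MulAut P) (δ : A → P)
    {N N₁ : Subgroup A} {d : ℕ} (L : Lat N N₁ d) (θ : Fin d → ℝ) (ν : UNorm P) (F : P → ℝ)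
    (D : Finset P) (s : A → ℝ) : Prop where
  coc : Coc φ δ
  norm : N.Normal
  le : N₁ ≤ N
  gen : Tr φ (N : Set A) (D : Set P) = ⊤
  nz : ∃ p, ν.N p ≠ 0
  eqv : Eqv φ N (L.psi θ) ν
  pt : Pt φ δ N (L.psi θ) ν F
  th0 : θ ≠ 0
  s_pos : ∀ y, 0 < s y
  s_le : ∀ y, ∀ x ∈ D, ν.N (φ y x) ≤ s y
  s_att : ∀ y, ∃ x ∈ D, ν.N (φ y x) = s y

/-- growth data: `ρ` is comparable with `‖θ_y‖` on `A₁` -/
structure Gro {A : Type} [Group A] {N N₁ : Subgroup A} {d : ℕ} (L : Lat N N₁ d)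
    (θ : Fin d → ℝ) (A₁ : Subgroup A) (ρ : A → ℝ) (c₀ C₀ : ℝ) : Prop where
  norm : N.Normal
  norm₁ : A₁.Normal
  fin : A₁.FiniteIndex
  le : N ≤ A₁
  comm : ⁅A₁, A₁⁆ ≤ N
  th0 : θ ≠ 0
  pos : ∀ y ∈ A₁, 0 < ρ y
  mul : ∀ a ∈ A₁, ∀ b ∈ A₁, ρ (a * b) = ρ a * ρ b
  c0 : 0 < c₀
  C0 : 0 < C₀
  low : ∀ y ∈ A₁, c₀ * ρ y ≤ ‖L.th y θ‖
  up : ∀ y ∈ A₁, ‖L.th y θ‖ ≤ C₀ * ρ y

/-- `(Sop l g)(y) = ∑_j g (y l_j)` -/
def Sop {A : Type} [Group A] {k : ℕ} (l : Fin k → A) : (A → ℝ) →ₗ[ℝ] (A → ℝ) where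
  toFun g := fun y => ∑ j, g (y * l j)
  map_add' f g := by
    funext y
    simp [Finset.sum_add_distrib]
  map_smul' c f := by
    funext y
    simp [Finset.mul_sum]

/-- polynomial in the operator `Sop l` -/
noncomputable def SR {A : Type} [Group A] {k : ℕ} (l : Fin k → A) (R : Polynomial ℝ)
    (g : A → ℝ) : A → ℝ :=
  (Polynomial.aeval (Sop l : Module.End ℝ (A → ℝ)) R) g

/-- `l` is (modulo `N`) a union of conjugacy classes of `A / N` inside `A₁ / N` -/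
structure Cls {A : Type} [Group A] (N A₁ : Subgroup A) {k : ℕ} (l : Fin k → A) : Prop where
  mem : ∀ j, l j ∈ A₁
  perm : ∀ c : A, ∃ π : Equiv.Perm (Fin k), ∀ j, ∃ n ∈ N, c * l j * c⁻¹ = l (π j) * n

/-- real matrix of `a` -/
def Lat.MR {A : Type} [Group A] {N N₁ : Subgroup A} {d : ℕ} (L : Lat N N₁ d) (a : A) :
    Matrix (Fin d) (Fin d) ℝ := (L.M a).map (fun z : ℤ => (z : ℝ))

/-- `(X - k) · charpoly (∑ M_{l_j})` -/
noncomputable def Rpol {A : Type} [Group A] {N N₁ : Subgroup A} {d : ℕ} (L : Lat N N₁ d) {k : ℕ}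
    (l : Fin k → A) : Polynomial ℝ :=
  (Polynomial.X - Polynomial.C (k : ℝ)) * (∑ j, L.MR (l j)).charpoly

/-- `∑_{e ∈ es} |θ · e|` -/
def Gabs {d : ℕ} (es : List (Fin d → ℝ)) (θ : Fin d → ℝ) : ℝ :=
  (es.map (fun e => |rdot θ e|)).sum

/-- two nonzero vectors are parallel -/
def Par {d : ℕ} (u v : Fin d → ℝ) : Prop := ∃ c : ℝ, c ≠ 0 ∧ u = c • v

end Pool.Agent.RPC
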