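import Pool.Agent.RPC.IDefs

/-!
MODULE RPC/ISmall : elements n ∈ N for which ψ_{θ_y}(n) = 0 is rare.
* `small_x`: for τ = 1..K choose x_τ ∈ N with pi x_τ = (1, τ, τ², ..., τ^(d-1)).  For each y, θ_y ≠ 0
  (th_ne), so the polynomial ∑ (θ_y)_i τ^i has at most d - 1 roots: y lies in at most d - 1 of the sets
  {y | ψ_{θ_y}(x_τ) = 0}.  mu_exists_small with K > (d-1)/ε.   (d ≥ 1 since θ ≠ 0.)
* `small_near`: given ε take x from small_x for ε/2, K ≥ 2/ε.  For n₀ ∈ N and τ = 1..K,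
  ψ_{θ_y}(n₀ x^τ) = ψ_{θ_y} n₀ + τ ψ_{θ_y} x vanishes for at most one τ if ψ_{θ_y} x ≠ 0; pigeonhole.
  C = K max_i |pi x i|.
-/

set_option autoImplicit false

namespace Pool.Agent.RPC

variable {A : Type} [Group A] {N N₁ : Subgroup A} {d : ℕ}

theorem ismall_roots (η : Fin d → ℝ) (hη : η ≠ 0) (J : Finset ℕ)
    (hJ : ∀ τ ∈ J, ∑ i : Fin d, η i * ((τ : ℝ) ^ (i : ℕ)) = 0) : J.card ≤ d := by
  classical
  set p : Polynomial ℝ := ∑ i : Fin d, Polynomial.C (η i) * Polynomial.X ^ (i : ℕ) with hp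
  have hcoef : ∀ i : Fin d, p.coeff (i : ℕ) = η i := by
    intro i
    rw [hp, Polynomial.finset_sum_coeff]
    simp only [Polynomial.coeff_C_mul, Polynomial.coeff_X_pow]
    rw [Finset.sum_eq_single i]
    · simp
    · intro j _ hj
      have : (i : ℕ) ≠ (j : ℕ) := fun h => hj (Fin.ext h.symm)
      simp [this]
    · intro h
      exact absurd (Finset.mem_univ i) h
  have hp0 : p ≠ 0 := by
    intro h0
    apply hη
    funext i
    have := hcoef i
    rw [h0] at this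
    simpa using this.symm
  have hdeg : p.natDegree ≤ d := by
    rw [hp]
    refine Polynomial.natDegree_sum_le_of_forall_le _ _ ?_
    intro i _
    refine (Polynomial.natDegree_C_mul_X_pow_le _ _).trans (le_of_lt i.2)
  have hsub : (J.image (fun τ : ℕ => (τ : ℝ))).val ⊆ p.roots := by
    intro z hz
    have hz' : z ∈ J.image (fun τ : ℕ => (τ : ℝ)) := hz
    rw [Finset.mem_image] at hz'
    obtain ⟨τ, hτ, rfl⟩ := hz'
    rw [Polynomial.mem_roots hp0, Polynomial.IsRoot.def, hp, Polynomial.eval_finset_sum]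
    have := hJ τ hτ
    simpa using this
  have h1 := Polynomial.card_le_degree_of_subset_roots hsub
  have h2 : (J.image (fun τ : ℕ => (τ : ℝ))).card = J.card :=
    Finset.card_image_of_injective _ Nat.cast_injective
  omega

theorem small_x (μ : RMean A) (L : Lat N N₁ d) {θ : Fin d → ℝ} (hθ : θ ≠ 0) {ε : ℝ}
    (hε : 0 < ε) : ∃ x ∈ N, μ.mu {y | L.psi (L.th y θ) x = 0} ≤ ε := by
  classical
  choose x hxN hxpi using fun τ : ℕ => L.pi_surj (fun i : Fin d => (τ : ℤ) ^ (i : ℕ))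
  obtain ⟨K, hK⟩ := exists_nat_gt ((d : ℝ) / ε)
  have hKpos : 0 < (K : ℝ) := lt_of_le_of_lt (by positivity) hK
  have hKpos' : 0 < K := by exact_mod_cast hKpos
  obtain ⟨τ, _, hτ⟩ := mu_exists_small μ (Finset.range K) ⟨0, Finset.mem_range.2 hKpos'⟩
    (fun τ => {y | L.psi (L.th y θ) (x τ) = 0}) d (by
      intro y J _ hJ
      refine ismall_roots (L.th y θ) (L.th_ne y hθ) J ?_
      intro τ hτ
      have := hJ τ hτ
      simp only [Set.mem_setOf_eq, Lat.psi, dot, hxpi] at this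
      simpa using this)
  refine ⟨x τ, hxN τ, hτ.trans ?_⟩
  rw [Finset.card_range, div_le_iff₀ hKpos]
  rw [div_lt_iff₀ hε] at hK
  linarith

theorem lat_pi_pow (L : Lat N N₁ d) {x : A} (hx : x ∈ N) (τ : ℕ) :
    L.pi (x ^ τ) = (τ : ℤ) • L.pi x := by
  induction τ with
  | zero =>
    have := L.pi_mul 1 N.one_mem 1 N.one_mem
    rw [mul_one] at this
    simp only [pow_zero, Nat.cast_zero, zero_smul]
    simpa using this
  | succ τ ih =>
    rw [pow_succ, L.pi_mul _ (N.pow_mem hx τ) _ hx, ih]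
    push_cast
    rw [add_smul, one_smul]

theorem small_near (μ : RMean A) (L : Lat N N₁ d) {θ : Fin d → ℝ} (hθ : θ ≠ 0) {ε : ℝ}
    (hε : 0 < ε) : ∃ C : ℝ, 0 ≤ C ∧ ∀ n₀ ∈ N, ∃ n ∈ N,
      (∀ i, |((L.pi n i : ℤ) : ℝ) - (L.pi n₀ i : ℤ)| ≤ C) ∧
      μ.mu {y | L.psi (L.th y θ) n = 0} ≤ ε := by
  classical
  obtain ⟨x, hxN, hx⟩ := small_x μ L hθ (half_pos hε)
  obtain ⟨K, hK⟩ := exists_nat_gt (2 / ε)
  have hKpos : 0 < (K : ℝ) := lt_of_le_of_lt (by positivity) hK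
  have hKpos' : 0 < K := by exact_mod_cast hKpos
  refine ⟨(K : ℝ) * ∑ i, |((L.pi x i : ℤ) : ℝ)|, by positivity, ?_⟩
  intro n₀ hn₀
  have hpsi : ∀ (η : Fin d → ℝ) (τ : ℕ), L.psi η (n₀ * x ^ τ) = L.psi η n₀ + τ * L.psi η x := by
    intro η τ
    simp only [Lat.psi, dot]
    rw [L.pi_mul _ hn₀ _ (N.pow_mem hxN τ), lat_pi_pow L hxN, Finset.mul_sum,
      ← Finset.sum_add_distrib]
    refine Finset.sum_congr rfl fun i _ => ?_
    simp only [Pi.add_apply, Pi.smul_apply, smul_eq_mul]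
    push_cast
    ring
  obtain ⟨τ, hτK, hτ⟩ := mu_exists_small μ (Finset.range K) ⟨0, Finset.mem_range.2 hKpos'⟩
    (fun τ => {y | L.psi (L.th y θ) (n₀ * x ^ τ) = 0 ∧ L.psi (L.th y θ) x ≠ 0}) 1 (by
      intro y J _ hJ
      rw [Finset.card_le_one]
      intro a ha b hb
      have h1 := hJ a ha
      have h2 := hJ b hb
      simp only [Set.mem_setOf_eq, hpsi] at h1 h2
      have h3 : ((a : ℝ) - b) * L.psi (L.th y θ) x = 0 := by linarith [h1.1, h2.1]
      rcases mul_eq_zero.1 h3 with h4 | h4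
      · have : (a : ℝ) = b := by linarith
        exact_mod_cast this
      · exact absurd h4 h1.2)
  refine ⟨n₀ * x ^ τ, N.mul_mem hn₀ (N.pow_mem hxN τ), ?_, ?_⟩
  · intro i
    rw [L.pi_mul _ hn₀ _ (N.pow_mem hxN τ), lat_pi_pow L hxN]
    simp only [Pi.add_apply, Pi.smul_apply, smul_eq_mul]
    push_cast
    have e : ((L.pi n₀ i : ℤ) : ℝ) + (τ : ℝ) * (L.pi x i : ℤ) - (L.pi n₀ i : ℤ)
        = (τ : ℝ) * (L.pi x i : ℤ) := by ring
    rw [e, abs_mul, abs_of_nonneg (by positivity : (0 : ℝ) ≤ (τ : ℝ))]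
    have h1 : (τ : ℝ) ≤ K := by
      have := Finset.mem_range.1 hτK
      exact_mod_cast this.le
    have h2 : |((L.pi x i : ℤ) : ℝ)| ≤ ∑ i, |((L.pi x i : ℤ) : ℝ)| :=
      Finset.single_le_sum (f := fun i => |((L.pi x i : ℤ) : ℝ)|)
        (fun j _ => abs_nonneg _) (Finset.mem_univ i)
    exact mul_le_mul h1 h2 (abs_nonneg _) hKpos.le
  · have hsub : {y | L.psi (L.th y θ) (n₀ * x ^ τ) = 0} ⊆
        {y | L.psi (L.th y θ) (n₀ * x ^ τ) = 0 ∧ L.psi (L.th y θ) x ≠ 0} ∪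
          {y | L.psi (L.th y θ) x = 0} := by
      intro y hy
      by_cases h : L.psi (L.th y θ) x = 0
      · exact Or.inr h
      · exact Or.inl ⟨hy, h⟩
    refine (mu_mono μ hsub).trans ((mu_union μ _ _).trans ?_)
    have h3 : ((1 : ℕ) : ℝ) / (Finset.range K).card ≤ ε / 2 := by
      rw [Finset.card_range, div_le_iff₀ hKpos]
      rw [div_lt_iff₀ hε] at hK
      push_cast
      linarith
    linarith

end Pool.Agent.RPC
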