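import Pool.Agent.RPC.IEst
import Pool.Agent.RPC.ISmall

/-!
MODULE RPC/IE : an element p with ν (φ y p) large (relative to s y, ‖θ_y‖) for most y.
Proof.  Write ψ_y = L.psi (L.th y θ).  Let Mtot = 2 d |D| (number of elements e below).  x from small_x
with measure ≤ ε' = ε/(4 (Mtot+1)), K ≥ 4 (Mtot+1)/ε.  Let C'' = K ∑_i |pi x i|.  For i < d and a sign
choose m_{i,±} ∈ N with pi = ∓ T e_i, T a natural number ≥ d-independent: since ‖θ‖ is the sup norm
there are i, ± with -ψ_y(m_{i,±}) = T ‖θ_y‖; T ≥ C + C'' + 1.  The elements e = φ(m_{i,±}) x', x' ∈ D: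
ν (φ y e) = exp(-ψ_y(m)) ν (φ y x'); so for each y the maximum over all e is ≥ exp(T‖θ_y‖) s y
(s_att).  Order them e_1..e_Mtot; p_1 = e_1 (or 1), p_{i+1} = p_i · φ(x^τ) e_{i+1}, τ ∈ {1..K} chosen such that
the set {y : ν (φ y p_i) = ν (φ y φ(x^τ) e_{i+1}) ≠ 0} has measure ≤ 1/K + ε': for given y with
ψ_y x ≠ 0 at most one τ satisfies the equation since ν (φ y φ(x^τ) e) = exp(-τ ψ_y x) ν (φ y e)
(mu_exists_small for the sets minus {ψ_y x = 0}).  If no tie occurs at any stage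
ν (φ y p) = max_i ν (φ y φ(x^{τ_i}) e_i) (ultrametric: equality in `mul` if the two norms differ; if both are 0
the product has norm 0) ≥ exp(-C''‖θ_y‖) exp(T‖θ_y‖) s y > exp(C‖θ_y‖) s y (θ_y ≠ 0).
Total exceptional measure ≤ Mtot (1/K + ε') ≤ ε.
-/

set_option autoImplicit false

namespace Pool.Agent.RPC

variable {A P : Type} [Group A] [Group P] {φ : A →* MulAut P} {δ : A → P}
  {N N₁ : Subgroup A} {d : ℕ} {L : Lat N N₁ d} {θ : Fin d → ℝ} {ν : UNorm P} {F : P → ℝ}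
  {D : Finset P} {s : A → ℝ}

theorem unorm_mul_eq (ν : UNorm P) {p q : P} (h : ν.N p ≠ ν.N q) :
    ν.N (p * q) = max (ν.N p) (ν.N q) := by
  have h1 := ν.mul p q
  rcases lt_or_gt_of_ne h with hlt | hgt
  · have h2 : ν.N q ≤ max (ν.N p) (ν.N (p * q)) := by
      have h3 := ν.mul p⁻¹ (p * q)
      rwa [inv_mul_cancel_left, ν.inv] at h3
    rw [max_eq_right hlt.le] at h1 ⊢
    rcases le_max_iff.1 h2 with h3 | h3
    · exact absurd h3 (not_le.2 hlt)
    · exact le_antisymm h1 h3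
  · have h2 : ν.N p ≤ max (ν.N (p * q)) (ν.N q) := by
      have h3 := ν.mul (p * q) q⁻¹
      rwa [mul_inv_cancel_right, ν.inv] at h3
    rw [max_eq_left hgt.le] at h1 ⊢
    rcases le_max_iff.1 h2 with h3 | h3
    · exact le_antisymm h1 h3
    · exact absurd h3 (not_le.2 hgt)

namespace IEAux

/-- the effect of an element of `N` before `y` -/
theorem norm_yn (h : IDat φ δ L θ ν F D s) (y : A) {n : A} (hn : n ∈ N) (q : P) :
    ν.N (φ y (φ n q)) = Real.exp (-(L.psi (L.th y θ) n)) * ν.N (φ y q) := by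
  have h1 : φ y (φ n q) = φ (y * n * y⁻¹) (φ y q) := by
    rw [← MulAut.mul_apply, ← MulAut.mul_apply, ← map_mul, ← map_mul]
    congr 2
    group
  rw [h1, h.eqv _ (h.norm.conj_mem n hn y), L.psi_conj θ y hn]

theorem psi_pow (η : Fin d → ℝ) {x : A} (hx : x ∈ N) (τ : ℕ) :
    L.psi η (x ^ τ) = τ * L.psi η x := by
  have hadd := L.psi_add η
  induction τ with
  | zero =>
    have h1 := hadd 1 N.one_mem 1 N.one_mem
    rw [mul_one] at h1
    rw [pow_zero, Nat.cast_zero, zero_mul]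
    linarith
  | succ t ih =>
    rw [pow_succ, hadd _ (N.pow_mem hx t) _ hx, ih]
    push_cast
    ring

/-- combination of finitely many elements -/
theorem combine (h : IDat φ δ L θ ν F D s) (μ : RMean A) {x : A} (hx : x ∈ N) {ε' : ℝ}
    (hε' : μ.mu {y | L.psi (L.th y θ) x = 0} ≤ ε') {K : ℕ} (hK : 1 ≤ K) (E : List P) :
    ∃ p, μ.mu {y | ¬ ∀ e ∈ E, Real.exp (-(K * |L.psi (L.th y θ) x|)) * ν.N (φ y e) ≤
      ν.N (φ y p)} ≤ E.length * (1 / K + ε') := by
  induction E with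
  | nil =>
    refine ⟨1, ?_⟩
    have h1 : {y : A | ¬ ∀ e ∈ ([] : List P), Real.exp (-(K * |L.psi (L.th y θ) x|)) * ν.N (φ y e) ≤
      ν.N (φ y 1)} = ∅ := by
      ext y
      simp
    rw [h1, mu_empty]
    simp
  | cons e E ih =>
    obtain ⟨p', hp'⟩ := ih
    set S : ℕ → Set A := fun τ => {y | L.psi (L.th y θ) x ≠ 0 ∧
      ν.N (φ y p') = ν.N (φ y (φ (x ^ τ) e)) ∧ ν.N (φ y p') ≠ 0} with hS
    have hone : ∀ y, ∀ J : Finset ℕ, J ⊆ Finset.Icc 1 K → (∀ i ∈ J, y ∈ S i) → J.card ≤ 1 := by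
      intro y J _ hJ
      rw [Finset.card_le_one]
      intro a ha b hb
      obtain ⟨h1, h2, h3⟩ := hJ a ha
      obtain ⟨_, h4, _⟩ := hJ b hb
      rw [norm_yn h y (N.pow_mem hx a), psi_pow _ hx] at h2
      rw [norm_yn h y (N.pow_mem hx b), psi_pow _ hx] at h4
      have h5 : ν.N (φ y e) ≠ 0 := by
        intro h6
        rw [h6, mul_zero] at h2
        exact h3 h2
      have h6 : Real.exp (-(a * L.psi (L.th y θ) x)) = Real.exp (-(b * L.psi (L.th y θ) x)) :=
        mul_right_cancel₀ h5 (h2.symm.trans h4)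
      have h7 := Real.exp_injective h6
      have h8 : (a : ℝ) * L.psi (L.th y θ) x = b * L.psi (L.th y θ) x := by linarith
      have h9 := mul_right_cancel₀ h1 h8
      exact_mod_cast h9
    obtain ⟨τ, hτ, hτ2⟩ := mu_exists_small μ (Finset.Icc 1 K) ⟨1, by rw [Finset.mem_Icc]; omega⟩
      S 1 hone
    rw [Nat.card_Icc, Nat.add_sub_cancel, Nat.cast_one] at hτ2
    rw [Finset.mem_Icc] at hτ
    refine ⟨p' * φ (x ^ τ) e, ?_⟩
    have hsub : {y : A | ¬ ∀ e' ∈ e :: E, Real.exp (-(K * |L.psi (L.th y θ) x|)) * ν.N (φ y e') ≤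
        ν.N (φ y (p' * φ (x ^ τ) e))} ⊆
        ({y | ¬ ∀ e' ∈ E, Real.exp (-(K * |L.psi (L.th y θ) x|)) * ν.N (φ y e') ≤
          ν.N (φ y p')} ∪ {y | L.psi (L.th y θ) x = 0}) ∪ S τ := by
      intro y hy
      by_contra hcon
      rw [Set.mem_union, Set.mem_union, not_or, not_or] at hcon
      obtain ⟨⟨h1', h2⟩, h3⟩ := hcon
      have h1 : ∀ e' ∈ E, Real.exp (-(K * |L.psi (L.th y θ) x|)) * ν.N (φ y e') ≤
          ν.N (φ y p') := not_not.1 h1'
      replace h2 : L.psi (L.th y θ) x ≠ 0 := h2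
      apply hy
      have h4 : ν.N (φ y p') ≤ ν.N (φ y (p' * φ (x ^ τ) e)) ∧
          ν.N (φ y (φ (x ^ τ) e)) ≤ ν.N (φ y (p' * φ (x ^ τ) e)) := by
        by_cases h5 : ν.N (φ y p') = ν.N (φ y (φ (x ^ τ) e))
        · have h6 : ν.N (φ y p') = 0 := by
            by_contra h7
            exact h3 ⟨h2, h5, h7⟩
          rw [← h5, h6]
          exact ⟨ν.nonneg _, ν.nonneg _⟩
        · rw [map_mul, unorm_mul_eq ν h5]
          exact ⟨le_max_left _ _, le_max_right _ _⟩
      intro e' he'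
      rcases List.mem_cons.1 he' with rfl | he'
      · refine le_trans ?_ h4.2
        rw [norm_yn h y (N.pow_mem hx τ), psi_pow _ hx]
        refine mul_le_mul_of_nonneg_right ?_ (ν.nonneg _)
        apply Real.exp_le_exp.2
        have h5 : (τ : ℝ) * L.psi (L.th y θ) x ≤ K * |L.psi (L.th y θ) x| := by
          refine (le_abs_self _).trans ?_
          rw [abs_mul, Nat.abs_cast]
          refine mul_le_mul_of_nonneg_right ?_ (abs_nonneg _)
          exact_mod_cast hτ.2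
        linarith
      · exact (h1 e' he').trans h4.1
    have h5 := mu_union μ ({y | ¬ ∀ e' ∈ E, Real.exp (-(K * |L.psi (L.th y θ) x|)) * ν.N (φ y e') ≤
          ν.N (φ y p')} ∪ {y | L.psi (L.th y θ) x = 0}) (S τ)
    have h6 := mu_union μ {y | ¬ ∀ e' ∈ E, Real.exp (-(K * |L.psi (L.th y θ) x|)) * ν.N (φ y e') ≤
          ν.N (φ y p')} {y | L.psi (L.th y θ) x = 0}
    have h7 := mu_mono μ hsub
    rw [List.length_cons]
    push_cast
    have h8 : ((E.length : ℝ) + 1) * (1 / K + ε') = E.length * (1 / K + ε') + ε' + 1 / K := by ring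
    rw [h8]
    linarith

/-- the supremum norm is attained -/
theorem exists_abs_eq {d : ℕ} {η : Fin d → ℝ} (hη : η ≠ 0) : ∃ i, |η i| = ‖η‖ := by
  obtain ⟨j, hj⟩ : ∃ j, η j ≠ 0 := by
    by_contra hcon
    push Not at hcon
    exact hη (funext hcon)
  obtain ⟨i, _, hi⟩ := Finset.exists_max_image (Finset.univ : Finset (Fin d)) (fun i => |η i|)
    ⟨j, Finset.mem_univ j⟩
  refine ⟨i, le_antisymm ?_ ?_⟩
  · rw [← Real.norm_eq_abs]
    exact norm_le_pi_norm η i
  · rw [pi_norm_le_iff_of_nonneg (abs_nonneg _)]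
    intro k
    rw [Real.norm_eq_abs]
    exact hi k (Finset.mem_univ k)

theorem dot_single {d : ℕ} (η : Fin d → ℝ) (i : Fin d) (z : ℤ) :
    dot η (Pi.single i z) = η i * z := by
  unfold dot
  rw [Finset.sum_eq_single i]
  · rw [Pi.single_eq_same]
  · intro j _ hj
    rw [Pi.single_eq_of_ne hj]
    simp
  · intro hi
    exact absurd (Finset.mem_univ i) hi

end IEAux

open IEAux

theorem IE (h : IDat φ δ L θ ν F D s) (μ : RMean A) (C : ℝ) {ε : ℝ} (hε : 0 < ε) :
    ∃ p, μ.mu {y | ν.N (φ y p) ≤ s y * Real.exp (C * ‖L.th y θ‖)} ≤ ε := by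
  classical
  choose nz hnzN hnz using L.pi_surj
  set I : Finset ((Fin d × Bool) × P) := (Finset.univ : Finset (Fin d × Bool)) ×ˢ D with hI
  set M : ℕ := I.card with hM
  have hM1 : (0 : ℝ) < (M : ℝ) + 1 := by positivity
  set ε' : ℝ := ε / (2 * (M + 1)) with hε'
  have hε'0 : 0 < ε' := by positivity
  obtain ⟨x, hx, hx2⟩ := small_x μ L h.th0 hε'0
  set K : ℕ := ⌈2 * ((M : ℝ) + 1) / ε⌉₊ + 1 with hK
  have hK1 : 1 ≤ K := by omega
  have hK2 : 1 / (K : ℝ) ≤ ε' := by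
    have h1 : 2 * ((M : ℝ) + 1) / ε ≤ K := by
      have h2 := Nat.le_ceil (2 * ((M : ℝ) + 1) / ε)
      rw [hK]
      push_cast
      linarith
    have h2 : 0 < 2 * ((M : ℝ) + 1) / ε := by positivity
    calc 1 / (K : ℝ) ≤ 1 / (2 * ((M : ℝ) + 1) / ε) := one_div_le_one_div_of_le h2 h1
      _ = ε' := by rw [hε', one_div_div]
  set C'' : ℝ := K * ∑ i, |((L.pi x i : ℤ) : ℝ)| with hC''
  set T : ℕ := ⌈C + C'' + 1⌉₊ with hT
  have hT1 : C + C'' + 1 ≤ T := Nat.le_ceil _
  set m : Fin d × Bool → A := fun t => nz (Pi.single t.1 (if t.2 then -(T : ℤ) else (T : ℤ))) with hm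
  set E : List P := I.toList.map (fun t => φ (m t.1) t.2) with hE
  have hElen : E.length = M := by
    rw [hE, List.length_map, Finset.length_toList]
  obtain ⟨p, hp⟩ := combine h μ hx hx2 hK1 E
  refine ⟨p, (mu_mono μ ?_).trans (hp.trans ?_)⟩
  · intro y hy
    replace hy : ν.N (φ y p) ≤ s y * Real.exp (C * ‖L.th y θ‖) := hy
    intro hall
    have hth := L.th_ne y h.th0
    obtain ⟨i, hi⟩ := exists_abs_eq hth
    obtain ⟨x₀, hx₀, hx₀2⟩ := h.s_att y
    have hthpos : 0 < ‖L.th y θ‖ := norm_pos_iff.2 hth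
    -- choose the sign
    obtain ⟨σ, hσ⟩ : ∃ σ : Bool, -(L.psi (L.th y θ) (m (i, σ))) = T * ‖L.th y θ‖ := by
      rcases le_or_gt 0 (L.th y θ i) with h0 | h0
      · refine ⟨true, ?_⟩
        unfold Lat.psi
        rw [hm]
        simp only
        rw [hnz, dot_single, ← hi, abs_of_nonneg h0]
        simp
        ring
      · refine ⟨false, ?_⟩
        unfold Lat.psi
        rw [hm]
        simp only
        rw [hnz, dot_single, ← hi, abs_of_neg h0]
        simp
        ring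
    have hmem : φ (m (i, σ)) x₀ ∈ E := by
      rw [hE, List.mem_map]
      refine ⟨((i, σ), x₀), ?_, rfl⟩
      rw [Finset.mem_toList, hI, Finset.mem_product]
      exact ⟨Finset.mem_univ _, hx₀⟩
    have h1 := hall _ hmem
    rw [norm_yn h y (hnzN _), hσ, hx₀2] at h1
    have h2 : (K : ℝ) * |L.psi (L.th y θ) x| ≤ C'' * ‖L.th y θ‖ := by
      have h3 := dot_bound (L.th y θ) (L.pi x)
      have h4 : (K : ℝ) * |L.psi (L.th y θ) x| ≤
          K * (‖L.th y θ‖ * ∑ i, |((L.pi x i : ℤ) : ℝ)|) :=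
        mul_le_mul_of_nonneg_left h3 (Nat.cast_nonneg _)
      rw [hC'']
      linarith
    have hs := h.s_pos y
    have h3 : s y * Real.exp (C * ‖L.th y θ‖) <
        Real.exp (-(K * |L.psi (L.th y θ) x|)) * (Real.exp (T * ‖L.th y θ‖) * s y) := by
      rw [← mul_assoc, ← Real.exp_add, mul_comm (s y)]
      refine mul_lt_mul_of_pos_right ?_ hs
      apply Real.exp_lt_exp.2
      have h4 := mul_le_mul_of_nonneg_right hT1 hthpos.le
      nlinarith
    exact absurd (h3.trans_le (h1.trans hy)) (lt_irrefl _)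
  · rw [hElen]
    have h1 : (M : ℝ) * (1 / K + ε') ≤ M * (ε' + ε') :=
      mul_le_mul_of_nonneg_left (by linarith) (Nat.cast_nonneg _)
    have h2 : (M : ℝ) * (ε' + ε') = ε * (M / (M + 1)) := by
      rw [hε']
      field_simp
      ring
    have h3 : (M : ℝ) / (M + 1) ≤ 1 := by
      rw [div_le_one hM1]
      linarith
    have h4 : ε * ((M : ℝ) / (M + 1)) ≤ ε * 1 := mul_le_mul_of_nonneg_left h3 hε.le
    linarith

end Pool.Agent.RPC
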