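import Pool.Agent.RPC.IDefs

/-!
MODULE RPC/IEst : basic estimates.  θ_y := L.th y θ;  ψ_θ(y n y⁻¹) = ψ_{θ_y}(n) (psi_conj).
* `est_p`: p is a product of finitely many (φ n x)^{±1}, n ∈ N, x ∈ D (gen, closure);
  φ y (φ n x) = φ (y n y⁻¹) (φ y x), norm exp(-ψ_{θ_y} n) ν(φ y x) ≤ exp(‖θ_y‖ ∑_i |pi n i|) s y.
* `est_F`: for n ∈ N with ψ_{θ_y} n > 0: F (δ y) = ν (φ y (δ n)) (pt_eq).  Take n among the 2d elements
  n_{±i} ∈ N with pi n = ± e_i (θ_y ≠ 0), est_p for the finitely many δ n_{±i}.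
* `th_bound`: L.th (y c) θ = L.th c (L.th y θ), linear map.
* `est_s`: s (y c) = ν (φ y (φ c x)) for some x ∈ D, est_p; the second with y c, c⁻¹ and th_bound.
* `F_N`: F (δ (y n)) = exp(-ψ_{θ_y} n) F (δ y) for n ∈ N (y n = (y n y⁻¹) y, pt_N).
-/

set_option autoImplicit false

namespace Pool.Agent.RPC

variable {A P : Type} [Group A] [Group P] {φ : A →* MulAut P} {δ : A → P}
  {N N₁ : Subgroup A} {d : ℕ} {L : Lat N N₁ d} {θ : Fin d → ℝ} {ν : UNorm P} {F : P → ℝ}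
  {D : Finset P} {s : A → ℝ}

theorem th_bound (L : Lat N N₁ d) (θ : Fin d → ℝ) (c : A) :
    ∃ C, 0 < C ∧ ∀ y, ‖L.th (y * c) θ‖ ≤ C * ‖L.th y θ‖ := by
  refine ⟨1 + ∑ i, ∑ j, |((L.M c i j : ℤ) : ℝ)|, by positivity, fun y => ?_⟩
  rw [L.th_mul]
  set v := L.th y θ with hv
  have h0 : 0 ≤ ∑ i, ∑ j, |((L.M c i j : ℤ) : ℝ)| := by positivity
  rw [pi_norm_le_iff_of_nonneg (by positivity)]
  intro j
  have e1 : (L.th c v) j = ∑ i, v i * ((L.M c i j : ℤ) : ℝ) := by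
    simp [Lat.th, Matrix.vecMul, dotProduct]
  rw [e1, Real.norm_eq_abs]
  calc |∑ i, v i * ((L.M c i j : ℤ) : ℝ)| ≤ ∑ i, |v i * ((L.M c i j : ℤ) : ℝ)| :=
        Finset.abs_sum_le_sum_abs _ _
    _ ≤ ∑ i, |((L.M c i j : ℤ) : ℝ)| * ‖v‖ := by
        apply Finset.sum_le_sum
        intro i _
        rw [abs_mul, mul_comm]
        exact mul_le_mul_of_nonneg_left (norm_le_pi_norm v i) (abs_nonneg _)
    _ = (∑ i, |((L.M c i j : ℤ) : ℝ)|) * ‖v‖ := by rw [Finset.sum_mul]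
    _ ≤ (1 + ∑ i, ∑ j, |((L.M c i j : ℤ) : ℝ)|) * ‖v‖ := by
        apply mul_le_mul_of_nonneg_right _ (norm_nonneg _)
        have : ∑ i, |((L.M c i j : ℤ) : ℝ)| ≤ ∑ i, ∑ j, |((L.M c i j : ℤ) : ℝ)| := by
          apply Finset.sum_le_sum
          intro i _
          exact Finset.single_le_sum (f := fun j => |((L.M c i j : ℤ) : ℝ)|)
            (fun j _ => abs_nonneg _) (Finset.mem_univ j)
        linarith

theorem dot_bound (θ : Fin d → ℝ) (z : Fin d → ℤ) :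
    |dot θ z| ≤ ‖θ‖ * ∑ i, |(z i : ℝ)| := by
  unfold dot
  calc |∑ i, θ i * (z i : ℝ)| ≤ ∑ i, |θ i * (z i : ℝ)| := Finset.abs_sum_le_sum_abs _ _
    _ ≤ ∑ i, ‖θ‖ * |(z i : ℝ)| := by
        apply Finset.sum_le_sum
        intro i _
        rw [abs_mul]
        exact mul_le_mul_of_nonneg_right (norm_le_pi_norm θ i) (abs_nonneg _)
    _ = ‖θ‖ * ∑ i, |(z i : ℝ)| := by rw [Finset.mul_sum]

theorem rdot_bound (θ e : Fin d → ℝ) : |rdot θ e| ≤ d * ‖θ‖ * ‖e‖ := by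
  unfold rdot
  calc |∑ i, θ i * e i| ≤ ∑ i, |θ i * e i| := Finset.abs_sum_le_sum_abs _ _
    _ ≤ ∑ _i : Fin d, ‖θ‖ * ‖e‖ := by
        apply Finset.sum_le_sum
        intro i _
        rw [abs_mul]
        exact mul_le_mul (norm_le_pi_norm θ i) (norm_le_pi_norm e i) (abs_nonneg _) (norm_nonneg _)
    _ = d * ‖θ‖ * ‖e‖ := by simp [mul_assoc]

theorem est_p (h : IDat φ δ L θ ν F D s) (p : P) :
    ∃ C, 0 ≤ C ∧ ∀ y, ν.N (φ y p) ≤ s y * Real.exp (C * ‖L.th y θ‖) := by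
  have hp : p ∈ Tr φ (N : Set A) (D : Set P) := by rw [h.gen]; exact Subgroup.mem_top p
  unfold Tr at hp
  induction hp using Subgroup.closure_induction with
  | mem x hx =>
    obtain ⟨n, hn, x, hx, rfl⟩ := hx
    refine ⟨∑ i, |(L.pi n i : ℝ)|, by positivity, fun y => ?_⟩
    have hn' : y * n * y⁻¹ ∈ N := h.norm.conj_mem n hn y
    have e1 : φ y (φ n x) = φ (y * n * y⁻¹) (φ y x) := by
      rw [← MulAut.mul_apply, ← map_mul, ← MulAut.mul_apply, ← map_mul]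
      congr 2
      group
    rw [e1, h.eqv _ hn', L.psi_conj θ y hn, mul_comm]
    have e2 : -(L.psi (L.th y θ) n) ≤ (∑ i, |(L.pi n i : ℝ)|) * ‖L.th y θ‖ := by
      have := dot_bound (L.th y θ) (L.pi n)
      rw [mul_comm]
      exact (neg_le_abs _).trans this
    exact mul_le_mul (h.s_le y x hx) (Real.exp_le_exp.mpr e2) (Real.exp_pos _).le (h.s_pos y).le
  | one =>
    refine ⟨0, le_rfl, fun y => ?_⟩
    rw [map_one, ν.one]
    exact mul_nonneg (h.s_pos y).le (Real.exp_pos _).le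
  | mul a b _ _ iha ihb =>
    obtain ⟨C₁, h1, h1'⟩ := iha
    obtain ⟨C₂, h2, h2'⟩ := ihb
    refine ⟨max C₁ C₂, le_max_of_le_left h1, fun y => ?_⟩
    rw [map_mul]
    refine (ν.mul _ _).trans (max_le ((h1' y).trans ?_) ((h2' y).trans ?_))
    · exact mul_le_mul_of_nonneg_left (Real.exp_le_exp.mpr
        (mul_le_mul_of_nonneg_right (le_max_left _ _) (norm_nonneg _))) (h.s_pos y).le
    · exact mul_le_mul_of_nonneg_left (Real.exp_le_exp.mpr
        (mul_le_mul_of_nonneg_right (le_max_right _ _) (norm_nonneg _))) (h.s_pos y).le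
  | inv a _ iha =>
    obtain ⟨C₁, h1, h1'⟩ := iha
    refine ⟨C₁, h1, fun y => ?_⟩
    rw [map_inv, ν.inv]
    exact h1' y

theorem est_F (h : IDat φ δ L θ ν F D s) :
    ∃ C, 0 ≤ C ∧ ∀ y, F (δ y) ≤ s y * Real.exp (C * ‖L.th y θ‖) := by
  have hz : ∀ i : Fin d, ∀ b : Bool, ∃ n ∈ N, L.pi n = Pi.single i (if b then 1 else -1) :=
    fun i b => L.pi_surj _
  choose n hn hpi using hz
  choose C hC hC' using fun (i : Fin d) (b : Bool) => est_p h (δ (n i b))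
  refine ⟨∑ i, ∑ b, C i b, Finset.sum_nonneg (fun i _ => Finset.sum_nonneg (fun b _ => hC i b)),
    fun y => ?_⟩
  have hne : L.th y θ ≠ 0 := L.th_ne y h.th0
  obtain ⟨i, hi⟩ := Function.ne_iff.mp hne
  simp only [Pi.zero_apply, ne_eq] at hi
  have hpsi : ∀ b : Bool, L.psi (L.th y θ) (n i b) = (L.th y θ) i * (if b then 1 else -1) := by
    intro b
    unfold Lat.psi dot
    rw [hpi, Finset.sum_eq_single i]
    · cases b <;> simp
    · intro j _ hj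
      rw [Pi.single_eq_of_ne hj]; simp
    · intro hcon; exact absurd (Finset.mem_univ i) hcon
  obtain ⟨b, hb⟩ : ∃ b : Bool, 0 < L.psi (L.th y θ) (n i b) := by
    rcases lt_or_gt_of_ne hi with h1 | h1
    · exact ⟨false, by rw [hpsi]; simp; exact h1⟩
    · exact ⟨true, by rw [hpsi]; simpa using h1⟩
  rw [pt_eq h.norm h.coc.mul h.pt (hn i b) (y := y) (by rw [L.psi_conj θ y (hn i b)]; exact hb)]
  refine (hC' i b y).trans (mul_le_mul_of_nonneg_left (Real.exp_le_exp.mpr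
    (mul_le_mul_of_nonneg_right ?_ (norm_nonneg _))) (h.s_pos y).le)
  calc C i b ≤ ∑ b, C i b := Finset.single_le_sum (f := fun b => C i b)
        (fun b _ => hC i b) (Finset.mem_univ b)
    _ ≤ ∑ i, ∑ b, C i b := Finset.single_le_sum (f := fun i => ∑ b, C i b)
        (fun i _ => Finset.sum_nonneg (fun b _ => hC i b)) (Finset.mem_univ i)

theorem est_s (h : IDat φ δ L θ ν F D s) (c : A) :
    ∃ C, 0 ≤ C ∧ ∀ y, s (y * c) ≤ s y * Real.exp (C * ‖L.th y θ‖) ∧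
      s y ≤ s (y * c) * Real.exp (C * ‖L.th y θ‖) := by
  have key : ∀ c : A, ∃ C, 0 ≤ C ∧ ∀ y, s (y * c) ≤ s y * Real.exp (C * ‖L.th y θ‖) := by
    intro c
    choose C hC hC' using fun x : P => est_p h (φ c x)
    refine ⟨∑ x ∈ D, C x, Finset.sum_nonneg (fun x _ => hC x), fun y => ?_⟩
    obtain ⟨x, hx, hx'⟩ := h.s_att (y * c)
    rw [← hx', map_mul, MulAut.mul_apply]
    refine (hC' x y).trans (mul_le_mul_of_nonneg_left (Real.exp_le_exp.mpr
      (mul_le_mul_of_nonneg_right ?_ (norm_nonneg _))) (h.s_pos y).le)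
    exact Finset.single_le_sum (f := fun x => C x) (fun x _ => hC x) hx
  obtain ⟨C₁, h1, h1'⟩ := key c
  obtain ⟨C₂, h2, h2'⟩ := key c⁻¹
  obtain ⟨C₃, h3, h3'⟩ := th_bound L θ c
  refine ⟨max C₁ (C₂ * C₃), le_max_of_le_left h1, fun y => ⟨?_, ?_⟩⟩
  · exact (h1' y).trans (mul_le_mul_of_nonneg_left (Real.exp_le_exp.mpr
      (mul_le_mul_of_nonneg_right (le_max_left _ _) (norm_nonneg _))) (h.s_pos y).le)
  · have e1 := h2' (y * c)
    rw [mul_inv_cancel_right] at e1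
    refine e1.trans (mul_le_mul_of_nonneg_left (Real.exp_le_exp.mpr ?_) (h.s_pos _).le)
    calc C₂ * ‖L.th (y * c) θ‖ ≤ C₂ * (C₃ * ‖L.th y θ‖) := mul_le_mul_of_nonneg_left (h3' y) h2
      _ = C₂ * C₃ * ‖L.th y θ‖ := by ring
      _ ≤ max C₁ (C₂ * C₃) * ‖L.th y θ‖ :=
          mul_le_mul_of_nonneg_right (le_max_right _ _) (norm_nonneg _)

theorem F_N (h : IDat φ δ L θ ν F D s) (y : A) {n : A} (hn : n ∈ N) :
    F (δ (y * n)) = Real.exp (-(L.psi (L.th y θ) n)) * F (δ y) := by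
  have e1 : y * n = (y * n * y⁻¹) * y := by group
  rw [e1, pt_N h.coc.mul h.pt (h.norm.conj_mem n hn y) y, L.psi_conj θ y hn]

end Pool.Agent.RPC
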