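import Pool.Agent.RPC.IE

/-!
MODULE RPC/IK : prescribed increments of f(y) = log F(δ y), and tightness.
Write ψ_y = L.psi (L.th y θ), C₁ the constant of est_F.
* `IK`: p from IE with C = C₁ and ε; bad set B₀ = {y : ν(φ y p) ≤ s y exp(C₁‖θ_y‖)}; off B₀:
  ν (φ y p) > F (δ y).  p = δ a.  w_i = a n_i a⁻¹ ∈ N.  q_0 = p, q_{i+1} = q_i · φ(w_i) q_i.  If ψ_y(w_i) ≠ 0 and
  ν (φ y q_i) ≠ 0: ν (φ y q_{i+1}) = max(1, exp(-ψ_y w_i)) ν (φ y q_i) = exp(max 0 (-ψ_y w_i)) ν(φ y q_i)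
  (unorm_mul_eq, φ y φ w q = φ(y w y⁻¹) φ y q).  q_k = δ b.  Off the bad sets, by pt_two,
  F(δ(y a)) = ν(φ y p), F (δ (y b)) = ν (φ y q_k) = exp(∑ max 0 (-ψ_y w_i)) F (δ (y a)) > 0.
  Substitute y = y' a⁻¹, c = a⁻¹ b: F(δ(y' c)) = exp(∑ max 0 (-ψ_{y'a⁻¹}(a n_i a⁻¹))) F (δ y'), and
  ψ_{y' a⁻¹}(a n a⁻¹) = ψ_θ(y' n y'⁻¹) = ψ_{y'}(n).  The measure of {y : ψ_y(a n_i a⁻¹) = 0} =
  {y : ψ_{ya}(n_i) = 0} is that of {ψ_y n_i = 0} (mu_inv).
* `IT`: upper bound est_F.  Lower bound: p = δ a as above (ε): off a set of measure ≤ ε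
  F (δ (y a)) = ν (φ y p) ≥ s y ≥ s (y a) exp(-C‖θ_{ya}‖) (est_s, th_bound); substitute y a ↦ y.
-/

set_option autoImplicit false

namespace Pool.Agent.RPC

variable {A P : Type} [Group A] [Group P] {φ : A →* MulAut P} {δ : A → P}
  {N N₁ : Subgroup A} {d : ℕ} {L : Lat N N₁ d} {θ : Fin d → ℝ} {ν : UNorm P} {F : P → ℝ}
  {D : Finset P} {s : A → ℝ}

theorem ik_nu_conj (h : IDat φ δ L θ ν F D s) (y : A) {w : A} (hw : w ∈ N) (q : P) :
    ν.N (φ y (φ w q)) = Real.exp (-(L.psi (L.th y θ) w)) * ν.N (φ y q) := by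
  have e1 : φ y (φ w q) = φ (y * w * y⁻¹) (φ y q) := by
    rw [← MulAut.mul_apply, ← MulAut.mul_apply, ← map_mul, ← map_mul]
    congr 2
    group
  rw [e1, h.eqv _ (h.norm.conj_mem w hw y), L.psi_conj θ y hw]

theorem ik_iter (h : IDat φ δ L θ ν F D s) (l : List A) (hl : ∀ n ∈ l, n ∈ N) (p : P) :
    ∃ q : P, ∀ y : A, (∀ w ∈ l, L.psi (L.th y θ) w ≠ 0) → 0 < ν.N (φ y p) →
      ν.N (φ y q) = Real.exp ((l.map (fun w => max 0 (-(L.psi (L.th y θ) w)))).sum) *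
        ν.N (φ y p) := by
  induction l with
  | nil =>
    refine ⟨p, fun y _ _ => ?_⟩
    simp
  | cons w l ih =>
    obtain ⟨q, hq⟩ := ih (fun n hn => hl n (List.mem_cons_of_mem _ hn))
    refine ⟨q * φ w q, fun y hy hp => ?_⟩
    have hw : w ∈ N := hl w List.mem_cons_self
    have h1 := hq y (fun n hn => hy n (List.mem_cons_of_mem _ hn)) hp
    have h2 : 0 < ν.N (φ y q) := by
      rw [h1]
      exact mul_pos (Real.exp_pos _) hp
    have h3 := ik_nu_conj h y hw q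
    have h4 : L.psi (L.th y θ) w ≠ 0 := hy w List.mem_cons_self
    have h5 : ν.N (φ y q) ≠ ν.N (φ y (φ w q)) := by
      rw [h3]
      intro h6
      have h7 : Real.exp (-(L.psi (L.th y θ) w)) = 1 := by
        have : (Real.exp (-(L.psi (L.th y θ) w)) - 1) * ν.N (φ y q) = 0 := by linarith
        rcases mul_eq_zero.1 this with h8 | h8
        · linarith
        · exact absurd h8 h2.ne'
      rw [Real.exp_eq_one_iff] at h7
      exact h4 (by linarith)
    rw [map_mul, unorm_mul_eq ν h5, h3, List.map_cons, List.sum_cons, Real.exp_add, mul_assoc,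
      ← h1]
    rcases le_total 0 (L.psi (L.th y θ) w) with h6 | h6
    · rw [max_eq_left (by linarith : -(L.psi (L.th y θ) w) ≤ 0), Real.exp_zero, one_mul]
      apply max_eq_left
      have : Real.exp (-(L.psi (L.th y θ) w)) ≤ 1 := by
        rw [Real.exp_le_one_iff]
        linarith
      calc _ ≤ 1 * ν.N (φ y q) := mul_le_mul_of_nonneg_right this h2.le
        _ = _ := one_mul _
    · rw [max_eq_right (by linarith : 0 ≤ -(L.psi (L.th y θ) w))]
      apply max_eq_right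
      have : 1 ≤ Real.exp (-(L.psi (L.th y θ) w)) := by
        rw [Real.one_le_exp_iff]
        linarith
      calc _ = 1 * ν.N (φ y q) := (one_mul _).symm
        _ ≤ _ := mul_le_mul_of_nonneg_right this h2.le

theorem ik_list_mu (μ : RMean A) (l : List A) (S : A → Set A) {ε' : ℝ}
    (hs : ∀ n ∈ l, μ.mu (S n) ≤ ε') : μ.mu {y | ∃ n ∈ l, y ∈ S n} ≤ l.length * ε' := by
  induction l with
  | nil =>
    have : {y : A | ∃ n ∈ ([] : List A), y ∈ S n} = ∅ := by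
      ext y
      simp
    rw [this, mu_empty]
    simp
  | cons w l ih =>
    have h1 : {y : A | ∃ n ∈ (w :: l), y ∈ S n} ⊆ S w ∪ {y | ∃ n ∈ l, y ∈ S n} := by
      rintro y ⟨n, hn, hy⟩
      rcases List.mem_cons.1 hn with rfl | hn
      · exact Or.inl hy
      · exact Or.inr ⟨n, hn, hy⟩
    have h2 := ih (fun n hn => hs n (List.mem_cons_of_mem _ hn))
    have h3 := hs w List.mem_cons_self
    refine (mu_mono μ h1).trans ((mu_union μ _ _).trans ?_)
    rw [List.length_cons]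
    push_cast
    linarith

theorem IK (h : IDat φ δ L θ ν F D s) (μ : RMean A) (l : List A) (hl : ∀ n ∈ l, n ∈ N)
    {ε ε' : ℝ} (hε : 0 < ε)
    (hs : ∀ n ∈ l, μ.mu {y | L.psi (L.th y θ) n = 0} ≤ ε') :
    ∃ c : A, μ.mu {y | ¬ (0 < F (δ y) ∧ 0 < F (δ (y * c)) ∧
      Real.log (F (δ (y * c))) = Real.log (F (δ y)) +
        (l.map (fun n => max 0 (-(L.psi (L.th y θ) n)))).sum)} ≤ ε + l.length * ε' := by
  obtain ⟨C₁, hC₁, hF⟩ := est_F h
  obtain ⟨p, hp⟩ := IE h μ C₁ hε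
  obtain ⟨a, rfl⟩ := h.coc.surj p
  obtain ⟨q, hq⟩ := ik_iter h (l.map (fun n => a * n * a⁻¹)) (by
    intro n hn
    rw [List.mem_map] at hn
    obtain ⟨m, hm, rfl⟩ := hn
    exact h.norm.conj_mem m (hl m hm) a) (δ a)
  obtain ⟨b, rfl⟩ := h.coc.surj q
  refine ⟨a⁻¹ * b, ?_⟩
  have hsub : {y | ¬ (0 < F (δ y) ∧ 0 < F (δ (y * (a⁻¹ * b))) ∧
      Real.log (F (δ (y * (a⁻¹ * b)))) = Real.log (F (δ y)) +
        (l.map (fun n => max 0 (-(L.psi (L.th y θ) n)))).sum)} ⊆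
      {y | y * a⁻¹ ∈ {y | ν.N (φ y (δ a)) ≤ s y * Real.exp (C₁ * ‖L.th y θ‖)}} ∪
        {y | ∃ n ∈ l, y ∈ {y | L.psi (L.th y θ) n = 0}} := by
    intro y' hy'
    by_contra hcon
    rw [Set.mem_union, not_or] at hcon
    obtain ⟨hc1, hc2⟩ := hcon
    apply hy'
    set y := y' * a⁻¹ with hy
    have hya : y * a = y' := by rw [hy]; group
    have hyb : y * b = y' * (a⁻¹ * b) := by rw [hy]; group
    have hc1' : s y * Real.exp (C₁ * ‖L.th y θ‖) < ν.N (φ y (δ a)) := not_le.1 hc1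
    have hFy := hF y
    have h1 : F (δ y) < ν.N (φ y (δ a)) := lt_of_le_of_lt hFy hc1'
    have h2 : F (δ y') = ν.N (φ y (δ a)) := by
      rw [← hya]
      exact pt_two h.coc.mul h.pt h1
    have h0 : 0 < ν.N (φ y (δ a)) := lt_of_le_of_lt (h.pt.nonneg _) h1
    have hpsi : ∀ n ∈ l, L.psi (L.th y θ) (a * n * a⁻¹) = L.psi (L.th y' θ) n := by
      intro n hn
      rw [L.psi_conj _ a (hl n hn), ← L.th_mul, hya]
    have h3 := hq y (by
      intro w hw
      rw [List.mem_map] at hw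
      obtain ⟨n, hn, rfl⟩ := hw
      rw [hpsi n hn]
      intro h4
      exact hc2 ⟨n, hn, h4⟩) h0
    have h5 : ((l.map (fun n => a * n * a⁻¹)).map
        (fun w => max 0 (-(L.psi (L.th y θ) w)))).sum =
        (l.map (fun n => max 0 (-(L.psi (L.th y' θ) n)))).sum := by
      rw [List.map_map]
      congr 1
      apply List.map_congr_left
      intro n hn
      simp only [Function.comp_apply]
      rw [hpsi n hn]
    rw [h5] at h3
    have h6 : 0 ≤ (l.map (fun n => max 0 (-(L.psi (L.th y' θ) n)))).sum := by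
      apply List.sum_nonneg
      intro x hx
      rw [List.mem_map] at hx
      obtain ⟨n, _, rfl⟩ := hx
      exact le_max_left _ _
    have h7 : ν.N (φ y (δ a)) ≤ ν.N (φ y (δ b)) := by
      rw [h3]
      have : 1 ≤ Real.exp ((l.map (fun n => max 0 (-(L.psi (L.th y' θ) n)))).sum) := by
        rw [Real.one_le_exp_iff]
        exact h6
      calc _ = 1 * ν.N (φ y (δ a)) := (one_mul _).symm
        _ ≤ _ := mul_le_mul_of_nonneg_right this h0.le
    have h8 : F (δ (y' * (a⁻¹ * b))) = ν.N (φ y (δ b)) := by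
      rw [← hyb]
      exact pt_two h.coc.mul h.pt (lt_of_lt_of_le h1 h7)
    refine ⟨by rw [h2]; exact h0, by rw [h8]; exact lt_of_lt_of_le h0 h7, ?_⟩
    rw [h8, h3, h2, Real.log_mul (Real.exp_pos _).ne' h0.ne', Real.log_exp, add_comm]
  refine (mu_mono μ hsub).trans ((mu_union μ _ _).trans ?_)
  have h1 := mu_inv μ {y | ν.N (φ y (δ a)) ≤ s y * Real.exp (C₁ * ‖L.th y θ‖)} a⁻¹
  have h2 := ik_list_mu μ l (fun n => {y | L.psi (L.th y θ) n = 0}) hs
  rw [h1]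
  exact add_le_add hp h2

theorem IT (h : IDat φ δ L θ ν F D s) (μ : RMean A) {ε : ℝ} (hε : 0 < ε) :
    ∃ C : ℝ, 0 ≤ C ∧ μ.mu {y | ¬ (0 < F (δ y) ∧
      |Real.log (F (δ y)) - Real.log (s y)| ≤ C * ‖L.th y θ‖)} ≤ ε := by
  obtain ⟨C₁, hC₁, hF⟩ := est_F h
  obtain ⟨p, hp⟩ := IE h μ C₁ hε
  obtain ⟨a, rfl⟩ := h.coc.surj p
  obtain ⟨C₂, hC₂, hs2⟩ := est_s h a
  obtain ⟨C₃, hC₃, hth⟩ := th_bound L θ a⁻¹
  refine ⟨C₁ + C₂ * C₃, by positivity, ?_⟩
  have hsub : {y | ¬ (0 < F (δ y) ∧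
      |Real.log (F (δ y)) - Real.log (s y)| ≤ (C₁ + C₂ * C₃) * ‖L.th y θ‖)} ⊆
      {y | y * a⁻¹ ∈ {y | ν.N (φ y (δ a)) ≤ s y * Real.exp (C₁ * ‖L.th y θ‖)}} := by
    intro y' hy'
    by_contra hc1
    apply hy'
    set y := y' * a⁻¹ with hy
    have hya : y * a = y' := by rw [hy]; group
    have hc1' : s y * Real.exp (C₁ * ‖L.th y θ‖) < ν.N (φ y (δ a)) := not_le.1 hc1
    have h1 : F (δ y) < ν.N (φ y (δ a)) := lt_of_le_of_lt (hF y) hc1'
    have h2 : F (δ y') = ν.N (φ y (δ a)) := by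
      rw [← hya]
      exact pt_two h.coc.mul h.pt h1
    have h0 : 0 < F (δ y') := by
      rw [h2]
      exact lt_of_le_of_lt (h.pt.nonneg _) h1
    have hsy := h.s_pos y
    have hsy' := h.s_pos y'
    have h3 : s y ≤ F (δ y') := by
      rw [h2]
      refine le_trans ?_ hc1'.le
      have : 1 ≤ Real.exp (C₁ * ‖L.th y θ‖) := by
        rw [Real.one_le_exp_iff]
        positivity
      calc s y = s y * 1 := (mul_one _).symm
        _ ≤ _ := mul_le_mul_of_nonneg_left this hsy.le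
    have h4 : s y' ≤ s y * Real.exp (C₂ * ‖L.th y θ‖) := by
      have := (hs2 y).1
      rwa [hya] at this
    have h5 : ‖L.th y θ‖ ≤ C₃ * ‖L.th y' θ‖ := hth y'
    refine ⟨h0, ?_⟩
    have h6 : Real.log (F (δ y')) ≤ Real.log (s y') + C₁ * ‖L.th y' θ‖ := by
      have := Real.log_le_log h0 (hF y')
      rwa [Real.log_mul hsy'.ne' (Real.exp_pos _).ne', Real.log_exp] at this
    have h7 : Real.log (s y') ≤ Real.log (F (δ y')) + C₂ * ‖L.th y θ‖ := by
      have := Real.log_le_log hsy' (h4.trans (mul_le_mul_of_nonneg_right h3 (Real.exp_pos _).le))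
      rwa [Real.log_mul h0.ne' (Real.exp_pos _).ne', Real.log_exp] at this
    have h8 : C₂ * ‖L.th y θ‖ ≤ C₂ * C₃ * ‖L.th y' θ‖ := by
      calc C₂ * ‖L.th y θ‖ ≤ C₂ * (C₃ * ‖L.th y' θ‖) := mul_le_mul_of_nonneg_left h5 hC₂
        _ = _ := by ring
    have h9 : 0 ≤ C₁ * ‖L.th y' θ‖ := by positivity
    have h10 : 0 ≤ C₂ * C₃ * ‖L.th y' θ‖ := by positivity
    rw [abs_le]
    constructor
    · rw [add_mul]; linarith
    · rw [add_mul]; linarith
  refine (mu_mono μ hsub).trans ?_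
  rw [mu_inv μ]
  exact hp

end Pool.Agent.RPC
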