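import Pool.Agent.RPC.IDefs

/-!
MODULE RPC/ISop : the operator Sop and words.
* `SR_words`: (Sop l)^i g (y) = ∑_{w : Fin i → Fin k} g (y l_{w 0} ... l_{w (i-1)}) (induction on i;
  Fin.consEquiv), SR is a linear combination of these.
* `SR_lin`: for g y = θ_y · e : Sop l g y = ∑_j θ_{y l_j} · e = ∑_j θ_y · (M_{l_j} e) = θ_y · (σ e),
  σ = ∑_j M_{l_j} (rdot_th, th_mul); so SR l R g y = θ_y · (R(σ) e) = 0 as Rpol is a multiple of
  the characteristic polynomial of σ (Cayley–Hamilton).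
* `exists_cls`: l₀ ∈ A₁; the set of cosets {c l₀ c⁻¹ N} is finite since A₁ centralises A₁/N and has finite
  index; choose representatives (l₀ itself for its own class).
-/

set_option autoImplicit false

namespace Pool.Agent.RPC

variable {A : Type} [Group A] {N N₁ : Subgroup A} {d : ℕ}

/-- the product of the letters of a word -/
def wprod {k i : ℕ} (l : Fin k → A) (w : Fin i → Fin k) : A := (List.ofFn (fun j => l (w j))).prod

theorem SR_add {k : ℕ} (l : Fin k → A) (R : Polynomial ℝ) (f g : A → ℝ) (y : A) :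
    SR l R (fun y => f y + g y) y = SR l R f y + SR l R g y := by
  have h : (fun y => f y + g y) = f + g := rfl
  unfold SR
  rw [h, map_add]
  rfl

theorem SR_smul {k : ℕ} (l : Fin k → A) (R : Polynomial ℝ) (c : ℝ) (g : A → ℝ) (y : A) :
    SR l R (fun y => c * g y) y = c * SR l R g y := by
  have h : (fun y => c * g y) = c • g := rfl
  unfold SR
  rw [h, map_smul]
  rfl

theorem Sop_apply {k : ℕ} (l : Fin k → A) (g : A → ℝ) (y : A) :
    Sop l g y = ∑ j, g (y * l j) := rfl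

theorem wprod_cons {k i : ℕ} (l : Fin k → A) (j : Fin k) (w : Fin i → Fin k) :
    wprod l (Fin.cons j w : Fin (i + 1) → Fin k) = l j * wprod l w := by
  unfold wprod
  rw [List.ofFn_succ, List.prod_cons]
  simp

theorem Sop_pow {k : ℕ} (l : Fin k → A) (i : ℕ) : ∀ (g : A → ℝ) (y : A),
    ((Sop l : Module.End ℝ (A → ℝ)) ^ i) g y = ∑ w : Fin i → Fin k, g (y * wprod l w) := by
  induction i with
  | zero =>
    intro g y
    simp [wprod]
  | succ i ih =>
    intro g y
    rw [pow_succ', Module.End.mul_apply, Sop_apply]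
    simp only [ih]
    rw [← (Fin.consEquiv (fun _ : Fin (i + 1) => Fin k)).sum_comp, Fintype.sum_prod_type]
    apply Finset.sum_congr rfl
    intro j _
    apply Finset.sum_congr rfl
    intro w _
    have h : (Fin.consEquiv (fun _ : Fin (i + 1) => Fin k)) (j, w) =
        (Fin.cons j w : Fin (i + 1) → Fin k) := rfl
    rw [h, wprod_cons, mul_assoc]

theorem SR_words {k : ℕ} (l : Fin k → A) (R : Polynomial ℝ) (g : A → ℝ) (y : A) :
    SR l R g y = ∑ i ∈ Finset.range (R.natDegree + 1), R.coeff i *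
      ∑ w : Fin i → Fin k, g (y * wprod l w) := by
  unfold SR
  rw [Polynomial.aeval_eq_sum_range, LinearMap.sum_apply, Finset.sum_apply]
  apply Finset.sum_congr rfl
  intro i _
  rw [LinearMap.smul_apply, Pi.smul_apply, smul_eq_mul, Sop_pow]

/-- the function `y ↦ θ_y · e` -/
def linf {N N₁ : Subgroup A} {d : ℕ} (L : Lat N N₁ d) (θ e : Fin d → ℝ) : A → ℝ :=
  fun y => rdot (L.th y θ) e

theorem linf_sum {ι : Type} (L : Lat N N₁ d) (θ : Fin d → ℝ) (s : Finset ι)
    (c : ι → ℝ) (e : ι → Fin d → ℝ) (y : A) :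
    linf L θ (∑ i ∈ s, c i • e i) y = ∑ i ∈ s, c i * linf L θ (e i) y := by
  unfold linf rdot
  simp only [Finset.sum_apply, Pi.smul_apply, smul_eq_mul, Finset.mul_sum]
  rw [Finset.sum_comm]
  apply Finset.sum_congr rfl
  intro i _
  apply Finset.sum_congr rfl
  intro j _
  ring

theorem Sop_linf {k : ℕ} (L : Lat N N₁ d) (θ e : Fin d → ℝ) (l : Fin k → A) :
    Sop l (linf L θ e) = linf L θ ((∑ j, L.MR (l j)).mulVec e) := by
  funext y
  rw [Sop_apply, Matrix.sum_mulVec]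
  have h := linf_sum L θ Finset.univ (fun _ : Fin k => (1 : ℝ))
    (fun j => (L.MR (l j)).mulVec e) y
  simp only [one_smul, one_mul] at h
  rw [h]
  apply Finset.sum_congr rfl
  intro j _
  unfold linf
  rw [L.th_mul, L.rdot_th]
  rfl

theorem Sop_pow_linf {k : ℕ} (L : Lat N N₁ d) (θ : Fin d → ℝ) (l : Fin k → A) (i : ℕ) :
    ∀ e : Fin d → ℝ, ((Sop l : Module.End ℝ (A → ℝ)) ^ i) (linf L θ e) =
      linf L θ (((∑ j, L.MR (l j)) ^ i).mulVec e) := by
  induction i with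
  | zero =>
    intro e
    simp
  | succ i ih =>
    intro e
    rw [pow_succ, Module.End.mul_apply, Sop_linf, ih, Matrix.mulVec_mulVec, ← pow_succ]

theorem SR_linf {k : ℕ} (L : Lat N N₁ d) (θ e : Fin d → ℝ) (l : Fin k → A) (R : Polynomial ℝ)
    (y : A) : SR l R (linf L θ e) y =
      linf L θ ((Polynomial.aeval (∑ j, L.MR (l j)) R).mulVec e) y := by
  unfold SR
  rw [Polynomial.aeval_eq_sum_range, Polynomial.aeval_eq_sum_range, LinearMap.sum_apply,
    Finset.sum_apply, Matrix.sum_mulVec]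
  simp only [Matrix.smul_mulVec]
  rw [linf_sum]
  apply Finset.sum_congr rfl
  intro i _
  rw [LinearMap.smul_apply, Pi.smul_apply, smul_eq_mul, Sop_pow_linf]

theorem SR_lin {k : ℕ} (L : Lat N N₁ d) (θ e : Fin d → ℝ) (l : Fin k → A) (y : A) :
    SR l (Rpol L l) (fun y => rdot (L.th y θ) e) y = 0 := by
  have h := SR_linf L θ e l (Rpol L l) y
  have h0 : Polynomial.aeval (∑ j, L.MR (l j)) (Rpol L l) = 0 := by
    unfold Rpol
    rw [map_mul, Matrix.aeval_self_charpoly, mul_zero]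
  rw [h0, Matrix.zero_mulVec] at h
  have h1 : linf L θ 0 y = 0 := by simp [linf, rdot]
  rw [h1] at h
  exact h

theorem Rpol_monic {k : ℕ} (L : Lat N N₁ d) (l : Fin k → A) : (Rpol L l).Monic := by
  unfold Rpol
  exact (Polynomial.monic_X_sub_C _).mul (Matrix.charpoly_monic _)

theorem Rpol_natDegree {k : ℕ} (L : Lat N N₁ d) (l : Fin k → A) :
    (Rpol L l).natDegree = d + 1 := by
  unfold Rpol
  rw [(Polynomial.monic_X_sub_C _).natDegree_mul (Matrix.charpoly_monic _),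
    Polynomial.natDegree_X_sub_C, Matrix.charpoly_natDegree_eq_dim, Fintype.card_fin, add_comm]

theorem wprod_mem {k i : ℕ} {A₁ : Subgroup A} {l : Fin k → A} (h : ∀ j, l j ∈ A₁)
    (w : Fin i → Fin k) : wprod l w ∈ A₁ := by
  unfold wprod
  apply Subgroup.list_prod_mem
  intro x hx
  rw [List.mem_ofFn'] at hx
  obtain ⟨j, rfl⟩ := hx
  exact h _

theorem exists_cls {A₁ : Subgroup A} (hN : N.Normal) (hA₁ : A₁.Normal) (hfin : A₁.FiniteIndex)
    (hle : N ≤ A₁) (hc : ⁅A₁, A₁⁆ ≤ N) (l₀ : A) (hl₀ : l₀ ∈ A₁) :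
    ∃ (k : ℕ) (l : Fin k → A), Cls N A₁ l ∧ ∃ j, l j = l₀ := by
  classical
  -- the conjugates of `l₀` in `A ⧸ N`
  set q : A → A ⧸ N := fun a => (QuotientGroup.mk a : A ⧸ N) with hq
  have hqe : ∀ a b : A, q a = q b ↔ a⁻¹ * b ∈ N := fun a b => QuotientGroup.eq
  have hqc : ∀ c a b : A, q a = q b → q (c * a * c⁻¹) = q (c * b * c⁻¹) := by
    intro c a b h
    rw [hqe] at h ⊢
    have := hN.conj_mem _ h c
    convert this using 1
    group
  set X : Set (A ⧸ N) := Set.range (fun c : A => q (c * l₀ * c⁻¹)) with hX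
  have hXfin : X.Finite := by
    have h1 : ∀ a ∈ A₁, q (a * l₀ * a⁻¹) = q l₀ := by
      intro a ha
      rw [hqe]
      have h2 : a * l₀ * a⁻¹ * l₀⁻¹ ∈ N := hc (Subgroup.commutator_mem_commutator ha hl₀)
      have h3 := hN.conj_mem _ (N.inv_mem h2) l₀⁻¹
      have h4 : (a * l₀ * a⁻¹)⁻¹ * l₀ = l₀⁻¹ * (a * l₀ * a⁻¹ * l₀⁻¹)⁻¹ * l₀⁻¹⁻¹ * 1 := by group
      rw [h4, mul_one]
      exact h3
    have h2 : ∀ c c' : A, (QuotientGroup.mk c : A ⧸ A₁) = QuotientGroup.mk c' →
        q (c * l₀ * c⁻¹) = q (c' * l₀ * c'⁻¹) := by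
      intro c c' h
      rw [QuotientGroup.eq] at h
      have h3 := hqc c _ _ (h1 _ h)
      rw [← h3]
      congr 1
      group
    have : Finite (A ⧸ A₁) := Subgroup.finite_quotient_of_finiteIndex
    have h3 : X ⊆ Set.range (fun z : A ⧸ A₁ => q (z.out * l₀ * z.out⁻¹)) := by
      rintro x ⟨c, rfl⟩
      refine ⟨QuotientGroup.mk c, ?_⟩
      exact h2 _ _ (QuotientGroup.out_eq' _)
    exact (Set.finite_range _).subset h3
  have : Finite X := hXfin.to_subtype
  obtain ⟨k, ⟨e⟩⟩ := Finite.exists_equiv_fin X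
  set rep : A ⧸ N → A := fun x => if x = q l₀ then l₀ else x.out with hrep
  have hrq : ∀ x, q (rep x) = x := by
    intro x
    simp only [hrep]
    split_ifs with h
    · exact h.symm
    · exact QuotientGroup.out_eq' x
  have hmem0 : q l₀ ∈ X := ⟨1, by simp⟩
  refine ⟨k, fun j => rep (e.symm j).1, ⟨?_, ?_⟩, e ⟨q l₀, hmem0⟩, ?_⟩
  · intro j
    obtain ⟨c, hc'⟩ := (e.symm j).2
    have h1 : q (rep (e.symm j).1) = q (c * l₀ * c⁻¹) := by
      rw [hrq]
      exact hc'.symm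
    rw [eq_comm, hqe] at h1
    have h2 : c * l₀ * c⁻¹ ∈ A₁ := hA₁.conj_mem _ hl₀ c
    have h3 := A₁.mul_mem h2 (hle h1)
    rwa [mul_inv_cancel_left] at h3
  · intro c
    -- conjugation by `c` on `X`
    have hσ : ∀ x : X, q (c * rep x.1 * c⁻¹) ∈ X := by
      rintro ⟨x, ⟨a, rfl⟩⟩
      refine ⟨c * a, ?_⟩
      have h1 := hqc c (rep (q (a * l₀ * a⁻¹))) (a * l₀ * a⁻¹) (hrq _)
      show q (c * a * l₀ * (c * a)⁻¹) = q (c * rep (q (a * l₀ * a⁻¹)) * c⁻¹)
      rw [h1]
      congr 1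
      group
    have hinj : Function.Injective (fun x : X => (⟨q (c * rep x.1 * c⁻¹), hσ x⟩ : X)) := by
      intro x x' h
      simp only [Subtype.mk.injEq] at h
      have h1 := hqc c⁻¹ _ _ h
      have h2 : c⁻¹ * (c * rep x.1 * c⁻¹) * c⁻¹⁻¹ = rep x.1 := by group
      have h3 : c⁻¹ * (c * rep x'.1 * c⁻¹) * c⁻¹⁻¹ = rep x'.1 := by group
      rw [h2, h3, hrq, hrq] at h1
      exact Subtype.ext h1
    have hbij := Finite.injective_iff_bijective.mp hinj
    set σ : Equiv.Perm X := Equiv.ofBijective _ hbij with hσd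
    refine ⟨(e.symm.trans σ).trans e, ?_⟩
    intro j
    have h1 : ((e.symm.trans σ).trans e) j = e (σ (e.symm j)) := rfl
    have h2 : (σ (e.symm j)).1 = q (c * rep (e.symm j).1 * c⁻¹) := rfl
    refine ⟨(rep (σ (e.symm j)).1)⁻¹ * (c * rep (e.symm j).1 * c⁻¹), ?_, ?_⟩
    · rw [← hqe, hrq, h2]
    · rw [h1, Equiv.symm_apply_apply]
      group
  · show rep (e.symm (e ⟨q l₀, hmem0⟩)).1 = l₀
    rw [Equiv.symm_apply_apply]
    simp [hrep]

end Pool.Agent.RPC
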