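import Pool.Agent.RPC.IRelZ
import Pool.Agent.RPC.ISop

/-!
MODULE RPC/IRel : the relation v(yc) = v(y) + (t/2) (Xi G)(y) + O(ρ y).
Notation: f y = log F(δ y), S = Sop l, σ = ∑_j MR (l_j), Pol = σ.charpoly, R = Rpol L l = (X - k) Pol,
v = SR l R f = Pol(S) u with u = S f - k f.
`IRel_alg` (deterministic): let c ∈ A, G : A → ℝ, K ≥ 0, y ∈ A₁ be such that for all words w of
length ≤ d + 1 in the l_j, z = y w satisfies 0 < F(δ z), 0 < F(δ(z c)), |f(z c) - f z - G z| ≤ K ρ z.
Then |v(y c) - v(y) - SR l R G y| ≤ C(l, L, ρ) K ρ y, C independent of c, G, K, y.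
Proof.  (0) F (δ (z n)) = exp(-ψ_{θ_z} n) F (δ z) for all z, n ∈ N (F_N); so f (z n) = f z - ψ_{θ_z} n when
F (δ z) > 0.  By Cls for the given c: π, n_j ∈ N with c l_j = l_{π j} n_j c.
(1) for z = y w, |w| ≤ d: z c l_j = z l_{π j} n_j c = (z l_{πj} c) (c⁻¹ n_j c), so
 f (z c l_j) = f (z l_{π j} c) - ψ_{θ_{z l_{πj} c}}(c⁻¹ n_j c) = f (z l_{πj} c) - ψ_θ(z l_{πj} n_j l_{πj}⁻¹ z⁻¹)
 = f (z l_{π j} c) - θ_z · m_j, m_j := pi (l_{πj} n_j l_{πj}⁻¹).  Sum over j:
 u(z c) = ∑_i f(z l_i c) - k f(z c) - θ_z · m, m = ∑ m_j  (also valid with w replaced by anything)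
        = u(z) + (S - k)G (z) - θ_z · m + err, |err| ≤ K ∑_i ρ(z l_i) + k K ρ z ≤ C' K ρ z.
(2) u is right N-invariant at points where F ≠ 0: u(z n) = u(z).  For a word w = (j_1..j_i):
 u(y c l_{j_1} ... l_{j_i}) = u(y l_{π j_1} ... l_{π j_i} c · n') = u(y l_{πj_1}...l_{πj_i} c) for some
 n' ∈ N (N normal).  So (S^i u)(y c) = ∑_w u(y w c) = by (1)
 ∑_w [u(y w) + ((S-k)G)(y w) - θ_{y w} · m + err] = (S^i u)(y) + (S^i (S - k) G)(y) - θ_y · (σ^i m) + err.
(3) Multiply by the coefficients of Pol and sum: Pol(σ) = 0 (Cayley–Hamilton) kills m.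
`IRel`: IRelZ with ε/#words gives c; the bad set is contained in the union over words w of
{y : y w ∈ Bad} (mu_inv).  max 0 (-x) = |x|/2 - x/2; SR_lin kills the linear part; ρ(y w) = ρ y ρ w and
‖θ_z‖ ≤ C₀ ρ z.
`IVt`: v(y) is a finite linear combination ∑_w c_w f(y w) with ∑ c_w = R(k) = 0, so
v(y) = ∑ c_w (f(yw) - log s(y)); f(yw) is close to log s(yw) (IT at y w), which is close to log s y
(est_s).
-/

set_option autoImplicit false

namespace Pool.Agent.RPC

section alg

variable {A : Type} [Group A] {N N₁ : Subgroup A} {d : ℕ}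

theorem irel_wprod_snoc {k i : ℕ} (l : Fin k → A) (w : Fin i → Fin k) (j : Fin k) :
    wprod l (Fin.snoc (α := fun _ => Fin k) w j : Fin (i + 1) → Fin k) = wprod l w * l j := by
  unfold wprod
  rw [List.ofFn_succ']
  simp only [Fin.snoc_castSucc, Fin.snoc_last]
  rw [List.concat_eq_append, List.prod_append, List.prod_singleton]

theorem irel_wprod_cons {k i : ℕ} (l : Fin k → A) (w : Fin (i + 1) → Fin k) :
    wprod l w = l (w 0) * wprod l (fun j => w j.succ) := by
  unfold wprod
  rw [List.ofFn_succ, List.prod_cons]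

theorem wprod_conj {k : ℕ} (l : Fin k → A) (hN : N.Normal) (c : A) (π : Equiv.Perm (Fin k))
    (hπ : ∀ j, ∃ n ∈ N, c * l j * c⁻¹ = l (π j) * n) :
    ∀ (i : ℕ) (w : Fin i → Fin k), ∃ n ∈ N,
      c * wprod l w = wprod l (fun j => π (w j)) * c * n := by
  intro i
  induction i with
  | zero =>
    intro w
    refine ⟨1, N.one_mem, ?_⟩
    simp [wprod]
  | succ i ih =>
    intro w
    obtain ⟨n', hn', h'⟩ := ih (fun j => w j.succ)
    obtain ⟨n, hn, h⟩ := hπ (w 0)
    have e1 : c * l (w 0) = l (π (w 0)) * n * c := by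
      rw [← h]; group
    rw [irel_wprod_cons, irel_wprod_cons]
    set P' := wprod l (fun j => w j.succ) with hP'
    set P'' := wprod l (fun j => π (w j.succ)) with hP''
    refine ⟨((P'' * c)⁻¹ * n * (P'' * c)) * n', N.mul_mem ?_ hn', ?_⟩
    · have := hN.conj_mem n hn (P'' * c)⁻¹
      simpa using this
    · calc c * (l (w 0) * P') = (c * l (w 0)) * P' := by group
        _ = l (π (w 0)) * n * (c * P') := by rw [e1]; group
        _ = l (π (w 0)) * n * (P'' * c * n') := by rw [h']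
        _ = _ := by group

theorem SR_Rpol {k : ℕ} (L : Lat N N₁ d) (l : Fin k → A) (g : A → ℝ) (y : A) :
    SR l (Rpol L l) g y = SR l (∑ j, L.MR (l j)).charpoly
      (fun z => (∑ j, g (z * l j)) - k * g z) y := by
  unfold SR Rpol
  rw [mul_comm, map_mul]
  show (Polynomial.aeval (Sop l) (∑ j, L.MR (l j)).charpoly)
    ((Polynomial.aeval (Sop l : Module.End ℝ (A → ℝ)) (Polynomial.X - Polynomial.C (k : ℝ))) g) y = _
  have e : (Polynomial.aeval (Sop l : Module.End ℝ (A → ℝ)) (Polynomial.X - Polynomial.C (k : ℝ))) g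
      = (fun z => (∑ j, g (z * l j)) - k * g z) := by
    funext z
    simp only [map_sub, Polynomial.aeval_X, Polynomial.aeval_C]
    rw [LinearMap.sub_apply, Module.algebraMap_end_apply]
    simp [Sop]
  rw [e]

theorem Sop_rdot {k : ℕ} (L : Lat N N₁ d) (θ e : Fin d → ℝ) (l : Fin k → A) :
    Sop l (fun y => rdot (L.th y θ) e) =
      fun y => rdot (L.th y θ) ((∑ j, L.MR (l j)).mulVec e) := by
  funext y
  show ∑ j, rdot (L.th (y * l j) θ) e = _
  have : ∀ j, rdot (L.th (y * l j) θ) e = rdot (L.th y θ) ((L.MR (l j)).mulVec e) := by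
    intro j
    rw [L.th_mul, L.rdot_th]
    rfl
  simp only [this]
  unfold rdot
  rw [Finset.sum_comm]
  refine Finset.sum_congr rfl fun i _ => ?_
  rw [← Finset.mul_sum, Matrix.sum_mulVec, Finset.sum_apply]

theorem SR_rdot {k : ℕ} (L : Lat N N₁ d) (θ e : Fin d → ℝ) (l : Fin k → A) (R : Polynomial ℝ)
    (y : A) :
    SR l R (fun y => rdot (L.th y θ) e) y =
      rdot (L.th y θ) ((Polynomial.aeval (∑ j, L.MR (l j)) R).mulVec e) := by
  have key : ∀ (R : Polynomial ℝ) (e : Fin d → ℝ),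
      (Polynomial.aeval (Sop l : Module.End ℝ (A → ℝ)) R) (fun y => rdot (L.th y θ) e) =
      fun y => rdot (L.th y θ) ((Polynomial.aeval (∑ j, L.MR (l j)) R).mulVec e) := by
    intro R
    induction R using Polynomial.induction_on' with
    | add p q hp hq =>
      intro e
      rw [map_add, map_add, LinearMap.add_apply, hp, hq]
      funext y
      rw [Matrix.add_mulVec]
      simp only [Pi.add_apply]
      unfold rdot
      rw [← Finset.sum_add_distrib]
      refine Finset.sum_congr rfl fun i _ => ?_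
      rw [Pi.add_apply, mul_add]
    | monomial n a =>
      induction n with
      | zero =>
        intro e
        rw [Polynomial.monomial_zero_left, Polynomial.aeval_C, Polynomial.aeval_C]
        funext y
        rw [Module.algebraMap_end_apply]
        rw [Matrix.algebraMap_eq_diagonal]
        simp only [Pi.smul_apply, smul_eq_mul, rdot, Finset.mul_sum]
        refine Finset.sum_congr rfl fun i _ => ?_
        rw [Matrix.mulVec_diagonal]
        simp
        ring
      | succ n ih =>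
        intro e
        have hm : (Polynomial.monomial (n + 1) a : Polynomial ℝ) =
            Polynomial.monomial n a * Polynomial.X := by
          rw [Polynomial.monomial_mul_X]
        rw [hm, map_mul, map_mul, Polynomial.aeval_X, Polynomial.aeval_X]
        rw [Module.End.mul_apply, Sop_rdot, ih]
        funext y
        rw [Matrix.mulVec_mulVec]
  exact congrFun (key R e) y

theorem SR_charpoly {k : ℕ} (L : Lat N N₁ d) (θ e : Fin d → ℝ) (l : Fin k → A) (y : A) :
    SR l (∑ j, L.MR (l j)).charpoly (fun y => rdot (L.th y θ) e) y = 0 := by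
  rw [SR_rdot, Matrix.aeval_self_charpoly, Matrix.zero_mulVec]
  simp [rdot]

end alg

variable {A P : Type} [Group A] [Group P] {φ : A →* MulAut P} {δ : A → P}
  {N N₁ : Subgroup A} {d : ℕ} {L : Lat N N₁ d} {θ : Fin d → ℝ} {ν : UNorm P} {F : P → ℝ}
  {D : Finset P} {s : A → ℝ}

theorem F_pos_N (h : IDat φ δ L θ ν F D s) (y : A) {n : A} (hn : n ∈ N) (hy : 0 < F (δ y)) :
    0 < F (δ (y * n)) := by
  rw [F_N h y hn]
  positivity

theorem logF_N (h : IDat φ δ L θ ν F D s) (y : A) {n : A} (hn : n ∈ N) (hy : 0 < F (δ y)) :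
    Real.log (F (δ (y * n))) = Real.log (F (δ y)) - L.psi θ (y * n * y⁻¹) := by
  rw [F_N h y hn, Real.log_mul (Real.exp_pos _).ne' hy.ne', Real.log_exp, L.psi_conj θ y hn]
  ring

/-- u is right N-invariant where F is non zero -/
theorem u_N (h : IDat φ δ L θ ν F D s) {k : ℕ} (l : Fin k → A) (z : A) {n : A} (hn : n ∈ N)
    (hz : 0 < F (δ z)) (hzl : ∀ j, 0 < F (δ (z * l j))) :
    (∑ j, Real.log (F (δ (z * n * l j)))) - k * Real.log (F (δ (z * n))) =
      (∑ j, Real.log (F (δ (z * l j)))) - k * Real.log (F (δ z)) := by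
  have hN := h.norm
  have e1 : ∀ j, Real.log (F (δ (z * n * l j))) =
      Real.log (F (δ (z * l j))) - L.psi θ (z * n * z⁻¹) := by
    intro j
    have e : z * n * l j = z * l j * ((l j)⁻¹ * n * l j) := by group
    have hn' : (l j)⁻¹ * n * l j ∈ N := by
      have := hN.conj_mem n hn (l j)⁻¹
      simpa using this
    rw [e, logF_N h _ hn' (hzl j)]
    congr 2
    group
  rw [Finset.sum_congr rfl fun j _ => e1 j, logF_N h z hn hz, Finset.sum_sub_distrib]
  simp
  ring

/-- shift by c in the base point -/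
theorem u_c (h : IDat φ δ L θ ν F D s) {k : ℕ} (l : Fin k → A) (c : A) (π : Equiv.Perm (Fin k))
    (n : Fin k → A) (hn : ∀ j, n j ∈ N) (hπ : ∀ j, c * l j * c⁻¹ = l (π j) * n j) (z : A)
    (hzl : ∀ j, 0 < F (δ (z * l j * c))) :
    (∀ j, 0 < F (δ (z * c * l j))) ∧
    (∑ j, Real.log (F (δ (z * c * l j)))) =
      (∑ j, Real.log (F (δ (z * l j * c)))) -
        rdot (L.th z θ) (∑ j, fun i => ((L.pi (l (π j) * n j * (l (π j))⁻¹) i : ℤ) : ℝ)) := by
  have hN := h.norm
  have e0 : ∀ j, z * c * l j = z * l (π j) * c * (c⁻¹ * n j * c) := by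
    intro j
    have : c * l j = l (π j) * n j * c := by rw [← hπ]; group
    calc z * c * l j = z * (c * l j) := by group
      _ = _ := by rw [this]; group
  have hn' : ∀ j, c⁻¹ * n j * c ∈ N := by
    intro j
    have := hN.conj_mem (n j) (hn j) c⁻¹
    simpa using this
  have hn'' : ∀ j, l (π j) * n j * (l (π j))⁻¹ ∈ N := fun j => hN.conj_mem (n j) (hn j) _
  refine ⟨fun j => ?_, ?_⟩
  · rw [e0 j]
    exact F_pos_N h _ (hn' j) (hzl (π j))
  · have e1 : ∀ j, Real.log (F (δ (z * c * l j))) = Real.log (F (δ (z * l (π j) * c))) -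
        rdot (L.th z θ) (fun i => ((L.pi (l (π j) * n j * (l (π j))⁻¹) i : ℤ) : ℝ)) := by
      intro j
      rw [e0 j, logF_N h _ (hn' j) (hzl (π j))]
      congr 1
      have e2 : z * l (π j) * c * (c⁻¹ * n j * c) * (z * l (π j) * c)⁻¹ =
          z * (l (π j) * n j * (l (π j))⁻¹) * z⁻¹ := by group
      rw [e2, L.psi_conj θ z (hn'' j)]
      rfl
    rw [Finset.sum_congr rfl fun j _ => e1 j, Finset.sum_sub_distrib]
    congr 1
    · exact Equiv.sum_comp π (fun j => Real.log (F (δ (z * l j * c))))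
    · unfold rdot
      rw [Finset.sum_comm]
      refine Finset.sum_congr rfl fun i _ => ?_
      rw [← Finset.mul_sum, Finset.sum_apply]

theorem IRel_alg (h : IDat φ δ L θ ν F D s) {A₁ : Subgroup A} {ρ : A → ℝ} {c₀ C₀ : ℝ}
    (hg : Gro L θ A₁ ρ c₀ C₀) {k : ℕ} (l : Fin k → A) (hl : Cls N A₁ l) :
    ∃ C : ℝ, 0 ≤ C ∧ ∀ (c : A) (G : A → ℝ) (K : ℝ), 0 ≤ K → ∀ y ∈ A₁,
      (∀ i ≤ d + 1, ∀ w : Fin i → Fin k, 0 < F (δ (y * wprod l w)) ∧
        0 < F (δ (y * wprod l w * c)) ∧
        |Real.log (F (δ (y * wprod l w * c))) - Real.log (F (δ (y * wprod l w))) -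
          G (y * wprod l w)| ≤ K * ρ (y * wprod l w)) →
      |SR l (Rpol L l) (fun z => Real.log (F (δ z))) (y * c) -
        SR l (Rpol L l) (fun z => Real.log (F (δ z))) y - SR l (Rpol L l) G y| ≤ C * K * ρ y := by
  have hN := h.norm
  set χ := (∑ j, L.MR (l j)).charpoly with hχ
  have hdeg : χ.natDegree = d := by
    rw [hχ, Matrix.charpoly_natDegree_eq_dim, Fintype.card_fin]
  set E : (i : ℕ) → (Fin i → Fin k) → ℝ := fun i w =>
    (∑ j, ρ (wprod l w * l j)) + k * ρ (wprod l w) with hE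
  have hwm : ∀ (i : ℕ) (w : Fin i → Fin k), wprod l w ∈ A₁ := fun i w => wprod_mem hl.mem w
  have hE0 : ∀ i w, 0 ≤ E i w := by
    intro i w
    refine add_nonneg (Finset.sum_nonneg fun j _ => ?_) (mul_nonneg (Nat.cast_nonneg _) ?_)
    · exact (hg.pos _ (A₁.mul_mem (hwm i w) (hl.mem j))).le
    · exact (hg.pos _ (hwm i w)).le
  refine ⟨∑ i ∈ Finset.range (d + 1), |χ.coeff i| * ∑ w : Fin i → Fin k, E i w, ?_, ?_⟩
  · exact Finset.sum_nonneg fun i _ => mul_nonneg (abs_nonneg _)
      (Finset.sum_nonneg fun w _ => hE0 i w)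
  intro c G K hK y hy H
  obtain ⟨π, hπ⟩ := hl.perm c
  choose n hn hπn using hπ
  set m : Fin d → ℝ := ∑ j, fun i => ((L.pi (l (π j) * n j * (l (π j))⁻¹) i : ℤ) : ℝ) with hm
  set f : A → ℝ := fun z => Real.log (F (δ z)) with hf
  set u : A → ℝ := fun z => (∑ j, f (z * l j)) - k * f z with hu
  set G' : A → ℝ := fun z => (∑ j, G (z * l j)) - k * G z with hG'
  set X : A → ℝ := fun z => u z + G' z + (-1) * rdot (L.th z θ) m with hX
  have hX' : SR l χ X y = SR l (Rpol L l) f y + SR l (Rpol L l) G y := by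
    rw [hX, SR_add, SR_smul, SR_charpoly, SR_add, SR_Rpol, SR_Rpol]
    ring
  have hv : SR l (Rpol L l) f (y * c) = SR l χ u (y * c) := by
    rw [SR_Rpol]
  have hρ : ∀ i (w : Fin i → Fin k), ρ (y * wprod l w) = ρ y * ρ (wprod l w) :=
    fun i w => hg.mul _ hy _ (hwm i w)
  -- the key estimate for one word
  have key : ∀ i ≤ d, ∀ w : Fin i → Fin k,
      |u (y * c * wprod l w) - X (y * wprod l (fun j => π (w j)))| ≤
        K * ρ y * E i (fun j => π (w j)) := by
    intro i hi w
    set w' : Fin i → Fin k := fun j => π (w j) with hw'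
    set z := y * wprod l w' with hz
    obtain ⟨hz1, hz2, hz3⟩ := H i (by omega) w'
    rw [← hz] at hz1 hz2 hz3
    have hj : ∀ j, 0 < F (δ (z * l j)) ∧ 0 < F (δ (z * l j * c)) ∧
        |f (z * l j * c) - f (z * l j) - G (z * l j)| ≤ K * ρ (z * l j) := by
      intro j
      have := H (i + 1) (by omega) (Fin.snoc (α := fun _ => Fin k) w' j)
      rw [irel_wprod_snoc, ← mul_assoc, ← hz] at this
      exact this
    obtain ⟨hc1, hc2⟩ := u_c h l c π n hn hπn z (fun j => (hj j).2.1)
    obtain ⟨n', hn', e'⟩ := wprod_conj l hN c π (fun j => ⟨n j, hn j, hπn j⟩) i w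
    have e1 : y * c * wprod l w = z * c * n' := by
      rw [mul_assoc y c, e', hz]
      show y * (wprod l w' * c * n') = y * wprod l w' * c * n'
      group
    have e2 : u (y * c * wprod l w) = u (z * c) := by
      rw [e1]
      exact u_N h l (z * c) hn' hz2 hc1
    have e3 : u (z * c) = (∑ j, f (z * l j * c)) - rdot (L.th z θ) m - k * f (z * c) := by
      show (∑ j, Real.log (F (δ (z * c * l j)))) - k * f (z * c) = _
      rw [hc2]
    have e4 : u (y * c * wprod l w) - X z =
        (∑ j, (f (z * l j * c) - f (z * l j) - G (z * l j))) - k * (f (z * c) - f z - G z) := by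
      rw [e2, e3, hX]
      simp only [hu, hG', Finset.sum_sub_distrib]
      ring
    have hzA : ρ z = ρ y * ρ (wprod l w') := hρ i w'
    have hzj : ∀ j, ρ (z * l j) = ρ y * ρ (wprod l w' * l j) := by
      intro j
      rw [hz, mul_assoc]
      exact hg.mul _ hy _ (A₁.mul_mem (hwm i w') (hl.mem j))
    rw [e4]
    calc |(∑ j, (f (z * l j * c) - f (z * l j) - G (z * l j))) - k * (f (z * c) - f z - G z)|
        ≤ |∑ j, (f (z * l j * c) - f (z * l j) - G (z * l j))| + |k * (f (z * c) - f z - G z)| :=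
          abs_sub _ _
      _ ≤ (∑ j, K * ρ (z * l j)) + k * (K * ρ z) := by
          refine add_le_add ((Finset.abs_sum_le_sum_abs _ _).trans
            (Finset.sum_le_sum fun j _ => (hj j).2.2)) ?_
          rw [abs_mul, abs_of_nonneg (Nat.cast_nonneg k : (0 : ℝ) ≤ k)]
          exact mul_le_mul_of_nonneg_left hz3 (Nat.cast_nonneg k)
      _ = K * ρ y * E i w' := by
          rw [hzA, hE]
          simp only [hzj, mul_add, Finset.mul_sum]
          congr 1
          · refine Finset.sum_congr rfl fun j _ => ?_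
            ring
          · ring
  have hsum : ∀ i ≤ d, |(∑ w : Fin i → Fin k, u (y * c * wprod l w)) -
      ∑ w : Fin i → Fin k, X (y * wprod l w)| ≤ K * ρ y * ∑ w : Fin i → Fin k, E i w := by
    intro i hi
    have e1 : ∑ w : Fin i → Fin k, X (y * wprod l w) =
        ∑ w : Fin i → Fin k, X (y * wprod l (fun j => π (w j))) := by
      refine (Equiv.sum_comp (Equiv.arrowCongr (Equiv.refl (Fin i)) π)
        (fun w : Fin i → Fin k => X (y * wprod l w))).symm.trans ?_
      rfl
    have e2 : ∑ w : Fin i → Fin k, E i w = ∑ w : Fin i → Fin k, E i (fun j => π (w j)) := by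
      refine (Equiv.sum_comp (Equiv.arrowCongr (Equiv.refl (Fin i)) π)
        (fun w : Fin i → Fin k => E i w)).symm.trans ?_
      rfl
    rw [e1, e2, ← Finset.sum_sub_distrib, Finset.mul_sum]
    exact (Finset.abs_sum_le_sum_abs _ _).trans (Finset.sum_le_sum fun w _ => key i hi w)
  have e5 : SR l (Rpol L l) f (y * c) - SR l (Rpol L l) f y - SR l (Rpol L l) G y =
      SR l χ u (y * c) - SR l χ X y := by
    rw [hX', hv]; ring
  rw [e5, SR_words, SR_words, hdeg, ← Finset.sum_sub_distrib]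
  refine (Finset.abs_sum_le_sum_abs _ _).trans ?_
  rw [Finset.sum_mul, Finset.sum_mul]
  refine Finset.sum_le_sum fun i hi => ?_
  have hi' : i ≤ d := by
    have := Finset.mem_range.1 hi
    omega
  rw [← mul_sub, abs_mul]
  calc |χ.coeff i| * |(∑ w : Fin i → Fin k, u (y * c * wprod l w)) -
      ∑ w : Fin i → Fin k, X (y * wprod l w)|
      ≤ |χ.coeff i| * (K * ρ y * ∑ w : Fin i → Fin k, E i w) :=
        mul_le_mul_of_nonneg_left (hsum i hi') (abs_nonneg _)
    _ = _ := by ring

theorem IRel (h : IDat φ δ L θ ν F D s) (μ : RMean A) {A₁ : Subgroup A} {ρ : A → ℝ} {c₀ C₀ : ℝ}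
    (hg : Gro L θ A₁ ρ c₀ C₀) {k : ℕ} (l : Fin k → A) (hl : Cls N A₁ l)
    (es : List (Fin d → ℝ)) {ε : ℝ} (hε : 0 < ε) :
    ∃ C : ℝ, 0 ≤ C ∧ ∀ t : ℕ, 0 < t → ∃ c : A, μ.mu {y | y ∈ A₁ ∧
      ¬ (|SR l (Rpol L l) (fun z => Real.log (F (δ z))) (y * c) -
        SR l (Rpol L l) (fun z => Real.log (F (δ z))) y -
        (t / 2) * SR l (Rpol L l) (fun z => Gabs es (L.th z θ)) y| ≤ C * ρ y)} ≤ ε := by
  obtain ⟨C, hC, halg⟩ := IRel_alg h hg l hl
  set I : Finset (Σ i : ℕ, (Fin i → Fin k)) :=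
    (Finset.range (d + 2)).sigma (fun i => (Finset.univ : Finset (Fin i → Fin k))) with hI
  have hε' : 0 < ε / (I.card + 1) := by positivity
  obtain ⟨C₁, hC₁, hZ⟩ := IRelZ h μ es hε'
  refine ⟨C * (C₁ * C₀), mul_nonneg hC (mul_nonneg hC₁ hg.C0.le), ?_⟩
  intro t ht
  obtain ⟨c, hc⟩ := hZ t ht
  refine ⟨c, ?_⟩
  set Bad : Set A := {y | ¬ (0 < F (δ y) ∧ 0 < F (δ (y * c)) ∧
      |Real.log (F (δ (y * c))) - Real.log (F (δ y)) -
        t * (es.map (fun e => max 0 (-(rdot (L.th y θ) e)))).sum| ≤ C₁ * ‖L.th y θ‖)} with hBad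
  have hsub : {y | y ∈ A₁ ∧
      ¬ (|SR l (Rpol L l) (fun z => Real.log (F (δ z))) (y * c) -
        SR l (Rpol L l) (fun z => Real.log (F (δ z))) y -
        (t / 2) * SR l (Rpol L l) (fun z => Gabs es (L.th z θ)) y| ≤ C * (C₁ * C₀) * ρ y)} ⊆
      {y | ∃ w ∈ I, y ∈ {y | y * wprod l w.2 ∈ Bad}} := by
    rintro y ⟨hy, hne⟩
    by_contra hcon
    apply hne
    have hgood : ∀ i ≤ d + 1, ∀ w : Fin i → Fin k, y * wprod l w ∉ Bad := by
      intro i hi w hw
      have hi2 : i < d + 2 := by omega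
      exact hcon ⟨⟨i, w⟩, by rw [hI, Finset.mem_sigma]; exact ⟨Finset.mem_range.2 hi2,
        Finset.mem_univ _⟩, hw⟩
    have hres := halg c (fun z => t * (es.map (fun e => max 0 (-(rdot (L.th z θ) e)))).sum)
      (C₁ * C₀) (mul_nonneg hC₁ hg.C0.le) y hy (by
        intro i hi w
        have := hgood i hi w
        rw [hBad, Set.mem_ofPred_eq, not_not] at this
        refine ⟨this.1, this.2.1, this.2.2.trans ?_⟩
        rw [mul_assoc]
        exact mul_le_mul_of_nonneg_left (hg.up _ (A₁.mul_mem hy (wprod_mem hl.mem w))) hC₁)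
    have hlin : SR l (Rpol L l)
        (fun z => t * (es.map (fun e => max 0 (-(rdot (L.th z θ) e)))).sum) y =
        (t / 2) * SR l (Rpol L l) (fun z => Gabs es (L.th z θ)) y := by
      have e1 : (fun z => (t : ℝ) * (es.map (fun e => max 0 (-(rdot (L.th z θ) e)))).sum) =
          fun z => (t / 2) * Gabs es (L.th z θ) + (-(t / 2)) * rdot (L.th z θ) es.sum := by
        funext z
        unfold Gabs
        have : ∀ fs : List (Fin d → ℝ),
            (fs.map (fun e => max 0 (-(rdot (L.th z θ) e)))).sum =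
            (1 / 2) * (fs.map (fun e => |rdot (L.th z θ) e|)).sum +
              (-(1 / 2)) * rdot (L.th z θ) fs.sum := by
          intro fs
          induction fs with
          | nil => simp [rdot]
          | cons a fs ih =>
            rw [List.map_cons, List.sum_cons, List.map_cons, List.sum_cons, List.sum_cons, ih]
            have e2 : rdot (L.th z θ) (a + fs.sum) =
                rdot (L.th z θ) a + rdot (L.th z θ) fs.sum := by
              unfold rdot
              rw [← Finset.sum_add_distrib]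
              refine Finset.sum_congr rfl fun i _ => ?_
              rw [Pi.add_apply]; ring
            have e3 : max 0 (-(rdot (L.th z θ) a)) =
                (1 / 2) * |rdot (L.th z θ) a| - (1 / 2) * rdot (L.th z θ) a := by
              rcases le_total 0 (rdot (L.th z θ) a) with h0 | h0
              · rw [abs_of_nonneg h0, max_eq_left (by linarith)]; ring
              · rw [abs_of_nonpos h0, max_eq_right (by linarith)]; ring
            rw [e2, e3]
            ring
        rw [this es]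
        ring
      rw [e1, SR_add, SR_smul, SR_smul, SR_lin]
      ring
    rw [hlin] at hres
    exact hres
  have hcard : (I.card : ℝ) * (ε / (I.card + 1)) ≤ ε := by
    rw [mul_div_assoc', div_le_iff₀ (by positivity)]
    nlinarith
  calc μ.mu _ ≤ μ.mu {y | ∃ w ∈ I, y ∈ {y | y * wprod l w.2 ∈ Bad}} := mu_mono μ hsub
    _ ≤ ∑ w ∈ I, μ.mu {y | y * wprod l w.2 ∈ Bad} := mu_biUnion μ I _
    _ = ∑ w ∈ I, μ.mu Bad := Finset.sum_congr rfl fun w _ => mu_inv μ Bad _
    _ ≤ ∑ w ∈ I, ε / (I.card + 1) := Finset.sum_le_sum fun w _ => hc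
    _ = (I.card : ℝ) * (ε / (I.card + 1)) := by rw [Finset.sum_const, nsmul_eq_mul]
    _ ≤ ε := hcard

end Pool.Agent.RPC
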