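import Pool.Agent.RPC.IK

/-!
MODULE RPC/IRelZ : increments t · ∑ (θ_y · e)^-, e ∈ es, t a positive integer, up to C‖θ_y‖.
Proof.  r = es.length.  C' from small_near for ε' = ε/(2(r+1)).  For e ∈ es and t choose n₀ ∈ N with
pi n₀ = floor(t e) (coordinates), n ∈ N from small_near; |ψ_{θ_y}(n) - t (θ_y · e)| ≤
∑_i |θ_y i| |pi n i - t e_i| ≤ d (C'+1) ‖θ_y‖, and x ↦ max 0 (-x) is 1-Lipschitz.  IK with ε/2 for
the list of these n.  C = r d (C'+1).
-/

set_option autoImplicit false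

namespace Pool.Agent.RPC

variable {A P : Type} [Group A] [Group P] {φ : A →* MulAut P} {δ : A → P}
  {N N₁ : Subgroup A} {d : ℕ} {L : Lat N N₁ d} {θ : Fin d → ℝ} {ν : UNorm P} {F : P → ℝ}
  {D : Finset P} {s : A → ℝ}

theorem list_sum_close {α : Type*} (es : List α) (f g : α → ℝ) (B : ℝ)
    (h : ∀ e ∈ es, |f e - g e| ≤ B) : |(es.map f).sum - (es.map g).sum| ≤ es.length * B := by
  induction es with
  | nil => simp
  | cons a l ih =>
    have h1 := ih (fun e he => h e (List.mem_cons_of_mem _ he))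
    have h2 := h a List.mem_cons_self
    rw [List.map_cons, List.map_cons, List.sum_cons, List.sum_cons, List.length_cons]
    calc |f a + (l.map f).sum - (g a + (l.map g).sum)|
        = |(f a - g a) + ((l.map f).sum - (l.map g).sum)| := by congr 1; ring
      _ ≤ |f a - g a| + |(l.map f).sum - (l.map g).sum| := abs_add_le _ _
      _ ≤ B + l.length * B := add_le_add h2 h1
      _ = ((l.length + 1 : ℕ) : ℝ) * B := by push_cast; ring

theorem max_close (a b t : ℝ) (ht : 0 ≤ t) :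
    |max 0 (-a) - t * max 0 (-b)| ≤ |a - t * b| := by
  have e : t * max 0 (-b) = max 0 (-(t * b)) := by
    rw [mul_max_of_nonneg _ _ ht]; simp
  rw [e]
  have := abs_max_sub_max_le_abs (-a) (-(t * b)) 0
  rw [max_comm (-a) 0, max_comm (-(t * b)) 0] at this
  refine this.trans (le_of_eq ?_)
  rw [← abs_neg]; congr 1; ring

theorem IRelZ (h : IDat φ δ L θ ν F D s) (μ : RMean A) (es : List (Fin d → ℝ))
    {ε : ℝ} (hε : 0 < ε) :
    ∃ C : ℝ, 0 ≤ C ∧ ∀ t : ℕ, 0 < t → ∃ c : A, μ.mu {y | ¬ (0 < F (δ y) ∧ 0 < F (δ (y * c)) ∧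
      |Real.log (F (δ (y * c))) - Real.log (F (δ y)) -
        t * (es.map (fun e => max 0 (-(rdot (L.th y θ) e)))).sum| ≤ C * ‖L.th y θ‖)} ≤ ε := by
  have hε' : 0 < ε / (2 * (es.length + 1)) := by positivity
  obtain ⟨C', hC', hnear⟩ := small_near μ L h.th0 hε'
  refine ⟨es.length * (d * (C' + 1)), by positivity, fun t ht => ?_⟩
  -- the elements
  have hex : ∀ e : Fin d → ℝ, ∃ n ∈ N, (∀ i, |((L.pi n i : ℤ) : ℝ) - t * e i| ≤ C' + 1) ∧
      μ.mu {y | L.psi (L.th y θ) n = 0} ≤ ε / (2 * (es.length + 1)) := by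
    intro e
    obtain ⟨n₀, hn₀, hpi⟩ := L.pi_surj (fun i => ⌊(t : ℝ) * e i⌋)
    obtain ⟨n, hn, hn1, hn2⟩ := hnear n₀ hn₀
    refine ⟨n, hn, fun i => ?_, hn2⟩
    have h1 := hn1 i
    rw [hpi] at h1
    have h2 : |((⌊(t : ℝ) * e i⌋ : ℤ) : ℝ) - t * e i| ≤ 1 := by
      have f1 := Int.floor_le ((t : ℝ) * e i)
      have f2 := Int.lt_floor_add_one ((t : ℝ) * e i)
      rw [abs_le]; constructor <;> linarith
    calc |((L.pi n i : ℤ) : ℝ) - t * e i|
        = |(((L.pi n i : ℤ) : ℝ) - (⌊(t : ℝ) * e i⌋ : ℤ)) +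
            (((⌊(t : ℝ) * e i⌋ : ℤ) : ℝ) - t * e i)| := by congr 1; ring
      _ ≤ _ := (abs_add_le _ _).trans (add_le_add h1 h2)
  choose n hn hn1 hn2 using hex
  obtain ⟨c, hc⟩ := IK h μ (es.map n) (by
    intro x hx
    obtain ⟨e, _, rfl⟩ := List.mem_map.mp hx
    exact hn e) (ε := ε / 2) (ε' := ε / (2 * (es.length + 1))) (by positivity) (by
    intro x hx
    obtain ⟨e, _, rfl⟩ := List.mem_map.mp hx
    exact hn2 e)
  refine ⟨c, le_trans (mu_mono μ ?_) (hc.trans ?_)⟩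
  · intro y hy
    simp only [Set.mem_ofPred_eq] at hy ⊢
    intro hcon
    apply hy
    obtain ⟨a1, a2, a3⟩ := hcon
    refine ⟨a1, a2, ?_⟩
    rw [a3, List.map_map]
    have e1 : t * (es.map (fun e => max 0 (-(rdot (L.th y θ) e)))).sum =
        (es.map (fun e => (t : ℝ) * max 0 (-(rdot (L.th y θ) e)))).sum := by
      rw [List.sum_map_mul_left]
    rw [e1, add_sub_cancel_left]
    refine (list_sum_close es _ _ (d * (C' + 1) * ‖L.th y θ‖) ?_).trans (le_of_eq (by ring))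
    intro e _
    simp only [Function.comp]
    refine (max_close _ _ _ (Nat.cast_nonneg t)).trans ?_
    unfold Lat.psi dot rdot
    rw [Finset.mul_sum, ← Finset.sum_sub_distrib]
    calc |∑ i, (L.th y θ i * ((L.pi (n e) i : ℤ) : ℝ) - t * (L.th y θ i * e i))|
        ≤ ∑ i, |L.th y θ i * ((L.pi (n e) i : ℤ) : ℝ) - t * (L.th y θ i * e i)| :=
          Finset.abs_sum_le_sum_abs _ _
      _ ≤ ∑ _i : Fin d, (C' + 1) * ‖L.th y θ‖ := by
          apply Finset.sum_le_sum
          intro i _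
          have e2 : L.th y θ i * ((L.pi (n e) i : ℤ) : ℝ) - t * (L.th y θ i * e i) =
              (((L.pi (n e) i : ℤ) : ℝ) - t * e i) * L.th y θ i := by ring
          rw [e2, abs_mul]
          exact mul_le_mul (hn1 e i) (norm_le_pi_norm (L.th y θ) i) (abs_nonneg _) (by positivity)
      _ = d * (C' + 1) * ‖L.th y θ‖ := by simp [mul_assoc]
  · rw [List.length_map]
    have hr : (0 : ℝ) < es.length + 1 := by positivity
    have e1 : (es.length : ℝ) * (ε / (2 * (es.length + 1))) ≤ ε / 2 := by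
      rw [mul_div_assoc', div_le_div_iff₀ (by positivity) (by norm_num)]
      nlinarith
    linarith

end Pool.Agent.RPC
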