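import Pool.Agent.RPC.IK
import Pool.Agent.RPC.ISop

/-!
MODULE RPC/IVt : v = SR l R f is tight relative to ρ on A₁ (f y = log F(δ y), R = Rpol L l).
v(y) = ∑_i R.coeff i ∑_{w : Fin i → Fin k} f(y w) (SR_words) and ∑_i R.coeff i k^i = R(k) = 0, so
v(y) = ∑_i coeff i ∑_w (f(y w) - log s(y)).  For each of the finitely many words w:
|f(y w) - log s(y w)| ≤ C‖θ_{yw}‖ off a set of measure ≤ ε/#words (IT and mu_inv),
|log s(y w) - log s(y)| ≤ C_w ‖θ_y‖ (est_s), ‖θ_{yw}‖ ≤ C'_w ‖θ_y‖ (th_bound), ‖θ_y‖ ≤ C₀ ρ y on A₁.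
-/

set_option autoImplicit false

namespace Pool.Agent.RPC

variable {A P : Type} [Group A] [Group P] {φ : A →* MulAut P} {δ : A → P}
  {N N₁ : Subgroup A} {d : ℕ} {L : Lat N N₁ d} {θ : Fin d → ℝ} {ν : UNorm P} {F : P → ℝ}
  {D : Finset P} {s : A → ℝ}

theorem Rpol_sum {k : ℕ} (L : Lat N N₁ d) (l : Fin k → A) :
    ∑ i ∈ Finset.range ((Rpol L l).natDegree + 1), (Rpol L l).coeff i *
      ∑ _w : Fin i → Fin k, (1 : ℝ) = 0 := by
  have h1 : (Rpol L l).eval (k : ℝ) = 0 := by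
    unfold Rpol
    rw [Polynomial.eval_mul, Polynomial.eval_sub, Polynomial.eval_X, Polynomial.eval_C]
    simp
  rw [Polynomial.eval_eq_sum_range] at h1
  rw [← h1]
  refine Finset.sum_congr rfl fun i _ => ?_
  congr 1
  simp

theorem log_close {a b E : ℝ} (ha : 0 < a) (hb : 0 < b) (h1 : a ≤ b * Real.exp E)
    (h2 : b ≤ a * Real.exp E) : |Real.log a - Real.log b| ≤ E := by
  have e1 : Real.log a ≤ Real.log b + E := by
    have := Real.log_le_log ha h1
    rwa [Real.log_mul hb.ne' (Real.exp_pos _).ne', Real.log_exp] at this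
  have e2 : Real.log b ≤ Real.log a + E := by
    have := Real.log_le_log hb h2
    rwa [Real.log_mul ha.ne' (Real.exp_pos _).ne', Real.log_exp] at this
  rw [abs_le]
  constructor <;> linarith

theorem IVt (h : IDat φ δ L θ ν F D s) (μ : RMean A) {A₁ : Subgroup A} {ρ : A → ℝ} {c₀ C₀ : ℝ}
    (hg : Gro L θ A₁ ρ c₀ C₀) {k : ℕ} (l : Fin k → A) {ε : ℝ} (hε : 0 < ε) :
    ∃ C : ℝ, 0 ≤ C ∧ μ.mu {y | y ∈ A₁ ∧
      ¬ (|SR l (Rpol L l) (fun z => Real.log (F (δ z))) y| ≤ C * ρ y)} ≤ ε := by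
  classical
  set R := Rpol L l with hR
  set n := R.natDegree + 1 with hn
  let ι := Σ i : Fin n, (Fin (i : ℕ) → Fin k)
  set M : ℕ := Fintype.card ι with hM
  have hM1 : (0 : ℝ) < (M : ℝ) + 1 := by positivity
  have hε' : 0 < ε / ((M : ℝ) + 1) := div_pos hε hM1
  obtain ⟨C₁, hC₁, hB⟩ := IT h μ hε'
  set B : Set A := {y | ¬ (0 < F (δ y) ∧
      |Real.log (F (δ y)) - Real.log (s y)| ≤ C₁ * ‖L.th y θ‖)} with hBdef
  choose T hT0 hT using fun c : A => th_bound L θ c
  choose S hS0 hS using fun c : A => est_s h c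
  -- the constant of one word
  set κ : A → ℝ := fun c => C₁ * T c + S c with hκ
  have hκ0 : ∀ c, 0 ≤ κ c := fun c => add_nonneg (mul_nonneg hC₁ (hT0 c).le) (hS0 c)
  set K : ℝ := ∑ i ∈ Finset.range n, |R.coeff i| * ∑ w : Fin i → Fin k, κ (wprod l w) with hK
  have hK0 : 0 ≤ K := Finset.sum_nonneg fun i _ =>
    mul_nonneg (abs_nonneg _) (Finset.sum_nonneg fun w _ => hκ0 _)
  have hword : ∀ c y : A, y * c ∉ B →
      |Real.log (F (δ (y * c))) - Real.log (s y)| ≤ κ c * ‖L.th y θ‖ := by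
    intro c y hy
    rw [hBdef, Set.mem_setOf_eq, not_not] at hy
    obtain ⟨_, hy2⟩ := hy
    have e1 : |Real.log (s (y * c)) - Real.log (s y)| ≤ S c * ‖L.th y θ‖ :=
      log_close (h.s_pos _) (h.s_pos _) (hS c y).1 (hS c y).2
    have e2 : C₁ * ‖L.th (y * c) θ‖ ≤ C₁ * (T c * ‖L.th y θ‖) :=
      mul_le_mul_of_nonneg_left (hT c y) hC₁
    calc |Real.log (F (δ (y * c))) - Real.log (s y)|
        = |(Real.log (F (δ (y * c))) - Real.log (s (y * c))) +
            (Real.log (s (y * c)) - Real.log (s y))| := by congr 1; ring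
      _ ≤ |Real.log (F (δ (y * c))) - Real.log (s (y * c))| +
            |Real.log (s (y * c)) - Real.log (s y)| := abs_add_le _ _
      _ ≤ C₁ * (T c * ‖L.th y θ‖) + S c * ‖L.th y θ‖ := add_le_add (hy2.trans e2) e1
      _ = κ c * ‖L.th y θ‖ := by rw [hκ]; ring
  have hmain : ∀ y ∈ A₁, (∀ p : ι, y * wprod l p.2 ∉ B) →
      |SR l R (fun z => Real.log (F (δ z))) y| ≤ K * C₀ * ρ y := by
    intro y hy hall
    rw [SR_words]
    have h0 := Rpol_sum L l
    rw [← hR, ← hn] at h0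
    have e1 : ∑ i ∈ Finset.range n, R.coeff i *
        ∑ w : Fin i → Fin k, Real.log (F (δ (y * wprod l w))) =
        ∑ i ∈ Finset.range n, R.coeff i *
        ∑ w : Fin i → Fin k, (Real.log (F (δ (y * wprod l w))) - Real.log (s y)) := by
      have : ∑ i ∈ Finset.range n, R.coeff i *
          ∑ w : Fin i → Fin k, (Real.log (F (δ (y * wprod l w))) - Real.log (s y)) =
          ∑ i ∈ Finset.range n, R.coeff i *
            ∑ w : Fin i → Fin k, Real.log (F (δ (y * wprod l w))) -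
          Real.log (s y) * ∑ i ∈ Finset.range n, R.coeff i * ∑ _w : Fin i → Fin k, (1 : ℝ) := by
        rw [Finset.mul_sum, ← Finset.sum_sub_distrib]
        refine Finset.sum_congr rfl fun i _ => ?_
        rw [Finset.sum_sub_distrib]
        have : ∑ _w : Fin i → Fin k, Real.log (s y) =
            Real.log (s y) * ∑ _w : Fin i → Fin k, (1 : ℝ) := by
          rw [Finset.mul_sum]
          simp
        rw [this]
        ring
      rw [this, h0, mul_zero, sub_zero]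
    rw [e1]
    have e2 : |∑ i ∈ Finset.range n, R.coeff i *
        ∑ w : Fin i → Fin k, (Real.log (F (δ (y * wprod l w))) - Real.log (s y))| ≤
        K * ‖L.th y θ‖ := by
      rw [hK, Finset.sum_mul]
      refine (Finset.abs_sum_le_sum_abs _ _).trans (Finset.sum_le_sum fun i hi => ?_)
      rw [abs_mul, mul_assoc]
      refine mul_le_mul_of_nonneg_left ?_ (abs_nonneg _)
      rw [Finset.sum_mul]
      refine (Finset.abs_sum_le_sum_abs _ _).trans (Finset.sum_le_sum fun w _ => ?_)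
      exact hword _ _ (hall ⟨⟨i, Finset.mem_range.mp hi⟩, w⟩)
    refine e2.trans ?_
    rw [mul_assoc]
    exact mul_le_mul_of_nonneg_left (hg.up y hy) hK0
  refine ⟨K * C₀, mul_nonneg hK0 hg.C0.le, ?_⟩
  have hsub : {y | y ∈ A₁ ∧
      ¬ (|SR l R (fun z => Real.log (F (δ z))) y| ≤ K * C₀ * ρ y)} ⊆
      {y | ∃ p ∈ (Finset.univ : Finset ι), y ∈ {x | x * wprod l p.2 ∈ B}} := by
    rintro y ⟨hy, hy2⟩
    by_contra hcon
    apply hy2
    apply hmain y hy
    intro p hp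
    exact hcon ⟨p, Finset.mem_univ _, hp⟩
  refine (mu_mono μ hsub).trans ((mu_biUnion μ _ _).trans ?_)
  have : ∀ p : ι, μ.mu {x | x * wprod l p.2 ∈ B} ≤ ε / ((M : ℝ) + 1) := by
    intro p
    rw [mu_inv]
    exact hB
  calc ∑ p : ι, μ.mu {x | x * wprod l p.2 ∈ B}
      ≤ ∑ _p : ι, ε / ((M : ℝ) + 1) := Finset.sum_le_sum fun p _ => this p
    _ = M * (ε / ((M : ℝ) + 1)) := by
        rw [Finset.sum_const, nsmul_eq_mul, Finset.card_univ]
    _ ≤ ε := by
        rw [mul_div_assoc', div_le_iff₀ hM1]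
        nlinarith

end Pool.Agent.RPC
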