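import Pool.Agent.RPC.LatEx

/-!
MODULE RPC/Irr : irreducibility of the rational representation attached to a maximal isolated M₁.
Let U ≤ ℚ^d be invariant under all M a.  X := {x ∈ M₀ : (pi x : ℚ^d) ∈ U} is a subgroup of A (pi_mul),
normal in A (conj), M₁ ≤ X ≤ M₀, [M₀,M₀] ≤ X, isolated in M₀ (k • v ∈ U ⇒ v ∈ U).  By maximality X = M₁ or X = M₀.
X = M₁ : every v ∈ U has a multiple k v = pi x with integer entries (k ≥ 1, pi_surj), x ∈ X = M₁, pi x = 0, v = 0.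
X = M₀ : all integer vectors are in U, U = ⊤.
-/

set_option autoImplicit false

namespace Pool.Agent.RPC

namespace IrrAux

/-- integer vectors as rational vectors -/
def qv {d : ℕ} (z : Fin d → ℤ) : Fin d → ℚ := fun i => (z i : ℚ)

theorem qv_zero {d : ℕ} : qv (0 : Fin d → ℤ) = 0 := by
  funext i
  simp [qv]

theorem qv_add {d : ℕ} (z w : Fin d → ℤ) : qv (z + w) = qv z + qv w := by
  funext i
  simp [qv]

theorem qv_neg {d : ℕ} (z : Fin d → ℤ) : qv (-z) = -qv z := by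
  funext i
  simp [qv]

theorem qv_mulVec {d : ℕ} (M : Matrix (Fin d) (Fin d) ℤ) (z : Fin d → ℤ) :
    qv (M.mulVec z) = (M.map (fun z : ℤ => (z : ℚ))).mulVec (qv z) := by
  funext i
  simp [qv, Matrix.mulVec, dotProduct, Matrix.map_apply]

theorem exists_den {d : ℕ} (v : Fin d → ℚ) : ∃ (k : ℕ) (z : Fin d → ℤ), 0 < k ∧ (k : ℚ) • v = qv z := by
  refine ⟨∏ i, (v i).den, fun i => (v i).num * (((∏ j, (v j).den) / (v i).den : ℕ) : ℤ), ?_, ?_⟩
  · exact Finset.prod_pos fun i _ => (v i).den_pos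
  · funext i
    obtain ⟨c, hc⟩ := Finset.dvd_prod_of_mem (fun j => (v j).den) (Finset.mem_univ i)
    have h1 : (∏ j, (v j).den) / (v i).den = c := by
      rw [hc]
      exact Nat.mul_div_cancel_left c (v i).den_pos
    simp only [qv, Pi.smul_apply, smul_eq_mul]
    rw [h1, hc]
    push_cast
    have h2 : v i * ((v i).den : ℚ) = ((v i).num : ℚ) := Rat.mul_den_eq_num (v i)
    rw [← h2]
    ring

end IrrAux

open IrrAux

theorem irr_of_max {A : Type} [Group A] {M₀ M₁ : Subgroup A} {d : ℕ} (L : Lat M₀ M₁ d)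
    (hM₀ : M₀.Normal) (hle : M₁ ≤ M₀) (hc : ⁅M₀, M₀⁆ ≤ M₁)
    (hmax : ∀ X : Subgroup A, X.Normal → M₁ ≤ X → X ≤ M₀ → X ≠ M₀ →
      (∀ x ∈ M₀, ∀ k : ℕ, 0 < k → x ^ k ∈ X → x ∈ X) → X = M₁)
    (U : Submodule ℚ (Fin d → ℚ))
    (hU : ∀ a : A, ∀ v ∈ U, ((L.M a).map (fun z : ℤ => (z : ℚ))).mulVec v ∈ U) :
    U = ⊥ ∨ U = ⊤ := by
  have hone : L.pi 1 = 0 := by
    have h := L.pi_mul 1 M₀.one_mem 1 M₀.one_mem
    rw [mul_one] at h
    exact left_eq_add.1 h
  have hinv : ∀ x ∈ M₀, L.pi x⁻¹ = -L.pi x := by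
    intro x hx
    have h := L.pi_mul x hx x⁻¹ (M₀.inv_mem hx)
    rw [mul_inv_cancel, hone] at h
    exact (neg_eq_of_add_eq_zero_right h.symm).symm
  have hpow : ∀ x ∈ M₀, ∀ k : ℕ, qv (L.pi (x ^ k)) = (k : ℚ) • qv (L.pi x) := by
    intro x hx k
    induction k with
    | zero => rw [pow_zero, hone, qv_zero, Nat.cast_zero, zero_smul]
    | succ k ih =>
      rw [pow_succ, L.pi_mul _ (M₀.pow_mem hx k) _ hx, qv_add, ih, Nat.cast_succ, add_smul, one_smul]
  let X : Subgroup A :=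
    { carrier := {x | x ∈ M₀ ∧ qv (L.pi x) ∈ U}
      mul_mem' := by
        rintro a b ⟨ha, ha'⟩ ⟨hb, hb'⟩
        refine ⟨M₀.mul_mem ha hb, ?_⟩
        rw [L.pi_mul a ha b hb, qv_add]
        exact U.add_mem ha' hb'
      one_mem' := by
        refine ⟨M₀.one_mem, ?_⟩
        rw [hone, qv_zero]
        exact U.zero_mem
      inv_mem' := by
        rintro a ⟨ha, ha'⟩
        refine ⟨M₀.inv_mem ha, ?_⟩
        rw [hinv a ha, qv_neg]
        exact U.neg_mem ha' }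
  have hXmem : ∀ x, x ∈ X ↔ x ∈ M₀ ∧ qv (L.pi x) ∈ U := fun x => Iff.rfl
  have hXn : X.Normal := by
    constructor
    intro x hx a
    rw [hXmem] at hx ⊢
    refine ⟨hM₀.conj_mem x hx.1 a, ?_⟩
    rw [L.conj a x hx.1, qv_mulVec]
    exact hU a _ hx.2
  have hM₁X : M₁ ≤ X := by
    intro x hx
    rw [hXmem]
    refine ⟨hle hx, ?_⟩
    rw [(L.pi_ker x (hle hx)).2 hx, qv_zero]
    exact U.zero_mem
  have hXM₀ : X ≤ M₀ := fun x hx => ((hXmem x).1 hx).1
  have hiso : ∀ x ∈ M₀, ∀ k : ℕ, 0 < k → x ^ k ∈ X → x ∈ X := by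
    intro x hx k hk hxk
    rw [hXmem] at hxk ⊢
    refine ⟨hx, ?_⟩
    have h1 := hxk.2
    rw [hpow x hx k] at h1
    have hk' : (k : ℚ) ≠ 0 := by exact_mod_cast hk.ne'
    have h2 := U.smul_mem ((k : ℚ)⁻¹) h1
    rwa [smul_smul, inv_mul_cancel₀ hk', one_smul] at h2
  by_cases hXe : X = M₀
  · right
    rw [eq_top_iff]
    intro v _
    have h1 : v = ∑ i, v i • qv (Pi.single i (1 : ℤ)) := by
      funext j
      rw [Finset.sum_apply]
      simp only [Pi.smul_apply, smul_eq_mul, qv]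
      rw [Finset.sum_eq_single j]
      · simp
      · intro i _ hij
        rw [Pi.single_apply, if_neg hij.symm]
        simp
      · intro h
        exact absurd (Finset.mem_univ j) h
    rw [h1]
    refine U.sum_mem fun i _ => U.smul_mem _ ?_
    obtain ⟨n, hn, hn2⟩ := L.pi_surj (Pi.single i (1 : ℤ))
    rw [← hn2]
    rw [← hXe] at hn
    exact ((hXmem n).1 hn).2
  · left
    have hX1 := hmax X hXn hM₁X hXM₀ hXe hiso
    rw [eq_bot_iff]
    intro v hv
    obtain ⟨k, z, hk, hz⟩ := exists_den v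
    obtain ⟨n, hn, hn2⟩ := L.pi_surj z
    have hk' : (k : ℚ) ≠ 0 := by exact_mod_cast hk.ne'
    have h1 : n ∈ X := by
      rw [hXmem]
      refine ⟨hn, ?_⟩
      rw [hn2, ← hz]
      exact U.smul_mem _ hv
    rw [hX1] at h1
    have h2 := (L.pi_ker n hn).2 h1
    rw [hn2] at h2
    rw [h2, qv_zero] at hz
    rw [Submodule.mem_bot]
    rcases smul_eq_zero.1 hz with h3 | h3
    · exact absurd h3 hk'
    · exact h3

end Pool.Agent.RPC
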