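import Pool.Agent.RPC.IDefs

/-!
MODULE RPC/KAtom : basic facts on Gro data, no atoms, return sets.   θ_y = L.th y θ.
* M_n = 1 for n ∈ N and [A₁,A₁] ≤ N, so L.M (a b) = L.M (b a) for a, b ∈ A₁, θ_{ab} = θ_{ba} (th_mul), ρ(ab) = ρ(ba).
* `th_uni`: there is C with ‖L.th a w‖ ≤ C ρ(a) ‖w‖ for all a ∈ A₁ and w in W = span {θ_y : y ∈ A₁}: choose
  a basis θ_{b_1}, .., θ_{b_r} of W from the spanning set; L.th a θ_b = θ_{b a}, norm ≤ C₀ ρ(b) ρ(a); coordinates are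
  bounded by C'‖w‖.
* `no_atom`: w₀ ∈ A₁, infinitely many lines.  For ε > 0 let n > 1/ε and g_1..g_n ∈ A₁ with θ_{g_i} pairwise not
  parallel.  S_ϑ := {y ∈ A₁ : |θ_y · e| ≤ ϑ ρ y for all e with θ_{w₀}·e = 0, ‖e‖ ≤ 1}.
  For small ϑ the sets S_ϑ g_i := {y : y g_i⁻¹ ∈ S_ϑ} are pairwise disjoint, each of measure mu S_ϑ, so
  mu S_ϑ ≤ 1/n.  Disjointness: y = s g_i = s' g_j, s, s' ∈ S_ϑ.  The vector ρ(s)⁻¹θ_s has norm in [c₀, C₀]
  and is at distance ≤ C₁ ϑ from the line ℝ θ_{w₀} (linear algebra: a functional small on the hyperplane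
  θ_{w₀}^⊥ is close to a multiple of θ_{w₀}): ρ(s)⁻¹ θ_s = α θ_{w₀} + r, |α| ≥ α₀ > 0.  Apply L.th g_i (bounded linear):
  ρ(s)⁻¹ θ_{s g_i} = α θ_{w₀ g_i} + r'.  Same for s', g_j: so α ρ(s) θ_{w₀ g_i} - α' ρ(s') θ_{w₀ g_j} is small compared with
  ρ(y) ≍ ρ(s) ≍ ρ(s'); but θ_{w₀g_i}, θ_{w₀g_j} are linearly independent (apply L.th w₀⁻¹, th commutes
  up to N: θ_{w₀ g} = θ_{g w₀}).
* `ret`: W finite ⊆ A₁, η > 0.  The map y ↦ (ρ(y)⁻¹ θ_{y w})_{w ∈ W} from A₁ to a bounded subset of a finite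
  dimensional space; cover by finitely many sets of diameter ≤ η' ; A₁ is the finite union of the preimages
  B_i, mu A₁ > 0 (mu_coset) so mu B_i > 0 for some i; fix y₀ ∈ B_i.  For y ∈ B_i, y' = y y₀⁻¹:
  ρ(y')⁻¹θ_{y' w} - θ_w = ρ(y₀) L.th y₀⁻¹ (ρ(y)⁻¹ θ_{y w} - ρ(y₀)⁻¹ θ_{y₀ w}), norm ≤ C η' by th_uni.  So
  {y : y y₀ ∈ B_i} is contained in the return set; mu_inv.
-/

set_option autoImplicit false

namespace Pool.Agent.RPC

variable {A : Type} [Group A] {N N₁ : Subgroup A} {d : ℕ} {L : Lat N N₁ d} {θ : Fin d → ℝ}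
  {A₁ : Subgroup A} {ρ : A → ℝ} {c₀ C₀ : ℝ}

open scoped commutatorElement in
theorem Gro.th_comm (hg : Gro L θ A₁ ρ c₀ C₀) {a b : A} (ha : a ∈ A₁) (hb : b ∈ A₁)
    (w : Fin d → ℝ) : L.th (a * b) w = L.th (b * a) w := by
  have h1 : a * b = (b * a) * ⁅a⁻¹, b⁻¹⁆ := by
    rw [commutatorElement_def]; group
  have h2 : ⁅a⁻¹, b⁻¹⁆ ∈ N :=
    hg.comm (Subgroup.commutator_mem_commutator (A₁.inv_mem ha) (A₁.inv_mem hb))
  rw [h1, L.th_mul, L.th_N hg.norm h2]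

/-- `L.th a` as a linear map -/
def thLin (L : Lat N N₁ d) (a : A) : (Fin d → ℝ) →ₗ[ℝ] (Fin d → ℝ) where
  toFun w := L.th a w
  map_add' x y := L.th_add a x y
  map_smul' c x := L.th_smul a c x

theorem thLin_apply (L : Lat N N₁ d) (a : A) (w : Fin d → ℝ) : thLin L a w = L.th a w := rfl

theorem Gro.rho_one (hg : Gro L θ A₁ ρ c₀ C₀) : ρ 1 = 1 := by
  have h1 := hg.mul 1 A₁.one_mem 1 A₁.one_mem
  have h2 := hg.pos 1 A₁.one_mem
  rw [mul_one] at h1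
  have h3 : ρ 1 * (ρ 1 - 1) = 0 := by linarith
  rcases mul_eq_zero.1 h3 with h | h
  · exact absurd h h2.ne'
  · linarith

theorem Gro.rho_inv (hg : Gro L θ A₁ ρ c₀ C₀) {a : A} (ha : a ∈ A₁) : ρ a⁻¹ * ρ a = 1 := by
  rw [← hg.mul _ (A₁.inv_mem ha) _ ha, inv_mul_cancel, hg.rho_one]

theorem th_opnorm (L : Lat N N₁ d) (a : A) : ∃ K : ℝ, 0 < K ∧ ∀ w, ‖L.th a w‖ ≤ K * ‖w‖ := by
  refine ⟨‖LinearMap.toContinuousLinearMap (thLin L a)‖ + 1, by positivity, fun w => ?_⟩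
  have := (LinearMap.toContinuousLinearMap (thLin L a)).le_opNorm w
  have h2 : (LinearMap.toContinuousLinearMap (thLin L a)) w = L.th a w := rfl
  rw [h2] at this
  nlinarith [norm_nonneg w]

theorem th_uni (hg : Gro L θ A₁ ρ c₀ C₀) :
    ∃ C : ℝ, 0 < C ∧ ∀ a ∈ A₁, ∀ w ∈ Submodule.span ℝ {x | ∃ y ∈ A₁, x = L.th y θ},
      ‖L.th a w‖ ≤ C * ρ a * ‖w‖ := by
  classical
  set s : Set (Fin d → ℝ) := {x | ∃ y ∈ A₁, x = L.th y θ} with hs
  obtain ⟨b, hbs, hspan, hli⟩ := exists_linearIndependent ℝ s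
  have hfin : b.Finite := hli.setFinite
  have : Fintype b := hfin.fintype
  have hch : ∀ x : b, ∃ y ∈ A₁, (x : Fin d → ℝ) = L.th y θ := fun x => hbs x.2
  choose f hf1 hf2 using hch
  let Φ : (b → ℝ) →ₗ[ℝ] (Submodule.span ℝ s) :=
    LinearMap.codRestrict (Submodule.span ℝ s)
      (Fintype.linearCombination ℝ (fun x : b => (x : Fin d → ℝ)))
      (fun c => by
        rw [Fintype.linearCombination_apply]
        exact Submodule.sum_mem _ fun x _ =>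
          Submodule.smul_mem _ _ (Submodule.subset_span (hbs x.2)))
  have hΦ : ∀ c, ((Φ c : Submodule.span ℝ s) : Fin d → ℝ) = ∑ x : b, c x • (x : Fin d → ℝ) := by
    intro c
    simp only [Φ, LinearMap.codRestrict_apply, Fintype.linearCombination_apply]
  have hsurj : Function.Surjective Φ := by
    intro w
    have hw : (w : Fin d → ℝ) ∈ Submodule.span ℝ (Set.range (fun x : b => (x : Fin d → ℝ))) := by
      rw [Subtype.range_coe, hspan]; exact w.2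
    obtain ⟨c, hc⟩ := (Submodule.mem_span_range_iff_exists_fun ℝ).1 hw
    exact ⟨c, Subtype.ext (by rw [hΦ, hc])⟩
  obtain ⟨g, hgr⟩ := Φ.exists_rightInverse_of_surjective (LinearMap.range_eq_top.2 hsurj)
  have hgr' : ∀ w, Φ (g w) = w := fun w => LinearMap.congr_fun hgr w
  obtain ⟨K, hK0, hgb⟩ : ∃ K : ℝ, 0 ≤ K ∧ ∀ w, ‖g w‖ ≤ K * ‖w‖ :=
    ⟨_, norm_nonneg (LinearMap.toContinuousLinearMap g),
      fun w => (LinearMap.toContinuousLinearMap g).le_opNorm w⟩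
  refine ⟨K * C₀ * (∑ x : b, ρ (f x)) + 1, ?_, ?_⟩
  · have : 0 ≤ ∑ x : b, ρ (f x) := Finset.sum_nonneg fun x _ => (hg.pos _ (hf1 x)).le
    have := hg.C0
    positivity
  · intro a ha w hw
    have hw' : w = ∑ x : b, (g ⟨w, hw⟩) x • (x : Fin d → ℝ) := by
      rw [← hΦ, hgr']
    have h1 : L.th a w = ∑ x : b, (g ⟨w, hw⟩) x • L.th (f x * a) θ := by
      conv_lhs => rw [hw', ← thLin_apply, map_sum]
      refine Finset.sum_congr rfl fun x _ => ?_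
      rw [map_smul, thLin_apply, L.th_mul, ← hf2]
    rw [h1]
    have hra := hg.pos a ha
    calc ‖∑ x : b, (g ⟨w, hw⟩) x • L.th (f x * a) θ‖
        ≤ ∑ x : b, ‖(g ⟨w, hw⟩) x • L.th (f x * a) θ‖ := norm_sum_le _ _
      _ ≤ ∑ x : b, (K * ‖w‖) * (C₀ * (ρ (f x) * ρ a)) := by
          refine Finset.sum_le_sum fun x _ => ?_
          rw [norm_smul]
          have h2 : ‖(g ⟨w, hw⟩) x‖ ≤ K * ‖w‖ := (norm_le_pi_norm _ x).trans (hgb ⟨w, hw⟩)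
          have h3 := hg.up (f x * a) (A₁.mul_mem (hf1 x) ha)
          rw [hg.mul _ (hf1 x) _ ha] at h3
          exact mul_le_mul h2 h3 (norm_nonneg _) (by positivity)
      _ = (K * C₀ * (∑ x : b, ρ (f x))) * ρ a * ‖w‖ := by
          rw [Finset.mul_sum, Finset.sum_mul, Finset.sum_mul]
          refine Finset.sum_congr rfl fun x _ => by ring
      _ ≤ (K * C₀ * (∑ x : b, ρ (f x)) + 1) * ρ a * ‖w‖ := by
          nlinarith [mul_nonneg hra.le (norm_nonneg w)]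

/-- a functional which is small on the hyperplane `v^⊥` is close to a multiple of `v` -/
theorem near_line {v u : Fin d → ℝ} (hv : v ≠ 0) {ϑ : ℝ}
    (h : ∀ e : Fin d → ℝ, rdot v e = 0 → ‖e‖ ≤ 1 → |rdot u e| ≤ ϑ) :
    ∃ α : ℝ, ‖u - α • v‖ ≤ ϑ := by
  have hvv : 0 < rdot v v := by
    obtain ⟨i, hi⟩ : ∃ i, v i ≠ 0 := by
      by_contra hcon
      push Not at hcon
      exact hv (funext hcon)
    unfold rdot
    refine Finset.sum_pos' (fun j _ => mul_self_nonneg _) ⟨i, Finset.mem_univ _, ?_⟩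
    exact mul_self_pos.2 hi
  refine ⟨rdot u v / rdot v v, ?_⟩
  set α := rdot u v / rdot v v with hα
  set r : Fin d → ℝ := u - α • v with hr
  have hϑ : 0 ≤ ϑ := by
    have := h 0 (by simp [rdot]) (by simp)
    exact (abs_nonneg _).trans this
  by_cases hr0 : r = 0
  · rw [hr0, norm_zero]; exact hϑ
  have hrn : 0 < ‖r‖ := norm_pos_iff.2 hr0
  have h1 : rdot v r = 0 := by
    have : rdot v r = rdot u v - α * rdot v v := by
      simp only [rdot, hr, Pi.sub_apply, Pi.smul_apply, smul_eq_mul, Finset.mul_sum,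
        ← Finset.sum_sub_distrib]
      exact Finset.sum_congr rfl fun i _ => by ring
    rw [this, hα, div_mul_cancel₀ _ hvv.ne', sub_self]
  have h2 : rdot u r = rdot r r := by
    have : rdot r r = rdot u r - α * rdot v r := by
      simp only [rdot, hr, Pi.sub_apply, Pi.smul_apply, smul_eq_mul, Finset.mul_sum,
        ← Finset.sum_sub_distrib]
      exact Finset.sum_congr rfl fun i _ => by ring
    rw [this, h1, mul_zero, sub_zero]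
  have h3 : ‖r‖ ^ 2 ≤ rdot r r := by
    obtain ⟨i, hi⟩ : ∃ i, ‖r‖ = ‖r i‖ := by
      have hne : Nonempty (Fin d) := by
        by_contra hcon
        rw [not_nonempty_iff] at hcon
        exact hr0 (Subsingleton.elim _ _)
      obtain ⟨i, -, hi⟩ := Finset.exists_mem_eq_sup' (Finset.univ_nonempty (α := Fin d))
        (fun i => ‖r i‖₊)
      refine ⟨i, ?_⟩
      have : ‖r‖₊ = ‖r i‖₊ := by
        rw [Pi.nnnorm_def, ← hi, Finset.sup'_eq_sup]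
      exact congrArg NNReal.toReal this
    rw [hi, Real.norm_eq_abs, sq_abs]
    unfold rdot
    calc r i ^ 2 = r i * r i := by ring
      _ ≤ _ := Finset.single_le_sum (f := fun j => r j * r j)
        (fun j _ => mul_self_nonneg _) (Finset.mem_univ i)
  have h4 := h (‖r‖⁻¹ • r)
    (by
      have : rdot v (‖r‖⁻¹ • r) = ‖r‖⁻¹ * rdot v r := by
        simp only [rdot, Pi.smul_apply, smul_eq_mul, Finset.mul_sum]
        exact Finset.sum_congr rfl fun i _ => by ring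
      rw [this, h1, mul_zero])
    (by rw [norm_smul, norm_inv, norm_norm, inv_mul_cancel₀ hrn.ne'])
  have h5 : rdot u (‖r‖⁻¹ • r) = ‖r‖⁻¹ * rdot u r := by
    simp only [rdot, Pi.smul_apply, smul_eq_mul, Finset.mul_sum]
    exact Finset.sum_congr rfl fun i _ => by ring
  rw [h5, h2, abs_of_nonneg (mul_nonneg (inv_nonneg.2 hrn.le) (le_trans (sq_nonneg _) h3))] at h4
  calc ‖r‖ = ‖r‖⁻¹ * ‖r‖ ^ 2 := by field_simp
    _ ≤ ‖r‖⁻¹ * rdot r r := by gcongr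
    _ ≤ ϑ := h4

/-- quantitative linear independence of two non parallel vectors -/
theorem indep_bound {v w : Fin d → ℝ} (hv : v ≠ 0) (hw : w ≠ 0) (h : ¬ Par v w) :
    ∃ κ : ℝ, 0 < κ ∧ ∀ x y : ℝ, κ * |x| ≤ ‖x • v + y • w‖ := by
  have hcl : IsClosed ((Submodule.span ℝ {w} : Submodule ℝ (Fin d → ℝ)) : Set (Fin d → ℝ)) :=
    Submodule.closed_of_finiteDimensional _
  have hvn : v ∉ ((Submodule.span ℝ {w} : Submodule ℝ (Fin d → ℝ)) : Set (Fin d → ℝ)) := by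
    intro hmem
    obtain ⟨c, hc⟩ := Submodule.mem_span_singleton.1 hmem
    refine h ⟨c, ?_, hc.symm⟩
    rintro rfl
    rw [zero_smul] at hc
    exact hv hc.symm
  have hne : ((Submodule.span ℝ {w} : Submodule ℝ (Fin d → ℝ)) : Set (Fin d → ℝ)).Nonempty :=
    ⟨0, Submodule.zero_mem _⟩
  have hpos := (hcl.notMem_iff_infDist_pos hne).1 hvn
  refine ⟨_, hpos, fun x y => ?_⟩
  by_cases hx : x = 0
  · subst hx; simp
  · have h1 : x • v + y • w = x • (v - (-(y / x)) • w) := by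
      rw [smul_sub, smul_smul]
      have : x * -(y / x) = - y := by field_simp
      rw [this, neg_smul, sub_neg_eq_add]
    rw [h1, norm_smul, Real.norm_eq_abs, mul_comm]
    refine mul_le_mul_of_nonneg_left ?_ (abs_nonneg _)
    have := Metric.infDist_le_dist_of_mem (x := v)
      (show (-(y / x)) • w ∈ ((Submodule.span ℝ {w} : Submodule ℝ (Fin d → ℝ)) :
        Set (Fin d → ℝ)) from Submodule.smul_mem _ _ (Submodule.mem_span_singleton_self w))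
    rwa [dist_eq_norm] at this

theorem Gro.th_ne0 (hg : Gro L θ A₁ ρ c₀ C₀) (a : A) : L.th a θ ≠ 0 := L.th_ne a hg.th0

theorem no_atom (μ : RMean A) (hg : Gro L θ A₁ ρ c₀ C₀)
    (hinf : ∀ n : ℕ, ∃ g : Fin n → A, (∀ i, g i ∈ A₁) ∧
      ∀ i j, i ≠ j → ¬ Par (L.th (g i) θ) (L.th (g j) θ))
    (w₀ : A) (hw₀ : w₀ ∈ A₁) {ε : ℝ} (hε : 0 < ε) :
    ∃ ϑ : ℝ, 0 < ϑ ∧ μ.mu {y | y ∈ A₁ ∧ ∀ e : Fin d → ℝ, rdot (L.th w₀ θ) e = 0 → ‖e‖ ≤ 1 →
      |rdot (L.th y θ) e| ≤ ϑ * ρ y} ≤ ε := by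
  classical
  obtain ⟨m, hm⟩ := exists_nat_gt (1 / ε)
  set n : ℕ := m + 1 with hn
  have hnε : 1 / (n : ℝ) ≤ ε := by
    have h1 : (1 : ℝ) / ε ≤ (n : ℝ) := by rw [hn]; push_cast; linarith
    have hnpos : (0 : ℝ) < n := by rw [hn]; positivity
    rw [div_le_iff₀ hnpos]
    rw [div_le_iff₀ hε] at h1
    linarith
  obtain ⟨g, hgA, hgp⟩ := hinf n
  set θ₀ := L.th w₀ θ with hθ₀
  have hθ₀0 : θ₀ ≠ 0 := hg.th_ne0 w₀
  have hθ₀n : 0 < ‖θ₀‖ := norm_pos_iff.2 hθ₀0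
  -- the vectors v_i
  set v : Fin n → (Fin d → ℝ) := fun i => (ρ (g i))⁻¹ • L.th (g i) θ₀ with hvdef
  have hρg : ∀ i, 0 < ρ (g i) := fun i => hg.pos _ (hgA i)
  have hv0 : ∀ i, v i ≠ 0 := fun i =>
    smul_ne_zero (inv_ne_zero (hρg i).ne') (L.th_ne _ hθ₀0)
  have hthg : ∀ i, L.th (g i) θ₀ = L.th w₀ (L.th (g i) θ) := by
    intro i
    rw [hθ₀, ← L.th_mul, ← L.th_mul]
    exact hg.th_comm hw₀ (hgA i) θ
  have hvp : ∀ i j, i ≠ j → ¬ Par (v i) (v j) := by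
    intro i j hij
    rintro ⟨c, hc0, hc⟩
    apply hgp i j hij
    refine ⟨ρ (g i) * (c * (ρ (g j))⁻¹), ?_, ?_⟩
    · have := (hρg i).ne'
      have := (hρg j).ne'
      positivity
    · simp only [hvdef] at hc
      rw [hthg, hthg] at hc
      have h1 : L.th w₀ (L.th (g i) θ - (ρ (g i) * (c * (ρ (g j))⁻¹)) • L.th (g j) θ) = 0 := by
        rw [sub_eq_add_neg, ← neg_smul, L.th_add, L.th_smul]
        have h2 : L.th w₀ (L.th (g i) θ) = ρ (g i) • ((ρ (g i))⁻¹ • L.th w₀ (L.th (g i) θ)) := by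
          rw [smul_smul, mul_inv_cancel₀ (hρg i).ne', one_smul]
        rw [h2, hc, smul_smul, smul_smul, neg_smul, mul_assoc, add_neg_cancel]
      by_contra hne
      exact L.th_ne w₀ (sub_ne_zero.2 hne) h1
  -- constants
  have hκ : ∃ κ : ℝ, 0 < κ ∧ ∀ i j, i ≠ j → ∀ x y : ℝ, κ * |x| ≤ ‖x • v i + y • v j‖ := by
    have h1 : ∀ p : Fin n × Fin n, ∃ κ : ℝ, 0 < κ ∧ (p.1 ≠ p.2 →
        ∀ x y : ℝ, κ * |x| ≤ ‖x • v p.1 + y • v p.2‖) := by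
      rintro ⟨i, j⟩
      by_cases hij : i = j
      · exact ⟨1, one_pos, fun h => absurd hij h⟩
      · obtain ⟨κ, hκ, h⟩ := indep_bound (hv0 i) (hv0 j) (hvp i j hij)
        exact ⟨κ, hκ, fun _ => h⟩
    choose κ hκ0 hκ1 using h1
    have hne : (Finset.univ : Finset (Fin n × Fin n)).Nonempty :=
      ⟨(⟨0, by omega⟩, ⟨0, by omega⟩), Finset.mem_univ _⟩
    refine ⟨Finset.univ.inf' hne κ, ?_, ?_⟩
    · rw [Finset.lt_inf'_iff]; exact fun p _ => hκ0 p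
    · intro i j hij x y
      refine le_trans ?_ (hκ1 (i, j) hij x y)
      exact mul_le_mul_of_nonneg_right (Finset.inf'_le _ (Finset.mem_univ _)) (abs_nonneg _)
  obtain ⟨κ, hκ0, hκ⟩ := hκ
  have hK : ∃ K : ℝ, 0 < K ∧ ∀ i w, (ρ (g i))⁻¹ * ‖L.th (g i) w‖ ≤ K * ‖w‖ := by
    have h1 : ∀ i, ∃ K : ℝ, 0 < K ∧ ∀ w, ‖L.th (g i) w‖ ≤ K * ‖w‖ := fun i => th_opnorm L (g i)
    choose K hK0 hK1 using h1
    refine ⟨∑ i, (ρ (g i))⁻¹ * K i, ?_, ?_⟩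
    · refine Finset.sum_pos (fun i _ => mul_pos (inv_pos.2 (hρg i)) (hK0 i)) ?_
      exact ⟨⟨0, by omega⟩, Finset.mem_univ _⟩
    · intro i w
      calc (ρ (g i))⁻¹ * ‖L.th (g i) w‖ ≤ (ρ (g i))⁻¹ * (K i * ‖w‖) :=
            mul_le_mul_of_nonneg_left (hK1 i w) (inv_nonneg.2 (hρg i).le)
        _ = ((ρ (g i))⁻¹ * K i) * ‖w‖ := by ring
        _ ≤ _ := by
            refine mul_le_mul_of_nonneg_right ?_ (norm_nonneg _)
            exact Finset.single_le_sum (f := fun i => (ρ (g i))⁻¹ * K i)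
              (fun i _ => (mul_pos (inv_pos.2 (hρg i)) (hK0 i)).le) (Finset.mem_univ i)
  obtain ⟨K, hK0, hK⟩ := hK
  set α₀ : ℝ := c₀ / (2 * ‖θ₀‖) with hα₀
  have hα₀pos : 0 < α₀ := div_pos hg.c0 (by positivity)
  set ϑ : ℝ := min (c₀ / 2) (κ * α₀ / (4 * K)) with hϑ
  have hϑpos : 0 < ϑ := lt_min (half_pos hg.c0) (div_pos (mul_pos hκ0 hα₀pos) (by positivity))
  have hϑ1 : ϑ ≤ c₀ / 2 := min_le_left _ _
  have hϑ2 : ϑ ≤ κ * α₀ / (4 * K) := min_le_right _ _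
  refine ⟨ϑ, hϑpos, ?_⟩
  set S : Set A := {y | y ∈ A₁ ∧ ∀ e : Fin d → ℝ, rdot θ₀ e = 0 → ‖e‖ ≤ 1 →
      |rdot (L.th y θ) e| ≤ ϑ * ρ y} with hS
  -- approximation of the points of S
  have happ : ∀ s ∈ S, ∃ α : ℝ, α₀ ≤ |α| ∧ ‖(ρ s)⁻¹ • L.th s θ - α • θ₀‖ ≤ ϑ := by
    rintro s ⟨hsA, hs⟩
    have hρs := hg.pos s hsA
    obtain ⟨α, hα⟩ := near_line (u := (ρ s)⁻¹ • L.th s θ) hθ₀0 (ϑ := ϑ) (by
      intro e he1 he2
      have h1 : rdot ((ρ s)⁻¹ • L.th s θ) e = (ρ s)⁻¹ * rdot (L.th s θ) e := by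
        simp only [rdot, Pi.smul_apply, smul_eq_mul, Finset.mul_sum]
        exact Finset.sum_congr rfl fun i _ => by ring
      rw [h1, abs_mul, abs_of_pos (inv_pos.2 hρs)]
      calc (ρ s)⁻¹ * |rdot (L.th s θ) e| ≤ (ρ s)⁻¹ * (ϑ * ρ s) :=
            mul_le_mul_of_nonneg_left (hs e he1 he2) (inv_nonneg.2 hρs.le)
        _ = ϑ := by field_simp)
    refine ⟨α, ?_, hα⟩
    have h2 : c₀ ≤ ‖(ρ s)⁻¹ • L.th s θ‖ := by
      rw [norm_smul, norm_inv, Real.norm_eq_abs, abs_of_pos hρs, inv_mul_eq_div,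
        le_div_iff₀ hρs]
      exact hg.low s hsA
    have h3 : ‖(ρ s)⁻¹ • L.th s θ‖ ≤ ϑ + |α| * ‖θ₀‖ := by
      calc ‖(ρ s)⁻¹ • L.th s θ‖ = ‖((ρ s)⁻¹ • L.th s θ - α • θ₀) + α • θ₀‖ := by
            rw [sub_add_cancel]
        _ ≤ ‖(ρ s)⁻¹ • L.th s θ - α • θ₀‖ + ‖α • θ₀‖ := norm_add_le _ _
        _ ≤ ϑ + |α| * ‖θ₀‖ := by rw [norm_smul, Real.norm_eq_abs]; gcongr
    rw [hα₀, div_le_iff₀ (by positivity)]
    linarith
  have hdisj : ∀ i j, i ≠ j → ∀ s ∈ S, ∀ s' ∈ S, s * g i ≠ s' * g j := by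
    intro i j hij s hs s' hs' heq
    obtain ⟨α, hα1, hα2⟩ := happ s hs
    obtain ⟨α', -, hα2'⟩ := happ s' hs'
    have hρs := hg.pos s hs.1
    have hρs' := hg.pos s' hs'.1
    -- ρ (g i)⁻¹ (ρ s)⁻¹ θ_{s g i} is the same for both
    have e1 : (ρ (g i))⁻¹ • L.th (g i) ((ρ s)⁻¹ • L.th s θ) =
        (ρ (g j))⁻¹ • L.th (g j) ((ρ s')⁻¹ • L.th s' θ) := by
      rw [L.th_smul, L.th_smul, ← L.th_mul, ← L.th_mul, smul_smul, smul_smul, heq]
      congr 1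
      have : ρ s * ρ (g i) = ρ s' * ρ (g j) := by
        rw [← hg.mul _ hs.1 _ (hgA i), ← hg.mul _ hs'.1 _ (hgA j), heq]
      rw [← mul_inv, ← mul_inv, mul_comm, this, mul_comm]
    set r := (ρ s)⁻¹ • L.th s θ - α • θ₀ with hr
    set r' := (ρ s')⁻¹ • L.th s' θ - α' • θ₀ with hr'
    have e2 : (ρ s)⁻¹ • L.th s θ = α • θ₀ + r := by rw [hr]; abel
    have e2' : (ρ s')⁻¹ • L.th s' θ = α' • θ₀ + r' := by rw [hr']; abel
    rw [e2, e2', L.th_add, L.th_add, L.th_smul, L.th_smul, smul_add, smul_add,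
      smul_comm _ α, smul_comm _ α'] at e1
    have e3 : α • v i + (-α') • v j =
        (ρ (g j))⁻¹ • L.th (g j) r' - (ρ (g i))⁻¹ • L.th (g i) r := by
      simp only [hvdef, neg_smul]
      have := sub_eq_zero.2 e1
      rw [← sub_eq_zero]
      rw [← this]
      abel
    have h4 := hκ i j hij α (-α')
    rw [e3] at h4
    have h5 : ‖(ρ (g j))⁻¹ • L.th (g j) r'‖ ≤ K * ϑ := by
      rw [norm_smul, norm_inv, Real.norm_eq_abs, abs_of_pos (hρg j)]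
      exact (hK j r').trans (mul_le_mul_of_nonneg_left hα2' hK0.le)
    have h6 : ‖(ρ (g i))⁻¹ • L.th (g i) r‖ ≤ K * ϑ := by
      rw [norm_smul, norm_inv, Real.norm_eq_abs, abs_of_pos (hρg i)]
      exact (hK i r).trans (mul_le_mul_of_nonneg_left hα2 hK0.le)
    have h7 := norm_sub_le ((ρ (g j))⁻¹ • L.th (g j) r') ((ρ (g i))⁻¹ • L.th (g i) r)
    have h8 : κ * α₀ ≤ κ * |α| := mul_le_mul_of_nonneg_left hα1 hκ0.le
    have h9 : K * ϑ ≤ κ * α₀ / 4 := by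
      calc K * ϑ ≤ K * (κ * α₀ / (4 * K)) := mul_le_mul_of_nonneg_left hϑ2 hK0.le
        _ = κ * α₀ / 4 := by field_simp
    have h10 : 0 < κ * α₀ := mul_pos hκ0 hα₀pos
    linarith
  -- measures
  have hm1 := mu_sum_le μ (Finset.univ : Finset (Fin n)) (fun i => {y | y * (g i)⁻¹ ∈ S}) 1 (by
    intro x J _ hJ
    by_contra hcon
    push Not at hcon
    obtain ⟨i, hi, j, hj, hij⟩ := Finset.one_lt_card.1 hcon
    refine hdisj i j hij _ (hJ i hi) _ (hJ j hj) ?_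
    rw [inv_mul_cancel_right, inv_mul_cancel_right])
  have hm2 : ∀ i ∈ (Finset.univ : Finset (Fin n)), μ.mu {y | y * (g i)⁻¹ ∈ S} = μ.mu S :=
    fun i _ => mu_inv μ S (g i)⁻¹
  rw [Finset.sum_congr rfl hm2, Finset.sum_const, Finset.card_univ, Fintype.card_fin,
    nsmul_eq_mul] at hm1
  have hnpos : (0 : ℝ) < n := by rw [hn]; positivity
  refine le_trans ?_ hnε
  rw [le_div_iff₀ hnpos, mul_comm]
  simpa using hm1

theorem ret (μ : RMean A) (hg : Gro L θ A₁ ρ c₀ C₀) (W : Finset A) (hW : ∀ w ∈ W, w ∈ A₁)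
    {η : ℝ} (hη : 0 < η) :
    0 < μ.mu {y | y ∈ A₁ ∧ ∀ w ∈ W, ‖(ρ y)⁻¹ • L.th (y * w) θ - L.th w θ‖ ≤ η} := by
  classical
  obtain ⟨C, hC, hCu⟩ := th_uni hg
  let Φ : A → (W → Fin d → ℝ) := fun y w => (ρ y)⁻¹ • L.th (y * w.1) θ
  set R : ℝ := ∑ w ∈ W, C₀ * ρ w with hR
  have hR0 : 0 ≤ R := Finset.sum_nonneg fun w hw => mul_nonneg hg.C0.le (hg.pos w (hW w hw)).le
  have hΦ : ∀ y ∈ A₁, Φ y ∈ Metric.closedBall (0 : W → Fin d → ℝ) R := by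
    intro y hy
    rw [mem_closedBall_zero_iff, pi_norm_le_iff_of_nonneg hR0]
    rintro ⟨w, hw⟩
    have hρy := hg.pos y hy
    simp only [Φ]
    rw [norm_smul, norm_inv, Real.norm_eq_abs, abs_of_pos hρy]
    have h1 := hg.up (y * w) (A₁.mul_mem hy (hW w hw))
    rw [hg.mul _ hy _ (hW w hw)] at h1
    calc (ρ y)⁻¹ * ‖L.th (y * w) θ‖ ≤ (ρ y)⁻¹ * (C₀ * (ρ y * ρ w)) :=
          mul_le_mul_of_nonneg_left h1 (inv_nonneg.2 hρy.le)
      _ = C₀ * ρ w := by field_simp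
      _ ≤ R := Finset.single_le_sum (f := fun w => C₀ * ρ w)
          (fun w hw => mul_nonneg hg.C0.le (hg.pos w (hW w hw)).le) hw
  have hη' : 0 < η / (2 * C) := by positivity
  obtain ⟨t, -, htf, htc⟩ :=
    (isCompact_closedBall (0 : W → Fin d → ℝ) R).finite_cover_balls hη'
  set T : Finset (W → Fin d → ℝ) := htf.toFinset with hT
  set B : (W → Fin d → ℝ) → Set A := fun x => {y | y ∈ A₁ ∧ Φ y ∈ Metric.ball x (η / (2 * C))}
    with hB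
  have hcov : (A₁ : Set A) ⊆ {x | ∃ i ∈ T, x ∈ B i} := by
    intro y hy
    have := htc (hΦ y hy)
    simp only [Set.mem_iUnion] at this
    obtain ⟨x, hx, hx2⟩ := this
    exact ⟨x, htf.mem_toFinset.2 hx, hy, hx2⟩
  have hpos : 0 < ∑ x ∈ T, μ.mu (B x) :=
    lt_of_lt_of_le (mu_coset μ A₁ hg.fin) ((mu_mono μ hcov).trans (mu_biUnion μ T B))
  obtain ⟨x, -, hx⟩ : ∃ x ∈ T, 0 < μ.mu (B x) := by
    by_contra hcon
    push Not at hcon
    exact absurd hpos (not_lt.2 (Finset.sum_nonpos hcon))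
  obtain ⟨y₀, hy₀⟩ : (B x).Nonempty := by
    rw [Set.nonempty_iff_ne_empty]
    intro h
    rw [h, mu_empty] at hx
    exact lt_irrefl _ hx
  rw [← mu_inv μ (B x) y₀] at hx
  refine lt_of_lt_of_le hx (mu_mono μ ?_)
  intro y hy
  obtain ⟨hyA, hyB⟩ : y * y₀ ∈ A₁ ∧ Φ (y * y₀) ∈ Metric.ball x (η / (2 * C)) := hy
  have hy₀A := hy₀.1
  have hyA' : y ∈ A₁ := by
    have := A₁.mul_mem hyA (A₁.inv_mem hy₀A)
    rwa [mul_inv_cancel_right] at this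
  refine ⟨hyA', fun w hw => ?_⟩
  have hwA := hW w hw
  have hρy := hg.pos y hyA'
  have hρy₀ := hg.pos y₀ hy₀A
  have key : (ρ y)⁻¹ • L.th (y * w) θ - L.th w θ =
      L.th y₀⁻¹ (ρ y₀ • (Φ (y * y₀) ⟨w, hw⟩ - Φ y₀ ⟨w, hw⟩)) := by
    have e1 : ∀ z : A, z ∈ A₁ → L.th y₀⁻¹ (L.th (z * y₀ * w) θ) = L.th (z * w) θ := by
      intro z hz
      rw [← L.th_mul]
      have h2 : z * y₀ * w * y₀⁻¹ = z * (y₀ * w * y₀⁻¹) := by group
      rw [h2, L.th_mul]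
      have h3 : L.th (y₀ * w * y₀⁻¹) (L.th z θ) = L.th w (L.th z θ) := by
        rw [hg.th_comm (A₁.mul_mem hy₀A hwA) (A₁.inv_mem hy₀A)]
        congr 1
        group
      rw [h3, ← L.th_mul]
    have e2 : L.th y₀⁻¹ (L.th (y₀ * w) θ) = L.th w θ := by
      have := e1 1 A₁.one_mem
      rwa [one_mul, one_mul] at this
    simp only [Φ]
    rw [L.th_smul, sub_eq_add_neg ((ρ (y * y₀))⁻¹ • L.th (y * y₀ * w) θ), ← neg_smul, L.th_add,
      L.th_smul, L.th_smul, e1 y hyA', e2,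
      smul_add, smul_smul, smul_smul, hg.mul _ hyA' _ hy₀A]
    have h1 : ρ y₀ * (ρ y * ρ y₀)⁻¹ = (ρ y)⁻¹ := by field_simp
    have h2 : ρ y₀ * -(ρ y₀)⁻¹ = -1 := by field_simp
    rw [h1, h2, neg_smul, one_smul, sub_eq_add_neg]
  rw [key]
  have hmem : ∀ z ∈ A₁, Φ z ⟨w, hw⟩ ∈ Submodule.span ℝ {x | ∃ y ∈ A₁, x = L.th y θ} :=
    fun z hz => Submodule.smul_mem _ _ (Submodule.subset_span ⟨z * w, A₁.mul_mem hz hwA, rfl⟩)
  have h1 := hCu y₀⁻¹ (A₁.inv_mem hy₀A) (ρ y₀ • (Φ (y * y₀) ⟨w, hw⟩ - Φ y₀ ⟨w, hw⟩))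
    (Submodule.smul_mem _ _ (Submodule.sub_mem _ (hmem _ hyA) (hmem _ hy₀A)))
  refine h1.trans ?_
  rw [norm_smul, Real.norm_eq_abs, abs_of_pos hρy₀]
  have h2 : ‖Φ (y * y₀) ⟨w, hw⟩ - Φ y₀ ⟨w, hw⟩‖ ≤ η / C := by
    have h3 : dist (Φ (y * y₀)) (Φ y₀) < η / (2 * C) + η / (2 * C) :=
      lt_of_le_of_lt (dist_triangle_right _ _ x)
        (add_lt_add (Metric.mem_ball.1 hyB) (Metric.mem_ball.1 hy₀.2))
    rw [dist_eq_norm] at h3
    have h4 := norm_le_pi_norm (Φ (y * y₀) - Φ y₀) ⟨w, hw⟩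
    have h5 : η / (2 * C) + η / (2 * C) = η / C := by field_simp; ring
    rw [h5] at h3
    exact h4.trans h3.le
  calc C * ρ y₀⁻¹ * (ρ y₀ * ‖Φ (y * y₀) ⟨w, hw⟩ - Φ y₀ ⟨w, hw⟩‖)
      = C * (ρ y₀⁻¹ * ρ y₀) * ‖Φ (y * y₀) ⟨w, hw⟩ - Φ y₀ ⟨w, hw⟩‖ := by ring
    _ = C * ‖Φ (y * y₀) ⟨w, hw⟩ - Φ y₀ ⟨w, hw⟩‖ := by rw [hg.rho_inv hy₀A, mul_one]
    _ ≤ C * (η / C) := mul_le_mul_of_nonneg_left h2 hC.le
    _ = η := by field_simp

end Pool.Agent.RPC
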