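import Pool.Agent.RPC.KAtom
import Pool.Agent.RPC.Chars

/-!
MODULE RPC/KOme : a real character of A₁ vanishing on the stabiliser of the line ℝθ.
St := {a ∈ A₁ : Par θ_a θ} is a subgroup (th_mul, linearity; θ_a ≠ 0), contains N (th_N), hence [A₁,A₁];
a St ↦ line of θ_{a}: St has infinite index in A₁ by hinf (if [A₁ : St] < n then among g_1..g_n two lie in the same
coset, g_i = s g_j or g_j s; θ_{g_i} = L.th g_j θ_s parallel to θ_{g_j}).  A₁/St is an infinite f.g. abelian group,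
so it has a nonzero homomorphism to ℝ.  (Extend by 0 outside A₁.)
-/

set_option autoImplicit false

namespace Pool.Agent.RPC

variable {A : Type} [Group A] {N N₁ : Subgroup A} {d : ℕ} {L : Lat N N₁ d} {θ : Fin d → ℝ}
  {A₁ : Subgroup A} {ρ : A → ℝ} {c₀ C₀ : ℝ}

private theorem ko_hom (Q : Type) [CommGroup Q] [Group.FG Q] [Infinite Q] :
    ∃ f : Q →* Multiplicative ℤ, ∃ x, f x ≠ 1 := by
  obtain ⟨ι, j, _, _, p, hp, e, ⟨E⟩⟩ := CommGroup.equiv_free_prod_prod_multiplicative_zmod Q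
  rcases isEmpty_or_nonempty j with hj | hj
  · exfalso
    have h1 : ∀ i, NeZero (p i ^ e i) := fun i => ⟨pow_ne_zero _ (hp i).ne_zero⟩
    have h2 : ∀ i, Finite (Multiplicative (ZMod (p i ^ e i))) := fun i =>
      Finite.of_equiv (ZMod (p i ^ e i)) Multiplicative.ofAdd
    have h3 : Finite ((j → Multiplicative ℤ) × ((i : ι) → Multiplicative (ZMod (p i ^ e i)))) :=
      inferInstance
    have h4 : Finite Q := Finite.of_equiv _ E.symm.toEquiv
    exact not_finite Q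
  · obtain ⟨k⟩ := hj
    refine ⟨(Pi.evalMonoidHom (fun _ : j => Multiplicative ℤ) k).comp
      ((MonoidHom.fst _ _).comp E.toMonoidHom),
      E.symm (fun _ => Multiplicative.ofAdd 1, 1), ?_⟩
    simp

/-- the stabiliser of the line of `θ` in `A₁` -/
private def koSt {A : Type} [Group A] {N N₁ : Subgroup A} {d : ℕ} (L : Lat N N₁ d)
    (θ : Fin d → ℝ) (A₁ : Subgroup A) : Subgroup A where
  carrier := {a | a ∈ A₁ ∧ Par (L.th a θ) θ}
  one_mem' := ⟨A₁.one_mem, 1, one_ne_zero, by rw [L.th_one, one_smul]⟩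
  mul_mem' := by
    rintro a b ⟨ha, c, hc, hac⟩ ⟨hb, c', hc', hbc⟩
    refine ⟨A₁.mul_mem ha hb, c * c', mul_ne_zero hc hc', ?_⟩
    rw [L.th_mul, hac, L.th_smul, hbc, smul_smul]
  inv_mem' := by
    rintro a ⟨ha, c, hc, hac⟩
    refine ⟨A₁.inv_mem ha, c⁻¹, inv_ne_zero hc, ?_⟩
    have h : c • L.th a⁻¹ θ = θ := by
      rw [← L.th_smul, ← hac, ← L.th_mul, mul_inv_cancel, L.th_one]
    calc L.th a⁻¹ θ = c⁻¹ • (c • L.th a⁻¹ θ) := (inv_smul_smul₀ hc _).symm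
      _ = c⁻¹ • θ := by rw [h]

private theorem mem_koSt {a : A} : a ∈ koSt L θ A₁ ↔ a ∈ A₁ ∧ Par (L.th a θ) θ := Iff.rfl

private theorem ko_index (hg : Gro L θ A₁ ρ c₀ C₀)
    (hinf : ∀ n : ℕ, ∃ g : Fin n → A, (∀ i, g i ∈ A₁) ∧
      ∀ i j, i ≠ j → ¬ Par (L.th (g i) θ) (L.th (g j) θ)) :
    ((koSt L θ A₁).subgroupOf A₁).index = 0 := by
  by_contra hne
  have hfi : ((koSt L θ A₁).subgroupOf A₁).FiniteIndex := ⟨hne⟩
  have hfin : Finite (↥A₁ ⧸ (koSt L θ A₁).subgroupOf A₁) := inferInstance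
  obtain ⟨g, hgA, hgp⟩ := hinf (Nat.card (↥A₁ ⧸ (koSt L θ A₁).subgroupOf A₁) + 1)
  have hni : ¬ Function.Injective (fun i => ((⟨g i, hgA i⟩ : A₁) :
      ↥A₁ ⧸ (koSt L θ A₁).subgroupOf A₁)) := by
    intro hinj
    have := Nat.card_le_card_of_injective _ hinj
    rw [Nat.card_eq_fintype_card, Fintype.card_fin] at this
    omega
  rw [Function.Injective] at hni
  push Not at hni
  obtain ⟨i, j, hij, hne'⟩ := hni
  rw [QuotientGroup.eq, Subgroup.mem_subgroupOf] at hij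
  obtain ⟨hs, c, hc, hsc⟩ := hij
  have hs' : (((⟨g i, hgA i⟩ : A₁)⁻¹ * (⟨g j, hgA j⟩ : A₁) : A₁) : A) = (g i)⁻¹ * g j := rfl
  rw [hs'] at hs hsc
  refine hgp j i (Ne.symm hne') ⟨c, hc, ?_⟩
  have h1 : L.th (g j) θ = L.th (g i * ((g i)⁻¹ * g j)) θ := by
    rw [mul_inv_cancel_left]
  rw [h1, hg.th_comm (hgA i) hs, L.th_mul, hsc, L.th_smul]

theorem exists_omega (hA : PC A) (hg : Gro L θ A₁ ρ c₀ C₀)
    (hinf : ∀ n : ℕ, ∃ g : Fin n → A, (∀ i, g i ∈ A₁) ∧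
      ∀ i j, i ≠ j → ¬ Par (L.th (g i) θ) (L.th (g j) θ)) :
    ∃ ω : A → ℝ, Addi A₁ ω ∧ (∀ a ∈ A₁, Par (L.th a θ) θ → ω a = 0) ∧
      ∃ l₀ ∈ A₁, 0 < ω l₀ := by
  classical
  obtain ⟨S, hS⟩ : ∃ S, S = (koSt L θ A₁).subgroupOf A₁ := ⟨_, rfl⟩
  have hidx : S.index = 0 := by
    rw [hS]
    exact ko_index hg hinf
  have hNS : N ≤ koSt L θ A₁ := by
    intro n hn
    exact ⟨hg.le hn, 1, one_ne_zero, by rw [L.th_N hg.norm hn, one_smul]⟩
  have hcomm : commutator ↥A₁ ≤ S := by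
    rw [commutator_def, Subgroup.commutator_le]
    intro a _ b _
    rw [hS, Subgroup.mem_subgroupOf]
    apply hNS
    apply hg.comm
    exact Subgroup.commutator_mem_commutator a.2 b.2
  obtain ⟨of, hof⟩ : ∃ of : A₁ →* Abelianization A₁, of = Abelianization.of := ⟨_, rfl⟩
  have hofs : Function.Surjective of := by
    rw [hof]
    exact QuotientGroup.mk_surjective
  have hker : of.ker ≤ S := by
    rw [hof, Abelianization.ker_of]
    exact hcomm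
  obtain ⟨T, hT⟩ : ∃ T, T = S.map of := ⟨_, rfl⟩
  have hTi : T.index = 0 := by
    rw [← Subgroup.index_comap_of_surjective T hofs, hT, Subgroup.comap_map_eq_self hker]
    exact hidx
  have hinfQ : Infinite (Abelianization A₁ ⧸ T) := Subgroup.index_eq_zero_iff_infinite.1 hTi
  have hfgA : Group.FG A₁ := (Group.fg_iff_subgroup_fg A₁).2 (hA.2 A₁)
  obtain ⟨f, hf⟩ : ∃ f : A₁ →* (Abelianization A₁ ⧸ T), f = (QuotientGroup.mk' T).comp of :=
    ⟨_, rfl⟩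
  have hfs : Function.Surjective f := by
    rw [hf, MonoidHom.coe_comp]
    exact (QuotientGroup.mk'_surjective T).comp hofs
  have hfgQ : Group.FG (Abelianization A₁ ⧸ T) := Group.fg_of_surjective hfs
  obtain ⟨h, x, hx⟩ := ko_hom (Abelianization A₁ ⧸ T)
  obtain ⟨y, rfl⟩ := hfs x
  obtain ⟨χ, hχ⟩ : ∃ χ : A₁ → ℝ, χ = fun a => ((Multiplicative.toAdd (h (f a)) : ℤ) : ℝ) :=
    ⟨_, rfl⟩
  have hχm : ∀ a b : A₁, χ (a * b) = χ a + χ b := by
    intro a b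
    rw [hχ]
    simp only [map_mul, toAdd_mul, Int.cast_add]
  have hχ1 : ∀ a : A₁, f a = 1 → χ a = 0 := by
    intro a ha
    rw [hχ]
    simp only
    rw [ha, map_one, toAdd_one, Int.cast_zero]
  have hχy : χ y ≠ 0 := by
    rw [hχ]
    intro h0
    apply hx
    simp only at h0
    have h1 : Multiplicative.toAdd (h (f y)) = 0 := by exact_mod_cast h0
    exact h1
  obtain ⟨ω, hω⟩ : ∃ ω : A → ℝ, ω = fun a => if ha : a ∈ A₁ then χ ⟨a, ha⟩ else 0 := ⟨_, rfl⟩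
  have hωA : ∀ a (ha : a ∈ A₁), ω a = χ ⟨a, ha⟩ := by
    intro a ha
    rw [hω]
    simp only
    rw [dif_pos ha]
  have hadd : Addi A₁ ω := by
    intro n hn m hm
    rw [hωA n hn, hωA m hm, hωA _ (A₁.mul_mem hn hm), ← hχm]
    rfl
  refine ⟨ω, hadd, ?_, ?_⟩
  · intro a ha hp
    rw [hωA a ha]
    apply hχ1
    rw [hf, MonoidHom.comp_apply, QuotientGroup.mk'_apply, QuotientGroup.eq_one_iff, hT]
    apply Subgroup.mem_map_of_mem
    rw [hS, Subgroup.mem_subgroupOf]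
    exact ⟨ha, hp⟩
  · have hy : ω (y : A) = χ y := hωA y y.2
    rcases lt_or_gt_of_ne hχy with hneg | hpos
    · refine ⟨(y : A)⁻¹, A₁.inv_mem y.2, ?_⟩
      have h1 := hadd (y : A) y.2 (y : A)⁻¹ (A₁.inv_mem y.2)
      have h2 := hadd 1 A₁.one_mem 1 A₁.one_mem
      rw [mul_inv_cancel] at h1
      rw [mul_one] at h2
      linarith
    · exact ⟨y, y.2, by rw [hy]; exact hpos⟩

/-- parallel `θ_a`, `θ_b` have the same `ω` -/
theorem omega_par {ω : A → ℝ} (hg : Gro L θ A₁ ρ c₀ C₀) (hω : Addi A₁ ω)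
    (h0 : ∀ a ∈ A₁, Par (L.th a θ) θ → ω a = 0) {a b : A} (ha : a ∈ A₁) (hb : b ∈ A₁)
    (hp : Par (L.th a θ) (L.th b θ)) : ω a = ω b := by
  obtain ⟨c, hc, hac⟩ := hp
  have hs : b⁻¹ * a ∈ A₁ := A₁.mul_mem (A₁.inv_mem hb) ha
  have hab : a = b * (b⁻¹ * a) := (mul_inv_cancel_left b a).symm
  have h1 : L.th b (L.th (b⁻¹ * a) θ) = L.th b (c • θ) := by
    rw [← L.th_mul, ← hg.th_comm hb hs, ← hab, hac, L.th_smul]
  have hinj : ∀ v : Fin d → ℝ, L.th b⁻¹ (L.th b v) = v := by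
    intro v
    rw [← L.th_mul, mul_inv_cancel, L.th_one]
  have h2 : L.th (b⁻¹ * a) θ = c • θ := by
    rw [← hinj (L.th (b⁻¹ * a) θ), h1, hinj]
  have h3 := h0 _ hs ⟨c, hc, h2⟩
  have h4 := hω b hb _ hs
  rw [← hab, h3, add_zero] at h4
  exact h4

end Pool.Agent.RPC
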