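import Pool.Agent.RPC.KGen
import Pool.Agent.RPC.KOme
import Pool.Agent.RPC.ISop

/-!
MODULE RPC/KFin : functions X violating ∫ X⁴ ≤ κ (∫ X²)².
For e, u ∈ ℝ^d let Δ(z) := |θ_z·(e+u)| + |θ_z·(e-u)| - 2|θ_z·e| = 2 max(0, |θ_z·u| - |θ_z·e|) ≥ 0, and
X(y) := (ρ y)⁻¹ SR l (Rpol L l) Δ y = (ρ y)⁻¹ ∑_i coeff_i ∑_{w : Fin i → Fin k} Δ(y w)   (SR_words).
ω, l₀ from exists_omega, l a class containing l₀ = l_{j₀}.  M := max_j ω(l_j) > 0; r := d + 1 = degree of the monic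
Rpol.  Words w of length i ≤ r have ω(w) ≤ i M, equality ω(w) = r M iff i = r and all letters have ω = M (`top
words`); w₀ := a top word.  A word w with θ_w parallel to θ_{w₀} has ω(w) = ω(w₀) = r M (omega_par), so it
is a top word and has coefficient 1.
W := all words of length ≤ r (finite set of elements of A₁), nW their number.  Given κ choose ε with
κ' nW ε < 1 where κ' = max κ 1, and e from generic_e (w₀, W, ε), η.
Choose u ≠ 0 small, θ_{w₀}·u ≠ 0, with |θ_w·u| < |θ_w·e| for w ∈ W not parallel to w₀ and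
d C₀ ‖u‖ ≤ η (times constants; rdot_bound), i.e. |θ_z·u| ≤ η ρ(z) for z ∈ A₁.
Then X(1) = ∑_{w parallel to w₀} 2|θ_w·u| > 0 (ρ 1 = 1; Δ(w) = 0 for the others).
X is continuous in the vectors ρ(y)⁻¹θ_{yw}: so by `ret` X(y) ≥ X(1)/2 on a subset of A₁ of positive measure,
S₂ := ∫_{A₁} X² > 0 (on_lower).
If X(y) ≠ 0 then Δ(y w) ≠ 0 for some w ∈ W: |θ_{yw}·e| < |θ_{yw}·u| ≤ η ρ(y w), so y w ∈ the set of measure ≤ ε:
mu{X ≠ 0} ≤ nW ε.  on_cauchy: S₂² ≤ S₄ nW ε, S₄ > 0; κ S₂² ≤ κ' nW ε S₄ < S₄.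
-/

set_option autoImplicit false

namespace Pool.Agent.RPC

variable {A : Type} [Group A] {N N₁ : Subgroup A} {d : ℕ} {L : Lat N N₁ d} {θ : Fin d → ℝ}
  {A₁ : Subgroup A} {ρ : A → ℝ} {c₀ C₀ : ℝ}

theorem SR_bdd (hg : Gro L θ A₁ ρ c₀ C₀) {k : ℕ} (l : Fin k → A) (hl : ∀ j, l j ∈ A₁)
    (R : Polynomial ℝ) (G : A → ℝ) (B : ℝ) (hG : ∀ y ∈ A₁, |G y| ≤ B * ρ y) :
    ∃ B', ∀ y ∈ A₁, |(ρ y)⁻¹ * SR l R G y| ≤ B' := by
  refine ⟨∑ i ∈ Finset.range (R.natDegree + 1), |R.coeff i| *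
      ∑ w : Fin i → Fin k, B * ρ (wprod l w), ?_⟩
  intro y hy
  rw [SR_words, abs_mul, abs_of_pos (inv_pos.mpr (hg.pos y hy))]
  have h1 : |∑ i ∈ Finset.range (R.natDegree + 1), R.coeff i *
      ∑ w : Fin i → Fin k, G (y * wprod l w)| ≤
      ∑ i ∈ Finset.range (R.natDegree + 1), |R.coeff i| *
      ∑ w : Fin i → Fin k, B * (ρ y * ρ (wprod l w)) := by
    refine (Finset.abs_sum_le_sum_abs _ _).trans (Finset.sum_le_sum fun i _ => ?_)
    rw [abs_mul]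
    refine mul_le_mul_of_nonneg_left ?_ (abs_nonneg _)
    refine (Finset.abs_sum_le_sum_abs _ _).trans (Finset.sum_le_sum fun w _ => ?_)
    have hw : wprod l w ∈ A₁ := wprod_mem hl w
    have := hG (y * wprod l w) (A₁.mul_mem hy hw)
    rwa [hg.mul y hy _ hw] at this
  have hρ := hg.pos y hy
  calc (ρ y)⁻¹ * |∑ i ∈ Finset.range (R.natDegree + 1), R.coeff i *
      ∑ w : Fin i → Fin k, G (y * wprod l w)|
      ≤ (ρ y)⁻¹ * ∑ i ∈ Finset.range (R.natDegree + 1), |R.coeff i| *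
      ∑ w : Fin i → Fin k, B * (ρ y * ρ (wprod l w)) :=
        mul_le_mul_of_nonneg_left h1 (inv_pos.mpr hρ).le
    _ = ∑ i ∈ Finset.range (R.natDegree + 1), |R.coeff i| *
      ∑ w : Fin i → Fin k, B * ρ (wprod l w) := by
        rw [Finset.mul_sum]
        refine Finset.sum_congr rfl fun i _ => ?_
        rw [mul_left_comm, Finset.mul_sum]
        congr 1
        refine Finset.sum_congr rfl fun w _ => ?_
        field_simp

/-! ### rdot and the kink function -/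

theorem kf_rdot_add {d : ℕ} (v e u : Fin d → ℝ) : rdot v (e + u) = rdot v e + rdot v u := by
  simp [rdot, mul_add, Finset.sum_add_distrib]

theorem kf_rdot_sub {d : ℕ} (v e u : Fin d → ℝ) : rdot v (e - u) = rdot v e - rdot v u := by
  simp [rdot, mul_sub, Finset.sum_sub_distrib]

theorem kf_rdot_sub_left {d : ℕ} (v v' e : Fin d → ℝ) :
    rdot (v - v') e = rdot v e - rdot v' e := by
  simp [rdot, sub_mul, Finset.sum_sub_distrib]

theorem kf_rdot_smul_left {d : ℕ} (c : ℝ) (v e : Fin d → ℝ) :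
    rdot (c • v) e = c * rdot v e := by
  simp [rdot, Finset.mul_sum, mul_assoc]

theorem kf_rdot_smul_right {d : ℕ} (c : ℝ) (v e : Fin d → ℝ) :
    rdot v (c • e) = c * rdot v e := by
  simp only [rdot, Finset.mul_sum, Pi.smul_apply, smul_eq_mul]
  refine Finset.sum_congr rfl fun i _ => ?_
  ring

theorem kf_rdot_self_pos {d : ℕ} {v : Fin d → ℝ} (h : v ≠ 0) : 0 < rdot v v := by
  obtain ⟨i, hi⟩ := Function.ne_iff.mp h
  refine Finset.sum_pos' (fun j _ => mul_self_nonneg _) ⟨i, Finset.mem_univ _, ?_⟩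
  exact mul_self_pos.mpr hi

theorem kf_rdot_bound {d : ℕ} (x e : Fin d → ℝ) : |rdot x e| ≤ d * ‖e‖ * ‖x‖ := by
  unfold rdot
  calc |∑ i, x i * e i| ≤ ∑ i, |x i * e i| := Finset.abs_sum_le_sum_abs _ _
    _ ≤ ∑ _i : Fin d, ‖x‖ * ‖e‖ := by
        apply Finset.sum_le_sum
        intro i _
        rw [abs_mul]
        have h1 : |x i| ≤ ‖x‖ := norm_le_pi_norm x i
        have h2 : |e i| ≤ ‖e‖ := norm_le_pi_norm e i
        exact mul_le_mul h1 h2 (abs_nonneg _) (norm_nonneg _)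
    _ = d * ‖e‖ * ‖x‖ := by
        simp
        ring

/-- the kink function -/
def kfPhi {d : ℕ} (e u v : Fin d → ℝ) : ℝ :=
  |rdot v (e + u)| + |rdot v (e - u)| - 2 * |rdot v e|

theorem kfPhi_eq {d : ℕ} (e u v : Fin d → ℝ) :
    kfPhi e u v = 2 * max 0 (|rdot v u| - |rdot v e|) := by
  unfold kfPhi
  rw [kf_rdot_add, kf_rdot_sub]
  generalize rdot v e = a
  generalize rdot v u = b
  rcases le_total 0 (|b| - |a|) with h | h
  · rw [max_eq_right h]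
    rcases abs_cases a with ha | ha <;> rcases abs_cases b with hb | hb <;>
    rcases abs_cases (a + b) with h1 | h1 <;> rcases abs_cases (a - b) with h2 | h2 <;>
    linarith
  · rw [max_eq_left h]
    rcases abs_cases a with ha | ha <;> rcases abs_cases b with hb | hb <;>
    rcases abs_cases (a + b) with h1 | h1 <;> rcases abs_cases (a - b) with h2 | h2 <;>
    linarith

theorem kfPhi_nonneg {d : ℕ} (e u v : Fin d → ℝ) : 0 ≤ kfPhi e u v := by
  rw [kfPhi_eq]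
  exact mul_nonneg (by norm_num) (le_max_left _ _)

theorem kfPhi_zero {d : ℕ} {e u v : Fin d → ℝ} (h : |rdot v u| ≤ |rdot v e|) :
    kfPhi e u v = 0 := by
  rw [kfPhi_eq, max_eq_left (by linarith)]
  ring

theorem kfPhi_smul {d : ℕ} (e u v : Fin d → ℝ) {c : ℝ} (hc : 0 ≤ c) :
    kfPhi e u (c • v) = c * kfPhi e u v := by
  unfold kfPhi
  simp only [kf_rdot_smul_left, abs_mul, abs_of_nonneg hc]
  ring

theorem kfPhi_lip {d : ℕ} (e u v v' : Fin d → ℝ) :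
    |kfPhi e u v - kfPhi e u v'| ≤
      (d * ‖e + u‖ + d * ‖e - u‖ + 2 * (d * ‖e‖)) * ‖v - v'‖ := by
  have key : ∀ f : Fin d → ℝ, |(|rdot v f| - |rdot v' f|)| ≤ d * ‖f‖ * ‖v - v'‖ := by
    intro f
    refine (abs_abs_sub_abs_le _ _).trans ?_
    rw [← kf_rdot_sub_left]
    exact kf_rdot_bound _ _
  have h1 := key (e + u)
  have h2 := key (e - u)
  have h3 := key e
  unfold kfPhi
  rw [abs_le] at h1 h2 h3 ⊢
  constructor <;> nlinarith [h1.1, h1.2, h2.1, h2.2, h3.1, h3.2]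

theorem kfPhi_bound {d : ℕ} (e u v : Fin d → ℝ) :
    |kfPhi e u v| ≤ (d * ‖e + u‖ + d * ‖e - u‖ + 2 * (d * ‖e‖)) * ‖v‖ := by
  have h := kfPhi_lip e u v 0
  have h0 : kfPhi e u (0 : Fin d → ℝ) = 0 := by
    simp [kfPhi, rdot]
  rwa [h0, sub_zero, sub_zero] at h

/-! ### words -/

theorem kf_rho_one (hg : Gro L θ A₁ ρ c₀ C₀) : ρ 1 = 1 := by
  have h := hg.mul 1 A₁.one_mem 1 A₁.one_mem
  rw [mul_one] at h
  have hp := hg.pos 1 A₁.one_mem
  exact mul_right_cancel₀ hp.ne' (by rw [one_mul]; exact h.symm)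

theorem kf_omega_one {ω : A → ℝ} (hω : Addi A₁ ω) : ω 1 = 0 := by
  have h := hω 1 A₁.one_mem 1 A₁.one_mem
  rw [mul_one] at h
  linarith

theorem kf_omega_list {ω : A → ℝ} (hω : Addi A₁ ω) (xs : List A) (h : ∀ x ∈ xs, x ∈ A₁) :
    ω xs.prod = (xs.map ω).sum := by
  induction xs with
  | nil => simp [kf_omega_one hω]
  | cons a t ih =>
    rw [List.prod_cons, List.map_cons, List.sum_cons,
      hω a (h a List.mem_cons_self) _
        (A₁.list_prod_mem fun x hx => h x (List.mem_cons_of_mem _ hx)),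
      ih fun x hx => h x (List.mem_cons_of_mem _ hx)]

theorem kf_omega_word {ω : A → ℝ} (hω : Addi A₁ ω) {k i : ℕ} (l : Fin k → A)
    (hl : ∀ j, l j ∈ A₁) (w : Fin i → Fin k) : ω (wprod l w) = ∑ j, ω (l (w j)) := by
  unfold wprod
  rw [kf_omega_list hω, List.map_ofFn, List.sum_ofFn]
  · rfl
  · intro x hx
    rw [List.mem_ofFn] at hx
    obtain ⟨j, rfl⟩ := hx
    exact hl _

/-- the word sum of a polynomial -/
noncomputable def kfSum {k : ℕ} (l : Fin k → A) (R : Polynomial ℝ) (Ψ : A → ℝ) : ℝ :=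
  ∑ i ∈ Finset.range (R.natDegree + 1), R.coeff i * ∑ w : Fin i → Fin k, Ψ (wprod l w)

theorem kfSum_close {k : ℕ} (l : Fin k → A) (R : Polynomial ℝ) (Ψ Ψ' : A → ℝ) (ε : ℝ)
    (h : ∀ i ≤ R.natDegree, ∀ w : Fin i → Fin k, |Ψ (wprod l w) - Ψ' (wprod l w)| ≤ ε) :
    |kfSum l R Ψ - kfSum l R Ψ'| ≤
      (∑ i ∈ Finset.range (R.natDegree + 1), |R.coeff i| * (k : ℝ) ^ i) * ε := by
  unfold kfSum
  rw [← Finset.sum_sub_distrib, Finset.sum_mul]
  refine (Finset.abs_sum_le_sum_abs _ _).trans (Finset.sum_le_sum fun i hi => ?_)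
  rw [← mul_sub, abs_mul, mul_assoc]
  refine mul_le_mul_of_nonneg_left ?_ (abs_nonneg _)
  rw [← Finset.sum_sub_distrib]
  refine (Finset.abs_sum_le_sum_abs _ _).trans ?_
  have hi' : i ≤ R.natDegree := by
    have := Finset.mem_range.mp hi
    omega
  refine (Finset.sum_le_sum fun w _ => h i hi' w).trans (le_of_eq ?_)
  simp

theorem kf_small_t (W : Finset A) (p : A → Prop) (a b : A → ℝ)
    (h : ∀ w ∈ W, p w → 0 < b w) (c η : ℝ) (hη : 0 < η) :
    ∃ t : ℝ, 0 < t ∧ (∀ w ∈ W, p w → t * a w < b w) ∧ t * c < η := by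
  have ht : ∀ x y : ℝ, 0 < y → ∀ᶠ t in nhdsWithin (0 : ℝ) (Set.Ioi 0), t * x < y := by
    intro x y hy
    have h0 : Filter.Tendsto (fun t : ℝ => t * x) (nhdsWithin 0 (Set.Ioi 0)) (nhds 0) := by
      have h1 : Filter.Tendsto (fun t : ℝ => t * x) (nhds 0) (nhds (0 * x)) :=
        (continuous_mul_const x).tendsto 0
      rw [zero_mul] at h1
      exact h1.mono_left nhdsWithin_le_nhds
    exact h0.eventually (gt_mem_nhds hy)
  have h1 : ∀ᶠ t in nhdsWithin (0 : ℝ) (Set.Ioi 0), ∀ w ∈ W, p w → t * a w < b w := by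
    rw [Filter.eventually_all_finset]
    intro w hw
    by_cases hp : p w
    · filter_upwards [ht (a w) (b w) (h w hw hp)] with t h _ using h
    · exact Filter.Eventually.of_forall fun t h' => absurd h' hp
  obtain ⟨t, ⟨h2, h3⟩, h4⟩ := ((h1.and (ht c η hη)).and self_mem_nhdsWithin).exists
  exact ⟨t, h4, h2, h3⟩

theorem kf_X_words (hg : Gro L θ A₁ ρ c₀ C₀) {k : ℕ} (l : Fin k → A) (R : Polynomial ℝ)
    (e u : Fin d → ℝ) {y : A} (hy : y ∈ A₁) :
    (ρ y)⁻¹ * SR l R (fun z => kfPhi e u (L.th z θ)) y =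
      kfSum l R (fun w => kfPhi e u ((ρ y)⁻¹ • L.th (y * w) θ)) := by
  have hρ : 0 ≤ (ρ y)⁻¹ := (inv_pos.mpr (hg.pos y hy)).le
  rw [SR_words]
  unfold kfSum
  rw [Finset.mul_sum]
  refine Finset.sum_congr rfl fun i _ => ?_
  rw [mul_left_comm, Finset.mul_sum]
  congr 1
  refine Finset.sum_congr rfl fun w _ => ?_
  exact (kfPhi_smul _ _ _ hρ).symm

theorem kf_indicator_bdd {S : Set A} {f : A → ℝ} {B : ℝ} (h : ∀ y ∈ S, |f y| ≤ B) :
    Bdd (fun y => S.indicator f y) := by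
  refine ⟨max B 0, fun x => ?_⟩
  by_cases hx : x ∈ S
  · simp only [Set.indicator_of_mem hx]
    exact (h x hx).trans (le_max_left _ _)
  · simp [Set.indicator_of_notMem hx]

/-- the finite part of the argument: all choices for fixed `κ` -/
theorem kf_main (μ : RMean A) (hg : Gro L θ A₁ ρ c₀ C₀) {k : ℕ} (l : Fin k → A)
    (hl : ∀ j, l j ∈ A₁) (g0 : A) (hg0 : g0 ∈ A₁) (w0 : Fin (d + 1) → Fin k)
    (hw0 : wprod l w0 = g0)
    (hpar : ∀ i ≤ d + 1, ∀ w : Fin i → Fin k, Par (L.th (wprod l w) θ) (L.th g0 θ) → i = d + 1)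
    (W : Finset A) (hW : ∀ w ∈ W, w ∈ A₁)
    (hWw : ∀ i ≤ d + 1, ∀ w : Fin i → Fin k, wprod l w ∈ W)
    (κ ε : ℝ) (hκ : 1 ≤ κ) (hε : κ * (W.card * ε) < 1)
    (e : Fin d → ℝ) (he0 : rdot (L.th g0 θ) e = 0)
    (he : ∀ w ∈ W, ¬ Par (L.th w θ) (L.th g0 θ) → rdot (L.th w θ) e ≠ 0)
    (η : ℝ) (hη : 0 < η)
    (hmu : μ.mu {y | y ∈ A₁ ∧ |rdot (L.th y θ) e| ≤ η * ρ y} ≤ ε) :
    ∃ u : Fin d → ℝ,
      κ * (μ.on A₁ (fun y => ((ρ y)⁻¹ * SR l (Rpol L l) (fun z =>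
          kfPhi e u (L.th z θ)) y) ^ 2)) ^ 2 <
        μ.on A₁ (fun y => ((ρ y)⁻¹ * SR l (Rpol L l) (fun z =>
          kfPhi e u (L.th z θ)) y) ^ 4) := by
  classical
  have hdeg : (Rpol L l).natDegree = d + 1 := Rpol_natDegree L l
  have hmon : (Rpol L l).coeff (d + 1) = 1 := by
    have h := Rpol_monic L l
    rwa [Polynomial.Monic, Polynomial.leadingCoeff, hdeg] at h
  have hv0 : L.th g0 θ ≠ 0 := L.th_ne g0 hg.th0
  -- choice of the vector u
  obtain ⟨t, ht, htW, htη⟩ := kf_small_t W (fun w => ¬ Par (L.th w θ) (L.th g0 θ))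
    (fun w => |rdot (L.th w θ) (L.th g0 θ)|) (fun w => |rdot (L.th w θ) e|)
    (fun w hw hp => abs_pos.mpr (he w hw hp)) (d * ‖L.th g0 θ‖ * C₀) η hη
  set u : Fin d → ℝ := t • L.th g0 θ with hu
  refine ⟨u, ?_⟩
  have hu1 : ∀ w ∈ W, ¬ Par (L.th w θ) (L.th g0 θ) →
      |rdot (L.th w θ) u| < |rdot (L.th w θ) e| := by
    intro w hw hp
    rw [hu, kf_rdot_smul_right, abs_mul, abs_of_pos ht]
    exact htW w hw hp
  have hu2 : ∀ z ∈ A₁, |rdot (L.th z θ) u| ≤ η * ρ z := by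
    intro z hz
    have h1 := kf_rdot_bound (L.th z θ) u
    have h2 := hg.up z hz
    have h3 : ‖u‖ = t * ‖L.th g0 θ‖ := by
      rw [hu, norm_smul, Real.norm_eq_abs, abs_of_pos ht]
    have h4 : 0 ≤ (d : ℝ) * ‖u‖ := mul_nonneg (Nat.cast_nonneg _) (norm_nonneg _)
    calc |rdot (L.th z θ) u| ≤ d * ‖u‖ * ‖L.th z θ‖ := h1
      _ ≤ d * ‖u‖ * (C₀ * ρ z) := mul_le_mul_of_nonneg_left h2 h4
      _ = (t * (d * ‖L.th g0 θ‖ * C₀)) * ρ z := by
          rw [h3]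
          ring
      _ ≤ η * ρ z := mul_le_mul_of_nonneg_right htη.le (hg.pos z hz).le
  -- abbreviations
  set X : A → ℝ := fun y => (ρ y)⁻¹ * SR l (Rpol L l) (fun z => kfPhi e u (L.th z θ)) y with hX
  have hXw : ∀ y ∈ A₁, X y = kfSum l (Rpol L l)
      (fun w => kfPhi e u ((ρ y)⁻¹ • L.th (y * w) θ)) := fun y hy => kf_X_words hg l _ e u hy
  set X1 : ℝ := kfSum l (Rpol L l) (fun w => kfPhi e u (L.th w θ)) with hX1
  have hwz : ∀ i ≤ d, ∀ w : Fin i → Fin k, kfPhi e u (L.th (wprod l w) θ) = 0 := by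
    intro i hi w
    apply kfPhi_zero
    refine (hu1 _ (hWw i (by omega) w) fun hp => ?_).le
    have := hpar i (by omega) w hp
    omega
  have hX1pos : 0 < X1 := by
    have h1 : kfPhi e u (L.th g0 θ) ≤ X1 := by
      rw [hX1]
      unfold kfSum
      rw [hdeg, Finset.sum_range_succ, Finset.sum_eq_zero, zero_add, hmon, one_mul, ← hw0]
      · exact Finset.single_le_sum
          (f := fun w : Fin (d + 1) → Fin k => kfPhi e u (L.th (wprod l w) θ))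
          (fun w _ => kfPhi_nonneg _ _ _) (Finset.mem_univ w0)
      · intro i hi
        rw [Finset.sum_eq_zero, mul_zero]
        intro w _
        exact hwz i (by have := Finset.mem_range.mp hi; omega) w
    refine lt_of_lt_of_le ?_ h1
    rw [kfPhi_eq, he0, abs_zero, sub_zero, hu, kf_rdot_smul_right]
    have h2 := kf_rdot_self_pos hv0
    have h3 : 0 < |t * rdot (L.th g0 θ) (L.th g0 θ)| := abs_pos.mpr (mul_pos ht h2).ne'
    have h4 := le_max_right (0 : ℝ) |t * rdot (L.th g0 θ) (L.th g0 θ)|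
    linarith
  -- boundedness
  set CΦ : ℝ := d * ‖e + u‖ + d * ‖e - u‖ + 2 * (d * ‖e‖) with hCΦ
  have hCΦ0 : 0 ≤ CΦ := by positivity
  obtain ⟨B, hB⟩ := SR_bdd hg l hl (Rpol L l) (fun z => kfPhi e u (L.th z θ)) (CΦ * C₀)
    (fun y hy => by
      have h1 := kfPhi_bound e u (L.th y θ)
      calc |kfPhi e u (L.th y θ)| ≤ CΦ * ‖L.th y θ‖ := h1
        _ ≤ CΦ * (C₀ * ρ y) := mul_le_mul_of_nonneg_left (hg.up y hy) hCΦ0
        _ = CΦ * C₀ * ρ y := by ring)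
  have hBX : ∀ y ∈ (A₁ : Set A), |X y| ≤ B := hB
  have hbX : Bdd (fun y => (A₁ : Set A).indicator X y) := kf_indicator_bdd hBX
  have hbX2 : Bdd (fun y => (A₁ : Set A).indicator (fun y => X y ^ 2) y) :=
    kf_indicator_bdd (B := B ^ 2) fun y hy => by
      rw [abs_pow]
      exact pow_le_pow_left₀ (abs_nonneg _) (hBX y hy) 2
  -- X is large on a set of positive measure
  set K : ℝ := ∑ i ∈ Finset.range ((Rpol L l).natDegree + 1),
    |(Rpol L l).coeff i| * (k : ℝ) ^ i with hK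
  have hK0 : 0 ≤ K := Finset.sum_nonneg fun i _ => by positivity
  set η₂ : ℝ := X1 / 2 / (K * CΦ + 1) with hη₂
  have hden : 0 < K * CΦ + 1 := by positivity
  have hη₂pos : 0 < η₂ := by positivity
  have hret := ret μ hg W hW hη₂pos
  have hlow : ∀ y, (y ∈ A₁ ∧ ∀ w ∈ W, ‖(ρ y)⁻¹ • L.th (y * w) θ - L.th w θ‖ ≤ η₂) →
      X1 / 2 ≤ X y := by
    rintro y ⟨hy, hyW⟩
    have h1 : |X y - X1| ≤ K * (CΦ * η₂) := by
      rw [hXw y hy, hX1]
      refine kfSum_close l (Rpol L l) _ _ _ fun i hi w => ?_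
      rw [hdeg] at hi
      exact (kfPhi_lip e u _ _).trans
        (mul_le_mul_of_nonneg_left (hyW _ (hWw i hi w)) hCΦ0)
    have h2 : K * (CΦ * η₂) ≤ X1 / 2 := by
      have h3 : (K * CΦ + 1) * η₂ = X1 / 2 := by
        rw [hη₂]
        field_simp
      nlinarith
    have h3 := (abs_le.mp h1).1
    linarith
  have hS2 : 0 < μ.on A₁ (fun y => X y ^ 2) := by
    have h1 := on_lower μ (A₁ : Set A) (fun y => X y ^ 2) hbX2
      (fun y _ => sq_nonneg _) ((X1 / 2) ^ 2) (sq_nonneg _)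
    have h2 : μ.mu {y | y ∈ A₁ ∧ ∀ w ∈ W, ‖(ρ y)⁻¹ • L.th (y * w) θ - L.th w θ‖ ≤ η₂} ≤
        μ.mu {y | y ∈ (A₁ : Set A) ∧ (X1 / 2) ^ 2 ≤ X y ^ 2} := by
      refine mu_mono μ fun y hy => ⟨hy.1, ?_⟩
      exact pow_le_pow_left₀ (by positivity) (hlow y hy) 2
    have h3 : 0 < (X1 / 2) ^ 2 * μ.mu {y | y ∈ (A₁ : Set A) ∧ (X1 / 2) ^ 2 ≤ X y ^ 2} :=
      mul_pos (by positivity) (lt_of_lt_of_le hret h2)
    exact lt_of_lt_of_le h3 h1
  -- the support of X is small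
  have hsupp : μ.mu {y | y ∈ (A₁ : Set A) ∧ X y ≠ 0} ≤ W.card * ε := by
    have h1 : {y | y ∈ (A₁ : Set A) ∧ X y ≠ 0} ⊆
        {y | ∃ w ∈ W, y ∈ {x | x * w ∈ {y | y ∈ A₁ ∧ |rdot (L.th y θ) e| ≤ η * ρ y}}} := by
      rintro y ⟨hy, hne⟩
      by_contra hcon
      apply hne
      rw [hXw y hy]
      unfold kfSum
      refine Finset.sum_eq_zero fun i hi => ?_
      rw [Finset.sum_eq_zero, mul_zero]
      intro w _
      have hi' : i ≤ d + 1 := by
        have := Finset.mem_range.mp hi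
        omega
      beta_reduce
      rw [kfPhi_smul _ _ _ (inv_pos.mpr (hg.pos y hy)).le, kfPhi_zero, mul_zero]
      by_contra hlt
      rw [not_le] at hlt
      have hm : y * wprod l w ∈ A₁ := A₁.mul_mem hy (hW _ (hWw i hi' w))
      exact hcon ⟨wprod l w, hWw i hi' w, hm, hlt.le.trans (hu2 _ hm)⟩
    refine (mu_mono μ h1).trans ?_
    refine (mu_biUnion μ W (fun w => {x | x * w ∈ {y | y ∈ A₁ ∧
      |rdot (L.th y θ) e| ≤ η * ρ y}})).trans ?_
    calc ∑ w ∈ W, μ.mu {x | x * w ∈ {y | y ∈ A₁ ∧ |rdot (L.th y θ) e| ≤ η * ρ y}}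
        ≤ ∑ _w ∈ W, ε := Finset.sum_le_sum fun w _ => by
          rw [mu_inv]
          exact hmu
      _ = W.card * ε := by simp
  -- conclusion
  have hcs := on_cauchy μ (A₁ : Set A) X hbX
  set S2 := μ.on (A₁ : Set A) (fun y => X y ^ 2) with hS2d
  set S4 := μ.on (A₁ : Set A) (fun y => X y ^ 4) with hS4d
  set m := μ.mu {y | y ∈ (A₁ : Set A) ∧ X y ≠ 0} with hmd
  have hm0 : 0 ≤ m := mu_nonneg μ _
  have hS2' : 0 < S2 ^ 2 := by positivity
  have hS4m : 0 < S4 * m := lt_of_lt_of_le hS2' hcs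
  have hS4 : 0 < S4 := by
    by_contra hneg
    rw [not_lt] at hneg
    nlinarith
  change κ * S2 ^ 2 < S4
  calc κ * S2 ^ 2 ≤ κ * (S4 * m) := mul_le_mul_of_nonneg_left hcs (by linarith)
    _ ≤ κ * (S4 * (W.card * ε)) := by
        refine mul_le_mul_of_nonneg_left (mul_le_mul_of_nonneg_left hsupp hS4.le) (by linarith)
    _ = (κ * (W.card * ε)) * S4 := by ring
    _ < 1 * S4 := mul_lt_mul_of_pos_right hε hS4
    _ = S4 := one_mul _

theorem kink (hA : PC A) (μ : RMean A) (hg : Gro L θ A₁ ρ c₀ C₀)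
    (hinf : ∀ n : ℕ, ∃ g : Fin n → A, (∀ i, g i ∈ A₁) ∧
      ∀ i j, i ≠ j → ¬ Par (L.th (g i) θ) (L.th (g j) θ)) :
    ∃ (k : ℕ) (l : Fin k → A), Cls N A₁ l ∧ ∀ κ : ℝ, ∃ e u : Fin d → ℝ,
      κ * (μ.on A₁ (fun y => ((ρ y)⁻¹ * SR l (Rpol L l) (fun z =>
          |rdot (L.th z θ) (e + u)| + |rdot (L.th z θ) (e - u)| - 2 * |rdot (L.th z θ) e|) y) ^ 2))
          ^ 2 <
        μ.on A₁ (fun y => ((ρ y)⁻¹ * SR l (Rpol L l) (fun z =>
          |rdot (L.th z θ) (e + u)| + |rdot (L.th z θ) (e - u)| - 2 * |rdot (L.th z θ) e|) y) ^ 4)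
          := by
  classical
  obtain ⟨ω, hω, hω0, l₀, hl₀, hl₀pos⟩ := exists_omega hA hg hinf
  obtain ⟨k, l, hcls, j₀, hj₀⟩ := exists_cls hg.norm hg.norm₁ hg.fin hg.le hg.comm l₀ hl₀
  refine ⟨k, l, hcls, fun κ => ?_⟩
  obtain ⟨j1, -, hj1⟩ := Finset.exists_max_image Finset.univ (fun j => ω (l j))
    ⟨j₀, Finset.mem_univ _⟩
  have hM : 0 < ω (l j1) := by
    have h := hj1 j₀ (Finset.mem_univ _)
    simp only [hj₀] at h
    exact lt_of_lt_of_le hl₀pos h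
  set w0 : Fin (d + 1) → Fin k := fun _ => j1 with hw0
  have hg0 : wprod l w0 ∈ A₁ := wprod_mem hcls.mem w0
  have hωg0 : ω (wprod l w0) = (d + 1) * ω (l j1) := by
    rw [kf_omega_word hω l hcls.mem]
    simp [hw0]
  have hpar : ∀ i ≤ d + 1, ∀ w : Fin i → Fin k,
      Par (L.th (wprod l w) θ) (L.th (wprod l w0) θ) → i = d + 1 := by
    intro i hi w hp
    have h1 := omega_par hg hω hω0 (wprod_mem hcls.mem w) hg0 hp
    rw [hωg0, kf_omega_word hω l hcls.mem] at h1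
    have h2 : ∑ j, ω (l (w j)) ≤ i * ω (l j1) := by
      calc ∑ j, ω (l (w j)) ≤ ∑ _j : Fin i, ω (l j1) :=
            Finset.sum_le_sum fun j _ => hj1 _ (Finset.mem_univ _)
        _ = i * ω (l j1) := by simp
    rw [h1] at h2
    have h3 : ((d : ℝ) + 1) ≤ i := le_of_mul_le_mul_right h2 hM
    have h4 : d + 1 ≤ i := by exact_mod_cast h3
    omega
  set W : Finset A := (Finset.range (d + 2)).biUnion
    (fun i => Finset.univ.image (fun w : Fin i → Fin k => wprod l w)) with hWd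
  have hW : ∀ w ∈ W, w ∈ A₁ := by
    intro w hw
    rw [hWd, Finset.mem_biUnion] at hw
    obtain ⟨i, -, hi⟩ := hw
    rw [Finset.mem_image] at hi
    obtain ⟨v, -, rfl⟩ := hi
    exact wprod_mem hcls.mem v
  have hWw : ∀ i ≤ d + 1, ∀ w : Fin i → Fin k, wprod l w ∈ W := by
    intro i hi w
    rw [hWd, Finset.mem_biUnion]
    exact ⟨i, Finset.mem_range.mpr (by omega), Finset.mem_image_of_mem _ (Finset.mem_univ w)⟩
  set κ' : ℝ := max κ 1 with hκ'
  have hκ1 : 1 ≤ κ' := le_max_right _ _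
  have hκpos : 0 < κ' := by linarith
  set ε : ℝ := (κ' * (W.card + 1))⁻¹ with hε
  have hεpos : 0 < ε := by positivity
  have hε1 : κ' * (W.card * ε) < 1 := by
    have h1 : κ' * ((W.card + 1) * ε) = 1 := by
      rw [hε]
      field_simp
    nlinarith
  obtain ⟨e, he0, he, η, hη, hmu⟩ := generic_e μ hg hinf (wprod l w0) hg0 W hW hεpos
  obtain ⟨u, hu⟩ := kf_main μ hg l hcls.mem (wprod l w0) hg0 w0 rfl hpar W hW hWw κ' ε hκ1 hε1
    e he0 he η hη hmu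
  refine ⟨e, u, ?_⟩
  refine lt_of_le_of_lt ?_ hu
  exact mul_le_mul_of_nonneg_right (le_max_left _ _) (sq_nonneg _)

end Pool.Agent.RPC
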