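import Pool.Agent.RPC.KAtom

/-!
MODULE RPC/KGen : a vector e on the hyperplane θ_{w₀}^⊥, off the other hyperplanes, for which θ_y · e is rarely small.
H₀ = {e : θ_{w₀} · e = 0} has dimension d - 1 (θ_{w₀} ≠ 0); basis h_1..h_{d-1}, ‖h_i‖ ≤ 1; for τ ∈ ℕ put
e(τ) = ∑_i τ^(i-1) h_i.  A functional u with u|H₀ ≠ 0 vanishes at ≤ d - 2 of the e(τ) (polynomial in τ).
(d = 1: H₀ = 0: then any two vectors are parallel, contradicting hinf for n = 2.)
For w ∈ W not parallel to θ_{w₀}, θ_w|H₀ ≠ 0, so only finitely many τ are excluded; let Tset be a set of K allowed τ.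
Let ϑ from no_atom for ε₁/2 and K with (d-2)/K ≤ ε₁/2.
For every subset T' of Tset of size d - 1 the map u|H₀ ↦ max_{τ ∈ T'} |u · e(τ)| is a norm on H₀*, so it is
≥ c_{T'} sup {|u·e| : e ∈ H₀, ‖e‖ ≤ 1}; c = min c_{T'} > 0 (if d - 1 > K there are no such subsets, take K ≥ d).
Let η₀ = c ϑ / 2.  If y ∈ A₁ is not in the small set of no_atom then sup_{e ∈ H₀, ‖e‖ ≤ 1} |θ_y·e| > ϑ ρ y, so
|θ_y · e(τ)| ≤ η₀ ρ y for at most d - 2 elements τ ∈ Tset.  By mu_exists_small some τ has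
mu{y ∈ A₁ \ small set : |θ_y · e(τ)| ≤ η₀ ρ y} ≤ (d-2)/K ≤ ε₁/2.
-/

set_option autoImplicit false

namespace Pool.Agent.RPC

/-- moment curve -/
def mcurve (d : ℕ) (t : ℕ) : Fin d → ℝ := fun i => (t : ℝ) ^ (i : ℕ)

theorem rdot_comm {d : ℕ} (a b : Fin d → ℝ) : rdot a b = rdot b a :=
  Finset.sum_congr rfl fun i _ => mul_comm _ _

theorem rdot_smul_left {d : ℕ} (c : ℝ) (a b : Fin d → ℝ) : rdot (c • a) b = c * rdot a b := by
  simp only [rdot, Pi.smul_apply, smul_eq_mul, Finset.mul_sum]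
  exact Finset.sum_congr rfl fun i _ => by ring

theorem rdot_smul_right {d : ℕ} (c : ℝ) (a b : Fin d → ℝ) : rdot a (c • b) = c * rdot a b := by
  rw [rdot_comm, rdot_smul_left, rdot_comm]

theorem rdot_sub_left {d : ℕ} (a a' b : Fin d → ℝ) : rdot (a - a') b = rdot a b - rdot a' b := by
  simp only [rdot, Pi.sub_apply, ← Finset.sum_sub_distrib]
  exact Finset.sum_congr rfl fun i _ => by ring

theorem rdot_sub_right {d : ℕ} (a b b' : Fin d → ℝ) : rdot a (b - b') = rdot a b - rdot a b' := by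
  rw [rdot_comm, rdot_sub_left, rdot_comm b, rdot_comm b']

theorem rdot_self_pos {d : ℕ} {v : Fin d → ℝ} (hv : v ≠ 0) : 0 < rdot v v := by
  obtain ⟨i, hi⟩ : ∃ i, v i ≠ 0 := by
    by_contra hcon
    push Not at hcon
    exact hv (funext hcon)
  unfold rdot
  exact Finset.sum_pos' (fun j _ => mul_self_nonneg _) ⟨i, Finset.mem_univ _, mul_self_pos.2 hi⟩

theorem rdot_abs_le {d : ℕ} (a b : Fin d → ℝ) : |rdot a b| ≤ (d + 1) * ‖a‖ * ‖b‖ := by
  unfold rdot
  calc |∑ i, a i * b i| ≤ ∑ i, |a i * b i| := Finset.abs_sum_le_sum_abs _ _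
    _ ≤ ∑ _i : Fin d, ‖a‖ * ‖b‖ := by
        refine Finset.sum_le_sum fun i _ => ?_
        rw [abs_mul]
        exact mul_le_mul (norm_le_pi_norm a i) (norm_le_pi_norm b i) (abs_nonneg _) (norm_nonneg _)
    _ = d * ‖a‖ * ‖b‖ := by
        rw [Finset.sum_const, Finset.card_univ, Fintype.card_fin, nsmul_eq_mul]; ring
    _ ≤ (d + 1) * ‖a‖ * ‖b‖ := by
        have := mul_nonneg (norm_nonneg a) (norm_nonneg b)
        nlinarith

/-- orthogonal projection to the hyperplane `v^⊥` -/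
noncomputable def oproj {d : ℕ} (v x : Fin d → ℝ) : Fin d → ℝ := x - (rdot x v / rdot v v) • v

theorem oproj_orth {d : ℕ} {v : Fin d → ℝ} (hv : v ≠ 0) (x : Fin d → ℝ) :
    rdot v (oproj v x) = 0 := by
  unfold oproj
  rw [rdot_sub_right, rdot_smul_right, div_mul_cancel₀ _ (rdot_self_pos hv).ne', rdot_comm,
    sub_self]

theorem oproj_adj {d : ℕ} (v u x : Fin d → ℝ) :
    rdot u (oproj v x) = rdot (oproj v u) x := by
  unfold oproj
  rw [rdot_sub_right, rdot_smul_right, rdot_sub_left, rdot_smul_left, rdot_comm v x]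
  ring

/-- a nonzero vector is orthogonal to fewer than `d` points of the moment curve -/
theorem mcurve_zero {d : ℕ} {r : Fin d → ℝ} (hr : r ≠ 0) (J : Finset ℕ)
    (hJ : ∀ t ∈ J, rdot r (mcurve d t) = 0) : J.card < d := by
  classical
  by_contra hcon
  push Not at hcon
  set q : Polynomial ℝ := ∑ i : Fin d, Polynomial.C (r i) * Polynomial.X ^ (i : ℕ) with hq
  have hdeg : q.degree < d := Polynomial.degree_sum_fin_lt r
  have h0 : q = 0 := by
    refine Polynomial.eq_zero_of_degree_lt_of_eval_index_eq_zero J (v := fun t : ℕ => (t : ℝ))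
      (fun a _ b _ h => Nat.cast_injective h) (lt_of_lt_of_le hdeg (by exact_mod_cast hcon)) ?_
    intro t ht
    rw [hq, Polynomial.eval_finsetSum]
    have := hJ t ht
    unfold rdot mcurve at this
    rw [← this]
    exact Finset.sum_congr rfl fun i _ => by simp
  apply hr
  funext i
  have h1 : q.coeff (i : ℕ) = r i := by
    rw [hq, Polynomial.finsetSum_coeff, Finset.sum_eq_single i]
    · simp
    · intro j _ hji
      rw [Polynomial.coeff_C_mul, Polynomial.coeff_X_pow, if_neg, mul_zero]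
      exact fun h => hji (Fin.ext h.symm)
    · intro h; exact absurd (Finset.mem_univ i) h
  rw [← h1, h0]; simp

theorem mcurve_finite {d : ℕ} {r : Fin d → ℝ} (hr : r ≠ 0) :
    {t : ℕ | rdot r (mcurve d t) = 0}.Finite := by
  by_contra hcon
  obtain ⟨J, hJ1, hJ2⟩ := Set.Infinite.exists_subset_card_eq hcon d
  have := mcurve_zero hr J (fun t ht => hJ1 ht)
  omega

/-- uniform version -/
theorem mcurve_unif (d : ℕ) (T : Finset ℕ) : ∃ c : ℝ, 0 < c ∧ ∀ r : Fin d → ℝ, r ≠ 0 →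
    ∀ J ⊆ T, (∀ t ∈ J, |rdot r (mcurve d t)| ≤ c * ‖r‖) → J.card < d := by
  classical
  have key : ∀ J : Finset ℕ, ∃ c : ℝ, 0 < c ∧ (d ≤ J.card → ∀ r : Fin d → ℝ, ‖r‖ = 1 →
      c ≤ ∑ t ∈ J, |rdot r (mcurve d t)|) := by
    intro J
    by_cases hJ : d ≤ J.card
    · by_cases hne : (Metric.sphere (0 : Fin d → ℝ) 1).Nonempty
      · have hcont : Continuous (fun r : Fin d → ℝ => ∑ t ∈ J, |rdot r (mcurve d t)|) := by
          unfold rdot
          fun_prop
        obtain ⟨r₀, hr₀, hmin⟩ := (isCompact_sphere (0 : Fin d → ℝ) 1).exists_isMinOn hne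
          hcont.continuousOn
        refine ⟨∑ t ∈ J, |rdot r₀ (mcurve d t)|, ?_, fun _ r hr => ?_⟩
        · have hr₀' : r₀ ≠ 0 := by
            rintro rfl
            simp at hr₀
          by_contra hcon
          push Not at hcon
          have h0 : ∑ t ∈ J, |rdot r₀ (mcurve d t)| = 0 :=
            le_antisymm hcon (Finset.sum_nonneg fun _ _ => abs_nonneg _)
          rw [Finset.sum_eq_zero_iff_of_nonneg fun _ _ => abs_nonneg _] at h0
          have := mcurve_zero hr₀' J (fun t ht => abs_eq_zero.1 (h0 t ht))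
          omega
        · exact hmin (by simpa using hr)
      · refine ⟨1, one_pos, fun _ r hr => ?_⟩
        exact absurd ⟨r, by simpa using hr⟩ hne
    · exact ⟨1, one_pos, fun h => absurd h hJ⟩
  choose c hc0 hc1 using key
  set c' : ℝ := (T.powerset.inf' ⟨∅, by simp⟩ c) / (T.card + 1) with hc'
  have hinf0 : 0 < T.powerset.inf' ⟨∅, by simp⟩ c := by
    rw [Finset.lt_inf'_iff]; exact fun p _ => hc0 p
  have hc'0 : 0 < c' := div_pos hinf0 (by positivity)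
  refine ⟨c', hc'0, fun r hr J hJT hJ => ?_⟩
  by_contra hcon
  push Not at hcon
  have hrn : 0 < ‖r‖ := norm_pos_iff.2 hr
  have h1 := hc1 J hcon (‖r‖⁻¹ • r)
    (by rw [norm_smul, norm_inv, norm_norm, inv_mul_cancel₀ hrn.ne'])
  have h2 : ∑ t ∈ J, |rdot (‖r‖⁻¹ • r) (mcurve d t)| ≤ ∑ _t ∈ J, c' := by
    refine Finset.sum_le_sum fun t ht => ?_
    rw [rdot_smul_left, abs_mul, abs_of_pos (inv_pos.2 hrn), inv_mul_eq_div, div_le_iff₀ hrn]
    exact hJ t ht
  rw [Finset.sum_const, nsmul_eq_mul] at h2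
  have h3 : T.powerset.inf' ⟨∅, by simp⟩ c ≤ c J := Finset.inf'_le _ (Finset.mem_powerset.2 hJT)
  have h4 : (J.card : ℝ) ≤ T.card := by exact_mod_cast Finset.card_le_card hJT
  have h5 : (J.card : ℝ) * c' ≤ T.card * c' := mul_le_mul_of_nonneg_right h4 hc'0.le
  have h6 : (T.card + 1 : ℝ) * c' = T.powerset.inf' ⟨∅, by simp⟩ c := by
    rw [hc']; field_simp
  linarith

variable {A : Type} [Group A] {N N₁ : Subgroup A} {d : ℕ} {L : Lat N N₁ d} {θ : Fin d → ℝ}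
  {A₁ : Subgroup A} {ρ : A → ℝ} {c₀ C₀ : ℝ}

theorem generic_e (μ : RMean A) (hg : Gro L θ A₁ ρ c₀ C₀)
    (hinf : ∀ n : ℕ, ∃ g : Fin n → A, (∀ i, g i ∈ A₁) ∧
      ∀ i j, i ≠ j → ¬ Par (L.th (g i) θ) (L.th (g j) θ))
    (w₀ : A) (hw₀ : w₀ ∈ A₁) (W : Finset A) (hW : ∀ w ∈ W, w ∈ A₁) {ε : ℝ} (hε : 0 < ε) :
    ∃ e : Fin d → ℝ, rdot (L.th w₀ θ) e = 0 ∧
      (∀ w ∈ W, ¬ Par (L.th w θ) (L.th w₀ θ) → rdot (L.th w θ) e ≠ 0) ∧
      ∃ η : ℝ, 0 < η ∧ μ.mu {y | y ∈ A₁ ∧ |rdot (L.th y θ) e| ≤ η * ρ y} ≤ ε := by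
  classical
  set θ₀ := L.th w₀ θ with hθ₀
  have hθ₀0 : θ₀ ≠ 0 := hg.th_ne0 w₀
  obtain ⟨ϑ, hϑ, hsmall⟩ := no_atom μ hg hinf w₀ hw₀ (half_pos hε)
  set Sm : Set A := {y | y ∈ A₁ ∧ ∀ e : Fin d → ℝ, rdot (L.th w₀ θ) e = 0 → ‖e‖ ≤ 1 →
      |rdot (L.th y θ) e| ≤ ϑ * ρ y} with hSm
  -- the allowed parameters
  set Bad : Set ℕ := {t | ∃ w ∈ W, ¬ Par (L.th w θ) θ₀ ∧
    rdot (L.th w θ) (oproj θ₀ (mcurve d t)) = 0} with hBad
  have hBadfin : Bad.Finite := by
    have h1 : Bad ⊆ ⋃ w ∈ (W.filter fun w => ¬ Par (L.th w θ) θ₀),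
        {t : ℕ | rdot (oproj θ₀ (L.th w θ)) (mcurve d t) = 0} := by
      rintro t ⟨w, hw, hp, h0⟩
      simp only [Set.mem_iUnion]
      refine ⟨w, Finset.mem_filter.2 ⟨hw, hp⟩, ?_⟩
      rw [oproj_adj] at h0
      exact h0
    refine Set.Finite.subset (Set.Finite.biUnion (Finset.finite_toSet _) ?_) h1
    intro w hw
    refine mcurve_finite ?_
    intro h0
    refine (Finset.mem_filter.1 hw).2 ⟨rdot (L.th w θ) θ₀ / rdot θ₀ θ₀, ?_, ?_⟩
    · intro hz
      unfold oproj at h0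
      rw [hz, zero_smul, sub_zero] at h0
      exact hg.th_ne0 w h0
    · exact sub_eq_zero.1 h0
  obtain ⟨m, hm⟩ := exists_nat_gt ((d : ℝ) / (ε / 2))
  set K : ℕ := m + 1 with hK
  have hKpos : (0 : ℝ) < K := by rw [hK]; positivity
  have hKε : (d : ℝ) / K ≤ ε / 2 := by
    rw [div_le_iff₀ hKpos]
    rw [div_lt_iff₀ (half_pos hε)] at hm
    have : (m : ℝ) ≤ K := by rw [hK]; push_cast; linarith
    nlinarith
  obtain ⟨T, hT1, hT2⟩ := (hBadfin.infinite_compl).exists_subset_card_eq K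
  obtain ⟨c, hc0, hc⟩ := mcurve_unif d T
  set η : ℝ := c * ϑ / (d + 1) with hη
  have hd1 : (0 : ℝ) < d + 1 := by positivity
  have hη0 : 0 < η := by positivity
  have hTne : T.Nonempty := by
    rw [← Finset.card_pos, hT2, hK]; omega
  obtain ⟨t, ht, htm⟩ := mu_exists_small μ T hTne
    (fun t => {y | y ∈ A₁ ∧ y ∉ Sm ∧ |rdot (L.th y θ) (oproj θ₀ (mcurve d t))| ≤ η * ρ y}) d (by
      intro y J hJT hJ
      by_contra hcon
      push Not at hcon
      have hJne : J.Nonempty := by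
        rw [← Finset.card_pos]; omega
      obtain ⟨j, hj⟩ := hJne
      obtain ⟨hyA, hyS, -⟩ := hJ j hj
      have hρ := hg.pos y hyA
      -- the projection is large
      have h1 : ϑ * ρ y ≤ (d + 1) * ‖oproj θ₀ (L.th y θ)‖ := by
        by_contra hcon2
        push Not at hcon2
        apply hyS
        refine ⟨hyA, fun e he1 he2 => ?_⟩
        have h2 : rdot (L.th y θ) e = rdot (oproj θ₀ (L.th y θ)) e := by
          unfold oproj
          rw [rdot_sub_left, rdot_smul_left, hθ₀, he1, mul_zero, sub_zero]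
        rw [h2]
        refine (rdot_abs_le _ _).trans (le_trans ?_ hcon2.le)
        have h3 : 0 ≤ (d + 1) * ‖oproj θ₀ (L.th y θ)‖ := by positivity
        calc (d + 1) * ‖oproj θ₀ (L.th y θ)‖ * ‖e‖ ≤ (d + 1) * ‖oproj θ₀ (L.th y θ)‖ * 1 :=
              mul_le_mul_of_nonneg_left he2 h3
          _ = _ := mul_one _
      have hr0 : oproj θ₀ (L.th y θ) ≠ 0 := by
        intro h0
        rw [h0, norm_zero, mul_zero] at h1
        exact absurd h1 (not_le.2 (mul_pos hϑ hρ))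
      have h2 := hc _ hr0 J hJT (by
        intro t ht
        obtain ⟨-, -, h3⟩ := hJ t ht
        rw [oproj_adj] at h3
        refine h3.trans ?_
        calc η * ρ y = c / (d + 1) * (ϑ * ρ y) := by rw [hη]; ring
          _ ≤ c / (d + 1) * ((d + 1) * ‖oproj θ₀ (L.th y θ)‖) :=
              mul_le_mul_of_nonneg_left h1 (by positivity)
          _ = c * ‖oproj θ₀ (L.th y θ)‖ := by field_simp)
      omega)
  refine ⟨oproj θ₀ (mcurve d t), oproj_orth hθ₀0 _, ?_, η, hη0, ?_⟩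
  · intro w hw hp h0
    exact hT1 ht ⟨w, hw, hp, h0⟩
  · rw [hT2] at htm
    have h1 : {y | y ∈ A₁ ∧ |rdot (L.th y θ) (oproj θ₀ (mcurve d t))| ≤ η * ρ y} ⊆
        Sm ∪ {y | y ∈ A₁ ∧ y ∉ Sm ∧
          |rdot (L.th y θ) (oproj θ₀ (mcurve d t))| ≤ η * ρ y} := by
      intro y hy
      by_cases hyS : y ∈ Sm
      · exact Or.inl hyS
      · exact Or.inr ⟨hy.1, hyS, hy.2⟩
    calc μ.mu {y | y ∈ A₁ ∧ |rdot (L.th y θ) (oproj θ₀ (mcurve d t))| ≤ η * ρ y}
        ≤ μ.mu _ := mu_mono μ h1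
      _ ≤ _ := mu_union μ _ _
      _ ≤ ε / 2 + ε / 2 := add_le_add hsmall (htm.trans hKε)
      _ = ε := by ring

end Pool.Agent.RPC
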