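import Mathlib

/-!
MODULE RPC/LD : linear dynamics lemma (pure linear algebra).
Γ a group acting on V = ℝ^d by commuting operators T a (T is multiplicative), S a set of nonzero vectors,
closed in V \ {0}, invariant under positive scalars and under all T a.  Then there are θ ∈ S and a
homomorphism ρ : Γ → ℝ_{>0}, trivial on the kernel of T, with c ρ(a) ≤ ‖T a θ‖ ≤ C ρ(a).
Proof.  Let U₀ be a T-invariant subspace of minimal dimension which meets S.  U₀ ≠ 0.  Let U' < U₀ be a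
maximal proper T-invariant subspace of U₀; S ∩ U' = ∅.  V̄ := U₀/U' is a simple module: for v ≠ 0 in V̄ and
K := the subalgebra of End(V̄) generated by the T̄ a (commutative), K v = V̄; a nonzero k ∈ K is injective
(its kernel is an invariant proper subspace), so bijective.  Fix v₀ ≠ 0; k ↦ k v₀ is a linear
isomorphism K → V̄ with inverse v ↦ k_v.  m = dim V̄, q(v) := |det k_v|^(1/m): continuous,
q(c v) = |c| q(v), q(v) > 0 for v ≠ 0, q(T̄ a v) = ρ(a) q(v) with ρ(a) := |det T̄ a|^(1/m).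
By compactness of the unit sphere c₁‖v‖ ≤ q(v) ≤ C₁‖v‖ on V̄ (any norm), and q(class of θ) > 0 on the
compact set S ∩ U₀ ∩ sphere (closed since S is closed away from 0), so c₂‖θ‖ ≤ q(θ̄) ≤ C₂‖θ‖ for
θ ∈ S ∩ U₀.  Take any θ ∈ S ∩ U₀: T a θ ∈ S ∩ U₀, q(T̄ a θ̄) = ρ(a) q(θ̄).
(Instead of the quotient one may choose a linear functional description: e.g. work with the operators
induced on U₀ ⧸ U' or with the transposed operators.)
-/

set_option autoImplicit false

namespace Pool.Agent.RPC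

/-- Simple case: a commuting family without invariant subspaces. -/
lemma LD_simple {Q : Type} [AddCommGroup Q] [Module ℝ Q] [FiniteDimensional ℝ Q] [Nontrivial Q]
    {Γ : Type} (T : Γ → (Q →ₗ[ℝ] Q)) (hcomm : ∀ a b, T a ∘ₗ T b = T b ∘ₗ T a)
    (hsimple : ∀ W : Submodule ℝ Q, (∀ a, ∀ x ∈ W, T a x ∈ W) → W = ⊥ ∨ W = ⊤) :
    ∃ f : Q →ₗ[ℝ] (Q →ₗ[ℝ] Q), (∀ v, v ≠ 0 → LinearMap.det (f v) ≠ 0) ∧
      ∀ a v, f (T a v) = T a ∘ₗ f v := by
  classical
  let K : Subalgebra ℝ (Module.End ℝ Q) := Algebra.adjoin ℝ (Set.range T)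
  have hTK : ∀ a, T a ∈ K := fun a => Algebra.subset_adjoin ⟨a, rfl⟩
  have hKcomm : ∀ x ∈ K, ∀ y ∈ K, x * y = y * x := by
    intro x hx y hy
    have hc : ∀ u ∈ Set.range T, ∀ v ∈ Set.range T, u * v = v * u := by
      rintro u ⟨a, rfl⟩ v ⟨b, rfl⟩
      exact hcomm a b
    have hcm := Algebra.isMulCommutative_adjoin ℝ hc
    have := hcm.is_comm.comm ⟨x, hx⟩ ⟨y, hy⟩
    exact congrArg Subtype.val this
  obtain ⟨v₀, hv₀⟩ := exists_ne (0 : Q)
  let ev : K.toSubmodule →ₗ[ℝ] Q := (LinearMap.applyₗ v₀ : (Q →ₗ[ℝ] Q) →ₗ[ℝ] Q) ∘ₗ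
    K.toSubmodule.subtype
  have hev : ∀ k : K.toSubmodule, ev k = (k : Module.End ℝ Q) v₀ := fun k => rfl
  have hsurj : Function.Surjective ev := by
    have h1 : ∀ a, ∀ x ∈ LinearMap.range ev, T a x ∈ LinearMap.range ev := by
      rintro a x ⟨k, rfl⟩
      exact ⟨⟨T a * k.1, K.mul_mem (hTK a) k.2⟩, rfl⟩
    rcases hsimple _ h1 with h | h
    · exfalso
      have : v₀ ∈ LinearMap.range ev := ⟨⟨1, K.one_mem⟩, rfl⟩
      rw [h] at this
      exact hv₀ ((Submodule.mem_bot ℝ).1 this)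
    · exact LinearMap.range_eq_top.1 h
  have hinj : Function.Injective ev := by
    rw [← LinearMap.ker_eq_bot, Submodule.eq_bot_iff]
    intro k hk
    have hk0 : (k : Module.End ℝ Q) v₀ = 0 := hk
    apply Subtype.ext
    apply LinearMap.ext
    intro x
    obtain ⟨k', rfl⟩ := hsurj x
    have := hKcomm k.1 k.2 k'.1 k'.2
    calc (k : Module.End ℝ Q) (ev k') = (k.1 * k'.1) v₀ := rfl
      _ = (k'.1 * k.1) v₀ := by rw [this]
      _ = k'.1 (k.1 v₀) := rfl
      _ = 0 := by rw [hk0, map_zero]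
  let e : K.toSubmodule ≃ₗ[ℝ] Q := LinearEquiv.ofBijective ev ⟨hinj, hsurj⟩
  refine ⟨K.toSubmodule.subtype ∘ₗ (e.symm : Q →ₗ[ℝ] K.toSubmodule), ?_, ?_⟩
  · intro v hv
    set k := e.symm v with hk
    have hkne : (k : Module.End ℝ Q) ≠ 0 := by
      intro h0
      apply hv
      have : k = 0 := Subtype.ext h0
      have h2 : e k = v := by rw [hk, LinearEquiv.apply_symm_apply]
      rw [← h2, this, map_zero]
    have hker : LinearMap.ker (k : Module.End ℝ Q) = ⊥ := by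
      have h1 : ∀ a, ∀ x ∈ LinearMap.ker (k : Module.End ℝ Q),
          T a x ∈ LinearMap.ker (k : Module.End ℝ Q) := by
        intro a x hx
        rw [LinearMap.mem_ker] at hx ⊢
        have := hKcomm k.1 k.2 (T a) (hTK a)
        calc (k : Module.End ℝ Q) (T a x) = (k.1 * T a) x := rfl
          _ = (T a * k.1) x := by rw [this]
          _ = T a (k.1 x) := rfl
          _ = 0 := by rw [hx, map_zero]
      rcases hsimple _ h1 with h | h
      · exact h
      · exfalso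
        exact hkne (LinearMap.ker_eq_top.1 h)
    show LinearMap.det (k : Module.End ℝ Q) ≠ 0
    intro h0
    have := LinearMap.bot_lt_ker_of_det_eq_zero h0
    rw [hker] at this
    exact lt_irrefl _ this
  · intro a v
    obtain ⟨k, rfl⟩ := e.surjective v
    have h1 : T a (e k) = e ⟨T a * k.1, K.mul_mem (hTK a) k.2⟩ := rfl
    rw [h1]
    simp only [LinearMap.coe_comp, LinearEquiv.coe_coe, Function.comp_apply,
      LinearEquiv.symm_apply_apply, Submodule.coe_subtype]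
    rfl

theorem LD {d : ℕ} {Γ : Type} [Group Γ] (T : Γ → ((Fin d → ℝ) →ₗ[ℝ] (Fin d → ℝ)))
    (h1 : T 1 = LinearMap.id) (hmul : ∀ a b, T (a * b) = T a ∘ₗ T b)
    (hcomm : ∀ a b, T a ∘ₗ T b = T b ∘ₗ T a) (S : Set (Fin d → ℝ)) (hne : S.Nonempty)
    (h0 : ∀ θ ∈ S, θ ≠ 0) (hcl : ∀ θ ∈ closure S, θ ≠ 0 → θ ∈ S)
    (hs : ∀ θ ∈ S, ∀ c : ℝ, 0 < c → c • θ ∈ S) (hT : ∀ a, ∀ θ ∈ S, T a θ ∈ S) :
    ∃ θ ∈ S, ∃ ρ : Γ → ℝ, (∀ a, 0 < ρ a) ∧ (∀ a b, ρ (a * b) = ρ a * ρ b) ∧
      (∀ a, T a = LinearMap.id → ρ a = 1) ∧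
      ∃ c C : ℝ, 0 < c ∧ 0 < C ∧ ∀ a, c * ρ a ≤ ‖T a θ‖ ∧ ‖T a θ‖ ≤ C * ρ a := by
  classical
  -- minimal invariant subspace meeting S
  obtain ⟨U, ⟨hUinv, θ, hθS, hθU⟩, hUmin⟩ := (wellFounded_lt (α := Submodule ℝ (Fin d → ℝ))).has_min
    {U | (∀ a, ∀ x ∈ U, T a x ∈ U) ∧ ∃ θ ∈ S, θ ∈ U}
    ⟨⊤, fun _ _ _ => Submodule.mem_top, hne.some, hne.some_mem, Submodule.mem_top⟩
  let R : Γ → (U →ₗ[ℝ] U) := fun a => (T a).restrict (hUinv a)
  have hR : ∀ a (x : U), ((R a x : U) : Fin d → ℝ) = T a x := fun a x => rfl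
  have hθ0 : (⟨θ, hθU⟩ : U) ≠ 0 := fun h => h0 θ hθS (congrArg Subtype.val h)
  -- maximal proper invariant subspace
  obtain ⟨P, ⟨hPtop, hPinv⟩, hPmax⟩ := (wellFounded_gt (α := Submodule ℝ U)).has_min
    {P | P ≠ ⊤ ∧ (∀ a, ∀ x ∈ P, R a x ∈ P)}
    ⟨⊥, by
      intro h
      have : (⟨θ, hθU⟩ : U) ∈ (⊥ : Submodule ℝ U) := h ▸ Submodule.mem_top
      exact hθ0 ((Submodule.mem_bot ℝ).1 this), by
      intro a x hx
      rw [(Submodule.mem_bot ℝ).1 hx, map_zero]
      exact Submodule.zero_mem _⟩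
  -- S does not meet P
  have hSP : ∀ x : U, (x : Fin d → ℝ) ∈ S → x ∉ P := by
    intro x hxS hxP
    apply hUmin (P.map U.subtype) ⟨?_, x, hxS, ⟨x, hxP, rfl⟩⟩
    · refine lt_of_le_of_ne (Submodule.map_subtype_le U P) ?_
      intro h
      apply hPtop
      rw [eq_top_iff]
      intro y _
      have : (y : Fin d → ℝ) ∈ P.map U.subtype := by rw [h]; exact y.2
      obtain ⟨z, hz, hzy⟩ := this
      have : z = y := Subtype.ext hzy
      exact this ▸ hz
    · rintro a _ ⟨y, hy, rfl⟩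
      exact ⟨R a y, hPinv a y hy, rfl⟩
  let Tq : Γ → ((U ⧸ P) →ₗ[ℝ] (U ⧸ P)) := fun a => P.mapQ P (R a) (fun x hx => hPinv a x hx)
  have hTq : ∀ a (x : U), Tq a (P.mkQ x) = P.mkQ (R a x) := fun a x => rfl
  have hRcomm : ∀ a b, R a ∘ₗ R b = R b ∘ₗ R a := by
    intro a b
    ext x : 1
    apply Subtype.ext
    exact congrArg (fun L => L (x : Fin d → ℝ)) (hcomm a b)
  have hQnt : Nontrivial (U ⧸ P) := Submodule.Quotient.nontrivial_iff.2 hPtop
  have hqcomm : ∀ a b, Tq a ∘ₗ Tq b = Tq b ∘ₗ Tq a := by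
    intro a b
    apply LinearMap.ext
    intro v
    obtain ⟨x, rfl⟩ := P.mkQ_surjective v
    have := congrArg (fun L => P.mkQ (L x)) (hRcomm a b)
    exact this
  obtain ⟨f, hf1, hf2⟩ := LD_simple Tq hqcomm (by
    intro W hW
    by_cases hWt : W = ⊤
    · exact Or.inr hWt
    left
    have h2 : W.comap P.mkQ = P := by
      by_contra hne'
      apply hPmax (W.comap P.mkQ) ⟨?_, ?_⟩
      · refine lt_of_le_of_ne ?_ (Ne.symm hne')
        intro x hx
        show P.mkQ x ∈ W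
        have : P.mkQ x = 0 := (Submodule.Quotient.mk_eq_zero P).2 hx
        rw [this]
        exact W.zero_mem
      · intro h
        apply hWt
        rw [eq_top_iff]
        intro v _
        obtain ⟨x, rfl⟩ := P.mkQ_surjective v
        have : x ∈ W.comap P.mkQ := h ▸ Submodule.mem_top
        exact this
      · intro a x hx
        exact hW a _ hx
    rw [Submodule.eq_bot_iff]
    intro v hv
    obtain ⟨x, rfl⟩ := P.mkQ_surjective v
    have : x ∈ W.comap P.mkQ := hv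
    rw [h2] at this
    exact (Submodule.Quotient.mk_eq_zero P).2 this)
  set m := Module.finrank ℝ (U ⧸ P) with hm
  have hmpos : 0 < m := Module.finrank_pos
  have hm0 : (m : ℝ) ≠ 0 := by positivity
  -- the function q
  let F : U → ℝ := fun x => |LinearMap.det (f (P.mkQ x))|
  have hFcont : Continuous F := by
    have h3 : Continuous fun x : U => LinearMap.det (f (P.mkQ x)) := by
      let b := Module.finBasis ℝ (U ⧸ P)
      have h4 : (fun x : U => LinearMap.det (f (P.mkQ x))) =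
          fun x : U => Matrix.det (LinearMap.toMatrix b b (f (P.mkQ x))) := by
        funext x
        exact (LinearMap.det_toMatrix b _).symm
      rw [h4]
      have h5 : Continuous fun x : U => LinearMap.toMatrix b b (f (P.mkQ x)) := by
        let g := (LinearMap.toMatrix b b).toLinearMap ∘ₗ f ∘ₗ P.mkQ
        exact g.continuous_of_finiteDimensional
      exact h5.matrix_det
    exact h3.abs
  let q : U → ℝ := fun x => F x ^ (1 / (m : ℝ))
  have hFnn : ∀ x, 0 ≤ F x := fun x => abs_nonneg _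
  have hqcont : Continuous q := hFcont.rpow_const (fun x => Or.inr (by positivity))
  have hqhom : ∀ (c : ℝ) (x : U), 0 < c → q (c • x) = c * q x := by
    intro c x hc
    have h3 : F (c • x) = c ^ m * F x := by
      show |LinearMap.det (f (P.mkQ (c • x)))| = _
      rw [map_smul, map_smul, LinearMap.det_smul, abs_mul, abs_pow, abs_of_pos hc]
    show F (c • x) ^ (1 / (m : ℝ)) = c * F x ^ (1 / (m : ℝ))
    rw [h3, Real.mul_rpow (by positivity) (hFnn x), ← Real.rpow_natCast, ← Real.rpow_mul hc.le,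
      mul_one_div_cancel hm0, Real.rpow_one]
  have hqpos : ∀ x : U, (x : Fin d → ℝ) ∈ S → 0 < q x := by
    intro x hx
    apply Real.rpow_pos_of_pos
    apply abs_pos.2
    apply hf1
    intro h
    exact hSP x hx ((Submodule.Quotient.mk_eq_zero P).1 h)
  have hdetTq : ∀ a, LinearMap.det (Tq a) ≠ 0 := by
    intro a
    have h3 : Tq a ∘ₗ Tq a⁻¹ = LinearMap.id := by
      apply LinearMap.ext
      intro v
      obtain ⟨x, rfl⟩ := P.mkQ_surjective v
      show P.mkQ (R a (R a⁻¹ x)) = P.mkQ x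
      congr 1
      apply Subtype.ext
      show T a (T a⁻¹ (x : Fin d → ℝ)) = x
      have := congrArg (fun L => L (x : Fin d → ℝ)) (hmul a a⁻¹)
      simp only [mul_inv_cancel, h1, LinearMap.id_coe, id_eq, LinearMap.coe_comp,
        Function.comp_apply] at this
      exact this.symm
    intro h4
    have h5 : LinearMap.det (Tq a ∘ₗ Tq a⁻¹) = 1 := by rw [h3]; exact LinearMap.det_id
    rw [LinearMap.det_comp, h4, zero_mul] at h5
    exact zero_ne_one h5
  let ρ : Γ → ℝ := fun a => |LinearMap.det (Tq a)| ^ (1 / (m : ℝ))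
  have hρpos : ∀ a, 0 < ρ a := fun a => Real.rpow_pos_of_pos (abs_pos.2 (hdetTq a)) _
  have hqT : ∀ a (x : U), q (R a x) = ρ a * q x := by
    intro a x
    have h3 : F (R a x) = |LinearMap.det (Tq a)| * F x := by
      show |LinearMap.det (f (P.mkQ (R a x)))| = _
      rw [← hTq, hf2, LinearMap.det_comp, abs_mul]
    show F (R a x) ^ (1 / (m : ℝ)) = ρ a * F x ^ (1 / (m : ℝ))
    rw [h3, Real.mul_rpow (abs_nonneg _) (hFnn x)]
  -- compactness
  let Cset : Set U := {x : U | (x : Fin d → ℝ) ∈ S ∧ ‖x‖ = 1}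
  have hCcomp : IsCompact Cset := by
    have h3 : IsClosed Cset := by
      have h4 : Cset = {x : U | (x : Fin d → ℝ) ∈ closure S} ∩ {x : U | ‖x‖ = 1} := by
        ext x
        constructor
        · rintro ⟨hx1, hx2⟩
          exact ⟨subset_closure hx1, hx2⟩
        · rintro ⟨hx1, hx2⟩
          refine ⟨hcl _ hx1 ?_, hx2⟩
          intro h
          have h5 : ‖x‖ = 1 := hx2
          have h6 : x = 0 := Subtype.ext h
          rw [h6, norm_zero] at h5
          exact zero_ne_one h5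
      rw [h4]
      exact (isClosed_closure.preimage continuous_subtype_val).inter
        (isClosed_eq continuous_norm continuous_const)
    apply (isCompact_closedBall (0 : U) 1).of_isClosed_subset h3
    intro x hx
    rw [mem_closedBall_zero_iff]
    exact hx.2.le
  have hnormpos : ∀ x : U, (x : Fin d → ℝ) ∈ S → 0 < ‖x‖ := by
    intro x hx
    apply norm_pos_iff.2
    intro h
    exact h0 _ hx (by rw [h]; rfl)
  have hunit : ∀ x : U, (x : Fin d → ℝ) ∈ S → ‖x‖⁻¹ • x ∈ Cset := by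
    intro x hx
    have hx1 := hnormpos x hx
    refine ⟨hs _ hx _ (inv_pos.2 hx1), ?_⟩
    rw [norm_smul, norm_inv, norm_norm, inv_mul_cancel₀ hx1.ne']
  have hCne : Cset.Nonempty := ⟨_, hunit ⟨θ, hθU⟩ hθS⟩
  obtain ⟨x₁, hx₁, hx₁min⟩ := hCcomp.exists_isMinOn hCne hqcont.continuousOn
  obtain ⟨x₂, hx₂, hx₂max⟩ := hCcomp.exists_isMaxOn hCne hqcont.continuousOn
  have hq1 : 0 < q x₁ := hqpos _ hx₁.1
  have hq2 : 0 < q x₂ := hqpos _ hx₂.1
  have hbound : ∀ x : U, (x : Fin d → ℝ) ∈ S → q x₁ * ‖x‖ ≤ q x ∧ q x ≤ q x₂ * ‖x‖ := by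
    intro x hx
    have hx1 := hnormpos x hx
    have hu := hunit x hx
    have h3 : q (‖x‖⁻¹ • x) = ‖x‖⁻¹ * q x := hqhom _ _ (inv_pos.2 hx1)
    have h4 : q x₁ ≤ ‖x‖⁻¹ * q x := by rw [← h3]; exact hx₁min hu
    have h5 : ‖x‖⁻¹ * q x ≤ q x₂ := by rw [← h3]; exact hx₂max hu
    constructor
    · rw [← div_eq_inv_mul, le_div_iff₀ hx1] at h4
      exact h4
    · rw [← div_eq_inv_mul, div_le_iff₀ hx1] at h5
      exact h5
  have hqθ : 0 < q ⟨θ, hθU⟩ := hqpos _ hθS
  refine ⟨θ, hθS, ρ, hρpos, ?_, ?_, q ⟨θ, hθU⟩ / q x₂, q ⟨θ, hθU⟩ / q x₁, by positivity,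
    by positivity, ?_⟩
  · intro a b
    have h3 : Tq (a * b) = Tq a ∘ₗ Tq b := by
      apply LinearMap.ext
      intro v
      obtain ⟨x, rfl⟩ := P.mkQ_surjective v
      show P.mkQ (R (a * b) x) = P.mkQ (R a (R b x))
      congr 1
      apply Subtype.ext
      exact congrArg (fun L => L (x : Fin d → ℝ)) (hmul a b)
    show |LinearMap.det (Tq (a * b))| ^ (1 / (m : ℝ)) = _
    rw [h3, LinearMap.det_comp, abs_mul, Real.mul_rpow (abs_nonneg _) (abs_nonneg _)]
  · intro a ha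
    have h3 : Tq a = LinearMap.id := by
      apply LinearMap.ext
      intro v
      obtain ⟨x, rfl⟩ := P.mkQ_surjective v
      show P.mkQ (R a x) = P.mkQ x
      congr 1
      apply Subtype.ext
      exact congrArg (fun L => L (x : Fin d → ℝ)) ha
    show |LinearMap.det (Tq a)| ^ (1 / (m : ℝ)) = 1
    rw [h3, LinearMap.det_id, abs_one, Real.one_rpow]
  · intro a
    have hTS : ((R a ⟨θ, hθU⟩ : U) : Fin d → ℝ) ∈ S := hT a θ hθS
    have hb := hbound _ hTS
    have h3 : ‖R a ⟨θ, hθU⟩‖ = ‖T a θ‖ := rfl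
    rw [hqT, h3] at hb
    constructor
    · rw [div_mul_eq_mul_div, div_le_iff₀ hq2]
      calc q ⟨θ, hθU⟩ * ρ a = ρ a * q ⟨θ, hθU⟩ := mul_comm _ _
        _ ≤ q x₂ * ‖T a θ‖ := hb.2
        _ = ‖T a θ‖ * q x₂ := mul_comm _ _
    · rw [div_mul_eq_mul_div, le_div_iff₀ hq1]
      calc ‖T a θ‖ * q x₁ = q x₁ * ‖T a θ‖ := mul_comm _ _
        _ ≤ ρ a * q ⟨θ, hθU⟩ := hb.1
        _ = q ⟨θ, hθU⟩ * ρ a := mul_comm _ _

end Pool.Agent.RPC
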