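import Pool.Agent.RPC.FQ
import Pool.Agent.RPC.FNil
import Pool.Agent.RPC.AbB
import Pool.Agent.RPC.BNS

/-! RPC/LemF : assembly of Lemma F. -/

set_option autoImplicit false

namespace Pool.Agent.RPC

theorem ab_case {A P : Type} [Group A] [Group P] {φ : A →* MulAut P} {δ : A → P} (h : MC φ δ)
    (hcomm : ∀ p q : P, p * q = q * p) (htf : ∀ p : P, ∀ k : ℕ, 0 < k → p ^ k = 1 → p = 1)
    (hr : ∃ r : ℕ, ∀ v : Fin (r + 1) → P, ∃ z : Fin (r + 1) → ℤ, z ≠ 0 ∧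
        (List.ofFn (fun i => v i ^ z i)).prod = 1) : False := by
  letI : CommGroup P := { ‹Group P› with mul_comm := hcomm }
  have hr' : ∃ r : ℕ, ∀ v : Fin (r + 1) → P, ∃ z : Fin (r + 1) → ℤ, z ≠ 0 ∧
        ∏ i, v i ^ z i = 1 := by
    obtain ⟨r, hr⟩ := hr
    refine ⟨r, fun v => ?_⟩
    obtain ⟨z, hz, h1⟩ := hr v
    exact ⟨z, hz, by rw [← List.prod_ofFn]; exact h1⟩
  obtain ⟨k, e, hk, he, hin⟩ := ab_inner (φ := φ) (δ := δ) h htf hr'
  exact ab_false (φ := φ) (δ := δ) h.pc.fg h.coc.surj htf hr'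
    (FGO_top h.pc.fg h.coc) k e hk he hin

/-- Lemma F -/
theorem lemF {A P : Type} [Group A] [Group P] {φ : A →* MulAut P} {δ : A → P} (h : MC φ δ)
    {A₀ N : Subgroup A} {ν : UNorm P} {rho b : A → ℝ} (hf : FDat φ A₀ N ν rho b) : False := by
  have hk := ker_bdd (N := N) (ψ := b) (ν := ν) h.pc.2 h.coc.mul hf.bN hf.eqv
  obtain ⟨F, hF⟩ := exists_pt hf.norm h.coc.mul hf.bN hf.b0 hf.eqv hk
  obtain ⟨Q, hQ, hE⟩ := lemF_Q h hf hF
  obtain ⟨h1, h2, h3⟩ := exh_comm h Q hQ (fun E => by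
    obtain ⟨a, ha⟩ := hE E
    refine ⟨MulAut.conj (δ a) * φ a, fun p hp => ?_⟩
    have := ha p hp
    simpa [MulAut.conj_apply, MulAut.mul_apply] using this)
  exact ab_case h h1 h2 h3

end Pool.Agent.RPC
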