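import Pool.Agent.RPC.MomA

/-!
MODULE RPC/MomB : one constant κ for a whole family.
For g ∈ ι and every m choose c_{g,m}, s_{g,m} with RelD (X g) c s (1/(m+1)).  The right cosets A₁ c are finitely many
(A₁ of finite index): let j(g) be a coset equal to A₁ c_{g,m} for infinitely many m.  If j(g) = j(g') then mom_link
(c' c⁻¹ ∈ A₁; use the larger of the two η; RelD is monotone in η) and momA (B = max of the two bounds) give
S_2(g')² S_4(g) = S_4(g') S_2(g)², S_i(g) = ∫_{A₁} (X g)^i.   (The link must be used in both orders only once.)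
For every coset j for which some g has j(g) = j and S_2(g) > 0 fix such g_j and κ_j = S_4(g_j)/S_2(g_j)²;
κ = max κ_j (0 if none).
Given g : ℕ → ι and polynomials p2, p4: some class j contains g τ for infinitely many τ ∈ T.  If
S_2(g τ) = 0 for all τ ∈ T then p2 has infinitely many zeros, p2 = 0; also S_4(g τ) = 0 (S_4 ≤ B² S_2) so p4 = 0.
Otherwise g_j exists and S_4(g τ) = κ_j S_2(g τ)² for τ ∈ T, so p4 = κ_j p2² as polynomials.
-/

set_option autoImplicit false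

namespace Pool.Agent.RPC

namespace MomBAux

theorem momB_ind {A : Type} {S : Set A} {f : A → ℝ} {C : ℝ} (h : ∀ y ∈ S, |f y| ≤ C) :
    Bdd (fun y => S.indicator f y) := by
  refine ⟨max C 0, fun y => ?_⟩
  show |S.indicator f y| ≤ max C 0
  by_cases hy : y ∈ S
  · rw [Set.indicator_of_mem hy]
    exact (h y hy).trans (le_max_left _ _)
  · rw [Set.indicator_of_notMem hy, abs_zero]
    exact le_max_right _ _

theorem on_nonneg {A : Type} [Group A] (μ : RMean A) (S : Set A) (f : A → ℝ) {C : ℝ}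
    (hC : ∀ y ∈ S, |f y| ≤ C) (h : ∀ y ∈ S, 0 ≤ f y) : 0 ≤ μ.on S f := by
  have h0 : μ.on S (fun _ => (0 : ℝ)) = 0 := by
    have h1 := on_smul μ S 0 (fun _ => (0 : ℝ)) (momB_ind (C := 0) (fun y _ => by simp))
    simpa using h1
  rw [← h0]
  exact on_mono μ S _ _ (momB_ind (C := 0) (fun y _ => by simp)) (momB_ind hC) h

/-- `RelD` is monotone in the precision -/
theorem relD_mono {A : Type} [Group A] {μ : RMean A} {A₁ : Subgroup A} {ρ v X : A → ℝ}
    (hpos : ∀ y ∈ A₁, 0 < ρ y) {c : A} {s η η' : ℝ} (h : RelD μ A₁ ρ v X c s η) (hη : η ≤ η') :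
    RelD μ A₁ ρ v X c s η' := by
  refine ⟨h.1, le_trans (mu_mono μ ?_) (h.2.trans hη)⟩
  rintro y ⟨hy, hn⟩
  refine ⟨hy, fun hc => hn ?_⟩
  have h1 : s * η * ρ y ≤ s * η' * ρ y :=
    mul_le_mul_of_nonneg_right (mul_le_mul_of_nonneg_left hη h.1.le) (hpos y hy).le
  exact ⟨hc.1.trans h1, hc.2.trans h1⟩

end MomBAux

open MomBAux in
theorem momB {A : Type} [Group A] (μ : RMean A) (A₁ : Subgroup A) (hfin : A₁.FiniteIndex)
    (hnor : A₁.Normal) (ρ v : A → ℝ)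
    (hpos : ∀ y ∈ A₁, 0 < ρ y) (hmul : ∀ a ∈ A₁, ∀ b ∈ A₁, ρ (a * b) = ρ a * ρ b)
    {ι : Type} (X : ι → A → ℝ) (hb : ∀ g, ∃ B, ∀ y ∈ A₁, |X g y| ≤ B)
    (hR : ∀ g, ∀ η : ℝ, 0 < η → ∃ (c : A) (s : ℝ), RelD μ A₁ ρ v (X g) c s η) :
    ∃ κ : ℝ, 0 ≤ κ ∧ ∀ (g : ℕ → ι) (p2 p4 : Polynomial ℝ),
      (∀ τ : ℕ, p2.eval (τ : ℝ) = μ.on A₁ (fun y => X (g τ) y ^ 2)) →
      (∀ τ : ℕ, p4.eval (τ : ℝ) = μ.on A₁ (fun y => X (g τ) y ^ 4)) →
      ∀ t : ℝ, p4.eval t ≤ κ * (p2.eval t) ^ 2 := by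
  classical
  choose B hB using hb
  have hη : ∀ m : ℕ, (0 : ℝ) < 1 / ((m : ℝ) + 1) := fun m => by positivity
  choose c s hcs using fun g (m : ℕ) => hR g (1 / ((m : ℝ) + 1)) (hη m)
  have hfinq : Finite (A ⧸ A₁) := inferInstance
  -- the coset of a member of the family
  have hj : ∀ g, ∃ q : A ⧸ A₁, {m : ℕ | (QuotientGroup.mk (c g m) : A ⧸ A₁) = q}.Infinite := by
    intro g
    obtain ⟨q, hq⟩ := Finite.exists_infinite_fiber
      (fun m : ℕ => (QuotientGroup.mk (c g m) : A ⧸ A₁))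
    exact ⟨q, Set.infinite_coe_iff.mp hq⟩
  choose j hj using hj
  have hsmall : ∀ g, ∀ η : ℝ, 0 < η → ∃ (c' : A) (s' : ℝ),
      RelD μ A₁ ρ v (X g) c' s' η ∧ (QuotientGroup.mk c' : A ⧸ A₁) = j g := by
    intro g η hη0
    obtain ⟨n, hn⟩ := exists_nat_one_div_lt hη0
    obtain ⟨m, hm1, hm2⟩ := (hj g).exists_gt n
    refine ⟨c g m, s g m, relD_mono hpos (hcs g m) ?_, hm1⟩
    refine le_trans ?_ hn.le
    apply one_div_le_one_div_of_le (by positivity)
    have : (n : ℝ) ≤ m := by exact_mod_cast hm2.le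
    linarith
  -- the two integrals
  obtain ⟨S2, hS2⟩ : ∃ S2 : ι → ℝ, S2 = fun g => μ.on A₁ (fun y => X g y ^ 2) := ⟨_, rfl⟩
  obtain ⟨S4, hS4⟩ : ∃ S4 : ι → ℝ, S4 = fun g => μ.on A₁ (fun y => X g y ^ 4) := ⟨_, rfl⟩
  have b2 : ∀ g, ∀ y ∈ (A₁ : Set A), |X g y ^ 2| ≤ B g ^ 2 := by
    intro g y hy
    rw [abs_pow]
    exact pow_le_pow_left₀ (abs_nonneg _) (hB g y hy) 2
  have b4 : ∀ g, ∀ y ∈ (A₁ : Set A), |X g y ^ 4| ≤ B g ^ 4 := by
    intro g y hy
    rw [abs_pow]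
    exact pow_le_pow_left₀ (abs_nonneg _) (hB g y hy) 4
  have hS2n : ∀ g, 0 ≤ S2 g := by
    intro g
    rw [hS2]
    exact on_nonneg μ _ _ (b2 g) (fun y _ => by positivity)
  have hS4n : ∀ g, 0 ≤ S4 g := by
    intro g
    rw [hS4]
    exact on_nonneg μ _ _ (b4 g) (fun y _ => by positivity)
  have hS42 : ∀ g, S4 g ≤ B g ^ 2 * S2 g := by
    intro g
    rw [hS4, hS2]
    dsimp only
    rw [← on_smul μ _ _ _ (momB_ind (b2 g))]
    apply on_mono μ _ _ _ (momB_ind (b4 g))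
    · apply momB_ind (C := B g ^ 2 * B g ^ 2)
      intro y hy
      rw [abs_mul, abs_of_nonneg (by positivity : 0 ≤ B g ^ 2)]
      exact mul_le_mul_of_nonneg_left (b2 g y hy) (by positivity)
    · intro y hy
      have h1 := (abs_le.mp (b2 g y hy)).2
      have h2 : X g y ^ 4 = X g y ^ 2 * X g y ^ 2 := by ring
      rw [h2]
      exact mul_le_mul_of_nonneg_right h1 (by positivity)
  have hrel : ∀ g g', j g = j g' → S2 g' ^ 2 * S4 g = S4 g' * S2 g ^ 2 := by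
    intro g g' hjj
    rw [hS2, hS4]
    apply momA μ A₁ (X g) (X g') (max (B g) (B g'))
    · exact fun y hy => (hB g y hy).trans (le_max_left _ _)
    · exact fun y hy => (hB g' y hy).trans (le_max_right _ _)
    · intro η hη0
      obtain ⟨c1, s1, h1, e1⟩ := hsmall g (η / 4) (by positivity)
      obtain ⟨c2, s2, h2, e2⟩ := hsmall g' (η / 4) (by positivity)
      have hcc : c2 * c1⁻¹ ∈ A₁ := by
        have h3 : (QuotientGroup.mk (c2 * c1⁻¹) : A ⧸ A₁) = 1 := by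
          rw [QuotientGroup.mk_mul, QuotientGroup.mk_inv, e1, e2, hjj, mul_inv_cancel]
        exact (QuotientGroup.eq_one_iff _).mp h3
      obtain ⟨a, ha, t, ht, h4⟩ := mom_link μ A₁ ρ v (X g) (X g') hpos hmul
        (by positivity : (0 : ℝ) ≤ η / 4) h1 h2 hcc
      refine ⟨a, ha, t, ht, ?_⟩
      have e : 4 * (η / 4) = η := by ring
      rwa [e] at h4
  -- the constants
  obtain ⟨K, hK⟩ : ∃ K : A ⧸ A₁ → ℝ, ∀ q, 0 ≤ K q ∧ ∀ g, j g = q → S4 g = K q * S2 g ^ 2 := by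
    have : ∀ q : A ⧸ A₁, ∃ k : ℝ, 0 ≤ k ∧ ∀ g, j g = q → S4 g = k * S2 g ^ 2 := by
      intro q
      by_cases hq : ∃ g0, j g0 = q ∧ 0 < S2 g0
      · obtain ⟨g0, h1, h2⟩ := hq
        refine ⟨S4 g0 / S2 g0 ^ 2, div_nonneg (hS4n _) (by positivity), ?_⟩
        intro g hg
        have h3 := hrel g g0 (hg.trans h1.symm)
        rw [div_mul_eq_mul_div, ← h3]
        field_simp
      · refine ⟨0, le_rfl, ?_⟩
        intro g hg
        have h1 : S2 g = 0 := by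
          by_contra hne
          exact hq ⟨g, hg, lt_of_le_of_ne (hS2n g) (Ne.symm hne)⟩
        have h2 := hS42 g
        rw [h1, mul_zero] at h2
        rw [zero_mul]
        exact le_antisymm h2 (hS4n g)
    choose K hK using this
    exact ⟨K, hK⟩
  have : Fintype (A ⧸ A₁) := Fintype.ofFinite _
  refine ⟨∑ q, K q, Finset.sum_nonneg fun q _ => (hK q).1, ?_⟩
  intro g p2 p4 hp2 hp4 t
  obtain ⟨q, hq⟩ := Finite.exists_infinite_fiber (fun τ : ℕ => j (g τ))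
  have hq' : {τ : ℕ | j (g τ) = q}.Infinite := Set.infinite_coe_iff.mp hq
  have hpoly : p4 = Polynomial.C (K q) * p2 ^ 2 := by
    apply Polynomial.eq_of_infinite_eval_eq
    refine Set.Infinite.mono ?_ (hq'.image (f := fun τ : ℕ => (τ : ℝ))
      (Nat.cast_injective.injOn))
    rintro x ⟨τ, hτ, rfl⟩
    have h1 := (hK q).2 (g τ) hτ
    show p4.eval ((τ : ℕ) : ℝ) = (Polynomial.C (K q) * p2 ^ 2).eval ((τ : ℕ) : ℝ)
    rw [Polynomial.eval_mul, Polynomial.eval_C, Polynomial.eval_pow, hp2, hp4]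
    rw [hS2, hS4] at h1
    exact h1
  rw [hpoly, Polynomial.eval_mul, Polynomial.eval_C, Polynomial.eval_pow]
  apply mul_le_mul_of_nonneg_right _ (by positivity)
  exact Finset.single_le_sum (fun q _ => (hK q).1) (Finset.mem_univ q)

end Pool.Agent.RPC
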