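import Pool.Agent.RPC.KFin
import Pool.Agent.RPC.MomB
import Pool.Agent.RPC.IRel
import Pool.Agent.RPC.IVt
import Pool.Agent.RPC.Mean

/-!
MODULE RPC/LemI : assembly of Lemma I.
l from `kink`.  v = SR l (Rpol L l) (fun z => log F(δ z)).  ι = List (Fin d → ℝ),
X es y = (ρ y)⁻¹ * SR l (Rpol L l) (fun z => Gabs es (L.th z θ)) y, bounded on A₁ (SR_bdd, rdot_bound, Gro.up).
`hR` of momB: for es, η: C₁ from IRel with ε = η/2, C₂ from IVt with η/2; t ∈ ℕ large: with s = t/2,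
C₁ ≤ s η, C₂ ≤ s η; bad sets add up to η:  |v(yc) - v y - (t/2) SR G y| ≤ C₁ ρ y and SR G y = ρ y X y.
So momB gives κ.  e, u from kink for this κ.  g τ := [e + u, e - u, τ • e]: Gabs (g τ) = |.(e+u)| + |.(e-u)| + τ |.e|, so
X (g τ) = U + τ V on A₁, U = (ρ)⁻¹ SR(|e+u| + |e-u|), V = (ρ)⁻¹ SR(|e|) (SR_add, SR_smul), and
∫ (U + τV)², ∫ (U + τ V)⁴ over A₁ are polynomials p2, p4 in τ (on_add, on_smul) with the same formula for real τ.
At t = -2: p4(-2) ≤ κ p2(-2)², contradiction to kink.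
-/

set_option autoImplicit false

namespace Pool.Agent.RPC

section aux

variable {A : Type} [Group A] (μ : RMean A)

theorem bdd_indicator_of {S : Set A} {f : A → ℝ} {B : ℝ} (h : ∀ y ∈ S, |f y| ≤ B) :
    Bdd (fun y => S.indicator f y) := by
  refine ⟨max B 0, fun x => ?_⟩
  by_cases hx : x ∈ S
  · simp only [Set.indicator_of_mem hx]
    exact le_max_of_le_left (h x hx)
  · simp [Set.indicator_of_notMem hx]

theorem on_zero' (S : Set A) : μ.on S (fun _ => (0 : ℝ)) = 0 := by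
  have h := on_smul μ S 0 (fun _ => (0 : ℝ)) (bdd_indicator_of (B := 0) (by simp))
  simpa using h

theorem on_finset_sum {ι : Type} [DecidableEq ι] (S : Set A) (I : Finset ι) (f : ι → A → ℝ)
    (hf : ∀ i ∈ I, ∃ B, ∀ y ∈ S, |f i y| ≤ B) :
    μ.on S (fun y => ∑ i ∈ I, f i y) = ∑ i ∈ I, μ.on S (f i) := by
  induction I using Finset.induction_on with
  | empty => simpa using on_zero' μ S
  | insert i I hi ih =>
    have h1 : ∀ j ∈ I, ∃ B, ∀ y ∈ S, |f j y| ≤ B := fun j hj => hf j (Finset.mem_insert_of_mem hj)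
    have h2 : ∃ B, ∀ y ∈ S, |∑ j ∈ I, f j y| ≤ B := by
      choose! B hB using h1
      exact ⟨∑ j ∈ I, B j, fun y hy => (Finset.abs_sum_le_sum_abs _ _).trans
        (Finset.sum_le_sum fun j hj => hB j hj y hy)⟩
    obtain ⟨B1, hB1⟩ := hf i (Finset.mem_insert_self i I)
    obtain ⟨B2, hB2⟩ := h2
    simp only [Finset.sum_insert hi]
    rw [on_add μ S (f i) (fun y => ∑ j ∈ I, f j y) (bdd_indicator_of hB1) (bdd_indicator_of hB2),
      ih h1]

/-- the moments of `U + t V` are polynomials in `t` -/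
theorem moment_poly (S : Set A) (U V : A → ℝ) {B C : ℝ} (hU : ∀ y ∈ S, |U y| ≤ B)
    (hV : ∀ y ∈ S, |V y| ≤ C) (n : ℕ) :
    ∃ p : Polynomial ℝ, ∀ t : ℝ, p.eval t = μ.on S (fun y => (U y + t * V y) ^ n) := by
  refine ⟨∑ m ∈ Finset.range (n + 1),
    Polynomial.C (μ.on S (fun y => U y ^ m * V y ^ (n - m) * (n.choose m : ℝ))) *
      Polynomial.X ^ (n - m), fun t => ?_⟩
  have hb : ∀ m ∈ Finset.range (n + 1), ∃ D, ∀ y ∈ S,
      |U y ^ m * V y ^ (n - m) * (n.choose m : ℝ)| ≤ D := by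
    intro m _
    refine ⟨B ^ m * C ^ (n - m) * (n.choose m : ℝ), fun y hy => ?_⟩
    rw [abs_mul, abs_mul, abs_pow, abs_pow, Nat.abs_cast]
    have h1 : |U y| ^ m ≤ B ^ m := pow_le_pow_left₀ (abs_nonneg _) (hU y hy) m
    have h2 : |V y| ^ (n - m) ≤ C ^ (n - m) := pow_le_pow_left₀ (abs_nonneg _) (hV y hy) _
    have h3 : 0 ≤ |V y| ^ (n - m) := by positivity
    have h4 : 0 ≤ B ^ m := le_trans (by positivity) h1
    gcongr
  have hexp : (fun y => (U y + t * V y) ^ n) =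
      fun y => ∑ m ∈ Finset.range (n + 1),
        t ^ (n - m) * (U y ^ m * V y ^ (n - m) * (n.choose m : ℝ)) := by
    funext y
    rw [add_pow]
    refine Finset.sum_congr rfl fun m _ => ?_
    rw [mul_pow]
    ring
  rw [hexp, on_finset_sum]
  · rw [Polynomial.eval_finset_sum]
    refine Finset.sum_congr rfl fun m hm => ?_
    obtain ⟨D, hD⟩ := hb m hm
    rw [on_smul μ S (t ^ (n - m)) (fun y => U y ^ m * V y ^ (n - m) * (n.choose m : ℝ))
      (bdd_indicator_of hD)]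
    simp only [Polynomial.eval_mul, Polynomial.eval_C, Polynomial.eval_pow, Polynomial.eval_X]
    ring
  · intro m hm
    obtain ⟨D, hD⟩ := hb m hm
    refine ⟨|t ^ (n - m)| * D, fun y hy => ?_⟩
    rw [abs_mul]
    exact mul_le_mul_of_nonneg_left (hD y hy) (abs_nonneg _)

end aux

theorem Gabs_nonneg {d : ℕ} (es : List (Fin d → ℝ)) (θ : Fin d → ℝ) : 0 ≤ Gabs es θ := by
  unfold Gabs
  apply List.sum_nonneg
  intro x hx
  obtain ⟨e, _, rfl⟩ := List.mem_map.1 hx
  exact abs_nonneg _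

theorem Gabs_le {d : ℕ} (es : List (Fin d → ℝ)) :
    ∃ B, 0 ≤ B ∧ ∀ θ : Fin d → ℝ, Gabs es θ ≤ B * ‖θ‖ := by
  induction es with
  | nil => exact ⟨0, le_rfl, fun θ => by simp [Gabs]⟩
  | cons e es ih =>
    obtain ⟨B, hB, h⟩ := ih
    refine ⟨d * ‖e‖ + B, by positivity, fun θ => ?_⟩
    have h1 : Gabs (e :: es) θ = |rdot θ e| + Gabs es θ := by simp [Gabs]
    rw [h1]
    have h2 := rdot_bound θ e
    have h3 := h θ
    nlinarith

theorem lemI {A P : Type} [Group A] [Group P] {φ : A →* MulAut P} {δ : A → P}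
    {N N₁ : Subgroup A} {d : ℕ} {L : Lat N N₁ d} {θ : Fin d → ℝ} {ν : UNorm P} {F : P → ℝ}
    {D : Finset P} {s : A → ℝ} (hA : PC A) (h : IDat φ δ L θ ν F D s)
    {A₁ : Subgroup A} {ρ : A → ℝ} {c₀ C₀ : ℝ} (hg : Gro L θ A₁ ρ c₀ C₀)
    (hinf : ∀ n : ℕ, ∃ g : Fin n → A, (∀ i, g i ∈ A₁) ∧
      ∀ i j, i ≠ j → ¬ Par (L.th (g i) θ) (L.th (g j) θ)) : False := by
  classical
  obtain ⟨μ⟩ := exists_rmean A hA.1
  obtain ⟨k, l, hl, hk⟩ := kink hA μ hg hinf
  have hC0 := hg.C0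
  -- bounds for functions comparable with the norm
  have hSR : ∀ (G : A → ℝ) (B : ℝ), 0 ≤ B → (∀ y, |G y| ≤ B * ‖L.th y θ‖) →
      ∃ B', ∀ y ∈ A₁, |(ρ y)⁻¹ * SR l (Rpol L l) G y| ≤ B' := by
    intro G B hB hG
    refine SR_bdd hg l hl.mem (Rpol L l) G (B * C₀) fun y hy => ?_
    calc |G y| ≤ B * ‖L.th y θ‖ := hG y
      _ ≤ B * (C₀ * ρ y) := mul_le_mul_of_nonneg_left (hg.up y hy) hB
      _ = B * C₀ * ρ y := by ring
  set v : A → ℝ := SR l (Rpol L l) (fun z => Real.log (F (δ z))) with hv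
  let X : List (Fin d → ℝ) → A → ℝ := fun es y =>
    (ρ y)⁻¹ * SR l (Rpol L l) (fun z => Gabs es (L.th z θ)) y
  have hb : ∀ es, ∃ B, ∀ y ∈ A₁, |X es y| ≤ B := by
    intro es
    obtain ⟨B, hB, hBe⟩ := Gabs_le es
    refine hSR _ B hB fun y => ?_
    rw [abs_of_nonneg (Gabs_nonneg _ _)]
    exact hBe _
  have hR : ∀ es, ∀ η : ℝ, 0 < η → ∃ (c : A) (s : ℝ), RelD μ A₁ ρ v (X es) c s η := by
    intro es η hη
    obtain ⟨C₁, hC₁, h1⟩ := IRel h μ hg l hl es (half_pos hη)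
    obtain ⟨C₂, hC₂, h2⟩ := IVt h μ hg l (half_pos hη)
    obtain ⟨t, ht⟩ := exists_nat_gt ((C₁ + C₂ + 1) * 2 / η)
    have ht0 : (0 : ℝ) < t := lt_of_le_of_lt (by positivity) ht
    have htn : 0 < t := by exact_mod_cast ht0
    have hts : C₁ + C₂ + 1 < t / 2 * η := by
      rw [div_lt_iff₀ hη] at ht
      linarith
    obtain ⟨c, hc⟩ := h1 t htn
    refine ⟨c, t / 2, by positivity, ?_⟩
    calc μ.mu {y | y ∈ A₁ ∧ ¬ (|v (y * c) - v y - t / 2 * ρ y * X es y| ≤ t / 2 * η * ρ y ∧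
          |v y| ≤ t / 2 * η * ρ y)}
        ≤ μ.mu ({y | y ∈ A₁ ∧
      ¬ (|SR l (Rpol L l) (fun z => Real.log (F (δ z))) (y * c) -
        SR l (Rpol L l) (fun z => Real.log (F (δ z))) y -
        (t / 2) * SR l (Rpol L l) (fun z => Gabs es (L.th z θ)) y| ≤ C₁ * ρ y)} ∪
        {y | y ∈ A₁ ∧
      ¬ (|SR l (Rpol L l) (fun z => Real.log (F (δ z))) y| ≤ C₂ * ρ y)}) := by
          apply mu_mono
          rintro y ⟨hy, hn⟩
          by_contra hcon
          simp only [Set.mem_union, Set.mem_setOf_eq, not_or, not_and, not_not] at hcon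
          have ha := hcon.1 hy
          have hb' := hcon.2 hy
          have hpos := hg.pos y hy
          apply hn
          constructor
          · have he : t / 2 * ρ y * X es y =
                (t / 2) * SR l (Rpol L l) (fun z => Gabs es (L.th z θ)) y := by
              change t / 2 * ρ y * ((ρ y)⁻¹ * SR l (Rpol L l) (fun z => Gabs es (L.th z θ)) y) = _
              field_simp
            rw [he]
            refine ha.trans ?_
            apply mul_le_mul_of_nonneg_right _ hpos.le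
            linarith
          · refine hb'.trans ?_
            apply mul_le_mul_of_nonneg_right _ hpos.le
            linarith
      _ ≤ η / 2 + η / 2 := (mu_union μ _ _).trans (add_le_add hc h2)
      _ = η := by ring
  obtain ⟨κ, hκ0, hκ⟩ := momB μ A₁ hg.fin hg.norm₁ ρ v hg.pos hg.mul X hb hR
  obtain ⟨e, u, heu⟩ := hk κ
  let G1 : A → ℝ := fun z => |rdot (L.th z θ) (e + u)| + |rdot (L.th z θ) (e - u)|
  let G2 : A → ℝ := fun z => |rdot (L.th z θ) e|
  let U : A → ℝ := fun y => (ρ y)⁻¹ * SR l (Rpol L l) G1 y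
  let V : A → ℝ := fun y => (ρ y)⁻¹ * SR l (Rpol L l) G2 y
  obtain ⟨BU, hBU⟩ : ∃ B', ∀ y ∈ A₁, |U y| ≤ B' := by
    refine hSR G1 (d * ‖e + u‖ + d * ‖e - u‖) (by positivity) fun y => ?_
    have h1 := rdot_bound (L.th y θ) (e + u)
    have h2 := rdot_bound (L.th y θ) (e - u)
    change |(|rdot (L.th y θ) (e + u)| + |rdot (L.th y θ) (e - u)|)| ≤ _
    rw [abs_of_nonneg (by positivity)]
    nlinarith
  obtain ⟨BV, hBV⟩ : ∃ B', ∀ y ∈ A₁, |V y| ≤ B' := by
    refine hSR G2 (d * ‖e‖) (by positivity) fun y => ?_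
    have h1 := rdot_bound (L.th y θ) e
    change |(|rdot (L.th y θ) e|)| ≤ _
    rw [abs_abs]
    nlinarith
  obtain ⟨p2, hp2⟩ := moment_poly μ A₁ U V hBU hBV 2
  obtain ⟨p4, hp4⟩ := moment_poly μ A₁ U V hBU hBV 4
  have hXt : ∀ (t : ℝ) (y : A), (ρ y)⁻¹ * SR l (Rpol L l) (fun z => G1 z + t * G2 z) y =
      U y + t * V y := by
    intro t y
    rw [SR_add, SR_smul]
    change _ = (ρ y)⁻¹ * SR l (Rpol L l) G1 y + t * ((ρ y)⁻¹ * SR l (Rpol L l) G2 y)
    ring
  have hXg : ∀ (τ : ℕ) (y : A), X [e + u, e - u, (τ : ℝ) • e] y = U y + τ * V y := by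
    intro τ y
    rw [← hXt]
    change (ρ y)⁻¹ * SR l (Rpol L l) (fun z => Gabs [e + u, e - u, (τ : ℝ) • e] (L.th z θ)) y = _
    congr 2
    funext z
    have hsm : rdot (L.th z θ) ((τ : ℝ) • e) = τ * rdot (L.th z θ) e := by
      unfold rdot
      rw [Finset.mul_sum]
      refine Finset.sum_congr rfl fun i _ => ?_
      simp only [Pi.smul_apply, smul_eq_mul]
      ring
    have hab : |(τ : ℝ) * rdot (L.th z θ) e| = τ * |rdot (L.th z θ) e| := by
      rw [abs_mul, Nat.abs_cast]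
    simp only [Gabs, List.map_cons, List.map_nil, List.sum_cons, List.sum_nil, hsm, hab, G1, G2]
    ring
  have key := hκ (fun τ => [e + u, e - u, (τ : ℝ) • e]) p2 p4
    (fun τ => by
      rw [hp2]
      congr 1
      funext y
      rw [← hXg])
    (fun τ => by
      rw [hp4]
      congr 1
      funext y
      rw [← hXg]) (-2)
  rw [hp2, hp4] at key
  have hfin : ∀ y : A, (ρ y)⁻¹ * SR l (Rpol L l) (fun z =>
      |rdot (L.th z θ) (e + u)| + |rdot (L.th z θ) (e - u)| - 2 * |rdot (L.th z θ) e|) y =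
      U y + (-2) * V y := by
    intro y
    rw [← hXt]
    congr 2
    funext z
    simp only [G1, G2]
    ring
  simp only [hfin] at heu
  linarith

/-- Lemma I with the auxiliary data (point at infinity, generating set, maximum) constructed:
`θ ∈ Sig φ L` -/
theorem lemI' {A P : Type} [Group A] [Group P] {φ : A →* MulAut P} {δ : A → P}
    {N N₁ : Subgroup A} {d : ℕ} {L : Lat N N₁ d} {θ : Fin d → ℝ} (hA : PC A) (hc : Coc φ δ)
    (hle : N₁ ≤ N) (hF : FGO φ N) (hθ : θ ∈ Sig φ L)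
    {A₁ : Subgroup A} {ρ : A → ℝ} {c₀ C₀ : ℝ} (hg : Gro L θ A₁ ρ c₀ C₀)
    (hinf : ∀ n : ℕ, ∃ g : Fin n → A, (∀ i, g i ∈ A₁) ∧
      ∀ i j, i ≠ j → ¬ Par (L.th (g i) θ) (L.th (g j) θ)) : False := by
  classical
  obtain ⟨hθ0, ν, hnz, hν⟩ := hθ
  have hN := hg.norm
  have hadd : Addi N (L.psi θ) := L.psi_add θ
  have hψ0 : ∃ n ∈ N, L.psi θ n ≠ 0 := by
    obtain ⟨n, hn, hp⟩ := L.exists_pos hθ0
    exact ⟨n, hn, hp.ne'⟩
  obtain ⟨F, hFp⟩ := exists_pt hN hc.mul hadd hψ0 hν (ker_bdd hA.2 hc.mul hadd hν)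
  obtain ⟨D, hD⟩ := hF
  -- if `ν (φ y x) = 0` for all `x ∈ D` then `ν = 0`
  have hzero : ∀ y : A, ∃ x ∈ D, 0 < ν.N (φ y x) := by
    intro y
    by_contra hcon
    push Not at hcon
    have hcon' : ∀ x ∈ D, ν.N (φ y x) = 0 := fun x hx => le_antisymm (hcon x hx) (ν.nonneg _)
    obtain ⟨p, hp⟩ := hnz
    apply hp
    have hall : ∀ q ∈ Tr φ (N : Set A) (D : Set P), ν.N (φ y q) = 0 := by
      intro q hq
      unfold Tr at hq
      induction hq using Subgroup.closure_induction with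
      | mem x hx =>
        obtain ⟨n, hn, x', hx', rfl⟩ := hx
        have h1 : φ y (φ n x') = φ (y * n * y⁻¹) (φ y x') := by
          rw [← MulAut.mul_apply, ← MulAut.mul_apply, ← map_mul, ← map_mul]
          congr 2
          group
        rw [h1, hν _ (hN.conj_mem n hn y), hcon' x' hx', mul_zero]
      | one => rw [map_one, ν.one]
      | mul a b _ _ ha hb =>
        rw [map_mul]
        refine le_antisymm ((ν.mul _ _).trans ?_) (ν.nonneg _)
        rw [ha, hb, max_self]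
      | inv a _ ha => rw [map_inv, ν.inv, ha]
    have h2 := hall (φ y⁻¹ p) (by rw [hD]; trivial)
    rwa [← MulAut.mul_apply, ← map_mul, mul_inv_cancel, map_one, MulAut.one_apply] at h2
  have hDne : D.Nonempty := by
    obtain ⟨x, hx, _⟩ := hzero 1
    exact ⟨x, hx⟩
  exact lemI (D := D) (s := fun y => D.sup' hDne (fun x => ν.N (φ y x))) (ν := ν) (F := F) hA
    { coc := hc
      norm := hN
      le := hle
      gen := hD
      nz := hnz
      eqv := hν
      pt := hFp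
      th0 := hθ0
      s_pos := by
        intro y
        obtain ⟨x, hx, hpos⟩ := hzero y
        exact lt_of_lt_of_le hpos (Finset.le_sup' (fun x => ν.N (φ y x)) hx)
      s_le := fun y x hx => Finset.le_sup' (fun x => ν.N (φ y x)) hx
      s_att := by
        intro y
        obtain ⟨x, hx, he⟩ := Finset.exists_mem_eq_sup' hDne (fun x => ν.N (φ y x))
        exact ⟨x, hx, he.symm⟩ } hg hinf

end Pool.Agent.RPC
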