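import Pool.Agent.RPC.MIlin
import Pool.Agent.RPC.PCBasic

/-!
MODULE RPC/MI : Mal'cev in the irreducible case.
WLOG M injective: replace A by H = A / ker M (PC, M factors, irreducible; pull back at the end).
Claim (downward induction on j): there is T ≤ H^(j) := derivedSeries H j, T normal in H, abelian, of
finite index in H^(j).  j large: H^(j) = ⊥.  Given T for j+1: MI_lin gives H₂, m.  T ∩ [H₂,H₂] is a f.g.
abelian group of exponent dividing m (M injective), so finite; [H₂,H₂] ∩ H^(j+1) is finite since T has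
finite index in H^(j+1).  S := H₂ ∩ H^(j) is normal in H, f.g., [S,S] ≤ [H₂,H₂] ∩ H^(j+1) finite, so the
centre of S has finite index in S (Mathlib, f.g. group with finite commutator subgroup), it is normal in
H (characteristic in S).  T_j := centre of S.
j = 0: T₀ abelian normal of finite index in H; A₃ = preimage.
-/

set_option autoImplicit false

namespace Pool.Agent.RPC

/-- a subgroup in which a finite subgroup has finite index is finite -/
theorem finite_of_relIndex {G : Type} [Group G] (T D : Subgroup G)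
    (h1 : Finite (↥(T ⊓ D))) (h2 : T.relIndex D ≠ 0) : Finite (↥D) := by
  have h3 : (⊥ : Subgroup G).relIndex (T ⊓ D) ≠ 0 := by
    rw [Subgroup.relIndex_bot_left]
    exact Nat.card_pos.ne'
  have h4 : (T ⊓ D).relIndex D ≠ 0 := by
    rw [Subgroup.inf_relIndex_right]
    exact h2
  have h5 := Subgroup.relIndex_ne_zero_trans h3 h4
  rw [Subgroup.relIndex_bot_left] at h5
  exact Nat.finite_of_card_ne_zero h5

/-- a f.g. commutative subgroup of finite exponent is finite -/
theorem finite_of_exp {G : Type} [Group G] (F : Subgroup G) (hF : F.FG)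
    (hc : ∀ a ∈ F, ∀ b ∈ F, a * b = b * a) (m : ℕ) (hm : 0 < m) (he : ∀ x ∈ F, x ^ m = 1) :
    Finite (↥F) := by
  letI : CommGroup (↥F) :=
    { (inferInstance : Group (↥F)) with
      mul_comm := fun a b => Subtype.ext (hc a.1 a.2 b.1 b.2) }
  haveI : Group.FG (↥F) := (Group.fg_iff_subgroup_fg F).2 hF
  apply CommGroup.finite_of_fg_isMulTorsion
  intro x
  exact isOfFinOrder_iff_pow_eq_one.2 ⟨m, hm, Subtype.ext (he x.1 x.2)⟩

theorem MI_step {H : Type} [Group H] (hH : PC H) {d : ℕ} (M : H →* Matrix (Fin d) (Fin d) ℚ)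
    (hirr : ∀ U : Submodule ℚ (Fin d → ℚ), (∀ a, ∀ v ∈ U, (M a).mulVec v ∈ U) →
      U = ⊥ ∨ U = ⊤) (hinj : Function.Injective M) (L K : Subgroup H) (hL : L.Normal)
    (hLK : ⁅L, L⁆ ≤ K) (T : Subgroup H) (hT : T.Normal) (hTc : ∀ a ∈ T, ∀ b ∈ T, a * b = b * a)
    (hTK : T.relIndex K ≠ 0) :
    ∃ T' : Subgroup H, T' ≤ L ∧ T'.Normal ∧ (∀ a ∈ T', ∀ b ∈ T', a * b = b * a) ∧
      T'.relIndex L ≠ 0 := by
  obtain ⟨H₂, hn, hf, m, hm, hx⟩ := MI_lin M hirr T hT
    (fun a ha b hb => by rw [← map_mul, ← map_mul, hTc a ha b hb])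
  have hexp : ∀ x ∈ T ⊓ ⁅H₂, H₂⁆, x ^ m = 1 := by
    intro x hxx
    apply hinj
    rw [map_pow, map_one]
    exact hx x hxx.1 hxx.2
  have hF : Finite (↥(T ⊓ ⁅H₂, H₂⁆)) :=
    finite_of_exp _ (hH.2 _) (fun a ha b hb => hTc a ha.1 b hb.1) m hm hexp
  -- D is finite
  have hD : Finite (↥(⁅H₂, H₂⁆ ⊓ K)) := by
    apply finite_of_relIndex T
    · have : T ⊓ (⁅H₂, H₂⁆ ⊓ K) ≤ T ⊓ ⁅H₂, H₂⁆ := inf_le_inf_left _ inf_le_left
      exact Finite.of_injective (Subgroup.inclusion this) (Subgroup.inclusion_injective this)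
    · intro h0
      exact hTK (Subgroup.relIndex_eq_zero_of_le_right inf_le_right h0)
  -- S
  let S : Subgroup H := H₂ ⊓ L
  haveI hSn : S.Normal := Subgroup.normal_inf_normal H₂ L
  haveI : Group.FG (↥S) := (Group.fg_iff_subgroup_fg S).2 (hH.2 S)
  have hcomm : ⁅S, S⁆ ≤ ⁅H₂, H₂⁆ ⊓ K := le_inf
    (Subgroup.commutator_mono inf_le_left inf_le_left)
    ((Subgroup.commutator_mono inf_le_right inf_le_right).trans hLK)
  haveI hfs : Finite (commutatorSet (↥S)) := by
    apply Finite.of_injective (β := (↥(⁅H₂, H₂⁆ ⊓ K)))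
      (fun x : commutatorSet (↥S) => ⟨((x.1 : ↥S) : H), by
        obtain ⟨x, g, h, rfl⟩ := x
        apply hcomm
        have := Subgroup.commutator_mem_commutator (H₁ := S) (H₂ := S) g.2 h.2
        simpa [commutatorElement_def] using this⟩)
    intro x y hxy
    have := congrArg Subtype.val hxy
    exact Subtype.ext (Subtype.ext this)
  have hcen : (Subgroup.center (↥S)).FiniteIndex := Subgroup.finiteIndex_center
  refine ⟨(Subgroup.center (↥S)).map S.subtype, ?_, ?_, ?_, ?_⟩
  · rintro _ ⟨x, -, rfl⟩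
    exact x.2.2
  · exact ConjAct.normal_of_characteristic_of_normal
  · rintro _ ⟨x, hx, rfl⟩ _ ⟨y, hy, rfl⟩
    have := (Subgroup.mem_center_iff.1 hx y)
    have := congrArg Subtype.val this
    simpa using this.symm
  · have h1 : ((Subgroup.center (↥S)).map S.subtype).relIndex S ≠ 0 := by
      have : ((Subgroup.center (↥S)).map S.subtype).relIndex S = (Subgroup.center (↥S)).index := by
        unfold Subgroup.relIndex Subgroup.subgroupOf
        rw [Subgroup.comap_map_eq_self_of_injective S.subtype_injective]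
      rw [this]
      exact hcen.index_ne_zero
    have h2 : S.relIndex L ≠ 0 := by
      show (H₂ ⊓ L).relIndex L ≠ 0
      rw [Subgroup.inf_relIndex_right]
      intro h0
      exact hf.index_ne_zero (Subgroup.index_eq_zero_of_relIndex_eq_zero h0)
    exact Subgroup.relIndex_ne_zero_trans h1 h2

theorem MI_inj {H : Type} [Group H] (hH : PC H) {d : ℕ} (M : H →* Matrix (Fin d) (Fin d) ℚ)
    (hirr : ∀ U : Submodule ℚ (Fin d → ℚ), (∀ a, ∀ v ∈ U, (M a).mulVec v ∈ U) →
      U = ⊥ ∨ U = ⊤) (hinj : Function.Injective M) :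
    ∃ T : Subgroup H, T.Normal ∧ (∀ a ∈ T, ∀ b ∈ T, a * b = b * a) ∧ T.FiniteIndex := by
  obtain ⟨n, hn⟩ := (Group.isSolvable_def H).1 hH.1
  have key : ∀ k, k ≤ n → ∃ T : Subgroup H, T ≤ derivedSeries H (n - k) ∧ T.Normal ∧
      (∀ a ∈ T, ∀ b ∈ T, a * b = b * a) ∧ T.relIndex (derivedSeries H (n - k)) ≠ 0 := by
    intro k
    induction k with
    | zero =>
      intro _
      refine ⟨⊥, bot_le, inferInstance, ?_, ?_⟩
      · intro a ha b hb
        rw [Subgroup.mem_bot] at ha hb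
        rw [ha, hb]
      · rw [Nat.sub_zero, hn, Subgroup.relIndex_self]
        exact one_ne_zero
    | succ k ih =>
      intro hk
      obtain ⟨T, _, hT, hTc, hTK⟩ := ih (by omega)
      have hs : n - k = (n - (k + 1)) + 1 := by omega
      rw [hs, derivedSeries_succ] at hTK
      exact MI_step hH M hirr hinj (derivedSeries H (n - (k + 1))) _
        (derivedSeries_normal H _) le_rfl T hT hTc hTK
  obtain ⟨T, _, hT, hTc, hTK⟩ := key n le_rfl
  rw [Nat.sub_self, derivedSeries_zero, Subgroup.relIndex_top_right] at hTK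
  exact ⟨T, hT, hTc, ⟨hTK⟩⟩

theorem MI {A : Type} [Group A] (hA : PC A) {d : ℕ} (M : A →* Matrix (Fin d) (Fin d) ℚ)
    (hirr : ∀ U : Submodule ℚ (Fin d → ℚ), (∀ a, ∀ v ∈ U, (M a).mulVec v ∈ U) →
      U = ⊥ ∨ U = ⊤) :
    ∃ A₃ : Subgroup A, A₃.Normal ∧ A₃.FiniteIndex ∧
      ∀ a ∈ A₃, ∀ b ∈ A₃, M a * M b = M b * M a := by
  let N : A →* (Matrix (Fin d) (Fin d) ℚ)ˣ := M.toHomUnits
  let N' : A →* (↥N.range) := N.rangeRestrict
  let M' : (↥N.range) →* Matrix (Fin d) (Fin d) ℚ :=
    (Units.coeHom _).comp (Subgroup.subtype _)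
  have hM' : ∀ a, M' (N' a) = M a := fun a => rfl
  have hsurj : Function.Surjective N' := N.rangeRestrict_surjective
  have hinj : Function.Injective M' := by
    intro x y hxy
    exact Subtype.ext (Units.ext hxy)
  obtain ⟨T, hT, hTc, hTf⟩ := MI_inj (hA.map N' hsurj) M' (by
    intro U hU
    apply hirr U
    intro a v hv
    exact hU (N' a) v hv) hinj
  refine ⟨T.comap N', inferInstance, ⟨?_⟩, ?_⟩
  · rw [Subgroup.index_comap_of_surjective T hsurj]
    exact hTf.index_ne_zero
  intro a ha b hb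
  have := hTc (N' a) ha (N' b) hb
  rw [← hM' a, ← hM' b, ← map_mul M' (N' a) (N' b), ← map_mul M' (N' b) (N' a), this]

end Pool.Agent.RPC
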