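import Mathlib

/-!
MODULE RPC/MIlin : linear part of Mal'cev's theorem in the irreducible case.
H acts on ℚ^d irreducibly by matrices M h; T normal in H with commuting matrices.  Then there are a
normal subgroup H₂ of finite index and m > 0 with M(x)^m = 1 for x ∈ T ∩ [H₂, H₂].
Proof.  d = 0 trivial.  Over ℂ: for a function χ : T → ℂ let V_χ = ⋂_{t ∈ T} maximal generalised
eigenspace of M t for χ t.  ℂ^d is the direct sum of the nonzero V_χ (finitely many χ; commuting family:
Mathlib `Module.End.iSup_iInf_maxGenEigenspace_eq_top_of_forall_mapsTo`,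
`Module.End.independent_iInf_maxGenEigenspace_of_forall_mapsTo`).  M h V_χ = V_χ' with
χ'(t) = χ(h⁻¹ t h), so H permutes the finitely many nonzero V_χ; H₂ = kernel of this permutation action
(normal, finite index).  For x ∈ [H₂,H₂]: det(M x | V_χ) = 1 (det is multiplicative on H₂).  For x ∈ T
det(M x | V_χ) = χ(x)^(dim V_χ).  So χ(x)^m = 1 for all χ, m := d!, and M(x)^m - 1 is nilpotent on ℂ^d,
hence on ℚ^d.
U := {y ∈ T ∩ [H₂,H₂] : M y - 1 nilpotent}: a subgroup (commuting), normal in H.  The common fixed space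
W = {v ∈ ℚ^d : M y v = v for all y ∈ U} is H-invariant (U normal) and ≠ 0 (commuting unipotent
operators on a nonzero space: take a nonzero subspace of the form ⋂ ker (M y_i - 1) of minimal dimension
over finite sets; adding one more y keeps it nonzero since M y - 1 is nilpotent on it).  So W = ⊤ and
M y = 1 on U; y = x^m ∈ U.
-/

set_option autoImplicit false

namespace Pool.Agent.RPC

open scoped commutatorElement

namespace MIlinAux

lemma det_of_sub_nilpotent {K V : Type} [Field K] [AddCommGroup V] [Module K V]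
    [FiniteDimensional K V] (g : Module.End K V) (μ : K)
    (h : IsNilpotent (g - algebraMap K (Module.End K V) μ)) :
    LinearMap.det g = μ ^ Module.finrank K V := by
  have h2 : IsNilpotent (-(g - algebraMap K (Module.End K V) μ)) := h.neg
  have h3 := h2.charpoly_eq_X_pow_finrank
  have h4 := LinearMap.eval_charpoly (-(g - algebraMap K (Module.End K V) μ)) μ
  rw [h3] at h4
  have h5 : algebraMap K (Module.End K V) μ - -(g - algebraMap K (Module.End K V) μ) = g := by
    abel
  rw [h5] at h4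
  simpa using h4.symm

lemma exists_common_ker {K V : Type} [Field K] [AddCommGroup V] [Module K V]
    [FiniteDimensional K V] [Nontrivial V]
    (S : Set (Module.End K V)) (hc : ∀ a ∈ S, ∀ b ∈ S, a * b = b * a)
    (hn : ∀ a ∈ S, IsNilpotent a) :
    ∃ N : Submodule K V, N ≠ ⊥ ∧ ∀ a ∈ S, ∀ v ∈ N, a v = 0 := by
  classical
  let P : Set (Submodule K V) := {N | N ≠ ⊥ ∧ ∀ a ∈ S, ∀ v ∈ N, a v ∈ N}
  have hP : P.Nonempty := ⟨⊤, top_ne_bot, fun a _ v _ => Submodule.mem_top⟩
  obtain ⟨N, hN, hmin⟩ := (wellFounded_lt (α := Submodule K V)).has_min P hP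
  refine ⟨N, hN.1, ?_⟩
  intro a ha
  have hN' : N ⊓ LinearMap.ker a ∈ P := by
    constructor
    · -- nonzero
      obtain ⟨v, hv, hv0⟩ := Submodule.exists_mem_ne_zero_of_ne_bot hN.1
      obtain ⟨k, hk⟩ := hn a ha
      have hex : ∃ k : ℕ, (a ^ k) v = 0 := ⟨k, by rw [hk]; rfl⟩
      have hfind := Nat.find_spec hex
      have hpos : Nat.find hex ≠ 0 := by
        intro h0
        rw [h0] at hfind
        exact hv0 (by simpa using hfind)
      obtain ⟨j, hj⟩ := Nat.exists_eq_succ_of_ne_zero hpos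
      have hlt : j < Nat.find hex := by omega
      have hne := Nat.find_min hex hlt
      have hmemN : ∀ i : ℕ, (a ^ i) v ∈ N := by
        intro i
        induction i with
        | zero => simpa using hv
        | succ i ih =>
          rw [pow_succ']
          exact hN.2 a ha _ ih
      intro hbot
      have hmem : (a ^ j) v ∈ N ⊓ LinearMap.ker a := by
        refine Submodule.mem_inf.2 ⟨hmemN j, ?_⟩
        rw [LinearMap.mem_ker]
        rw [hj, Nat.succ_eq_add_one, pow_succ'] at hfind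
        exact hfind
      rw [hbot, Submodule.mem_bot] at hmem
      exact hne hmem
    · intro b hb v hv
      refine ⟨hN.2 b hb v hv.1, ?_⟩
      have h1 : a v = 0 := hv.2
      change a (b v) = 0
      have h2 : (a * b) v = (b * a) v := by rw [hc a ha b hb]
      have h3 : a (b v) = b (a v) := h2
      rw [h3, h1, map_zero]
  have hle : ¬ (N ⊓ LinearMap.ker a < N) := hmin _ hN'
  have heq : N ⊓ LinearMap.ker a = N := by
    rcases (inf_le_left : N ⊓ LinearMap.ker a ≤ N).lt_or_eq with h | h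
    · exact absurd h hle
    · exact h
  intro v hv
  have : v ∈ N ⊓ LinearMap.ker a := by rw [heq]; exact hv
  exact this.2

/-- commutators die under a monoid homomorphism to a commutative monoid. -/
lemma hom_commutator {H A : Type} [Group H] [CommMonoid A] (δ : H →* A) (a b : H) :
    δ ⁅a, b⁆ = 1 := by
  rw [commutatorElement_def, map_mul, map_mul, map_mul]
  calc δ a * δ b * δ a⁻¹ * δ b⁻¹ = (δ a * δ a⁻¹) * (δ b * δ b⁻¹) := by
        rw [mul_assoc (δ a), mul_comm (δ b), ← mul_assoc, mul_assoc (δ a * δ a⁻¹)]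
    _ = 1 := by rw [← map_mul, ← map_mul, mul_inv_cancel, mul_inv_cancel, map_one, one_mul]

/-- The main complex statement. -/
lemma complex_part {H : Type} [Group H] {d : ℕ} (f : H →* Module.End ℂ (Fin d → ℂ))
    (T : Subgroup H) (hT : T.Normal) (hcomm : ∀ a ∈ T, ∀ b ∈ T, f a * f b = f b * f a) :
    ∃ H₂ : Subgroup H, H₂.Normal ∧ H₂.FiniteIndex ∧
      ∀ x ∈ T, x ∈ (⁅H₂, H₂⁆ : Subgroup H) → IsNilpotent (f x ^ (Nat.factorial d) - 1) := by
  classical
  let V : (T → ℂ) → Submodule ℂ (Fin d → ℂ) := fun χ => ⨅ t : T, (f (t : H)).maxGenEigenspace (χ t)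
  have hmem : ∀ χ v, v ∈ V χ ↔ ∀ t : T, ∃ k : ℕ, ((f (t : H) - χ t • (1 : Module.End ℂ (Fin d → ℂ))) ^ k) v = 0 := by
    intro χ v
    exact Module.End.mem_iInf_maxGenEigenspace_iff (fun t : T => f (t : H)) χ v
  have hcT : ∀ s t : T, Commute (f (s : H)) (f (t : H)) := fun s t => hcomm s s.2 t t.2
  have htop : ⨆ χ, V χ = ⊤ := by
    apply Module.End.iSup_iInf_maxGenEigenspace_eq_top_of_iSup_maxGenEigenspace_eq_top_of_commute
      (fun t : T => f (t : H))
    · intro s t _
      exact hcT s t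
    · intro t
      exact Module.End.iSup_maxGenEigenspace_eq_top _
  have hind : iSupIndep V := by
    apply Module.End.independent_iInf_maxGenEigenspace_of_forall_mapsTo (fun t : T => f (t : H))
    intro s t φ
    exact Module.End.mapsTo_maxGenEigenspace_of_comm (hcT t s) φ
  let X : Set (T → ℂ) := {χ | V χ ≠ ⊥}
  have hXfin : X.Finite := WellFoundedGT.finite_ne_bot_of_iSupIndep hind
  let act : H → (T → ℂ) → (T → ℂ) := fun h χ t => χ (MulAut.conjNormal h⁻¹ t)
  have act_one : ∀ χ, act 1 χ = χ := by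
    intro χ; funext t
    change χ (MulAut.conjNormal (1:H)⁻¹ t) = χ t
    congr 1
    apply Subtype.ext
    rw [MulAut.conjNormal_apply]
    simp
  have act_mul : ∀ g h χ, act (g * h) χ = act g (act h χ) := by
    intro g h χ; funext t
    simp only [act, mul_inv_rev, map_mul, MulAut.mul_apply]
  have hmap : ∀ (h : H) (χ : T → ℂ) (v : Fin d → ℂ), v ∈ V χ → f h v ∈ V (act h χ) := by
    intro h χ v hv
    rw [hmem] at hv ⊢
    intro s
    obtain ⟨k, hk⟩ := hv (MulAut.conjNormal h⁻¹ s)
    refine ⟨k, ?_⟩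
    have hconj : ((MulAut.conjNormal h⁻¹ s : T) : H) = h⁻¹ * s * h := by
      rw [MulAut.conjNormal_apply, inv_inv]
    have hsemi : SemiconjBy (f h) (f ((MulAut.conjNormal h⁻¹ s : T) : H)
        - (act h χ s) • (1 : Module.End ℂ (Fin d → ℂ)))
        (f (s : H) - (act h χ s) • (1 : Module.End ℂ (Fin d → ℂ))) := by
      unfold SemiconjBy
      rw [mul_sub, sub_mul, hconj, ← map_mul, ← map_mul]
      congr 1
      · congr 1; group
      · rw [mul_smul_comm, smul_mul_assoc, mul_one, one_mul]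
    have h1 := (hsemi.pow_right k).eq
    have h2 := congrArg (fun g : Module.End ℂ (Fin d → ℂ) => g v) h1
    simp only [Module.End.mul_apply] at h2
    have hk' : ((f ((MulAut.conjNormal h⁻¹ s : T) : H)
        - (act h χ s) • (1 : Module.End ℂ (Fin d → ℂ))) ^ k) v = 0 := hk
    rw [hk', map_zero] at h2
    exact h2.symm
  have hinj : ∀ h : H, Function.Injective (f h) := by
    intro h v w hvw
    have := congrArg (f h⁻¹) hvw
    have e : ∀ u, f h⁻¹ (f h u) = u := by
      intro u
      rw [← Module.End.mul_apply, ← map_mul, inv_mul_cancel, map_one]; rfl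
    rwa [e, e] at this
  have hX : ∀ h, ∀ χ ∈ X, act h χ ∈ X := by
    intro h χ hχ
    obtain ⟨v, hv, hv0⟩ := Submodule.exists_mem_ne_zero_of_ne_bot (p := V χ) hχ
    intro hbot
    have := hmap h χ v hv
    rw [hbot, Submodule.mem_bot] at this
    exact hv0 (hinj h (by rw [this, map_zero]))
  let _ : MulAction H X :=
    { smul := fun h χ => ⟨act h χ, hX h χ χ.2⟩
      one_smul := fun χ => Subtype.ext (act_one χ)
      mul_smul := fun g h χ => Subtype.ext (act_mul g h χ) }
  have : Finite X := hXfin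
  let ρ : H →* Equiv.Perm X := MulAction.toPermHom H X
  have hρ : ∀ h ∈ ρ.ker, ∀ χ ∈ X, act h χ = χ := by
    intro h hh χ hχ
    have h1 : ρ h = 1 := hh
    have h2 := congrArg (fun e : Equiv.Perm X => e ⟨χ, hχ⟩) h1
    have h3 := congrArg Subtype.val h2
    exact h3
  refine ⟨ρ.ker, inferInstance, inferInstance, ?_⟩
  intro x hxT hxc
  -- invariance
  have hinv : ∀ h ∈ ρ.ker, ∀ χ ∈ X, ∀ v ∈ V χ, f h v ∈ V χ := by
    intro h hh χ hχ v hv
    have := hmap h χ v hv
    rwa [hρ h hh χ hχ] at this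
  have key : ∀ χ ∈ X, (χ ⟨x, hxT⟩) ^ (Nat.factorial d) = 1 := by
    intro χ hχ
    let δ : ρ.ker →* ℂ :=
      { toFun := fun h => LinearMap.det ((f (h : H)).restrict (hinv h h.2 χ hχ))
        map_one' := by
          have : (f ((1 : ρ.ker) : H)).restrict (hinv (1 : ρ.ker) (1 : ρ.ker).2 χ hχ) = 1 := by
            ext v
            simp
          rw [this, map_one]
        map_mul' := by
          intro g h
          have : (f ((g * h : ρ.ker) : H)).restrict (hinv (g * h : ρ.ker) (g * h : ρ.ker).2 χ hχ)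
              = (f (g : H)).restrict (hinv g g.2 χ hχ) * (f (h : H)).restrict (hinv h h.2 χ hχ) := by
            ext v
            simp [Module.End.mul_apply]
          rw [this, map_mul] }
    have hle : (⁅ρ.ker, ρ.ker⁆ : Subgroup H) ≤ δ.ker.map ρ.ker.subtype := by
      rw [Subgroup.commutator_le]
      intro g₁ h₁ g₂ h₂
      refine ⟨⁅(⟨g₁, h₁⟩ : ρ.ker), (⟨g₂, h₂⟩ : ρ.ker)⁆, ?_, rfl⟩
      exact hom_commutator δ _ _
    obtain ⟨y, hy, hyx⟩ := hle hxc
    have hyx' : (y : H) = x := hyx
    have hdet : LinearMap.det ((f (y : H)).restrict (hinv y y.2 χ hχ)) = 1 := hy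
    have hnil : IsNilpotent ((f (y : H)).restrict (hinv y y.2 χ hχ)
        - algebraMap ℂ (Module.End ℂ (V χ)) (χ ⟨x, hxT⟩)) := by
      -- use exponent d
      refine ⟨Module.finrank ℂ (Fin d → ℂ), ?_⟩
      ext1 v
      apply Subtype.ext
      have hv : (v : Fin d → ℂ) ∈ (f x).maxGenEigenspace (χ ⟨x, hxT⟩) := by
        have := v.2
        exact (Submodule.mem_iInf _).1 this ⟨x, hxT⟩
      rw [Module.End.maxGenEigenspace_eq_genEigenspace_finrank, Module.End.mem_genEigenspace_nat,
        LinearMap.mem_ker] at hv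
      have hcoe : ∀ (k : ℕ) (w : V χ), ((((f (y : H)).restrict (hinv y y.2 χ hχ)
        - algebraMap ℂ (Module.End ℂ (V χ)) (χ ⟨x, hxT⟩)) ^ k) w : Fin d → ℂ)
          = ((f x - (χ ⟨x, hxT⟩) • (1 : Module.End ℂ (Fin d → ℂ))) ^ k) (w : Fin d → ℂ) := by
        intro k
        induction k with
        | zero => intro w; simp
        | succ k ih =>
          intro w
          rw [pow_succ, pow_succ, Module.End.mul_apply, Module.End.mul_apply, ih]
          congr 1
          simp [hyx', Algebra.algebraMap_eq_smul_one]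
      rw [hcoe, hv]
      rfl
    rw [det_of_sub_nilpotent _ _ hnil] at hdet
    have hpos : 0 < Module.finrank ℂ (V χ) := by
      rw [Module.finrank_pos_iff]
      exact Submodule.nontrivial_iff_ne_bot.2 hχ
    have hle2 : Module.finrank ℂ (V χ) ≤ d := by
      have := Submodule.finrank_le (V χ)
      simpa using this
    obtain ⟨c, hc⟩ := Nat.dvd_factorial hpos hle2
    rw [hc, pow_mul, hdet, one_pow]
  -- nilpotency
  refine ⟨Module.finrank ℂ (Fin d → ℂ), ?_⟩
  have hle : (⨆ χ, V χ) ≤ LinearMap.ker ((f x ^ (Nat.factorial d) - 1) ^ (Module.finrank ℂ (Fin d → ℂ))) := by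
    apply iSup_le
    intro χ
    by_cases hχ : V χ = ⊥
    · rw [hχ]; exact bot_le
    intro v hv
    have hv' : v ∈ (f x).maxGenEigenspace (χ ⟨x, hxT⟩) := (Submodule.mem_iInf _).1 hv ⟨x, hxT⟩
    rw [Module.End.maxGenEigenspace_eq_genEigenspace_finrank, Module.End.mem_genEigenspace_nat,
      LinearMap.mem_ker] at hv'
    have hk := key χ hχ
    have hcomm2 : Commute (f x) ((χ ⟨x, hxT⟩) • (1 : Module.End ℂ (Fin d → ℂ))) := by
      exact (Commute.one_right _).smul_right _
    have hg := hcomm2.geom_sum₂_mul (Nat.factorial d)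
    rw [smul_pow, one_pow, hk, one_smul] at hg
    have hcomm3 : Commute (∑ i ∈ Finset.range (Nat.factorial d), f x ^ i * ((χ ⟨x, hxT⟩) • (1 : Module.End ℂ (Fin d → ℂ))) ^ (Nat.factorial d - 1 - i))
        (f x - (χ ⟨x, hxT⟩) • (1 : Module.End ℂ (Fin d → ℂ))) := by
      apply Commute.sum_left
      intro i _
      apply Commute.mul_left
      · apply Commute.pow_left
        exact (Commute.refl _).sub_right hcomm2
      · apply Commute.pow_left
        exact hcomm2.symm.sub_right (Commute.refl _)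
    rw [LinearMap.mem_ker, ← hg, hcomm3.mul_pow, Module.End.mul_apply, hv', map_zero]
  rw [htop] at hle
  apply LinearMap.ext
  intro v
  exact hle Submodule.mem_top

end MIlinAux

theorem MI_lin {H : Type} [Group H] {d : ℕ} (M : H →* Matrix (Fin d) (Fin d) ℚ)
    (hirr : ∀ U : Submodule ℚ (Fin d → ℚ), (∀ a, ∀ v ∈ U, (M a).mulVec v ∈ U) →
      U = ⊥ ∨ U = ⊤)
    (T : Subgroup H) (hT : T.Normal) (hcomm : ∀ a ∈ T, ∀ b ∈ T, M a * M b = M b * M a) :
    ∃ H₂ : Subgroup H, H₂.Normal ∧ H₂.FiniteIndex ∧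
      ∃ m : ℕ, 0 < m ∧ ∀ x ∈ T, x ∈ (⁅H₂, H₂⁆ : Subgroup H) → M x ^ m = 1 := by
  classical
  rcases Nat.eq_zero_or_pos d with hd | hd
  · subst hd
    exact ⟨⊤, inferInstance, inferInstance, 1, one_pos, fun x _ _ => Subsingleton.elim _ _⟩
  let E : Matrix (Fin d) (Fin d) ℚ →+* Module.End ℂ (Fin d → ℂ) :=
    ((Matrix.toLinAlgEquiv' : Matrix (Fin d) (Fin d) ℂ ≃ₐ[ℂ] _) :
      Matrix (Fin d) (Fin d) ℂ →+* Module.End ℂ (Fin d → ℂ)).comp (algebraMap ℚ ℂ).mapMatrix
  have hE : Function.Injective E := by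
    intro a b hab
    have h1 : (algebraMap ℚ ℂ).mapMatrix a = (algebraMap ℚ ℂ).mapMatrix b :=
      (Matrix.toLinAlgEquiv' : Matrix (Fin d) (Fin d) ℂ ≃ₐ[ℂ] _).injective hab
    ext i j
    have h2 := congrFun (congrFun h1 i) j
    exact (algebraMap ℚ ℂ).injective h2
  let f : H →* Module.End ℂ (Fin d → ℂ) := (E : Matrix (Fin d) (Fin d) ℚ →* _).comp M
  obtain ⟨H₂, hN, hF, hnil⟩ := MIlinAux.complex_part f T hT (by
    intro a ha b hb
    change E (M a) * E (M b) = E (M b) * E (M a)
    rw [← map_mul, hcomm a ha b hb, map_mul])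
  refine ⟨H₂, hN, hF, Nat.factorial d, Nat.factorial_pos d, ?_⟩
  intro x hxT hxc
  let toL : Matrix (Fin d) (Fin d) ℚ ≃ₐ[ℚ] Module.End ℚ (Fin d → ℚ) := Matrix.toLinAlgEquiv'
  have htoL : ∀ a v, toL a v = a.mulVec v := fun a v => Matrix.toLinAlgEquiv'_apply a v
  let U : Set H := {y | y ∈ T ∧ y ∈ (⁅H₂, H₂⁆ : Subgroup H) ∧ IsNilpotent (M y - 1)}
  have hUconj : ∀ h : H, ∀ y ∈ U, h⁻¹ * y * h ∈ U := by
    intro h y hy
    refine ⟨?_, ?_, ?_⟩
    · have := hT.conj_mem y hy.1 h⁻¹
      simpa using this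
    · have hNC : (⁅H₂, H₂⁆ : Subgroup H).Normal := Subgroup.commutator_normal H₂ H₂
      have := hNC.conj_mem y hy.2.1 h⁻¹
      simpa using this
    · obtain ⟨k, hk⟩ := hy.2.2
      refine ⟨k, ?_⟩
      have hsemi : SemiconjBy (M h⁻¹) (M y - 1) (M (h⁻¹ * y * h) - 1) := by
        unfold SemiconjBy
        rw [mul_sub, sub_mul, ← map_mul, ← map_mul, mul_one, one_mul]
        congr 2
        group
      have h1 := (hsemi.pow_right k).eq
      rw [hk, mul_zero] at h1
      have h2 := congrArg (fun z => z * M h) h1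
      simp only [zero_mul] at h2
      rw [mul_assoc, ← map_mul, inv_mul_cancel, map_one, mul_one] at h2
      exact h2.symm
  let S : Set (Module.End ℚ (Fin d → ℚ)) := {a | ∃ y ∈ U, a = toL (M y - 1)}
  have : Nonempty (Fin d) := ⟨⟨0, hd⟩⟩
  obtain ⟨N, hN0, hNS⟩ := MIlinAux.exists_common_ker S
    (by
      rintro a ⟨y, hy, rfl⟩ b ⟨z, hz, rfl⟩
      rw [← map_mul, ← map_mul]
      congr 1
      have h0 := hcomm y hy.1 z hz.1
      have e1 : (M y - 1) * (M z - 1) = M y * M z - M y - M z + 1 := by noncomm_ring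
      have e2 : (M z - 1) * (M y - 1) = M z * M y - M y - M z + 1 := by noncomm_ring
      rw [e1, e2, h0])
    (by
      rintro a ⟨y, hy, rfl⟩
      exact hy.2.2.map toL)
  let W : Submodule ℚ (Fin d → ℚ) :=
    { carrier := {v | ∀ y ∈ U, (M y).mulVec v = v}
      add_mem' := by
        intro v w hv hw y hy
        rw [Matrix.mulVec_add, hv y hy, hw y hy]
      zero_mem' := by
        intro y _
        exact Matrix.mulVec_zero _
      smul_mem' := by
        intro c v hv y hy
        rw [Matrix.mulVec_smul, hv y hy] }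
  have hWtop : W = ⊤ := by
    rcases hirr W (by
      intro h v hv y hy
      have hy' := hUconj h y hy
      have h1 := hv _ hy'
      have h2 : (M y).mulVec ((M h).mulVec v) = (M h).mulVec ((M (h⁻¹ * y * h)).mulVec v) := by
        rw [Matrix.mulVec_mulVec, Matrix.mulVec_mulVec, ← map_mul, ← map_mul]
        congr 2
        group
      rw [h2, h1]) with h | h
    · exfalso
      apply hN0
      rw [eq_bot_iff, ← h]
      intro v hv y hy
      have h1 := hNS _ ⟨y, hy, rfl⟩ v hv
      rw [htoL, Matrix.sub_mulVec, Matrix.one_mulVec] at h1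
      exact sub_eq_zero.1 h1
    · exact h
  have hxU : x ^ (Nat.factorial d) ∈ U := by
    refine ⟨T.pow_mem hxT _, (⁅H₂, H₂⁆ : Subgroup H).pow_mem hxc _, ?_⟩
    have h1 := hnil x hxT hxc
    have h2 : f x ^ (Nat.factorial d) - 1 = E (M (x ^ (Nat.factorial d)) - 1) := by
      rw [map_sub, map_one, map_pow, map_pow]
      rfl
    rw [h2] at h1
    exact (IsNilpotent.map_iff hE).1 h1
  rw [← map_pow]
  have hfix : ∀ v : Fin d → ℚ, (M (x ^ (Nat.factorial d))).mulVec v = v := by
    intro v
    have hv : v ∈ W := by rw [hWtop]; exact Submodule.mem_top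
    exact hv _ hxU
  apply toL.injective
  apply LinearMap.ext
  intro v
  rw [htoL, hfix v, htoL, Matrix.one_mulVec]

end Pool.Agent.RPC
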