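import Pool.Agent.RPC.Mu

/-!
MODULE RPC/MomA : comparison of two functions through v.
RelD: off a set of measure ≤ η in A₁: v(y c) = v(y) + s ρ(y) X(y) + O(s η ρ y) and |v y| ≤ s η ρ y.
* `mom_link`: a := c' c⁻¹ ∈ A₁, z = y c' = (y a) c.  Off the bad sets (for (c', y) and (c, y a)):
  s' ρ(y) X'(y) + v(y) + O(s' η ρ y) = v(z) = v(y a) + s ρ(y a) X(y a) + O(s η ρ(y a));
  divide by s' ρ(y), t := (s/s') ρ(a): |X'(y) - t X(ya)| ≤ tη + tη + η + η ≤ 4η(1+t) (ρ(ya) = ρ y ρ a;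
  |v(ya)| ≤ s η ρ(ya) = s' t η ρ y).  Bad measure ≤ 2η (mu_inv; y ∈ A₁ ↔ y a ∈ A₁).
* `momA`: bounded X, X' on A₁ with the link for all η ⇒ with S_j = ∫_{A₁} X^j, S'_j = ∫_{A₁} X'^j:
  S'_2² S_4 = S'_4 S_2².  If S_2 = 0 then S_4 ≤ B² S_2 = 0, both sides are 0.  If S_2 > 0: the t's are bounded as
  η → 0: if t ≥ 1 and |X(ya)| ≤ B/t + 2η off a set of measure ≤ η then S_2 ≤ (B/t + 2η)² + η B² (on_inv);
  for small η this gives t ≤ T₀ = 2B/√(S_2)·const.  Then on_close: |S'_2 - t² S_2| → 0, |S'_4 - t⁴ S_4| → 0 as η → 0,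
  uniformly, so |S'_2² S_4 - S'_4 S_2²| ≤ |S'_2² - t⁴ S_2²| S_4 + |t⁴ S_4 - S'_4| S_2² → 0.
-/

set_option autoImplicit false

namespace Pool.Agent.RPC

/-- approximate relation with element `c`, scale `s`, precision `η` -/
def RelD {A : Type} [Group A] (μ : RMean A) (A₁ : Subgroup A) (ρ v X : A → ℝ) (c : A)
    (s η : ℝ) : Prop :=
  0 < s ∧ μ.mu {y | y ∈ A₁ ∧ ¬ (|v (y * c) - v y - s * ρ y * X y| ≤ s * η * ρ y ∧
    |v y| ≤ s * η * ρ y)} ≤ η

variable {A : Type} [Group A]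

theorem mom_link (μ : RMean A) (A₁ : Subgroup A) (ρ v X X' : A → ℝ)
    (hpos : ∀ y ∈ A₁, 0 < ρ y) (hmul : ∀ a ∈ A₁, ∀ b ∈ A₁, ρ (a * b) = ρ a * ρ b)
    {c c' : A} {s s' η : ℝ} (hη : 0 ≤ η) (h : RelD μ A₁ ρ v X c s η)
    (h' : RelD μ A₁ ρ v X' c' s' η) (hcc : c' * c⁻¹ ∈ A₁) :
    ∃ a ∈ A₁, ∃ t : ℝ, 0 < t ∧
      μ.mu {y | y ∈ A₁ ∧ 4 * η * (1 + t) < |X' y - t * X (y * a)|} ≤ 4 * η := by
  obtain ⟨hs, hb⟩ := h
  obtain ⟨hs', hb'⟩ := h'
  set a : A := c' * c⁻¹ with ha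
  have hρa : 0 < ρ a := hpos a hcc
  refine ⟨a, hcc, s / s' * ρ a, by positivity, ?_⟩
  set t : ℝ := s / s' * ρ a with ht
  have ht0 : 0 < t := by positivity
  set B1 : Set A := {y | y ∈ A₁ ∧ ¬ (|v (y * c) - v y - s * ρ y * X y| ≤ s * η * ρ y ∧
    |v y| ≤ s * η * ρ y)} with hB1
  set B2 : Set A := {y | y ∈ A₁ ∧ ¬ (|v (y * c') - v y - s' * ρ y * X' y| ≤ s' * η * ρ y ∧
    |v y| ≤ s' * η * ρ y)} with hB2
  have hsub : {y | y ∈ A₁ ∧ 4 * η * (1 + t) < |X' y - t * X (y * a)|} ⊆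
      B2 ∪ {y | y * a ∈ B1} := by
    rintro y ⟨hy, hlt⟩
    by_contra hcon
    rw [Set.mem_union, not_or] at hcon
    obtain ⟨hn2, hn1⟩ := hcon
    have h2 : |v (y * c') - v y - s' * ρ y * X' y| ≤ s' * η * ρ y ∧
        |v y| ≤ s' * η * ρ y := by
      by_contra hh
      exact hn2 ⟨hy, hh⟩
    have hya : y * a ∈ A₁ := A₁.mul_mem hy hcc
    have h1 : |v (y * a * c) - v (y * a) - s * ρ (y * a) * X (y * a)| ≤ s * η * ρ (y * a) ∧
        |v (y * a)| ≤ s * η * ρ (y * a) := by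
      by_contra hh
      exact hn1 ⟨hya, hh⟩
    have hyac : y * a * c = y * c' := by rw [ha]; group
    rw [hyac, hmul y hy a hcc] at h1
    have hρy : 0 < ρ y := hpos y hy
    obtain ⟨h1a, h1b⟩ := h1
    obtain ⟨h2a, h2b⟩ := h2
    have hts : t * s' = s * ρ a := by
      rw [ht]; field_simp
    -- multiply by s' ρ y
    have key : |(X' y - t * X (y * a)) * (s' * ρ y)| ≤ (2 * η * (1 + t)) * (s' * ρ y) := by
      have e1 : (X' y - t * X (y * a)) * (s' * ρ y) =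
          (v (y * c') - v (y * a) - s * (ρ y * ρ a) * X (y * a)) -
          (v (y * c') - v y - s' * ρ y * X' y) + v (y * a) - v y := by
        have : t * X (y * a) * (s' * ρ y) = s * (ρ y * ρ a) * X (y * a) := by
          calc t * X (y * a) * (s' * ρ y) = (t * s') * (ρ y * X (y * a)) := by ring
            _ = s * (ρ y * ρ a) * X (y * a) := by rw [hts]; ring
        linear_combination -this
      have e2 : (2 * η * (1 + t)) * (s' * ρ y) =
          s * η * (ρ y * ρ a) + s' * η * ρ y + s * η * (ρ y * ρ a) + s' * η * ρ y := by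
        have : t * s' * ρ y = s * ρ a * ρ y := by rw [hts]
        linear_combination (2 * η) * this
      rw [e1, e2]
      rw [abs_le] at h1a h1b h2a h2b ⊢
      constructor <;> linarith [h1a.1, h1a.2, h1b.1, h1b.2, h2a.1, h2a.2, h2b.1, h2b.2]
    rw [abs_mul, abs_of_pos (by positivity : 0 < s' * ρ y)] at key
    have key2 := le_of_mul_le_mul_right key (by positivity : 0 < s' * ρ y)
    have : 2 * η * (1 + t) ≤ 4 * η * (1 + t) := by nlinarith
    linarith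
  have hm := mu_mono μ hsub
  have hu := mu_union μ B2 {y | y * a ∈ B1}
  rw [mu_inv μ B1 a] at hu
  linarith

omit [Group A] in
private theorem momA_ind {S : Set A} {f : A → ℝ} {C : ℝ} (hC : 0 ≤ C) (h : ∀ y ∈ S, |f y| ≤ C) :
    Bdd (fun y => S.indicator f y) := by
  refine ⟨C, fun x => ?_⟩
  by_cases hx : x ∈ S
  · simpa [Set.indicator_of_mem hx] using h x hx
  · simpa [Set.indicator_of_notMem hx] using hC

/-- bound of a quadratic mean when the function is small off a small set -/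
private theorem on_small (μ : RMean A) (A₁ : Subgroup A) (Y : A → ℝ) (B κ η : ℝ) (hB : 0 ≤ B)
    (hκ : 0 ≤ κ) (hY : ∀ y ∈ A₁, |Y y| ≤ B)
    (h : μ.mu {y | y ∈ A₁ ∧ κ < |Y y|} ≤ η) :
    μ.on A₁ (fun y => Y y ^ 2) ≤ κ ^ 2 + 2 * B ^ 2 * η := by
  have hb1 : ∀ y ∈ (A₁ : Set A), |Y y ^ 2| ≤ B ^ 2 := fun y hy => by
    rw [abs_pow]
    exact pow_le_pow_left₀ (abs_nonneg _) (hY y hy) 2
  have hb2 : ∀ y ∈ (A₁ : Set A), |min (Y y ^ 2) (κ ^ 2)| ≤ B ^ 2 := fun y hy => by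
    rw [abs_of_nonneg (le_min (sq_nonneg _) (sq_nonneg _))]
    exact (min_le_left _ _).trans ((le_abs_self _).trans (hb1 y hy))
  have hcl := on_close μ (A₁ : Set A) (fun y => Y y ^ 2) (fun y => min (Y y ^ 2) (κ ^ 2))
    (B ^ 2) 0 η (by positivity) le_rfl hb1 hb2 (by
      refine le_trans (mu_mono μ ?_) h
      rintro y ⟨hy, hlt⟩
      refine ⟨hy, ?_⟩
      by_contra hcon
      rw [not_lt] at hcon
      have : Y y ^ 2 ≤ κ ^ 2 := by
        rw [← sq_abs (Y y)]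
        exact pow_le_pow_left₀ (abs_nonneg _) hcon 2
      simp only [min_eq_left this, sub_self, abs_zero, lt_irrefl] at hlt)
  have hle : μ.on (A₁ : Set A) (fun y => min (Y y ^ 2) (κ ^ 2)) ≤ κ ^ 2 := by
    have h1 := on_mono μ (A₁ : Set A) (fun y => min (Y y ^ 2) (κ ^ 2)) (fun _ => κ ^ 2 * 1)
      (momA_ind (by positivity) hb2) (momA_ind (C := κ ^ 2) (by positivity) (fun y _ => by
        rw [mul_one, abs_of_nonneg (sq_nonneg _)])) (fun y _ => by
          rw [mul_one]; exact min_le_right _ _)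
    rw [on_smul μ (A₁ : Set A) (κ ^ 2) (fun _ => 1)
      (momA_ind (C := 1) (by norm_num) (fun y _ => by simp))] at h1
    have h2 : μ.on (A₁ : Set A) (fun _ => (1 : ℝ)) ≤ 1 := mu_le_one μ _
    nlinarith [sq_nonneg κ]
  have := (abs_le.mp hcl).2
  linarith

theorem momA (μ : RMean A) (A₁ : Subgroup A) (X X' : A → ℝ) (B : ℝ)
    (hX : ∀ y ∈ A₁, |X y| ≤ B) (hX' : ∀ y ∈ A₁, |X' y| ≤ B)
    (hlink : ∀ η : ℝ, 0 < η → ∃ a ∈ A₁, ∃ t : ℝ, 0 < t ∧
      μ.mu {y | y ∈ A₁ ∧ η * (1 + t) < |X' y - t * X (y * a)|} ≤ η) :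
    (μ.on A₁ (fun y => X' y ^ 2)) ^ 2 * μ.on A₁ (fun y => X y ^ 4) =
      μ.on A₁ (fun y => X' y ^ 4) * (μ.on A₁ (fun y => X y ^ 2)) ^ 2 := by
  have hB : 0 ≤ B := (abs_nonneg _).trans (hX 1 A₁.one_mem)
  have pw : ∀ (Y : A → ℝ), (∀ y ∈ A₁, |Y y| ≤ B) → ∀ k : ℕ, ∀ y ∈ (A₁ : Set A),
      |Y y ^ k| ≤ B ^ k := fun Y hY k y hy => by
    rw [abs_pow]
    exact pow_le_pow_left₀ (abs_nonneg _) (hY y hy) k
  set S2 := μ.on (A₁ : Set A) (fun y => X y ^ 2) with hS2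
  set S4 := μ.on (A₁ : Set A) (fun y => X y ^ 4) with hS4
  set S2' := μ.on (A₁ : Set A) (fun y => X' y ^ 2) with hS2'
  set S4' := μ.on (A₁ : Set A) (fun y => X' y ^ 4) with hS4'
  have zero_on : μ.on (A₁ : Set A) (fun _ => (0 : ℝ)) = 0 := by
    have := on_smul μ (A₁ : Set A) 0 (fun _ => (1 : ℝ))
      (momA_ind (C := 1) (by norm_num) (fun y _ => by simp))
    simpa using this
  have on_nonneg : ∀ f : A → ℝ, ∀ C : ℝ, 0 ≤ C → (∀ y ∈ (A₁ : Set A), |f y| ≤ C) →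
      (∀ y ∈ (A₁ : Set A), 0 ≤ f y) → 0 ≤ μ.on (A₁ : Set A) f := fun f C hC hf h0 => by
    have := on_mono μ (A₁ : Set A) (fun _ => (0 : ℝ)) f
      (momA_ind (C := 0) le_rfl (fun y _ => by simp)) (momA_ind hC hf) h0
    rwa [zero_on] at this
  have hS2n : 0 ≤ S2 := on_nonneg _ (B ^ 2) (by positivity) (pw X hX 2) (fun y _ => sq_nonneg _)
  have hS4n : 0 ≤ S4 := on_nonneg _ (B ^ 4) (by positivity) (pw X hX 4)
    (fun y _ => by positivity)
  have hS2'n : 0 ≤ S2' := on_nonneg _ (B ^ 2) (by positivity) (pw X' hX' 2)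
    (fun y _ => sq_nonneg _)
  have h42 : S4 ≤ B ^ 2 * S2 := by
    rw [hS2, ← on_smul μ (A₁ : Set A) (B ^ 2) (fun y => X y ^ 2)
      (momA_ind (by positivity) (pw X hX 2))]
    refine on_mono μ (A₁ : Set A) _ _ (momA_ind (by positivity) (pw X hX 4))
      (momA_ind (C := B ^ 2 * B ^ 2) (by positivity) (fun y hy => ?_)) (fun y hy => ?_)
    · rw [abs_mul, abs_of_nonneg (sq_nonneg B)]
      exact mul_le_mul_of_nonneg_left (pw X hX 2 y hy) (sq_nonneg B)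
    · have := (le_abs_self _).trans (pw X hX 2 y hy)
      nlinarith [sq_nonneg (X y)]
  rcases hS2n.eq_or_lt with h0 | hpos
  · have h4 : S4 = 0 := le_antisymm (by rw [← h0, mul_zero] at h42; exact h42) hS4n
    rw [h4, ← h0]; ring
  -- bound for t
  obtain ⟨T, hT1, hTb⟩ : ∃ T : ℝ, 1 ≤ T ∧ (B / T) ^ 2 * 4 ≤ S2 / 4 := by
    refine ⟨max 1 (4 * B / Real.sqrt S2), le_max_left _ _, ?_⟩
    have hsq : 0 < Real.sqrt S2 := Real.sqrt_pos.mpr hpos
    set T := max 1 (4 * B / Real.sqrt S2) with hT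
    have hT0 : 0 < T := lt_of_lt_of_le one_pos (le_max_left _ _)
    have h1 : B / T ≤ Real.sqrt S2 / 4 := by
      rw [div_le_iff₀ hT0]
      have h2 : 4 * B / Real.sqrt S2 ≤ T := le_max_right _ _
      rw [div_le_iff₀ hsq] at h2
      linarith
    have h3 : (B / T) ^ 2 ≤ (Real.sqrt S2 / 4) ^ 2 :=
      pow_le_pow_left₀ (by positivity) h1 2
    have h4 : (Real.sqrt S2 / 4) ^ 2 = S2 / 16 := by
      rw [div_pow, Real.sq_sqrt hpos.le]; norm_num
    linarith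
  obtain ⟨η0, hη0, hη0b⟩ : ∃ η0 : ℝ, 0 < η0 ∧ ∀ η : ℝ, 0 < η → η ≤ η0 →
      16 * η ^ 2 + 2 * B ^ 2 * η ≤ S2 / 4 := by
    refine ⟨min 1 (S2 / (4 * (16 + 2 * B ^ 2))), by positivity, fun η hη hle => ?_⟩
    have h1 : η ≤ 1 := hle.trans (min_le_left _ _)
    have h2 : η ≤ S2 / (4 * (16 + 2 * B ^ 2)) := hle.trans (min_le_right _ _)
    rw [le_div_iff₀ (by positivity)] at h2
    nlinarith [sq_nonneg B]
  have htb : ∀ η : ℝ, 0 < η → η ≤ η0 → ∀ a ∈ A₁, ∀ t : ℝ, 0 < t →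
      μ.mu {y | y ∈ A₁ ∧ η * (1 + t) < |X' y - t * X (y * a)|} ≤ η → t ≤ T := by
    intro η hη hηle a ha t ht hmu
    by_contra hcon
    rw [not_le] at hcon
    have ht1 : 1 < t := lt_of_le_of_lt hT1 hcon
    have hinv : μ.on (A₁ : Set A) (fun y => X (y * a) ^ 2) = S2 :=
      on_inv μ (A₁ : Set A) (fun y => X y ^ 2) (momA_ind (by positivity) (pw X hX 2)) a
        (fun x => ⟨fun hx => A₁.mul_mem hx ha, fun hx => (A₁.mul_mem_cancel_right ha).mp hx⟩)
    have hsm := on_small μ A₁ (fun y => X (y * a)) B (B / t + 2 * η) η hB (by positivity)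
      (fun y hy => hX _ (A₁.mul_mem hy ha)) (by
        refine le_trans (mu_mono μ ?_) hmu
        rintro y ⟨hy, hlt⟩
        refine ⟨hy, ?_⟩
        have hxy := hX' y hy
        have h1 : t * |X (y * a)| ≤ |X' y| + |X' y - t * X (y * a)| := by
          have := abs_sub_abs_le_abs_sub (t * X (y * a)) (X' y)
          rw [abs_mul, abs_of_pos ht, abs_sub_comm] at this
          linarith
        have h2 : t * (B / t + 2 * η) < t * |X (y * a)| := mul_lt_mul_of_pos_left hlt ht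
        have h3 : t * (B / t + 2 * η) = B + 2 * η * t := by field_simp
        nlinarith)
    rw [hinv] at hsm
    have hBt : B / t ≤ B / T := div_le_div_of_nonneg_left hB (by linarith) hcon.le
    have hBt0 : 0 ≤ B / t := by positivity
    have h5 : (B / t + 2 * η) ^ 2 ≤ 4 * (B / T) ^ 2 + 16 * η ^ 2 := by
      have : (B / t) ^ 2 ≤ (B / T) ^ 2 := pow_le_pow_left₀ hBt0 hBt 2
      nlinarith [sq_nonneg (B / t - 2 * η), sq_nonneg (B / t)]
    have h6 := hη0b η hη hηle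
    nlinarith
  -- the estimate
  have hest : ∀ η : ℝ, 0 < η → η ≤ η0 → |S2' ^ 2 * S4 - S4' * S2 ^ 2| ≤
      η * (((1 + T) * (B + T * B) + 2 * (B ^ 2 * (1 + T ^ 2))) * (S2' + T ^ 2 * S2) * S4 +
        ((1 + T) * (B + T * B) * (B ^ 2 + T ^ 2 * B ^ 2) +
          2 * (B ^ 4 * (1 + T ^ 4))) * S2 ^ 2) := by
    intro η hη hηle
    obtain ⟨a, ha, t, ht, hmu⟩ := hlink η hη
    have htT := htb η hη hηle a ha t ht hmu
    have hmem : ∀ x, x ∈ (A₁ : Set A) ↔ x * a ∈ (A₁ : Set A) :=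
      fun x => ⟨fun hx => A₁.mul_mem hx ha, fun hx => (A₁.mul_mem_cancel_right ha).mp hx⟩
    have hinv2 : μ.on (A₁ : Set A) (fun y => X (y * a) ^ 2) = S2 :=
      on_inv μ (A₁ : Set A) (fun y => X y ^ 2) (momA_ind (by positivity) (pw X hX 2)) a hmem
    have hinv4 : μ.on (A₁ : Set A) (fun y => X (y * a) ^ 4) = S4 :=
      on_inv μ (A₁ : Set A) (fun y => X y ^ 4) (momA_ind (by positivity) (pw X hX 4)) a hmem
    have hXa : ∀ y ∈ A₁, |X (y * a)| ≤ B := fun y hy => hX _ (A₁.mul_mem hy ha)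
    have hT0 : 0 < T := by linarith
    -- pointwise estimates
    have p2 : ∀ y ∈ A₁, |X' y - t * X (y * a)| ≤ η * (1 + t) →
        |X' y ^ 2 - t ^ 2 * X (y * a) ^ 2| ≤ η * ((1 + T) * (B + T * B)) := by
      intro y hy hle
      have e : X' y ^ 2 - t ^ 2 * X (y * a) ^ 2 =
          (X' y - t * X (y * a)) * (X' y + t * X (y * a)) := by ring
      rw [e, abs_mul]
      have h1 : |X' y - t * X (y * a)| ≤ η * (1 + T) :=
        hle.trans (mul_le_mul_of_nonneg_left (by linarith) hη.le)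
      have h2 : |X' y + t * X (y * a)| ≤ B + T * B := by
        refine (abs_add_le _ _).trans (add_le_add (hX' y hy) ?_)
        rw [abs_mul, abs_of_pos ht]
        exact mul_le_mul htT (hXa y hy) (abs_nonneg _) hT0.le
      calc |X' y - t * X (y * a)| * |X' y + t * X (y * a)|
          ≤ (η * (1 + T)) * (B + T * B) :=
            mul_le_mul h1 h2 (abs_nonneg _) (by positivity)
        _ = _ := by ring
    have p4 : ∀ y ∈ A₁, |X' y - t * X (y * a)| ≤ η * (1 + t) →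
        |X' y ^ 4 - t ^ 4 * X (y * a) ^ 4| ≤
          η * ((1 + T) * (B + T * B) * (B ^ 2 + T ^ 2 * B ^ 2)) := by
      intro y hy hle
      have e : X' y ^ 4 - t ^ 4 * X (y * a) ^ 4 =
          (X' y ^ 2 - t ^ 2 * X (y * a) ^ 2) * (X' y ^ 2 + t ^ 2 * X (y * a) ^ 2) := by ring
      rw [e, abs_mul]
      have h2 : |X' y ^ 2 + t ^ 2 * X (y * a) ^ 2| ≤ B ^ 2 + T ^ 2 * B ^ 2 := by
        refine (abs_add_le _ _).trans (add_le_add (pw X' hX' 2 y hy) ?_)
        rw [abs_mul, abs_of_nonneg (sq_nonneg t)]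
        exact mul_le_mul (pow_le_pow_left₀ ht.le htT 2)
          (pw (fun y => X (y * a)) hXa 2 y hy) (abs_nonneg _) (by positivity)
      calc |X' y ^ 2 - t ^ 2 * X (y * a) ^ 2| * |X' y ^ 2 + t ^ 2 * X (y * a) ^ 2|
          ≤ (η * ((1 + T) * (B + T * B))) * (B ^ 2 + T ^ 2 * B ^ 2) :=
            mul_le_mul (p2 y hy hle) h2 (abs_nonneg _) (by positivity)
        _ = _ := by ring
    have c2 := on_close μ (A₁ : Set A) (fun y => X' y ^ 2) (fun y => t ^ 2 * X (y * a) ^ 2)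
      (B ^ 2 * (1 + T ^ 2)) (η * ((1 + T) * (B + T * B))) η (by positivity) (by positivity)
      (fun y hy => (pw X' hX' 2 y hy).trans (by nlinarith [sq_nonneg B, sq_nonneg T]))
      (fun y hy => by
        rw [abs_mul, abs_of_nonneg (sq_nonneg t)]
        have h1 : t ^ 2 * |X (y * a) ^ 2| ≤ T ^ 2 * B ^ 2 :=
          mul_le_mul (pow_le_pow_left₀ ht.le htT 2)
            (pw (fun y => X (y * a)) hXa 2 y hy) (abs_nonneg _) (by positivity)
        nlinarith [sq_nonneg B]) (by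
      refine le_trans (mu_mono μ ?_) hmu
      rintro y ⟨hy, hlt⟩
      refine ⟨hy, ?_⟩
      by_contra hcon
      rw [not_lt] at hcon
      exact absurd (p2 y hy hcon) (not_le.mpr hlt))
    have c4 := on_close μ (A₁ : Set A) (fun y => X' y ^ 4) (fun y => t ^ 4 * X (y * a) ^ 4)
      (B ^ 4 * (1 + T ^ 4)) (η * ((1 + T) * (B + T * B) * (B ^ 2 + T ^ 2 * B ^ 2))) η
      (by positivity) (by positivity)
      (fun y hy => (pw X' hX' 4 y hy).trans (by
        have : 0 ≤ B ^ 4 * T ^ 4 := by positivity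
        linarith))
      (fun y hy => by
        rw [abs_mul, abs_of_nonneg (by positivity : 0 ≤ t ^ 4)]
        have h1 : t ^ 4 * |X (y * a) ^ 4| ≤ T ^ 4 * B ^ 4 :=
          mul_le_mul (pow_le_pow_left₀ ht.le htT 4)
            (pw (fun y => X (y * a)) hXa 4 y hy) (abs_nonneg _) (by positivity)
        have : 0 ≤ B ^ 4 := by positivity
        linarith) (by
      refine le_trans (mu_mono μ ?_) hmu
      rintro y ⟨hy, hlt⟩
      refine ⟨hy, ?_⟩
      by_contra hcon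
      rw [not_lt] at hcon
      exact absurd (p4 y hy hcon) (not_le.mpr hlt))
    rw [on_smul μ (A₁ : Set A) (t ^ 2) (fun y => X (y * a) ^ 2)
      (momA_ind (by positivity) (pw (fun y => X (y * a)) hXa 2)), hinv2] at c2
    rw [on_smul μ (A₁ : Set A) (t ^ 4) (fun y => X (y * a) ^ 4)
      (momA_ind (by positivity) (pw (fun y => X (y * a)) hXa 4)), hinv4] at c4
    change |S2' - t ^ 2 * S2| ≤ _ at c2
    change |S4' - t ^ 4 * S4| ≤ _ at c4
    set K1 := (1 + T) * (B + T * B) + 2 * (B ^ 2 * (1 + T ^ 2)) with hK1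
    set K2 := (1 + T) * (B + T * B) * (B ^ 2 + T ^ 2 * B ^ 2) + 2 * (B ^ 4 * (1 + T ^ 4)) with hK2
    have c2' : |S2' - t ^ 2 * S2| ≤ η * K1 := c2.trans (le_of_eq (by rw [hK1]; ring))
    have c4' : |S4' - t ^ 4 * S4| ≤ η * K2 := c4.trans (le_of_eq (by rw [hK2]; ring))
    have hK1n : 0 ≤ K1 := by positivity
    have hK2n : 0 ≤ K2 := by positivity
    have e : S2' ^ 2 * S4 - S4' * S2 ^ 2 =
        (S2' - t ^ 2 * S2) * ((S2' + t ^ 2 * S2) * S4) + (-(S4' - t ^ 4 * S4)) * S2 ^ 2 := by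
      ring
    rw [e]
    refine (abs_add_le _ _).trans ?_
    rw [abs_mul, abs_mul (-(S4' - t ^ 4 * S4)), abs_neg,
      abs_of_nonneg (by positivity : 0 ≤ (S2' + t ^ 2 * S2) * S4),
      abs_of_nonneg (sq_nonneg S2)]
    have ht2 : t ^ 2 ≤ T ^ 2 := pow_le_pow_left₀ ht.le htT 2
    have hm1 : (S2' + t ^ 2 * S2) * S4 ≤ (S2' + T ^ 2 * S2) * S4 :=
      mul_le_mul_of_nonneg_right (by nlinarith) hS4n
    calc |S2' - t ^ 2 * S2| * ((S2' + t ^ 2 * S2) * S4) + |S4' - t ^ 4 * S4| * S2 ^ 2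
        ≤ (η * K1) * ((S2' + T ^ 2 * S2) * S4) + (η * K2) * S2 ^ 2 :=
          add_le_add (mul_le_mul c2' hm1 (by positivity) (by positivity))
            (mul_le_mul_of_nonneg_right c4' (sq_nonneg _))
      _ = _ := by ring
  set K := ((1 + T) * (B + T * B) + 2 * (B ^ 2 * (1 + T ^ 2))) * (S2' + T ^ 2 * S2) * S4 +
        ((1 + T) * (B + T * B) * (B ^ 2 + T ^ 2 * B ^ 2) +
          2 * (B ^ 4 * (1 + T ^ 4))) * S2 ^ 2 with hK
  have hT0 : 0 < T := by linarith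
  have hKn : 0 ≤ K := by positivity
  rw [← sub_eq_zero, ← abs_nonpos_iff]
  refine le_of_forall_pos_le_add (fun ε hε => ?_)
  rw [zero_add]
  have hη : 0 < min η0 (ε / (K + 1)) := lt_min hη0 (by positivity)
  refine (hest _ hη (min_le_left _ _)).trans ?_
  calc min η0 (ε / (K + 1)) * K ≤ ε / (K + 1) * K :=
        mul_le_mul_of_nonneg_right (min_le_right _ _) hKn
    _ ≤ ε := by
        rw [div_mul_eq_mul_div, div_le_iff₀ (by positivity)]
        nlinarith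

end Pool.Agent.RPC
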