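import Pool.Agent.RPC.Defs

/-!
MODULE RPC/Point : the point at infinity.
N normal in A, δ(ab) = δ(a) φ_a(δ b), ν (N, ψ)-equivariant, ψ additive on N, not zero on N.
* `ker_bdd` : if all subgroups of A are f.g., ν(δ u) is bounded on {u ∈ N : ψ u = 0}: this is a
  subgroup, generated by a finite set; ν(δ(u v)) ≤ max (ν δ u) (ν (φ_u δ v)) = max (ν δ u) (ν δ v);
  δ(u⁻¹) = φ_{u⁻¹}((δ u)⁻¹); Subgroup.closure_induction.
* `exists_pt` : choose n₀ ∈ N with ψ n₀ > 0, x k := δ(n₀^k).  x (k+1) = x k · φ_{n₀^k}(δ n₀), so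
  ν (x k⁻¹ x (k+1)) = exp(-k ψ n₀) ν(δ n₀) → 0; for every p the sequence ν (x k⁻¹ p) is Cauchy
  (|ν a - ν b| ≤ ν (a⁻¹ b) by the ultrametric inequality), F p := its limit.  tri1, tri2 pass to the
  limit.  eqv: ν ((x k)⁻¹ (δ n · φ_n p)); compare with (δ n · φ_n (x k))⁻¹ (δ n · φ_n p) =
  φ_n (x k⁻¹ p), of norm exp(-ψ n) ν (x k⁻¹ p); and δ n · φ_n (x k) = δ(n n₀^k), n n₀^k = n₀^k w_k with
  w_k = n₀^{-k} n n₀^k ∈ N, ψ(w_k) = ψ n (conjugation inside N does not change ψ), so w_k = n u_k with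
  u_k ∈ N, ψ u_k = 0, and δ(n₀^k w_k) = x k · φ_{n₀^k}(δ w_k), with
  ν (φ_{n₀^k} (δ w_k)) = exp(-k ψ n₀) ν(δ (n u_k)) ≤ exp(-k ψ n₀) max (ν δ n) (exp(-ψ n) κ) → 0.
* `pt_small` : F (δ(n₀^k)) = exp(-k ψ n₀) F 1 → 0.
* `pt_unique` : for n = n₀^k: F q ≤ max (F (x)) (ν(x⁻¹ q)), ν (x⁻¹ q) ≤ max (F x)(F q), x = δ n, F x → 0,
  so F q = lim ν (x k⁻¹ q) (also when F q = 0).
* `pt_aff` : F' p := (F (δ a * φ a p) * exp b)^(1/l) satisfies Pt (φ a (φ n p) = φ (a n a⁻¹) (φ a p),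
  ψ (a n a⁻¹) = l ψ n follows from ha, Eqv and ν ≠ 0), so F' = F by uniqueness.
* `pt_eq` : n' = y n y⁻¹, δ(n') φ_{n'}(δ y) = δ(y n) = δ y · φ_y(δ n), F(δ(y n)) = exp(-ψ n') F(δ y) which
  is < F (δ y) if F (δ y) > 0; ultrametric.
* `pt_two` : (δ y)⁻¹ δ(y c) = φ_y(δ c) and tri1, tri2: if F (δ y) < ν (φ_y (δ c)) then
  F (δ (y c)) = ν (φ_y (δ c)).
-/

set_option autoImplicit false

namespace Pool.Agent.RPC

variable {A P : Type} [Group A] [Group P] {φ : A →* MulAut P} {δ : A → P} {N : Subgroup A}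
  {ψ : A → ℝ} {ν : UNorm P}

namespace PointAux

theorem d_one (hδ : ∀ a b, δ (a * b) = δ a * φ a (δ b)) : δ 1 = 1 := by
  have h := hδ 1 1
  rw [mul_one, map_one, MulAut.one_apply] at h
  exact (mul_eq_left.1 h.symm)

theorem d_inv (hδ : ∀ a b, δ (a * b) = δ a * φ a (δ b)) (a : A) :
    δ a⁻¹ = φ a⁻¹ (δ a)⁻¹ := by
  have h := hδ a⁻¹ a
  rw [inv_mul_cancel, d_one hδ] at h
  rw [map_inv]
  exact eq_inv_of_mul_eq_one_left h.symm

theorem psi_one (hψ : Addi N ψ) : ψ 1 = 0 := by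
  have h := hψ 1 N.one_mem 1 N.one_mem
  rw [mul_one] at h
  linarith

theorem psi_inv (hψ : Addi N ψ) {n : A} (hn : n ∈ N) : ψ n⁻¹ = -(ψ n) := by
  have h := hψ n hn n⁻¹ (N.inv_mem hn)
  rw [mul_inv_cancel, psi_one hψ] at h
  linarith

theorem psi_pow (hψ : Addi N ψ) {n : A} (hn : n ∈ N) (k : ℕ) : ψ (n ^ k) = k * ψ n := by
  induction k with
  | zero => rw [pow_zero, psi_one hψ, Nat.cast_zero, zero_mul]
  | succ k ih =>
    rw [pow_succ, hψ _ (N.pow_mem hn k) n hn, ih]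
    push_cast
    ring

theorem exists_pos (hψ : Addi N ψ) (hψ0 : ∃ n ∈ N, ψ n ≠ 0) : ∃ n ∈ N, 0 < ψ n := by
  obtain ⟨n, hn, h⟩ := hψ0
  rcases lt_or_gt_of_ne h with h | h
  · refine ⟨n⁻¹, N.inv_mem hn, ?_⟩
    rw [psi_inv hψ hn]
    linarith
  · exact ⟨n, hn, h⟩

/-- the basic ultrametric comparison -/
theorem nu_le (ν : UNorm P) (a b : P) : ν.N a ≤ ν.N (a * b⁻¹) + ν.N b := by
  have h := ν.mul (a * b⁻¹) b
  rw [inv_mul_cancel_right] at h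
  refine h.trans (max_le ?_ ?_)
  · have := ν.nonneg b
    linarith
  · have := ν.nonneg (a * b⁻¹)
    linarith

theorem nu_sub (ν : UNorm P) (a b : P) : |ν.N a - ν.N b| ≤ ν.N (a * b⁻¹) := by
  have h1 := nu_le ν a b
  have h2 := nu_le ν b a
  have h3 : ν.N (b * a⁻¹) = ν.N (a * b⁻¹) := by
    rw [← ν.inv (a * b⁻¹), mul_inv_rev, inv_inv]
  rw [h3] at h2
  rw [abs_le]
  constructor <;> linarith

theorem small_pow {t : ℝ} (ht : 0 < t) (C : ℝ) {ε : ℝ} (hε : 0 < ε) :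
    ∃ k : ℕ, Real.exp (-(k * t)) * C < ε := by
  have hr : Real.exp (-t) < 1 := by
    rw [Real.exp_lt_one_iff]
    linarith
  have h1 : Filter.Tendsto (fun k : ℕ => Real.exp (-t) ^ k * C) Filter.atTop (nhds (0 * C)) :=
    (tendsto_pow_atTop_nhds_zero_of_lt_one (Real.exp_pos _).le hr).mul_const C
  rw [zero_mul] at h1
  obtain ⟨k, hk⟩ := (h1.eventually (gt_mem_nhds hε)).exists
  refine ⟨k, ?_⟩
  rw [← Real.exp_nat_mul] at hk
  have e : (k : ℝ) * -t = -(k * t) := by ring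
  rwa [e] at hk

theorem F_pow (hψ : Addi N ψ) {F : P → ℝ} (hF : Pt φ δ N ψ ν F) {n : A} (hn : n ∈ N) (k : ℕ) :
    F (δ (n ^ k)) = Real.exp (-(k * ψ n)) * F 1 := by
  have h := hF.eqv (n ^ k) (N.pow_mem hn k) 1
  rw [map_one, mul_one, psi_pow hψ hn k] at h
  exact h

end PointAux

open PointAux

theorem ker_bdd (hA : ∀ K : Subgroup A, K.FG) (hδ : ∀ a b, δ (a * b) = δ a * φ a (δ b))
    (hψ : Addi N ψ) (hν : Eqv φ N ψ ν) : ∃ κ : ℝ, ∀ u ∈ N, ψ u = 0 → ν.N (δ u) ≤ κ := by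
  let K : Subgroup A :=
    { carrier := {u | u ∈ N ∧ ψ u = 0}
      mul_mem' := by
        rintro a b ⟨ha, ha'⟩ ⟨hb, hb'⟩
        exact ⟨N.mul_mem ha hb, by rw [hψ a ha b hb, ha', hb', add_zero]⟩
      one_mem' := ⟨N.one_mem, psi_one hψ⟩
      inv_mem' := by
        rintro a ⟨ha, ha'⟩
        exact ⟨N.inv_mem ha, by rw [psi_inv hψ ha, ha', neg_zero]⟩ }
  obtain ⟨S, hS⟩ := hA K
  refine ⟨∑ s ∈ S, ν.N (δ s), ?_⟩
  have hκ0 : 0 ≤ ∑ s ∈ S, ν.N (δ s) := Finset.sum_nonneg fun s _ => ν.nonneg _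
  have hiso : ∀ u ∈ K, ∀ p, ν.N (φ u p) = ν.N p := by
    intro u hu p
    rw [hν u hu.1 p, hu.2, neg_zero, Real.exp_zero, one_mul]
  have key : ∀ u, u ∈ Subgroup.closure (S : Set A) → u ∈ K ∧ ν.N (δ u) ≤ ∑ s ∈ S, ν.N (δ s) := by
    intro u hu
    induction hu using Subgroup.closure_induction with
    | mem x hx =>
      refine ⟨by rw [← hS]; exact Subgroup.subset_closure hx, ?_⟩
      exact Finset.single_le_sum (f := fun s => ν.N (δ s)) (fun s _ => ν.nonneg _)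
        (Finset.mem_coe.1 hx)
    | one =>
      refine ⟨K.one_mem, ?_⟩
      rw [d_one hδ, ν.one]
      exact hκ0
    | mul x y _ _ hx hy =>
      refine ⟨K.mul_mem hx.1 hy.1, ?_⟩
      rw [hδ]
      refine (ν.mul _ _).trans (max_le hx.2 ?_)
      rw [hiso x hx.1]
      exact hy.2
    | inv x _ hx =>
      refine ⟨K.inv_mem hx.1, ?_⟩
      rw [d_inv hδ, hiso x⁻¹ (K.inv_mem hx.1), ν.inv]
      exact hx.2
  intro u hu hu0
  have hmem : u ∈ K := ⟨hu, hu0⟩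
  rw [← hS] at hmem
  exact (key u hmem).2

theorem exists_pt (hN : N.Normal) (hδ : ∀ a b, δ (a * b) = δ a * φ a (δ b))
    (hψ : Addi N ψ) (hψ0 : ∃ n ∈ N, ψ n ≠ 0) (hν : Eqv φ N ψ ν)
    (hκ : ∃ κ : ℝ, ∀ u ∈ N, ψ u = 0 → ν.N (δ u) ≤ κ) : ∃ F : P → ℝ, Pt φ δ N ψ ν F := by
  obtain ⟨n0, hn0, hpos⟩ := exists_pos hψ hψ0
  obtain ⟨κ, hκ⟩ := hκ
  have hr0 : 0 ≤ Real.exp (-(ψ n0)) := (Real.exp_pos _).le
  have hr1 : Real.exp (-(ψ n0)) < 1 := by
    rw [Real.exp_lt_one_iff]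
    linarith
  have hpow : ∀ (k : ℕ) (p : P), ν.N (φ (n0 ^ k) p) = Real.exp (-(ψ n0)) ^ k * ν.N p := by
    intro k p
    rw [hν (n0 ^ k) (N.pow_mem hn0 k) p, psi_pow hψ hn0, ← Real.exp_nat_mul]
    congr 2
    ring
  have hcau : ∀ p : P, CauchySeq (fun k : ℕ => ν.N ((δ (n0 ^ k))⁻¹ * p)) := by
    intro p
    refine cauchySeq_of_le_geometric (Real.exp (-(ψ n0))) (ν.N (δ n0)) hr1 (fun k => ?_)
    rw [Real.dist_eq]
    refine (nu_sub ν _ _).trans (le_of_eq ?_)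
    have e : (δ (n0 ^ k))⁻¹ * p * ((δ (n0 ^ (k + 1)))⁻¹ * p)⁻¹ = φ (n0 ^ k) (δ n0) := by
      rw [pow_succ, hδ]
      group
    rw [e, hpow, mul_comm]
  choose F hF using fun p => cauchySeq_tendsto_of_complete (hcau p)
  refine ⟨F, ?_, ?_, ?_, ?_⟩
  · intro p
    exact ge_of_tendsto' (hF p) fun k => ν.nonneg _
  · intro p q
    refine le_of_tendsto_of_tendsto' (hF p) ((hF q).max tendsto_const_nhds) fun k => ?_
    have e : (δ (n0 ^ k))⁻¹ * p = (δ (n0 ^ k))⁻¹ * q * (q⁻¹ * p) := by group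
    rw [e]
    exact ν.mul _ _
  · intro p q
    refine le_of_tendsto_of_tendsto' tendsto_const_nhds ((hF p).max (hF q)) fun k => ?_
    have e : p⁻¹ * q = ((δ (n0 ^ k))⁻¹ * p)⁻¹ * ((δ (n0 ^ k))⁻¹ * q) := by group
    calc ν.N (p⁻¹ * q) = ν.N (((δ (n0 ^ k))⁻¹ * p)⁻¹ * ((δ (n0 ^ k))⁻¹ * q)) := by rw [← e]
      _ ≤ max (ν.N ((δ (n0 ^ k))⁻¹ * p)⁻¹) (ν.N ((δ (n0 ^ k))⁻¹ * q)) := ν.mul _ _
      _ = _ := by rw [ν.inv]
  · intro n hn p
    have h1 : Filter.Tendsto (fun k : ℕ => Real.exp (-(ψ n)) * ν.N ((δ (n0 ^ k))⁻¹ * p))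
        Filter.atTop (nhds (Real.exp (-(ψ n)) * F p)) := (hF p).const_mul _
    obtain ⟨D, hD⟩ : ∃ D, D = max (ν.N (δ n)) (Real.exp (-(ψ n)) * κ) := ⟨_, rfl⟩
    have hb : ∀ k : ℕ, |ν.N ((δ (n0 ^ k))⁻¹ * (δ n * φ n p)) -
        Real.exp (-(ψ n)) * ν.N ((δ (n0 ^ k))⁻¹ * p)| ≤ Real.exp (-(ψ n0)) ^ k * D := by
      intro k
      have h2 : Real.exp (-(ψ n)) * ν.N ((δ (n0 ^ k))⁻¹ * p) =
          ν.N ((δ (n * n0 ^ k))⁻¹ * (δ n * φ n p)) := by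
        rw [← hν n hn, hδ, map_mul, map_inv]
        congr 1
        group
      rw [h2]
      refine (nu_sub ν _ _).trans ?_
      obtain ⟨w, hw⟩ : ∃ w, w = (n0 ^ k)⁻¹ * n * n0 ^ k := ⟨_, rfl⟩
      have hwN : w ∈ N := by
        rw [hw]
        exact N.mul_mem (N.mul_mem (N.inv_mem (N.pow_mem hn0 k)) hn) (N.pow_mem hn0 k)
      have hψw : ψ w = ψ n := by
        rw [hw, hψ _ (N.mul_mem (N.inv_mem (N.pow_mem hn0 k)) hn) _ (N.pow_mem hn0 k),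
          hψ _ (N.inv_mem (N.pow_mem hn0 k)) _ hn, psi_inv hψ (N.pow_mem hn0 k)]
        ring
      have e1 : n * n0 ^ k = n0 ^ k * w := by
        rw [hw]
        group
      have e2 : (δ (n0 ^ k))⁻¹ * (δ n * φ n p) * ((δ (n * n0 ^ k))⁻¹ * (δ n * φ n p))⁻¹ =
          φ (n0 ^ k) (δ w) := by
        rw [e1, hδ]
        group
      rw [e2, hpow]
      apply mul_le_mul_of_nonneg_left _ (pow_nonneg hr0 k)
      obtain ⟨u, hu⟩ : ∃ u, u = n⁻¹ * w := ⟨_, rfl⟩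
      have huN : u ∈ N := by
        rw [hu]
        exact N.mul_mem (N.inv_mem hn) hwN
      have hψu : ψ u = 0 := by
        rw [hu, hψ _ (N.inv_mem hn) _ hwN, psi_inv hψ hn, hψw]
        ring
      have e3 : w = n * u := by
        rw [hu]
        group
      rw [e3, hδ, hD]
      refine (ν.mul _ _).trans (max_le_max le_rfl ?_)
      rw [hν n hn]
      exact mul_le_mul_of_nonneg_left (hκ u huN hψu) (Real.exp_pos _).le
    have h3 : Filter.Tendsto (fun k : ℕ => Real.exp (-(ψ n0)) ^ k * D) Filter.atTop (nhds 0) := by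
      have := (tendsto_pow_atTop_nhds_zero_of_lt_one hr0 hr1).mul_const D
      rwa [zero_mul] at this
    have h4 : Filter.Tendsto (fun k : ℕ => ν.N ((δ (n0 ^ k))⁻¹ * (δ n * φ n p)) -
        Real.exp (-(ψ n)) * ν.N ((δ (n0 ^ k))⁻¹ * p)) Filter.atTop (nhds 0) :=
      squeeze_zero_norm (fun k => by rw [Real.norm_eq_abs]; exact hb k) h3
    have h5 := h4.add h1
    rw [zero_add] at h5
    refine tendsto_nhds_unique (hF (δ n * φ n p)) (h5.congr fun k => ?_)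
    ring

theorem pt_small (hψ : Addi N ψ) (hψ0 : ∃ n ∈ N, ψ n ≠ 0) {F : P → ℝ}
    (hF : Pt φ δ N ψ ν F) {ε : ℝ} (hε : 0 < ε) : ∃ q, F q < ε := by
  obtain ⟨n0, hn0, hpos⟩ := exists_pos hψ hψ0
  obtain ⟨k, hk⟩ := small_pow hpos (F 1) hε
  exact ⟨δ (n0 ^ k), by rw [F_pow hψ hF hn0 k]; exact hk⟩

theorem pt_unique (hψ : Addi N ψ) (hψ0 : ∃ n ∈ N, ψ n ≠ 0) {F F' : P → ℝ}
    (hF : Pt φ δ N ψ ν F) (hF' : Pt φ δ N ψ ν F') : F = F' := by
  obtain ⟨n0, hn0, hpos⟩ := exists_pos hψ hψ0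
  have key : ∀ {F F' : P → ℝ}, Pt φ δ N ψ ν F → Pt φ δ N ψ ν F' → ∀ q, F q ≤ F' q := by
    intro F F' hF hF' q
    apply le_of_forall_pos_le_add
    intro ε hε
    obtain ⟨k, hk⟩ := small_pow hpos (F 1 + F' 1) hε
    have h1 := hF.tri1 q (δ (n0 ^ k))
    have h2 := hF'.tri2 (δ (n0 ^ k)) q
    have e1 := F_pow hψ hF hn0 k
    have e2 := F_pow hψ hF' hn0 k
    have h3 : F q ≤ F (δ (n0 ^ k)) + ν.N ((δ (n0 ^ k))⁻¹ * q) := by
      refine h1.trans (max_le ?_ ?_)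
      · have := ν.nonneg ((δ (n0 ^ k))⁻¹ * q)
        linarith
      · have := hF.nonneg (δ (n0 ^ k))
        linarith
    have h4 : ν.N ((δ (n0 ^ k))⁻¹ * q) ≤ F' (δ (n0 ^ k)) + F' q := by
      refine h2.trans (max_le ?_ ?_)
      · have := hF'.nonneg q
        linarith
      · have := hF'.nonneg (δ (n0 ^ k))
        linarith
    rw [e1] at h3
    rw [e2] at h4
    linarith
  funext q
  exact le_antisymm (key hF hF' q) (key hF' hF q)

theorem pt_aff (hN : N.Normal) (hδ : ∀ a b, δ (a * b) = δ a * φ a (δ b))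
    (hψ : Addi N ψ) (hψ0 : ∃ n ∈ N, ψ n ≠ 0) (hν : Eqv φ N ψ ν) (hnz : ∃ p, ν.N p ≠ 0)
    {F : P → ℝ} (hF : Pt φ δ N ψ ν F) (a : A) (l b : ℝ) (hl : 0 < l)
    (ha : ∀ p, ν.N (φ a p) = (ν.N p) ^ l * Real.exp (-b)) (p : P) :
    F (δ a * φ a p) = (F p) ^ l * Real.exp (-b) := by
  have hl' : l ≠ 0 := hl.ne'
  have hil : 0 ≤ 1 / l := by positivity
  have hebb : Real.exp (-b) * Real.exp b = 1 := by
    rw [← Real.exp_add, neg_add_cancel, Real.exp_zero]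
  have hroot : ∀ x : ℝ, 0 ≤ x → (x ^ l) ^ (1 / l) = x := by
    intro x hx
    rw [← Real.rpow_mul hx, mul_one_div_cancel hl', Real.rpow_one]
  have hroot' : ∀ x : ℝ, 0 ≤ x → (x ^ (1 / l)) ^ l = x := by
    intro x hx
    rw [← Real.rpow_mul hx, one_div_mul_cancel hl', Real.rpow_one]
  -- the power of the norm
  have hnu : ∀ q r : P, (ν.N ((δ a * φ a q)⁻¹ * (δ a * φ a r)) * Real.exp b) ^ (1 / l) =
      ν.N (q⁻¹ * r) := by
    intro q r
    have e : (δ a * φ a q)⁻¹ * (δ a * φ a r) = φ a (q⁻¹ * r) := by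
      rw [map_mul, map_inv]
      group
    rw [e, ha, mul_assoc, hebb, mul_one, hroot _ (ν.nonneg _)]
  have hmaxpow : ∀ x y z : ℝ, 0 ≤ x → x ≤ max y z → 0 ≤ y → 0 ≤ z →
      (x * Real.exp b) ^ (1 / l) ≤
        max ((y * Real.exp b) ^ (1 / l)) ((z * Real.exp b) ^ (1 / l)) := by
    intro x y z hx h hy hz
    have hb := (Real.exp_pos b).le
    rcases le_max_iff.1 h with h | h
    · exact le_max_of_le_left (Real.rpow_le_rpow (mul_nonneg hx hb)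
        (mul_le_mul_of_nonneg_right h hb) hil)
    · exact le_max_of_le_right (Real.rpow_le_rpow (mul_nonneg hx hb)
        (mul_le_mul_of_nonneg_right h hb) hil)
  have hψm : ∀ n ∈ N, ψ (a * n * a⁻¹) = l * ψ n := by
    intro n hn
    obtain ⟨p0, hp0⟩ := hnz
    have hp0' : 0 < ν.N p0 := lt_of_le_of_ne (ν.nonneg _) (Ne.symm hp0)
    have hm : a * n * a⁻¹ ∈ N := hN.conj_mem n hn a
    have e1 : φ a (φ n p0) = φ (a * n * a⁻¹) (φ a p0) := by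
      rw [← MulAut.mul_apply, ← MulAut.mul_apply, ← map_mul, ← map_mul, inv_mul_cancel_right]
    have h1 : ν.N (φ a (φ n p0)) =
        Real.exp (-(l * ψ n)) * ((ν.N p0) ^ l * Real.exp (-b)) := by
      rw [ha, hν n hn, Real.mul_rpow (Real.exp_pos _).le hp0'.le, ← Real.exp_mul]
      rw [show -ψ n * l = -(l * ψ n) by ring]
      ring
    have h2 : ν.N (φ a (φ n p0)) =
        Real.exp (-(ψ (a * n * a⁻¹))) * ((ν.N p0) ^ l * Real.exp (-b)) := by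
      rw [e1, hν _ hm, ha]
    rw [h1] at h2
    have h3 : 0 < (ν.N p0) ^ l * Real.exp (-b) :=
      mul_pos (Real.rpow_pos_of_pos hp0' l) (Real.exp_pos _)
    have h4 := mul_right_cancel₀ h3.ne' h2
    have h5 := Real.exp_injective h4
    linarith
  have hF' : Pt φ δ N ψ ν (fun q => (F (δ a * φ a q) * Real.exp b) ^ (1 / l)) := by
    refine ⟨?_, ?_, ?_, ?_⟩
    · intro q
      exact Real.rpow_nonneg (mul_nonneg (hF.nonneg _) (Real.exp_pos _).le) _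
    · intro q r
      have h1 := hF.tri1 (δ a * φ a q) (δ a * φ a r)
      have h2 := hmaxpow _ _ _ (hF.nonneg _) h1 (hF.nonneg _) (ν.nonneg _)
      rw [hnu r q] at h2
      exact h2
    · intro q r
      have h1 := hF.tri2 (δ a * φ a q) (δ a * φ a r)
      have h2 := hmaxpow _ _ _ (ν.nonneg _) h1 (hF.nonneg _) (hF.nonneg _)
      rw [hnu q r] at h2
      exact h2
    · intro n hn q
      have hm : a * n * a⁻¹ ∈ N := hN.conj_mem n hn a
      have e1 : δ a * φ a (δ n * φ n q) =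
          δ (a * n * a⁻¹) * φ (a * n * a⁻¹) (δ a * φ a q) := by
        have e2 : δ a * φ a (δ n) = δ (a * n * a⁻¹) * φ (a * n * a⁻¹) (δ a) := by
          rw [← hδ, ← hδ, inv_mul_cancel_right]
        have e3 : φ a (φ n q) = φ (a * n * a⁻¹) (φ a q) := by
          rw [← MulAut.mul_apply, ← MulAut.mul_apply, ← map_mul, ← map_mul, inv_mul_cancel_right]
        rw [map_mul, map_mul, ← mul_assoc, e2, e3, mul_assoc]
      rw [e1, hF.eqv _ hm, hψm n hn, mul_assoc,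
        Real.mul_rpow (Real.exp_pos _).le (mul_nonneg (hF.nonneg _) (Real.exp_pos _).le),
        ← Real.exp_mul]
      congr 2
      field_simp
  have h := pt_unique hψ hψ0 hF hF'
  have h1 : F p = (F (δ a * φ a p) * Real.exp b) ^ (1 / l) := congrFun h p
  have h2 : F p ^ l = F (δ a * φ a p) * Real.exp b := by
    rw [h1, hroot' _ (mul_nonneg (hF.nonneg _) (Real.exp_pos _).le)]
  rw [h2, mul_assoc, mul_comm (Real.exp b), hebb, mul_one]

theorem pt_eq (hN : N.Normal) (hδ : ∀ a b, δ (a * b) = δ a * φ a (δ b))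
    {F : P → ℝ} (hF : Pt φ δ N ψ ν F) {y n : A} (hn : n ∈ N) (h : 0 < ψ (y * n * y⁻¹)) :
    F (δ y) = ν.N (φ y (δ n)) := by
  have hm : y * n * y⁻¹ ∈ N := hN.conj_mem n hn y
  have e1 : δ (y * n) = δ (y * n * y⁻¹) * φ (y * n * y⁻¹) (δ y) := by
    rw [← hδ, inv_mul_cancel_right]
  have h1 : F (δ (y * n)) = Real.exp (-(ψ (y * n * y⁻¹))) * F (δ y) := by
    rw [e1, hF.eqv _ hm]
  have hlt : Real.exp (-(ψ (y * n * y⁻¹))) < 1 := by
    rw [Real.exp_lt_one_iff]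
    linarith
  have e2 : (δ y)⁻¹ * δ (y * n) = φ y (δ n) := by
    rw [hδ]
    group
  have e3 : (δ (y * n))⁻¹ * δ y = (φ y (δ n))⁻¹ := by
    rw [← e2]
    group
  have t1 := hF.tri1 (δ y) (δ (y * n))
  have t2 := hF.tri2 (δ y) (δ (y * n))
  rw [e3, ν.inv] at t1
  rw [e2] at t2
  have h0 := hF.nonneg (δ y)
  have hle : F (δ (y * n)) ≤ F (δ y) := by
    rw [h1]
    nlinarith
  rw [max_eq_left hle] at t2
  refine le_antisymm ?_ t2
  rcases eq_or_lt_of_le h0 with h0' | h0'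
  · rw [← h0']
    exact ν.nonneg _
  · have hlt' : F (δ (y * n)) < F (δ y) := by
      rw [h1]
      nlinarith
    rcases le_max_iff.1 t1 with t | t
    · exact absurd t (not_le.2 hlt')
    · exact t

theorem pt_two (hδ : ∀ a b, δ (a * b) = δ a * φ a (δ b))
    {F : P → ℝ} (hF : Pt φ δ N ψ ν F) {y c : A} (h : F (δ y) < ν.N (φ y (δ c))) :
    F (δ (y * c)) = ν.N (φ y (δ c)) := by
  have e2 : (δ y)⁻¹ * δ (y * c) = φ y (δ c) := by
    rw [hδ]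
    group
  have t1 := hF.tri1 (δ (y * c)) (δ y)
  have t2 := hF.tri2 (δ y) (δ (y * c))
  rw [e2] at t1 t2
  rw [max_eq_right h.le] at t1
  refine le_antisymm t1 ?_
  rcases le_max_iff.1 t2 with t | t
  · exact absurd t (not_le.2 h)
  · exact t

theorem pt_N (hδ : ∀ a b, δ (a * b) = δ a * φ a (δ b))
    {F : P → ℝ} (hF : Pt φ δ N ψ ν F) {n : A} (hn : n ∈ N) (y : A) :
    F (δ (n * y)) = Real.exp (-(ψ n)) * F (δ y) := by
  rw [hδ, hF.eqv n hn]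

end Pool.Agent.RPC
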