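import Pool.Agent.RPC.NilPC

/-!
MODULE RPC/Red1 : the frozen statement from Theorem X.
X: G = AB, A, B PC, P normal locally nilpotent ⇒ P f.g.
Proof.  (a) G = AB has max-n: for normal M₁ ≤ M₂ with B M₁ = B M₂ and B ⊓ M₁ = B ⊓ M₂: M₁ = M₂
(modular law).  Subgroups H ≥ B satisfy H = (A ⊓ H) B, so H is determined by A ⊓ H, a subgroup of the
PC group A.  So the set of normal subgroups N of G with PC N has a maximal element N (well-founded: the
map N ↦ (A ⊓ (B ⊔ N), B ⊓ N) is strictly monotone into a product of well-founded orders >).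
(b) If N ≠ ⊤ take M from the hypothesis: N < M normal, images in G/N of f.g. subgroups of M nilpotent.
G/N = (AN/N)(BN/N), both PC; P := M/N = M.map (mk' N) is normal, locally nilpotent (a finite subset of
M/N lifts to a finite subset of M).  X ⇒ P f.g., nilpotent (nilpotent_of_LN_fg), so PC; M is an extension
of N by P, so PC M (PC.ext in the group ↥M with N.subgroupOf M, quotient ≅ P).  Contradiction.
-/

set_option autoImplicit false

namespace Pool.Agent.RPC

/-- Theorem X -/
def ThmX : Prop :=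
  ∀ (G : Type) [Group G] (A B P : Subgroup G), PC A → PC B →
    (∀ g : G, ∃ a ∈ A, ∃ b ∈ B, g = a * b) → P.Normal → LN P → P.FG

namespace Red1

/-- the rank function used for the maximal element -/
def rk {G : Type} [Group G] (A B : Subgroup G) (N : Subgroup G) : Subgroup A × Subgroup B :=
  ((B ⊔ N).subgroupOf A, N.subgroupOf B)

theorem rk_mono {G : Type} [Group G] (A B : Subgroup G) {M N : Subgroup G} (h : M ≤ N) :
    rk A B M ≤ rk A B N := by
  refine ⟨?_, ?_⟩
  · intro x hx
    exact (sup_le_sup_left h B : B ⊔ M ≤ B ⊔ N) hx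
  · intro x hx
    exact h hx

theorem eq_of_rk {G : Type} [Group G] (A B : Subgroup G)
    (hG : ∀ g : G, ∃ a ∈ A, ∃ b ∈ B, g = a * b) {M N : Subgroup G} (hM : M.Normal)
    (h : M ≤ N) (he : rk A B M = rk A B N) : M = N := by
  have h1 : (B ⊔ M).subgroupOf A = (B ⊔ N).subgroupOf A := congrArg Prod.fst he
  have h2 : M.subgroupOf B = N.subgroupOf B := congrArg Prod.snd he
  apply le_antisymm h
  intro x hx
  have hx' : x ∈ B ⊔ M := by
    obtain ⟨a, ha, b, hb, rfl⟩ := hG x
    have hab : a ∈ B ⊔ N := by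
      have h3 : a = (a * b) * b⁻¹ := by group
      rw [h3]
      exact (B ⊔ N).mul_mem ((le_sup_right : N ≤ B ⊔ N) hx)
        ((le_sup_left : B ≤ B ⊔ N) (B.inv_mem hb))
    have h4 : (⟨a, ha⟩ : A) ∈ (B ⊔ N).subgroupOf A := hab
    rw [← h1] at h4
    have h5 : a ∈ B ⊔ M := h4
    exact (B ⊔ M).mul_mem h5 ((le_sup_left : B ≤ B ⊔ M) hb)
  obtain ⟨b, hb, m, hm, rfl⟩ := Subgroup.mem_sup_of_normal_right.1 hx'
  have hbN : b ∈ N := by
    have h3 : b = (b * m) * m⁻¹ := by group
    rw [h3]
    exact N.mul_mem hx (N.inv_mem (h hm))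
  have h4 : (⟨b, hb⟩ : B) ∈ N.subgroupOf B := hbN
  rw [← h2] at h4
  have h5 : b ∈ M := h4
  exact M.mul_mem h5 hm

theorem pc_bot (G : Type) [Group G] : PC (⊥ : Subgroup G) := by
  refine ⟨(inferInstance : Group.IsSolvable (⊥ : Subgroup G)), fun K => ?_⟩
  have h : K = ⊥ := Subsingleton.elim _ _
  rw [h]
  exact Subgroup.FG.bot

/-- a maximal normal PC subgroup -/
theorem exists_max {G : Type} [Group G] (A B : Subgroup G) (hA : PC A) (hB : PC B)
    (hG : ∀ g : G, ∃ a ∈ A, ∃ b ∈ B, g = a * b) :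
    ∃ N : Subgroup G, N.Normal ∧ PC N ∧ ∀ M : Subgroup G, M.Normal → PC M → ¬ N < M := by
  have := hA.acc
  have := hB.acc
  have wf : WellFounded (fun x y : Subgroup A × Subgroup B => x > y) := wellFounded_gt
  obtain ⟨N, ⟨hN, hNP⟩, hmax⟩ := (InvImage.wf (rk A B) wf).has_min
    {N : Subgroup G | N.Normal ∧ PC N} ⟨⊥, inferInstance, pc_bot G⟩
  refine ⟨N, hN, hNP, fun M hM hMP hlt => ?_⟩
  apply hmax M ⟨hM, hMP⟩
  show rk A B M > rk A B N
  refine lt_of_le_of_ne (rk_mono A B hlt.le) (fun h => ?_)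
  exact hlt.ne (eq_of_rk A B hG hN hlt.le h)

theorem ln_map {G : Type} [Group G] (N M : Subgroup G) [N.Normal]
    (h : ∀ s : Finset G, (↑s : Set G) ⊆ (M : Set G) →
          Group.IsNilpotent
            (Subgroup.map (QuotientGroup.mk' N) (Subgroup.closure (↑s : Set G)))) :
    LN (M.map (QuotientGroup.mk' N)) := by
  classical
  intro s
  have hex : ∀ x : M.map (QuotientGroup.mk' N), ∃ m : G, m ∈ M ∧ QuotientGroup.mk' N m = x := by
    intro x
    exact Subgroup.mem_map.1 x.2
  choose c hc hcx using hex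
  have h1 := h (s.image c) (by
    intro y hy
    rw [Finset.coe_image] at hy
    obtain ⟨x, _, rfl⟩ := hy
    exact hc x)
  have h2 : Subgroup.map (QuotientGroup.mk' N) (Subgroup.closure ((s.image c : Finset G) : Set G)) =
      Subgroup.map (M.map (QuotientGroup.mk' N)).subtype
        (Subgroup.closure (s : Set (M.map (QuotientGroup.mk' N)))) := by
    rw [MonoidHom.map_closure, MonoidHom.map_closure]
    congr 1
    ext y
    constructor
    · rintro ⟨z, hz, rfl⟩
      rw [Finset.coe_image] at hz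
      obtain ⟨x, hx, rfl⟩ := hz
      exact ⟨x, hx, (hcx x).symm⟩
    · rintro ⟨x, hx, rfl⟩
      refine ⟨c x, ?_, hcx x⟩
      rw [Finset.coe_image]
      exact ⟨x, hx, rfl⟩
  rw [h2] at h1
  have e := Subgroup.equivMapOfInjective
    (Subgroup.closure (s : Set (M.map (QuotientGroup.mk' N))))
    (M.map (QuotientGroup.mk' N)).subtype (Subgroup.subtype_injective _)
  have := h1
  exact Group.nilpotent_of_mulEquiv e.symm

theorem pc_ext_map {G : Type} [Group G] (N M : Subgroup G) [N.Normal] (hNM : N ≤ M)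
    (h1 : PC N) (h2 : PC (M.map (QuotientGroup.mk' N))) : PC M := by
  set ρ := (QuotientGroup.mk' N).subgroupMap M with hρ
  have hs : Function.Surjective ρ := MonoidHom.subgroupMap_surjective _ _
  have hk : ρ.ker = N.subgroupOf M := by
    ext x
    rw [MonoidHom.mem_ker, Subgroup.mem_subgroupOf, Subtype.ext_iff]
    show QuotientGroup.mk' N (x : G) = 1 ↔ _
    exact QuotientGroup.eq_one_iff _
  have h3 : PC ρ.ker := by
    rw [hk]
    exact PC.equiv (Subgroup.subgroupOfEquivOfLe hNM).symm h1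
  exact PC.ext ρ.ker h3 (PC.equiv (QuotientGroup.quotientKerEquivOfSurjective ρ hs).symm h2)

end Red1

open Red1 in
theorem main_of_X (X : ThmX) :
    ∀ (G : Type) [Group G] (A B : Subgroup G),
    (IsSolvable A ∧ ∀ K : Subgroup A, K.FG) →
    (IsSolvable B ∧ ∀ K : Subgroup B, K.FG) →
    (∀ g : G, ∃ a ∈ A, ∃ b ∈ B, g = a * b) →
    (∀ (N : Subgroup G) [N.Normal], N ≠ ⊤ →
      ∃ M : Subgroup G, M.Normal ∧ N < M ∧
        ∀ s : Finset G, (↑s : Set G) ⊆ (M : Set G) →
          Group.IsNilpotent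
            (Subgroup.map (QuotientGroup.mk' N) (Subgroup.closure (↑s : Set G)))) →
    (IsSolvable G ∧ ∀ K : Subgroup G, K.FG) := by
  intro G _ A B hA hB hG hrad
  obtain ⟨N, hN, hNP, hmax⟩ := exists_max A B hA hB hG
  have htop : N = ⊤ := by
    by_contra hne
    obtain ⟨M, hM, hlt, hnil⟩ := hrad N hne
    have hln := ln_map N M hnil
    have hP : (M.map (QuotientGroup.mk' N)).Normal :=
      hM.map _ (QuotientGroup.mk'_surjective N)
    have hfg := X (G ⧸ N) (A.map (QuotientGroup.mk' N)) (B.map (QuotientGroup.mk' N))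
      (M.map (QuotientGroup.mk' N))
      (PC.map hA _ (MonoidHom.subgroupMap_surjective (QuotientGroup.mk' N) A))
      (PC.map hB _ (MonoidHom.subgroupMap_surjective (QuotientGroup.mk' N) B))
      (by
        intro g
        obtain ⟨x, rfl⟩ := QuotientGroup.mk'_surjective N g
        obtain ⟨a, ha, b, hb, rfl⟩ := hG x
        exact ⟨_, Subgroup.mem_map_of_mem _ ha, _, Subgroup.mem_map_of_mem _ hb, map_mul _ _ _⟩)
      hP hln
    have hfg' : Group.FG (M.map (QuotientGroup.mk' N)) := (Group.fg_iff_subgroup_fg _).2 hfg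
    have hPC := pc_of_nilpotent hfg' (nilpotent_of_LN_fg hln hfg')
    exact hmax M hM (pc_ext_map N M hlt.le hNP hPC) hlt
  rw [htop] at hNP
  exact PC.equiv Subgroup.topEquiv hNP

end Pool.Agent.RPC
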