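import Pool.Agent.RPC.Can
import Pool.Agent.RPC.LatEx

/-!
MODULE RPC/SigF : properties of the set Sig φ L.
* `sig_iff` : exists_can and not_sub_of_norm.
* `sig_closed` : the complement (inside θ ≠ 0) is open: D ⊆ Tr{ψ_θ > 0} is witnessed by finitely many
  n ∈ N with ψ_θ(n) > 0 (D finite, each element of a closure uses finitely many generators), and
  ψ_θ'(n) > 0 for θ' close to θ.
* `sig_smul` : ν^c is again a UNorm (c > 0), (N, c ψ)-equivariant.
* `sig_act` : ν'(p) = ν (φ a p); psi_conj, th_ne.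
-/

set_option autoImplicit false

namespace Pool.Agent.RPC

variable {A P : Type} [Group A] [Group P] {φ : A →* MulAut P} {N N₁ : Subgroup A} {d : ℕ}

theorem sig_iff (L : Lat N N₁ d) (D : Finset P) (hgen : Tr φ (N : Set A) (D : Set P) = ⊤)
    (θ : Fin d → ℝ) :
    θ ∈ Sig φ L ↔ θ ≠ 0 ∧
      ¬ ((D : Set P) ⊆ (Tr φ {n | n ∈ N ∧ 0 < L.psi θ n} (D : Set P) : Set P)) := by
  constructor
  · rintro ⟨h0, ν, hnz, hν⟩
    exact ⟨h0, not_sub_of_norm φ N D (L.psi θ) hgen ν hν hnz⟩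
  · rintro ⟨h0, hsub⟩
    obtain ⟨ν, h1, _, h3, _⟩ := exists_can φ N D (L.psi θ) (L.psi_add θ) hgen
    rcases h3 with ⟨d, _, hd⟩ | h3
    · exact ⟨h0, ν, ⟨d, by rw [hd]; exact one_ne_zero⟩, h1⟩
    · exact absurd h3 hsub

theorem SigF.tr_mono {S S' : Set A} {D : Set P} (h : S ⊆ S') : Tr φ S D ≤ Tr φ S' D := by
  unfold Tr
  apply Subgroup.closure_mono
  rintro x ⟨a, ha, d, hd, rfl⟩
  exact ⟨a, h ha, d, hd, rfl⟩

open Classical in
theorem SigF.tr_fin {S : Set A} {D : Set P} {x : P} (hx : x ∈ Tr φ S D) :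
    ∃ F : Finset A, (F : Set A) ⊆ S ∧ x ∈ Tr φ (F : Set A) D := by
  unfold Tr at hx
  induction hx using Subgroup.closure_induction with
  | mem x hx =>
    obtain ⟨a, ha, d, hd, rfl⟩ := hx
    refine ⟨{a}, ?_, Subgroup.subset_closure ⟨a, ?_, d, hd, rfl⟩⟩
    · rw [Finset.coe_singleton, Set.singleton_subset_iff]
      exact ha
    · rw [Finset.coe_singleton]
      exact Set.mem_singleton a
  | one => exact ⟨∅, by simp, Subgroup.one_mem _⟩
  | mul x y _ _ hx hy =>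
    obtain ⟨F, hF, hx⟩ := hx
    obtain ⟨G, hG, hy⟩ := hy
    refine ⟨F ∪ G, ?_, Subgroup.mul_mem _ (SigF.tr_mono ?_ hx) (SigF.tr_mono ?_ hy)⟩
    · rw [Finset.coe_union]
      exact Set.union_subset hF hG
    · rw [Finset.coe_union]
      exact Set.subset_union_left
    · rw [Finset.coe_union]
      exact Set.subset_union_right
  | inv x _ hx =>
    obtain ⟨F, hF, hx⟩ := hx
    exact ⟨F, hF, Subgroup.inv_mem _ hx⟩

open Classical in
theorem SigF.tr_fin' {S : Set A} {D : Set P} (E : Finset P)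
    (hE : (E : Set P) ⊆ (Tr φ S D : Set P)) :
    ∃ F : Finset A, (F : Set A) ⊆ S ∧ (E : Set P) ⊆ (Tr φ (F : Set A) D : Set P) := by
  have h : ∀ x : P, ∃ F : Finset A, (F : Set A) ⊆ S ∧ (x ∈ E → x ∈ Tr φ (F : Set A) D) := by
    intro x
    by_cases hx : x ∈ E
    · obtain ⟨F, hF, h⟩ := SigF.tr_fin (hE hx)
      exact ⟨F, hF, fun _ => h⟩
    · exact ⟨∅, by simp, fun h => absurd h hx⟩
  choose F hF hF' using h
  refine ⟨E.biUnion F, ?_, ?_⟩
  · intro a ha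
    rw [Finset.mem_coe, Finset.mem_biUnion] at ha
    obtain ⟨x, _, hx⟩ := ha
    exact hF x hx
  · intro x hx
    refine SigF.tr_mono ?_ (hF' x hx)
    intro a ha
    rw [Finset.mem_coe, Finset.mem_biUnion]
    exact ⟨x, hx, ha⟩

theorem sig_closed (L : Lat N N₁ d) (hF : FGO φ N) (θ : Fin d → ℝ) (h : θ ∈ closure (Sig φ L))
    (h0 : θ ≠ 0) : θ ∈ Sig φ L := by
  obtain ⟨D, hgen⟩ := hF
  rw [sig_iff L D hgen]
  refine ⟨h0, fun hsub => ?_⟩
  obtain ⟨F, hF, hD⟩ := SigF.tr_fin' D hsub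
  have hop : IsOpen (⋂ n ∈ F, {η : Fin d → ℝ | 0 < L.psi η n}) := by
    apply isOpen_biInter_finset
    intro n _
    apply isOpen_lt continuous_const
    unfold Lat.psi dot
    fun_prop
  have hmem : θ ∈ ⋂ n ∈ F, {η : Fin d → ℝ | 0 < L.psi η n} := by
    rw [Set.mem_iInter₂]
    intro n hn
    exact (hF hn).2
  obtain ⟨η, hη, hηS⟩ := mem_closure_iff.1 h _ hop hmem
  rw [Set.mem_iInter₂] at hη
  rw [sig_iff L D hgen] at hηS
  apply hηS.2
  refine hD.trans ?_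
  apply SigF.tr_mono
  intro n hn
  exact ⟨(hF hn).1, hη n hn⟩

theorem sig_smul (L : Lat N N₁ d) (θ : Fin d → ℝ) (h : θ ∈ Sig φ L) (c : ℝ) (hc : 0 < c) :
    c • θ ∈ Sig φ L := by
  obtain ⟨h0, ν, ⟨p, hp⟩, hν⟩ := h
  refine ⟨smul_ne_zero hc.ne' h0, ⟨fun x => (ν.N x) ^ c, fun x => Real.rpow_nonneg (ν.nonneg x) c,
    ?_, fun x => by rw [ν.inv], fun x y => ?_⟩, ⟨p, ?_⟩, ?_⟩
  · rw [ν.one, Real.zero_rpow hc.ne']
  · have h1 := Real.rpow_le_rpow (ν.nonneg _) (ν.mul x y) hc.le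
    refine h1.trans ?_
    rcases le_total (ν.N x) (ν.N y) with h2 | h2
    · rw [max_eq_right h2]
      exact le_max_right _ _
    · rw [max_eq_left h2]
      exact le_max_left _ _
  · have h1 : 0 < ν.N p := lt_of_le_of_ne (ν.nonneg p) (Ne.symm hp)
    exact (Real.rpow_pos_of_pos h1 c).ne'
  · intro n hn x
    change (ν.N (φ n x)) ^ c = Real.exp (-(L.psi (c • θ) n)) * (ν.N x) ^ c
    rw [hν n hn x, Real.mul_rpow (Real.exp_pos _).le (ν.nonneg x), ← Real.exp_mul]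
    congr 2
    simp only [Lat.psi, dot, Pi.smul_apply, smul_eq_mul, mul_assoc, ← Finset.mul_sum]
    ring

theorem sig_act (hN : N.Normal) (L : Lat N N₁ d) (θ : Fin d → ℝ) (h : θ ∈ Sig φ L) (a : A) :
    L.th a θ ∈ Sig φ L := by
  obtain ⟨h0, ν, ⟨p, hp⟩, hν⟩ := h
  refine ⟨L.th_ne a h0, ⟨fun x => ν.N (φ a x), fun x => ν.nonneg _, ?_, fun x => ?_,
    fun x y => ?_⟩, ⟨(φ a)⁻¹ p, ?_⟩, ?_⟩
  · rw [map_one, ν.one]
  · rw [map_inv, ν.inv]
  · rw [map_mul]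
    exact ν.mul _ _
  · change ν.N (φ a ((φ a)⁻¹ p)) ≠ 0
    rw [MulAut.apply_inv_self]
    exact hp
  · intro n hn x
    change ν.N (φ a (φ n x)) = Real.exp (-(L.psi (L.th a θ) n)) * ν.N (φ a x)
    have h1 : φ a (φ n x) = φ (a * n * a⁻¹) (φ a x) := by
      rw [← MulAut.mul_apply, ← MulAut.mul_apply, ← map_mul, ← map_mul]
      congr 2
      group
    rw [h1, hν _ (hN.conj_mem n hn a), L.psi_conj θ a hn]

end Pool.Agent.RPC
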