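import Pool.Agent.RPC.Chars
import Pool.Agent.RPC.WFInf

/-!
MODULE RPC/Stable : every A-normal F contains an A-normal stable N of finite index.
Proof.  Among the A-normal subgroups N ≤ F of finite index in F choose N with KR N minimal for the
well-founded relation of `wf_inf` (`H ≤ K of infinite index`).  Let L₂ ≤ N be A-normal of finite
index in N.  KR L₂ ≤ KR N ⊓ L₂ (KR_mono).  KR L₂ has finite index in KR N (otherwise KR L₂ is smaller,
and L₂ has finite index in F).  So for x ∈ KR N ⊓ L₂ some power x^k (k ≥ 1) is in KR L₂, and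
x ∈ L₂, so x ∈ KR L₂ by KR_isol.
* `ab_quot`: a f.g. group with finite commutator subgroup has a centre of finite index
  (Mathlib: `Subgroup.index_center_le_pow`, finite commutatorSet, or similar).  Let F ≤ L be A-normal
  subgroups with ⁅L, L⁆ ≤ F and N ≤ F A-normal of finite index in F.  Then A₁ := {x ∈ L : [x, l] ∈ N
  for all l ∈ L} (the preimage of the centre of L/N) is A-normal, contains N, has finite index in L and
  ⁅A₁, A₁⁆ ≤ N.
* `inf_ab`: M infinite PC: there is M₀ ≤ M, normal in A if M is, of finite index in M with infinite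
  abelianisation: M₀ = M^(i), i least with M^(i)/M^(i+1) infinite.
-/

set_option autoImplicit false

namespace Pool.Agent.RPC

/-- the derived series of the subgroup `M` -/
def StableAuxD {A : Type} [Group A] (M : Subgroup A) : ℕ → Subgroup A
  | 0 => M
  | n + 1 => ⁅StableAuxD M n, StableAuxD M n⁆

theorem exists_stable {A : Type} [Group A] (hA : PC A) (F : Subgroup A) (hF : F.Normal) :
    ∃ N : Subgroup A, N ≤ F ∧ N.Normal ∧ N.relIndex F ≠ 0 ∧ Stab N := by
  obtain ⟨N, hN, hmin⟩ := (InvImage.wf (fun L : Subgroup A => KR L) (wf_inf hA)).has_min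
    {N : Subgroup A | N ≤ F ∧ N.Normal ∧ N.relIndex F ≠ 0}
    ⟨F, le_rfl, hF, by rw [Subgroup.relIndex_self]; exact one_ne_zero⟩
  obtain ⟨h1, h2, h3⟩ := hN
  refine ⟨N, h1, h2, h3, ?_⟩
  intro L₂ hL₂ hL₂N hfin
  apply le_antisymm (le_inf (KR_mono hL₂N) (KR_le L₂))
  intro x hx
  have h4 : L₂.relIndex F ≠ 0 := by
    rw [← Subgroup.relIndex_mul_relIndex L₂ N F hL₂N h1]
    exact mul_ne_zero hfin h3
  have h5 := hmin L₂ ⟨hL₂N.trans h1, hL₂, h4⟩
  have h6 : (KR L₂).relIndex (KR N) ≠ 0 := fun h => h5 ⟨KR_mono hL₂N, h⟩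
  obtain ⟨n, hn, -, hxn⟩ := Subgroup.exists_pow_mem_of_relIndex_ne_zero h6 hx.1
  exact KR_isol L₂ hx.2 hn hxn.1

theorem ab_quot {A : Type} [Group A] (hA : PC A) (L F N : Subgroup A) (hL : L.Normal)
    (hF : F.Normal) (hN : N.Normal) (hNF : N ≤ F) (hFL : F ≤ L) (hLF : ⁅L, L⁆ ≤ F)
    (hfin : N.relIndex F ≠ 0) :
    ∃ A₁ : Subgroup A, A₁.Normal ∧ N ≤ A₁ ∧ A₁ ≤ L ∧ A₁.relIndex L ≠ 0 ∧ ⁅A₁, A₁⁆ ≤ N := by
  set q := QuotientGroup.mk' N with hq
  set Q := L.map q with hQ
  have hqN : ∀ x : A, q x = 1 ↔ x ∈ N := fun x => by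
    rw [← MonoidHom.mem_ker, hq, QuotientGroup.ker_mk']
  have hQn : Q.Normal := hL.map q (QuotientGroup.mk'_surjective N)
  have hcn : (Subgroup.centralizer (Q : Set (A ⧸ N))).Normal := inferInstance
  refine ⟨(Subgroup.centralizer (Q : Set (A ⧸ N))).comap q ⊓ L, ?_, ?_, inf_le_right, ?_, ?_⟩
  · have h1 : ((Subgroup.centralizer (Q : Set (A ⧸ N))).comap q).Normal := hcn.comap q
    exact Subgroup.normal_inf_normal _ _
  · refine le_inf ?_ (hNF.trans hFL)
    intro x hx
    rw [Subgroup.mem_comap, (hqN x).2 hx]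
    exact Subgroup.one_mem _
  · rw [Subgroup.inf_relIndex_right, Subgroup.relIndex_comap, ← hQ]
    -- the centre of `Q` has finite index
    have hfg : Group.FG Q := by
      classical
      rw [Group.fg_iff_subgroup_fg]
      obtain ⟨S, hS⟩ := hA.2 L
      refine ⟨S.image q, ?_⟩
      rw [Finset.coe_image, ← MonoidHom.map_closure, hS]
    have hFq : Finite (F.map q) := by
      have h1 : N.relIndex F = Nat.card (F.map q) := by
        have h2 := Subgroup.relIndex_comap (⊥ : Subgroup (A ⧸ N)) q F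
        rw [Subgroup.relIndex_bot_left] at h2
        rw [← h2]
        congr 1
        rw [MonoidHom.comap_bot, hq, QuotientGroup.ker_mk']
      have h3 : Nat.card (F.map q) ≠ 0 := h1 ▸ hfin
      exact Nat.finite_of_card_ne_zero h3
    have hcomm : Finite (commutatorSet Q) := by
      have hsub : ∀ x ∈ commutatorSet Q, (x : A ⧸ N) ∈ F.map q := by
        rintro _ ⟨⟨_, l₁, hl₁, rfl⟩, ⟨_, l₂, hl₂, rfl⟩, rfl⟩
        refine ⟨l₁ * l₂ * l₁⁻¹ * l₂⁻¹, hLF (Subgroup.commutator_mem_commutator hl₁ hl₂), ?_⟩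
        rw [map_mul, map_mul, map_mul, map_inv, map_inv]
        rfl
      exact Finite.of_injective (fun x : commutatorSet Q => (⟨(x : Q), hsub x x.2⟩ : F.map q))
        (fun x y h => by
          apply Subtype.ext
          apply Subtype.ext
          exact congrArg (fun z : F.map q => (z : A ⧸ N)) h)
    have hcen : (Subgroup.center Q).FiniteIndex := inferInstance
    have h1 : (Subgroup.centralizer (Q : Set (A ⧸ N))).subgroupOf Q = Subgroup.center Q := by
      ext x
      rw [Subgroup.mem_subgroupOf, Subgroup.mem_centralizer_iff, Subgroup.mem_center_iff]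
      constructor
      · intro h g
        exact Subtype.ext (h g g.2)
      · intro h g hg
        exact congrArg Subtype.val (h ⟨g, hg⟩)
    rw [Subgroup.relIndex, h1]
    exact hcen.index_ne_zero
  · rw [Subgroup.commutator_le]
    rintro x ⟨hx1, hx2⟩ y ⟨hy1, hy2⟩
    rw [← hqN, map_commutatorElement, commutatorElement_eq_one_iff_mul_comm]
    have h1 := Subgroup.mem_centralizer_iff.1 (Subgroup.mem_comap.1 hx1) (q y)
      (Subgroup.mem_map_of_mem q hy2)
    exact h1.symm

theorem inf_ab {A : Type} [Group A] (hA : PC A) (M : Subgroup A) (hM : M.Normal)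
    (hinf : Infinite M) :
    ∃ M₀ : Subgroup A, M₀ ≤ M ∧ M₀.Normal ∧ M₀.relIndex M ≠ 0 ∧
      (⁅M₀, M₀⁆ : Subgroup A).relIndex M₀ = 0 := by
  by_contra hcon
  push Not at hcon
  set D : ℕ → Subgroup A := StableAuxD M with hD
  have hD0 : D 0 = M := rfl
  have hDs : ∀ n, D (n + 1) = ⁅D n, D n⁆ := fun n => rfl
  have key : ∀ n, D n ≤ M ∧ (D n).Normal ∧ (D n).relIndex M ≠ 0 := by
    intro n
    induction n with
    | zero =>
      rw [hD0]
      exact ⟨le_rfl, hM, by rw [Subgroup.relIndex_self]; exact one_ne_zero⟩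
    | succ n ih =>
      obtain ⟨h1, h2, h3⟩ := ih
      have h4 := hcon (D n) h1 h2 h3
      have h5 : D (n + 1) ≤ D n := by
        rw [hDs]
        exact Subgroup.commutator_le_left (D n) (D n)
      refine ⟨h5.trans h1, ?_, ?_⟩
      · rw [hDs]
        exact Subgroup.commutator_normal (D n) (D n)
      · rw [← Subgroup.relIndex_mul_relIndex _ _ _ h5 h1]
        exact mul_ne_zero (by rw [hDs]; exact h4) h3
  have hle : ∀ n, D n ≤ derivedSeries A n := by
    intro n
    induction n with
    | zero => exact le_top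
    | succ n ih =>
      rw [hDs, derivedSeries_succ]
      exact Subgroup.commutator_mono ih ih
  obtain ⟨n, hn⟩ := hA.1.solvable
  have h1 : D n = ⊥ := by
    rw [eq_bot_iff, ← hn]
    exact hle n
  have h2 := (key n).2.2
  rw [h1, Subgroup.relIndex_bot_left] at h2
  exact h2 (Nat.card_eq_zero_of_infinite)

end Pool.Agent.RPC
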