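import Pool.Agent.RPC.LemF
import Pool.Agent.RPC.Stable

/-! RPC/Step1 (helper22): P is f.g. over KR L₀ for L₀ normal of finite index. -/

set_option autoImplicit false

namespace Pool.Agent.RPC

theorem step1 {A P : Type} [Group A] [Group P] {φ : A →* MulAut P} {δ : A → P} (h : MC φ δ)
    (L₀ : Subgroup A) (hn : L₀.Normal) (hf : L₀.FiniteIndex) : FGO φ (KR L₀) := by
  by_contra hcon
  have h0 : FGO φ L₀ := by
    refine FGO_finite_index (N := ⊤) le_top ?_ (FGO_top h.pc.fg h.coc)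
    rw [Subgroup.relIndex_top_right]
    exact hf.index_ne_zero
  obtain ⟨d, ⟨L⟩⟩ := exists_lat h.pc L₀ (KR L₀) hn (KR_normal L₀ hn) (KR_le L₀) (KR_comm L₀)
    (fun x hx k hk hxk => KR_isol L₀ hx hk hxk)
  obtain ⟨θ, hθ0, ν, hnz, hν⟩ := bns L h0 hcon
  obtain ⟨n, hnN, hnpos⟩ := L.exists_pos hθ0
  refine lemF h (A₀ := L₀) (N := L₀) (ν := ν) (rho := fun _ => 1) (b := L.psi θ)
    ⟨hf, le_rfl, hn, hnz, fun a _ => one_pos, fun a ha p => ?_, fun a _ => rfl, L.psi_add θ,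
      ⟨n, hnN, hnpos.ne'⟩⟩
  rw [hν a ha p, Real.rpow_one, mul_comm]

end Pool.Agent.RPC
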