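import Pool.Agent.RPC.Step1
import Pool.Agent.RPC.LemI
import Pool.Agent.RPC.LD
import Pool.Agent.RPC.Hyp
import Pool.Agent.RPC.Avg
import Pool.Agent.RPC.FinCase

/-! RPC/Step2 (helper22): P is f.g. over KR N. -/

set_option autoImplicit false

open scoped commutatorElement

namespace Pool.Agent.RPC

theorem Lat.psi_smul {A : Type} [Group A] {N N₁ : Subgroup A} {d : ℕ} (L : Lat N N₁ d) (c : ℝ)
    (θ : Fin d → ℝ) (n : A) : L.psi (c • θ) n = c * L.psi θ n := by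
  simp [Lat.psi, dot, Finset.mul_sum, mul_assoc]

theorem step2 {A P : Type} [Group A] [Group P] {φ : A →* MulAut P} {δ : A → P} (h : MC φ δ)
    (L₀ N : Subgroup A) (hn : L₀.Normal) (hf : L₀.FiniteIndex) (hst : Stab L₀)
    (hNn : N.Normal) (hNle : N ≤ KR L₀) (hNf : N.relIndex (KR L₀) ≠ 0) : FGO φ (KR N) := by
  by_contra hcon
  have h0 : FGO φ N := FGO_finite_index hNle hNf (step1 h L₀ hn hf)
  obtain ⟨A₁, hA₁n, hNA₁, hA₁L, hA₁f, hA₁c⟩ := ab_quot h.pc L₀ (KR L₀) N hn (KR_normal L₀ hn)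
    hNn hNle (KR_le L₀) (KR_comm L₀) hNf
  have hA₁fin : A₁.FiniteIndex := by
    constructor
    have h1 := Subgroup.relIndex_mul_index hA₁L
    rw [← h1]
    exact mul_ne_zero hA₁f hf.index_ne_zero
  obtain ⟨d, ⟨L⟩⟩ := exists_lat h.pc N (KR N) hNn (KR_normal N hNn) (KR_le N) (KR_comm N)
    (fun x hx k hk hxk => KR_isol N hx hk hxk)
  have hS := bns L h0 hcon
  have hcomm : ∀ a ∈ A₁, ∀ b ∈ A₁, ∀ w, L.th (a * b) w = L.th (b * a) w := by
    intro a ha b hb w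
    have h1 : ⁅a, b⁆ ∈ N := hA₁c (Subgroup.commutator_mem_commutator ha hb)
    have h2 : a * b = ⁅a, b⁆ * (b * a) := by
      rw [commutatorElement_def]; group
    rw [h2, L.th_mul, L.th_N hNn h1]
  let T : A₁ → ((Fin d → ℝ) →ₗ[ℝ] (Fin d → ℝ)) := fun a =>
    { toFun := L.th (a : A)
      map_add' := L.th_add (a : A)
      map_smul' := fun c w => by simpa using L.th_smul (a : A) c w }
  have hTapp : ∀ (a : A₁) (w : Fin d → ℝ), T a w = L.th (a : A) w := fun a w => rfl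
  obtain ⟨θ, hθ, ρ, hρpos, hρmul, -, c₀, C₀, hc₀, hC₀, hlow⟩ := LD (Γ := A₁) T
    (by
      apply LinearMap.ext
      intro w
      rw [hTapp]
      simp [L.th_one])
    (by
      intro a b
      apply LinearMap.ext
      intro w
      rw [LinearMap.comp_apply, hTapp, hTapp, hTapp, ← L.th_mul, Subgroup.coe_mul]
      exact hcomm _ a.2 _ b.2 w)
    (by
      intro a b
      apply LinearMap.ext
      intro w
      rw [LinearMap.comp_apply, LinearMap.comp_apply, hTapp, hTapp, hTapp, hTapp, ← L.th_mul,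
        ← L.th_mul]
      exact hcomm _ b.2 _ a.2 w)
    (Sig φ L) hS (fun θ hθ => hθ.1) (fun θ hθ h0' => sig_closed L h0 θ hθ h0')
    (fun θ hθ c hc => sig_smul L θ hθ c hc)
    (fun a θ hθ => by rw [hTapp]; exact sig_act hNn L θ hθ a)
  classical
  have hg : Gro L θ A₁ (fun a => if ha : a ∈ A₁ then ρ ⟨a, ha⟩ else 1) c₀ C₀ := by
    refine ⟨hNn, hA₁n, hA₁fin, hNA₁, hA₁c, hθ.1, ?_, ?_, hc₀, hC₀, ?_, ?_⟩
    · intro y hy
      simp only [dif_pos hy]
      exact hρpos _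
    · intro a ha b hb
      simp only [dif_pos ha, dif_pos hb, dif_pos (A₁.mul_mem ha hb)]
      exact hρmul ⟨a, ha⟩ ⟨b, hb⟩
    · intro y hy
      simp only [dif_pos hy]
      exact (hlow ⟨y, hy⟩).1
    · intro y hy
      simp only [dif_pos hy]
      exact (hlow ⟨y, hy⟩).2
  by_cases hinf : ∀ n : ℕ, ∃ g : Fin n → A, (∀ i, g i ∈ A₁) ∧
      ∀ i j, i ≠ j → ¬ Par (L.th (g i) θ) (L.th (g j) θ)
  · exact lemI' h.pc h.coc (KR_le N) h0 hθ hg hinf
  · obtain ⟨A₂, hA₂f, hNA₂, hA₂A₁, lam, hlpos, hlmul, hlN, hlam⟩ := fin_case hg hinf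
    obtain ⟨n₀, hn₀, hn₀p⟩ := L.exists_pos hθ.1
    have hconj : ∀ a ∈ A₂, ∀ n ∈ N, L.psi θ (a * n * a⁻¹) = lam a * L.psi θ n := by
      intro a ha n hn
      rw [L.psi_conj θ a hn, hlam a ha, L.psi_smul]
    by_cases ht : ∃ t ∈ A₂, lam t ≠ 1
    · obtain ⟨t, ht, ht1⟩ := ht
      obtain ⟨ν, b, hnz, hb, haff⟩ := hyp_norm N A₂ hNn hNA₂
        ((Subgroup.commutator_mono hA₂A₁ hA₂A₁).trans hA₁c) (L.psi θ) lam (L.psi_add θ)
        hlpos hlmul hlN hconj t ht ht1 h0 hθ.2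
      refine lemF h (A₀ := A₂) (N := N) (ν := ν) (rho := lam) (b := b)
        ⟨hA₂f, hNA₂, hNn, hnz, hlpos, haff, hlN, ?_, ⟨n₀, hn₀, ?_⟩⟩
      · intro n hn m hm
        rw [hb _ (N.mul_mem hn hm), hb n hn, hb m hm]
        exact L.psi_add θ n hn m hm
      · rw [hb n₀ hn₀]
        exact hn₀p.ne'
    · push Not at ht
      have hNH : N ≤ A₂.normalCore := by
        rw [Subgroup.normal_le_normalCore]
        exact hNA₂
      have hHA₂ : A₂.normalCore ≤ A₂ := Subgroup.normalCore_le A₂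
      obtain ⟨χ, hχ, hχN⟩ := avg (φ := φ) N A₂.normalCore hNn hNH (h.pc.sub _).1 (L.psi θ)
        (L.psi_add θ) (fun x hx n hn => by
          rw [hconj x (hHA₂ hx) n hn, ht x (hHA₂ hx), one_mul]) h0 hθ.2
      have hHfin : A₂.normalCore.FiniteIndex := inferInstance
      have hHL : A₂.normalCore ≤ L₀ := hHA₂.trans (hA₂A₁.trans hA₁L)
      have hKR := hst A₂.normalCore inferInstance hHL (by
        have h1 := Subgroup.relIndex_mul_index hHL
        intro h2
        rw [h2, zero_mul] at h1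
        exact hHfin.index_ne_zero h1.symm)
      have hmem : n₀ ∈ KR A₂.normalCore := by
        rw [hKR]
        exact ⟨hNle hn₀, hNH hn₀⟩
      have h3 := KR_apply hχ hmem
      rw [hχN n₀ hn₀] at h3
      exact hn₀p.ne' h3

end Pool.Agent.RPC
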