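import Pool.Agent.RPC.Step2
import Pool.Agent.RPC.MI
import Pool.Agent.RPC.Irr

/-! RPC/Step3 (helper22): no minimal configuration. -/

set_option autoImplicit false

open scoped commutatorElement

namespace Pool.Agent.RPC

/-- rational matrices of the conjugation action -/
def Lat.MQ {A : Type} [Group A] {N N₁ : Subgroup A} {d : ℕ} (L : Lat N N₁ d) :
    A →* Matrix (Fin d) (Fin d) ℚ where
  toFun a := (L.M a).map (fun z : ℤ => (z : ℚ))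
  map_one' := by
    rw [L.M_one]
    ext i j
    simp [Matrix.one_apply]
  map_mul' a b := by
    rw [L.M_mul]
    ext i j
    simp [Matrix.mul_apply]

theorem Lat.MQ_inj {A : Type} [Group A] {N N₁ : Subgroup A} {d : ℕ} (L : Lat N N₁ d) {a b : A}
    (h : L.MQ a = L.MQ b) : L.M a = L.M b := by
  ext i j
  have := congrFun (congrFun h i) j
  simpa [Lat.MQ] using this

theorem relIndex_zero_of_iso {A : Type} [Group A] {M₀ M₁ : Subgroup A}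
    (hle : M₁ ≤ M₀) (hne : M₁ ≠ M₀)
    (hiso : ∀ x ∈ M₀, ∀ k : ℕ, 0 < k → x ^ k ∈ M₁ → x ∈ M₁) : M₁.relIndex M₀ = 0 := by
  by_contra h0
  apply hne
  apply le_antisymm hle
  intro x hx
  have h1 : ∃ k : ℕ, 0 < k ∧ x ^ k ∈ M₁ := by
    have hfi : (M₁.subgroupOf M₀).FiniteIndex := ⟨h0⟩
    obtain ⟨k, hk, hxk⟩ := Subgroup.exists_pow_mem_of_index_ne_zero (H := M₁.subgroupOf M₀) h0
      ⟨x, hx⟩
    refine ⟨k, hk, ?_⟩
    have := hxk.2
    rw [Subgroup.mem_subgroupOf] at this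
    simpa using this
  obtain ⟨k, hk, hxk⟩ := h1
  exact hiso x hx k hk hxk

/-- Step 3: no minimal configuration -/
theorem no_MC (A P : Type) [Group A] [Group P] (φ : A →* MulAut P) (δ : A → P) :
    ¬ MC φ δ := by
  intro h
  obtain ⟨L₀, -, hL₀n, hL₀f', hst⟩ := exists_stable h.pc ⊤ inferInstance
  have hL₀f : L₀.FiniteIndex := by
    constructor
    rwa [Subgroup.relIndex_top_right] at hL₀f'
  obtain ⟨N, hNle, hNn, hNf, hNst⟩ := exists_stable h.pc (KR L₀) (KR_normal L₀ hL₀n)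
  have h2 : FGO φ (KR N) := step2 h L₀ N hL₀n hL₀f hst hNn hNle hNf
  -- minimal M
  obtain ⟨M, ⟨hMn, hMle, hMF⟩, hMmin⟩ := (wf_inf h.pc).has_min
    {M : Subgroup A | M.Normal ∧ M ≤ KR N ∧ FGO φ M} ⟨KR N, KR_normal N hNn, le_rfl, h2⟩
  have hMinf : Infinite M := by
    rw [← not_finite_iff_infinite]
    intro hfin
    exact h.nfg (FGO_finite hfin hMF)
  obtain ⟨M₀, hM₀M, hM₀n, hM₀f, hM₀ab⟩ := inf_ab h.pc M hMn hMinf
  have hM₀F : FGO φ M₀ := FGO_finite_index hM₀M hM₀f hMF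
  have hKRne : KR M₀ ≠ M₀ := by
    intro heq
    have h3 := KR_ne h.pc M₀ hM₀ab
    rw [heq, Subgroup.relIndex_self] at h3
    exact one_ne_zero h3
  -- maximal isolated M₁
  obtain ⟨M₁, ⟨hM₁n, hM₁le, hM₁c, hM₁iso, hM₁ne⟩, hM₁max⟩ := h.pc.exists_max
    {X : Subgroup A | X.Normal ∧ X ≤ M₀ ∧ ⁅M₀, M₀⁆ ≤ X ∧
      (∀ x ∈ M₀, ∀ k : ℕ, 0 < k → x ^ k ∈ X → x ∈ X) ∧ X ≠ M₀}
    ⟨KR M₀, KR_normal M₀ hM₀n, KR_le M₀, KR_comm M₀,
      fun x hx k hk hxk => KR_isol M₀ hx hk hxk, hKRne⟩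
  have hM₁F : ¬ FGO φ M₁ := by
    intro hF
    refine hMmin M₁ ⟨hM₁n, hM₁le.trans (hM₀M.trans hMle), hF⟩ ⟨hM₁le.trans hM₀M, ?_⟩
    have h3 := relIndex_zero_of_iso hM₁le hM₁ne hM₁iso
    rw [← Subgroup.relIndex_mul_relIndex M₁ M₀ M hM₁le hM₀M, h3, zero_mul]
  obtain ⟨d, ⟨L⟩⟩ := exists_lat h.pc M₀ M₁ hM₀n hM₁n hM₁le hM₁c hM₁iso
  obtain ⟨θ, hθ⟩ := bns L hM₀F hM₁F
  obtain ⟨n₀, hn₀, hn₀p⟩ := L.exists_pos hθ.1
  -- Malcev
  obtain ⟨A₃, hA₃n, hA₃f, hA₃c⟩ := MI h.pc L.MQ (by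
    intro U hU
    refine irr_of_max L hM₀n hM₁le hM₁c (fun X hX h3 h4 h5 h6 => ?_) U (fun a v hv => hU a v hv)
    exact hM₁max X ⟨hX, h4, hM₁c.trans h3, h6, h5⟩ h3)
  -- the centraliser
  let C : Subgroup A := L.MQ.ker
  have hCn : C.Normal := inferInstance
  have hCmem : ∀ a, a ∈ C → L.M a = 1 := by
    intro a ha
    have h3 : L.MQ a = L.MQ 1 := by
      rw [map_one]; exact MonoidHom.mem_ker.mp ha
    rw [L.MQ_inj h3, L.M_one]
  have hA₃C : ⁅A₃, A₃⁆ ≤ C := by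
    rw [Subgroup.commutator_le]
    intro a ha b hb
    rw [MonoidHom.mem_ker, commutatorElement_def]
    have h3 := hA₃c a ha b hb
    have h4 : L.MQ (a * b * a⁻¹ * b⁻¹) = (L.MQ a * L.MQ b) * (L.MQ a⁻¹ * L.MQ b⁻¹) := by
      simp [map_mul, mul_assoc]
    rw [h4, h3]
    have h5 : b * a * (a⁻¹ * b⁻¹) = 1 := by group
    rw [← map_mul, ← map_mul, ← map_mul, h5, map_one]
  -- A₃ ⊓ L₀
  set A₄ : Subgroup A := A₃ ⊓ L₀ with hA₄
  have hA₄n : A₄.Normal := inferInstance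
  have hA₄f : A₄.FiniteIndex := inferInstance
  have hA₄L : A₄ ≤ L₀ := inf_le_right
  have hA₄rel : A₄.relIndex L₀ ≠ 0 := by
    have h1 := Subgroup.relIndex_mul_index hA₄L
    intro h2
    rw [h2, zero_mul] at h1
    exact hA₄f.index_ne_zero h1.symm
  have hKR4 : KR A₄ = KR L₀ ⊓ A₄ := hst A₄ hA₄n hA₄L hA₄rel
  have hC4 : ⁅A₄, A₄⁆ ≤ C := (Subgroup.commutator_mono inf_le_left inf_le_left).trans hA₃C
  have hCfin : C.relIndex (KR L₀) ≠ 0 := by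
    have h5 : (⁅A₄, A₄⁆ : Subgroup A).relIndex (KR A₄) ≠ 0 := KR_fin h.pc A₄
    have h6 : (KR A₄).relIndex (KR L₀) ≠ 0 := by
      rw [hKR4, Subgroup.inf_relIndex_left]
      intro h9
      have h10 := Subgroup.relIndex_dvd_index_of_normal A₄ (KR L₀)
      rw [h9] at h10
      exact hA₄f.index_ne_zero (Nat.eq_zero_of_zero_dvd h10)
    have h7 : (⁅A₄, A₄⁆ : Subgroup A).relIndex (KR L₀) ≠ 0 := by
      rw [← Subgroup.relIndex_mul_relIndex _ (KR A₄) (KR L₀) (KR_comm A₄)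
        (by rw [hKR4]; exact inf_le_left)]
      exact mul_ne_zero h5 h6
    exact fun h8 => h7 (Subgroup.relIndex_eq_zero_of_le_left hC4 h8)
  -- H
  have hHn : (N ⊓ C).Normal := inferInstance
  have hHfin : (N ⊓ C).relIndex N ≠ 0 := by
    rw [Subgroup.inf_relIndex_left]
    intro h8
    exact hCfin (Subgroup.relIndex_eq_zero_of_le_right hNle h8)
  have hM₀N : M₀ ≤ KR N := hM₀M.trans hMle
  have hM₀H : M₀ ≤ N ⊓ C := by
    intro x hx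
    refine ⟨KR_le N (hM₀N hx), ?_⟩
    change x ∈ L.MQ.ker
    rw [MonoidHom.mem_ker]
    have h9 : L.M x = 1 := L.M_N hM₀n hx
    change (L.M x).map (fun z : ℤ => (z : ℚ)) = 1
    rw [h9]
    ext i j
    simp [Matrix.one_apply]
  have hinv : ∀ x ∈ N ⊓ C, ∀ n ∈ M₀, L.psi θ (x * n * x⁻¹) = L.psi θ n := by
    intro x hx n hn
    rw [L.psi_conj θ x hn]
    have h9 : L.M x = 1 := hCmem x hx.2
    have h10 : L.th x θ = θ := by
      have h11 := L.th_one θ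
      unfold Lat.th at h11 ⊢
      rw [h9, ← L.M_one]
      exact h11
    rw [h10]
  obtain ⟨χ, hχ, hχN⟩ := avg (φ := φ) M₀ (N ⊓ C) hM₀n hM₀H (h.pc.sub _).1 (L.psi θ)
    (L.psi_add θ) hinv hM₀F hθ.2
  have hKR := hNst (N ⊓ C) hHn inf_le_left hHfin
  have hmem : n₀ ∈ KR (N ⊓ C) := by
    rw [hKR]
    exact ⟨hM₀N hn₀, hM₀H hn₀⟩
  have h3 := KR_apply hχ hmem
  rw [hχN n₀ hn₀] at h3
  exact hn₀p.ne' h3

end Pool.Agent.RPC
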